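import Mathlib

/-!
Definitions for the presentation of the stabiliser of the boundary word: tree geometry of the free
group, chord diagrams and slides, graph subgroups, raw words.
-/

set_option autoImplicit false

namespace Pool.Agent.MB

/-- Raw words. -/
abbrev RW : Type := List (ℕ × Bool)

/-- A substitution with its inverse. -/
abbrev SA : Type := List RW × List RW

/-- Equal up to inverse. -/
def Pm {G : Type} [Group G] (x y : G) : Prop := x = y ∨ x = y⁻¹

/-- `u` is followed by `v`. -/
def Adj {β : Type} (D : List β) (u v : β) : Prop := ∃ l1 l2, D = l1 ++ u :: v :: l2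

/-- `D'` has the members of `D` with `x, x⁻¹` replaced by `e, e⁻¹`. -/
def Rep {G : Type} [Group G] (D : List G) (x e : G) (D' : List G) : Prop :=
  ∀ w, w ∈ D' ↔ (w ∈ D ∧ w ≠ x ∧ w ≠ x⁻¹) ∨ w = e ∨ w = e⁻¹

/-- The members of `D` and the third side of the corner `a, b`. -/
def Dp {G : Type} [Group G] (D : List G) (a b x : G) : Prop := x ∈ D ∨ Pm x (a * b)

open Classical in
/-- The slide at the corner `a, b` that replaces `a` by `a * b`. -/
noncomputable def slide {G : Type} [Group G] (D : List G) (a b : G) : List G :=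
  D.flatMap fun w =>
    if w = a then [a * b] else if w = b then [] else if w = a⁻¹ then [b, (a * b)⁻¹] else [w]

/-- A subgroup of a product that is the graph of a function. -/
def Func {G A : Type} [Group G] [Group A] (Γ : Subgroup (G × A)) : Prop :=
  ∀ s : A, ((1 : G), s) ∈ Γ → s = 1

/-- The first projection of `Γ` contains all elements with the property `Q`. -/
def Onto {G A : Type} [Group G] [Group A] (Γ : Subgroup (G × A)) (Q : G → Prop) : Prop :=
  ∀ φ, Q φ → ∃ s, (φ, s) ∈ Γ

/-- A union of double cosets. -/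
def RR {P : Type} [Group P] (Γ : Subgroup P) (Ty : Set P) : Set P :=
  {p | ∃ k ∈ Γ, ∃ t ∈ Ty, ∃ k' ∈ Γ, p = k * t * k'}

/-- The value of a raw word. -/
def gw {G : Type} [Group G] (T : ℕ → G) (w : RW) : G := FreeGroup.lift T (FreeGroup.mk w)

section Letters

variable {α : Type}

/-- The inverse letter. -/
def bar (l : α × Bool) : α × Bool := (l.1, !l.2)

/-- A signed letter as a group element. -/
def lt (l : α × Bool) : FreeGroup α := FreeGroup.mk [l]

/-- Every signed letter occurs exactly once. -/
def Full (W : List (α × Bool)) : Prop := W.Nodup ∧ ∀ l, l ∈ W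

/-- The free factor of the letters outside `S`. -/
def Fr (S : Set α) : Subgroup (FreeGroup α) := Subgroup.closure (FreeGroup.of '' Sᶜ)

/-- `r` lies in no proper free factor. -/
def Ess (r : FreeGroup α) : Prop := ∀ (θ : MulAut (FreeGroup α)) (x : α), θ r ∉ Fr {x}

/-- The loop dual to the letter `l` of the word `W`. -/
def del [DecidableEq α] (W : List (α × Bool)) (l : α × Bool) : List (α × Bool) :=
  W.takeWhile (fun u => u ≠ l) ++ l :: FreeGroup.invRev (W.takeWhile fun u => u ≠ bar l)

/-- A pattern letter read through the naming `L`. -/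
def inst (L : ℕ → α × Bool) (p : ℕ × Bool) : α × Bool := if p.2 then L p.1 else bar (L p.1)

/-- `U'` arises from `U` by an automorphism that fixes the marked letters and the letters that do
not occur; consecutive marked letters stay consecutive. -/
def Eq0 (M : α → Prop) (U U' : List (α × Bool)) : Prop :=
  U'.Perm U ∧ (∃ ψ : MulAut (FreeGroup α),
    (∀ x, (M x ∨ ∀ s, (x, s) ∉ U) → ψ (FreeGroup.of x) = FreeGroup.of x) ∧
    ψ (FreeGroup.mk U) = FreeGroup.mk U') ∧
  ∀ u v, M u.1 → M v.1 → Adj U u v → Adj U' u v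

/-- The data of a base diagram. -/
structure Ctx (α : Type) : Type where
  W : List (α × Bool)
  ρ : α × Bool → ℕ
  full : Full W
  ess : Ess (FreeGroup.mk W)
  ch : ∀ u v, Adj W u v → ρ v < ρ (bar u)

/-- The boundary word. -/
def Ctx.r (c : Ctx α) : FreeGroup α := FreeGroup.mk c.W

/-- The base diagram. -/
def Ctx.D0 (c : Ctx α) : List (FreeGroup α) := c.W.map lt

/-- Diagrams. -/
def IsD (c : Ctx α) (D : List (FreeGroup α)) : Prop :=
  ∃ (θ : MulAut (FreeGroup α)) (W : List (α × Bool)),
    Full W ∧ D = W.map (fun l => θ (lt l)) ∧ D.prod = c.r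

/-- One slide. -/
def Mv (c : Ctx α) (D D' : List (FreeGroup α)) : Prop :=
  IsD c D ∧ IsD c D' ∧ ∃ a b, Adj D a b ∧ (Rep D a (a * b) D' ∨ Rep D b (a * b) D')

/-- Three arcs are the vertices of a flat triangle. -/
def Good {A : Type} [Group A] (c : Ctx α) (a0 : FreeGroup α)
    (R : Set (MulAut (FreeGroup α) × A)) (x y z : FreeGroup α) : Prop :=
  ∃ p q s : MulAut (FreeGroup α) × A, p.1 c.r = c.r ∧ q.1 c.r = c.r ∧ s.1 c.r = c.r ∧
    p⁻¹ * q ∈ R ∧ q⁻¹ * s ∈ R ∧ p⁻¹ * s ∈ R ∧ Pm x (p.1 a0) ∧ Pm y (q.1 a0) ∧ Pm z (s.1 a0)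

/-- A property of all triples of arcs at a corner of a diagram. -/
def All3 (c : Ctx α) (Q : FreeGroup α → FreeGroup α → FreeGroup α → Prop) : Prop :=
  ∀ D a b, IsD c D → Adj D a b → ∀ x y z, Dp D a b x → Dp D a b y → Dp D a b z → Q x y z

end Letters

section Tree

variable {α : Type} [DecidableEq α]

/-- The direction from `c` to `p`. -/
def dir (c p : FreeGroup α) : Option (α × Bool) := (c⁻¹ * p).toWord.head?

/-- The rank of a direction. -/
def rk (ρ : α × Bool → ℕ) : Option (α × Bool) → ℕ
  | none => 0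
  | some l => ρ l + 1

/-- Cyclically increasing. -/
def pos3 (a b c : ℕ) : Prop := (a < b ∧ b < c) ∨ (b < c ∧ c < a) ∨ (c < a ∧ a < b)

/-- The left invariant cyclic order. -/
def Cyc (ρ : α × Bool → ℕ) (u v w : FreeGroup α) : Prop :=
  ∃ c, pos3 (rk ρ (dir c u)) (rk ρ (dir c v)) (rk ρ (dir c w))

/-- The cyclic order cut at `1`. -/
def Lo (ρ : α × Bool → ℕ) (u v : FreeGroup α) : Prop := (u = 1 ∧ v ≠ 1) ∨ Cyc ρ 1 u v

/-- The arc `y` crosses the arc `a`. -/
def Cr (ρ : α × Bool → ℕ) (a y : FreeGroup α) : Prop :=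
  ¬ Pm y a ∧ ¬ ((Lo ρ a y ↔ Lo ρ a⁻¹ y) ↔ (Lo ρ a y⁻¹ ↔ Lo ρ a⁻¹ y⁻¹))

/-- `c` lies on the geodesic from `p` to `q`. -/
def Bt (p c q : FreeGroup α) : Prop := (p⁻¹ * q).toWord = (p⁻¹ * c).toWord ++ (c⁻¹ * q).toWord

variable [Fintype α]

/-- The shortlex value of a word. -/
noncomputable def sl (w : List (α × Bool)) : ℕ :=
  w.foldl (fun n l => n * (Fintype.card (α × Bool) + 2) + (Fintype.equivFin (α × Bool) l : ℕ)) 1

/-- The shortlex value of an element. -/
noncomputable def sv (w : FreeGroup α) : ℕ := sl w.toWord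

/-- `r` is nearer to `p` than `q` is. -/
def Hh (p r q : FreeGroup α) : Prop := sv (r⁻¹ * p) < sv (q⁻¹ * p)

/-- `p q` is the largest side of the triangle `p q r`. -/
def Mx (p q r : FreeGroup α) : Prop := Hh p r q ∧ Hh q r p

/-- The size of an arc. -/
noncomputable def NN (w : FreeGroup α) : ℕ := sv w + sv w⁻¹

/-- The height of a diagram. -/
noncomputable def mu (D : List (FreeGroup α)) : ℕ := (D.map fun w => 3 ^ NN w).sum

/-- A slide that removes the largest side of its triangle. -/
def Red (c : Ctx α) (D D' : List (FreeGroup α)) : Prop :=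
  IsD c D ∧ IsD c D' ∧ ∃ a b, Adj D a b ∧
    ((Mx 1 a (a * b) ∧ Rep D a (a * b) D') ∨ (Mx a (a * b) 1 ∧ Rep D b (a * b) D'))

/-- A path of slides below the height `n` that keeps `z`. -/
def Low (c : Ctx α) (n : ℕ) (z : FreeGroup α) : List (FreeGroup α) → List (FreeGroup α) → Prop :=
  Relation.ReflTransGen fun E E' => Mv c E E' ∧ z ∈ E ∧ z ∈ E' ∧ mu E < n ∧ mu E' < n

end Tree

section Raw

/-- The blocks `z B z⁻¹`. -/
def patB (k : ℕ) : List RW → RW
  | [] => []
  | B :: Bs => patB k Bs ++ ((k + Bs.length, true) :: B ++ [(k + Bs.length, false)])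

/-- The commutators. -/
def patC (j : ℕ) : ℕ → RW
  | 0 => []
  | h + 1 => patC j h ++ [(j + 2 * h, true), (j + 2 * h + 1, true), (j + 2 * h, false),
      (j + 2 * h + 1, false)]

/-- The normal form. -/
def pat (k : ℕ) (p0 : RW) (Bs : List RW) (h : ℕ) : RW :=
  p0 ++ patB k Bs ++ patC (k + Bs.length) h

/-- The signed letters below `k`. -/
def sgn (k : ℕ) : RW := (List.range k).flatMap fun i => [(i, true), (i, false)]

/-- The letter `i`, or `1`. -/
def io (n i : ℕ) : FreeGroup (Fin n) := if h : i < n then FreeGroup.of ⟨i, h⟩ else 1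

/-- A raw word in the free group of rank `n`. -/
def ev (n : ℕ) (w : RW) : FreeGroup (Fin n) := gw (io n) w

/-- A raw word as a word in `Fin n`. -/
def fw (n : ℕ) (w : RW) : List (Fin n × Bool) :=
  w.filterMap fun l => if h : l.1 < n then some (⟨l.1, h⟩, l.2) else none

/-- Inverse of a raw word. -/
def iv (w : RW) : RW := w.foldl (fun acc l => (l.1, !l.2) :: acc) []

/-- Substitution. -/
def sub (s : List RW) (w : RW) : RW :=
  w.flatMap fun l => cond l.2 (s.getD l.1 [(l.1, true)]) (iv (s.getD l.1 [(l.1, true)]))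

/-- One step of free reduction. -/
def rd1 (l : ℕ × Bool) : RW → RW
  | [] => [l]
  | u :: t => cond (Nat.beq l.1 u.1 && xor l.2 u.2) t (l :: u :: t)

/-- Free reduction. -/
def rd (w : RW) : RW := w.foldr rd1 []

/-- Equality of raw words. -/
def eqW : RW → RW → Bool
  | [], [] => true
  | l :: t, u :: v => Nat.beq l.1 u.1 && !(xor l.2 u.2) && eqW t v
  | _, _ => false

/-- Equality in the free group. -/
def eqF (u v : RW) : Bool := eqW (rd u) (rd v)

/-- All letters are below `n`. -/
def bd (n : ℕ) (w : RW) : Bool := w.all fun l => Nat.blt l.1 n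

/-- The endomorphism of a substitution. -/
def en (n : ℕ) (s : List RW) : FreeGroup (Fin n) →* FreeGroup (Fin n) :=
  FreeGroup.lift fun i => ev n (s.getD i [(i, true)])

/-- The two substitutions are inverse to each other. -/
def okS (n : ℕ) (p : SA) : Bool :=
  Nat.ble p.1.length n && Nat.ble p.2.length n && p.1.all (bd n) && p.2.all (bd n) &&
  (List.range n).all fun i =>
    eqF (sub p.1 (sub p.2 [(i, true)])) [(i, true)] && eqF (sub p.2 (sub p.1 [(i, true)])) [(i, true)]

open Classical in
/-- The automorphism of a substitution. -/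
noncomputable def aut (n : ℕ) (p : SA) : MulAut (FreeGroup (Fin n)) :=
  if h : (en n p.2).comp (en n p.1) = MonoidHom.id _ ∧ (en n p.1).comp (en n p.2) = MonoidHom.id _
  then MonoidHom.toMulEquiv (en n p.1) (en n p.2) h.1 h.2 else 1

/-- A word in the generators `Tl` applied to a word. -/
def act (Tl : List SA) (w u : RW) : RW :=
  w.foldr (fun l v => rd (sub (cond l.2 (Tl.getD l.1 ([], [])).1 (Tl.getD l.1 ([], [])).2) v)) u

/-- The word acts trivially. -/
def triv (n : ℕ) (Tl : List SA) (w : RW) : Bool :=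
  (List.range n).all fun i => eqF (act Tl w [(i, true)]) [(i, true)]

/-- The generators with their values. -/
noncomputable def TT {A : Type} (n : ℕ) (Tl : List SA) (τ : ℕ → A) (i : ℕ) :
    MulAut (FreeGroup (Fin n)) × A := (aut n (Tl.getD i ([], [])), τ i)

/-- The subgroup generated by the first `m` generators with their values. -/
noncomputable def Gr {A : Type} [Group A] (n : ℕ) (Tl : List SA) (τ : ℕ → A) (m : ℕ) :
    Subgroup (MulAut (FreeGroup (Fin n)) × A) := Subgroup.closure (TT n Tl τ '' {i | i < m})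

/-- Every signed letter below `n` occurs exactly once, and no other. -/
def fullR (n : ℕ) (W : RW) : Bool := decide (W.Perm (sgn n))

/-- The next larger side. -/
def nx : RW → ℕ × Bool → Option (ℕ × Bool)
  | u :: v :: t, l => if v = l then some (bar u) else nx (v :: t) l
  | _, _ => none

/-- The larger sides. -/
def up (V : RW) : ℕ → ℕ × Bool → RW
  | 0, _ => []
  | k + 1, l => match nx V l with
    | none => []
    | some u => u :: up V k u

/-- The order of the sides read from the word. -/
def ltV (V : RW) (l u : ℕ × Bool) : Bool := decide (u ∈ up V V.length l)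

/-- The chord patterns. -/
def pats (k : ℕ) : List RW :=
  if k = 2 then
    [[(0,true),(0,false),(1,true),(1,false)], [(0,true),(1,true),(0,false),(1,false)],
     [(0,true),(1,true),(1,false),(0,false)]]
  else
    [[(0,true),(0,false),(1,true),(1,false),(2,true),(2,false)],
     [(0,true),(0,false),(1,true),(2,true),(1,false),(2,false)],
     [(0,true),(0,false),(1,true),(2,true),(2,false),(1,false)],
     [(0,true),(1,true),(0,false),(1,false),(2,true),(2,false)],
     [(0,true),(1,true),(0,false),(2,true),(1,false),(2,false)],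
     [(0,true),(1,true),(0,false),(2,true),(2,false),(1,false)],
     [(0,true),(1,true),(1,false),(0,false),(2,true),(2,false)],
     [(0,true),(1,true),(1,false),(2,true),(0,false),(2,false)],
     [(0,true),(1,true),(1,false),(2,true),(2,false),(0,false)],
     [(0,true),(1,true),(2,true),(0,false),(1,false),(2,false)],
     [(0,true),(1,true),(2,true),(0,false),(2,false),(1,false)],
     [(0,true),(1,true),(2,true),(1,false),(0,false),(2,false)],
     [(0,true),(1,true),(2,true),(1,false),(2,false),(0,false)],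
     [(0,true),(1,true),(2,true),(2,false),(0,false),(1,false)],
     [(0,true),(1,true),(2,true),(2,false),(1,false),(0,false)]]

/-- All ways to cut a word into a first block and non-empty blocks. -/
def splits : RW → List (RW × List RW)
  | [] => [([], [])]
  | l :: t => (splits t).flatMap fun q => [(l :: q.1, q.2), ([], (l :: q.1) :: q.2)]

/-- The normal forms with `k` marked letters among `n` letters. -/
def raws (k n : ℕ) : List RW :=
  ((pats k).flatMap fun P => (splits P).filterMap fun q =>
    if k + q.2.length ≤ n ∧ (n - (k + q.2.length)) % 2 = 0 then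
      some (pat k q.1 q.2 ((n - (k + q.2.length)) / 2)) else none).filter
    fun V => !(V.any fun l => ltV V l l)

/-- `u` is a member of `Z` up to inverse. -/
def hitW (Z : List RW) (u : RW) : Bool := Z.any fun z => eqF u z || eqF u (iv z)

/-- Test of a list against a list of certificates. -/
def all2 {β γ : Type} (f : β → γ → Bool) : List β → List γ → Bool
  | [], _ => true
  | _ :: _, [] => false
  | b :: l, e :: es => f b e && all2 f l es

/-- The certificate of a normal form with three marked letters. -/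
def ok3 (n : ℕ) (W : RW) (Fam : List (List RW)) (V : RW) (s : SA) : Bool :=
  okS n s && eqF (sub s.1 V) W && Fam.any fun Z =>
    hitW Z (sub s.1 [(0, true)]) && hitW Z (sub s.1 [(1, true)]) && hitW Z (sub s.1 [(2, true)])

/-- The certificate of a normal form with two marked letters. -/
def ok2 (n : ℕ) (W : RW) (Fam : List (List RW)) (V : RW) (s : SA) : Bool :=
  okS n s && eqF (sub s.1 V) W &&
  (Fam.any fun Z => hitW Z (sub s.1 [(0, true)]) && hitW Z (sub s.1 [(1, true)])) &&
  (V.zip V.tail).all fun q => !(Nat.blt q.1.1 2 && Nat.blt q.2.1 2) || Fam.any fun Z =>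
    hitW Z (sub s.1 [q.1]) && hitW Z (sub s.1 [q.2]) && hitW Z (sub s.1 [q.1, q.2])

/-- Three arcs are moved to one of the listed families. -/
def Hit {n : ℕ} (c : Ctx (Fin n)) (Fam : List (List RW)) (x y z : FreeGroup (Fin n)) : Prop :=
  ∃ ψ : MulAut (FreeGroup (Fin n)), ψ c.r = c.r ∧ ∃ Z ∈ Fam,
    (∃ u ∈ Z, Pm (ψ x) (ev n u)) ∧ (∃ u ∈ Z, Pm (ψ y) (ev n u)) ∧ ∃ u ∈ Z, Pm (ψ z) (ev n u)

/-- The new handle. -/
def hd (n : ℕ) : RW := [(n, true), (n + 1, true), (n, false), (n + 1, false)]

/-- The inclusion of free groups. -/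
def inc (n : ℕ) : FreeGroup (Fin n) →* FreeGroup (Fin (n + 2)) := FreeGroup.map (Fin.castAdd 2)

/-- Extension of an endomorphism by the identity on the new letters. -/
def exE (n : ℕ) (f : FreeGroup (Fin n) →* FreeGroup (Fin n)) :
    FreeGroup (Fin (n + 2)) →* FreeGroup (Fin (n + 2)) :=
  FreeGroup.lift fun i => if h : (i : ℕ) < n then inc n (f (FreeGroup.of ⟨i, h⟩)) else FreeGroup.of i

theorem exE_inc (n : ℕ) (f : FreeGroup (Fin n) →* FreeGroup (Fin n)) (y : FreeGroup (Fin n)) :
    exE n f (inc n y) = inc n (f y) := by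
  have : (exE n f).comp (inc n) = (inc n).comp f := by
    ext i
    simp [exE, inc]
  exact DFunLike.congr_fun this y

theorem exE_comp (n : ℕ) (f g : FreeGroup (Fin n) →* FreeGroup (Fin n)) :
    (exE n f).comp (exE n g) = exE n (f.comp g) := by
  ext i
  by_cases h : (i : ℕ) < n
  · have e : ∀ u, exE n u (FreeGroup.of i) = inc n (u (FreeGroup.of ⟨i, h⟩)) := fun u => by
      simp [exE, h]
    rw [MonoidHom.comp_apply, e, e, exE_inc, MonoidHom.comp_apply]
  · simp [exE, h]

theorem exE_id (n : ℕ) : exE n (MonoidHom.id _) = MonoidHom.id _ := by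
  ext i
  by_cases h : (i : ℕ) < n
  · simp only [exE, FreeGroup.lift_apply_of, dif_pos h, MonoidHom.id_apply, inc, FreeGroup.map.of]
    rfl
  · simp [exE, h]

/-- Extension of an automorphism by the identity on the new letters. -/
def exA (n : ℕ) : MulAut (FreeGroup (Fin n)) →* MulAut (FreeGroup (Fin (n + 2))) :=
  MonoidHom.mk' (fun φ => MonoidHom.toMulEquiv (exE n φ) (exE n φ.symm)
    (by rw [exE_comp, ← exE_id]; congr 1; ext; simp)
    (by rw [exE_comp, ← exE_id]; congr 1; ext; simp))
    fun φ ψ => by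
      apply MulEquiv.toMonoidHom_injective
      exact (exE_comp n φ ψ).symm

theorem exA_apply (n : ℕ) (φ : MulAut (FreeGroup (Fin n))) (y : FreeGroup (Fin (n + 2))) :
    exA n φ y = exE n φ y := rfl

/-- Extension of pairs. -/
def exP (n : ℕ) (A : Type) [Group A] :
    MulAut (FreeGroup (Fin n)) × A →* MulAut (FreeGroup (Fin (n + 2))) × A :=
  (exA n).prodMap (MonoidHom.id A)

/-- The endomorphism that kills the letter `n`. -/
def kil (n : ℕ) : FreeGroup (Fin (n + 2)) →* FreeGroup (Fin (n + 2)) :=
  FreeGroup.lift fun i => if (i : ℕ) = n then 1 else FreeGroup.of i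

/-- The generators present the stabiliser of `W`; all but the last generate the stabiliser of
the letter `a`. -/
def Lv {A : Type} [Group A] (n : ℕ) (W : RW) (Tl : List SA) (a : ℕ) (τ : ℕ → A) : Prop :=
  (∀ p ∈ Gr n Tl τ Tl.length, p.1 (ev n W) = ev n W) ∧ Func (Gr n Tl τ Tl.length) ∧
  Onto (Gr n Tl τ Tl.length) (fun φ => φ (ev n W) = ev n W) ∧
  Onto (Gr n Tl τ (Tl.length - 1)) fun φ => φ (ev n W) = ev n W ∧ φ (io n a) = io n a

end Raw

end Pool.Agent.MB
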