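import Pool.Agent.Lib.MP_c86c76_al.B.St

/-!
The stabiliser of the new letters.
-/

set_option autoImplicit false

namespace Pool.Agent.MB

open FreeGroup hiding map_mul map_inv map_one

/-- The retraction that kills the new letters. -/
def abRet (n : ℕ) : FreeGroup (Fin (n + 2)) →* FreeGroup (Fin n) := FreeGroup.lift fun i => io n i

theorem ab_io {n i : ℕ} (h : i < n) : io n i = of ⟨i, h⟩ := dif_pos h

theorem ab_ret_inc (n : ℕ) (y : FreeGroup (Fin n)) : abRet n (inc n y) = y := by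
  have : (abRet n).comp (inc n) = MonoidHom.id _ := by
    ext i
    simp [abRet, inc, io]
  exact DFunLike.congr_fun this y

theorem ab_ret_io {n i : ℕ} (h : n ≤ i) : abRet n (io (n + 2) i) = 1 := by
  by_cases h1 : i < n + 2
  · rw [ab_io h1, abRet, lift_apply_of]
    exact dif_neg h.not_gt
  · rw [io, dif_neg h1, map_one]

theorem ab_ret_kil (n : ℕ) (y : FreeGroup (Fin (n + 2))) : abRet n (kil n y) = abRet n y := by
  have : (abRet n).comp (kil n) = abRet n := by
    ext i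
    rw [MonoidHom.comp_apply, kil, lift_apply_of]
    split_ifs with h
    · rw [map_one, abRet, lift_apply_of, h, io, dif_neg (lt_irrefl n)]
    · rfl
  exact DFunLike.congr_fun this y

theorem ab_app (n : ℕ) (u v : RW) : ev n (u ++ v) = ev n u * ev n v := by
  rw [ev, ev, ev, gw, gw, gw, ← map_mul, mul_mk]

theorem ab_inv (n : ℕ) (u : RW) : ev n (invRev u) = (ev n u)⁻¹ := by
  rw [ev, ev, gw, gw, ← map_inv, inv_mk]

theorem ab_cons (n i : ℕ) (u : RW) : ev n ((i, true) :: u) = io n i * ev n u ∧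
    ev n ((i, false) :: u) = (io n i)⁻¹ * ev n u := by
  simp [ev, gw]

theorem ab_nil (n : ℕ) : ev n [] = 1 := by simp [ev, gw]

theorem ab_hd (n : ℕ) : ev (n + 2) (hd n) = io (n + 2) n * (io (n + 2) (n + 1) *
    ((io (n + 2) n)⁻¹ * (io (n + 2) (n + 1))⁻¹)) := by
  simp only [hd, ab_cons, ab_nil, mul_one]

theorem ab_bar (n : ℕ) (W : RW) (i : ℕ) :
    ev n (del W (i, false)) = (ev n (del W (i, true)))⁻¹ := by
  simp only [del, bar, ab_app, ab_cons, ab_inv, Bool.not_true, Bool.not_false, mul_inv_rev, inv_inv,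
    mul_assoc]

theorem ab_bd {n : ℕ} {W : RW} : bd n W = true ↔ ∀ l ∈ W, l.1 < n := by
  simp [bd, Nat.blt_eq]

theorem ab_bd_del {n i : ℕ} {W : RW} (h : bd n W = true) (hi : i < n) (s : Bool) :
    bd n (del W (i, s)) = true := by
  rw [ab_bd] at h ⊢
  intro l hl
  simp only [del, invRev, List.mem_append, List.mem_cons, List.mem_reverse, List.mem_map] at hl
  rcases hl with hl | rfl | ⟨u, hu, rfl⟩
  · exact h l (List.takeWhile_subset _ hl)
  · exact hi
  · exact h u (List.takeWhile_subset _ hu)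

theorem ab_old {n i : ℕ} (W : RW) (hi : i < n) (s : Bool) :
    del (hd n ++ W) (i, s) = hd n ++ del W (i, s) ++ invRev (hd n) := by
  have h : ∀ s, ∀ u ∈ hd n, decide (u ≠ (i, s)) = true := fun s u hu => by
    simp only [hd, List.mem_cons, List.not_mem_nil, or_false] at hu
    rcases hu with rfl | rfl | rfl | rfl <;> simp <;> omega
  rw [del, del, bar, List.takeWhile_append_of_pos (h _), List.takeWhile_append_of_pos (h _),
    invRev_append]
  simp only [List.append_assoc, List.cons_append]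

theorem ab_del (hW : RawSt) {n : ℕ} {c : Ctx (Fin (n + 2))} {W : RW} (h : bd n W = true)
    (hc : c.W = fw (n + 2) (hd n ++ W)) (l : Fin (n + 2) × Bool) :
    mk (del c.W l) = ev (n + 2) (del (hd n ++ W) ((l.1 : ℕ), l.2)) := by
  obtain ⟨h1, -, -, -, -, -, h2, -⟩ := hW.2 (n + 2)
  rw [hc, h2 _ l, h1]
  rw [ab_bd] at h ⊢
  intro u hu
  rcases List.mem_append.1 hu with hu | hu
  · simp only [hd, List.mem_cons, List.not_mem_nil, or_false] at hu
    rcases hu with rfl | rfl | rfl | rfl <;> simp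
  · exact (h u hu).trans (by omega)

theorem ab_del_old (hW : RawSt) {n : ℕ} {c : Ctx (Fin (n + 2))} {W : RW} (h : bd n W = true)
    (hc : c.W = fw (n + 2) (hd n ++ W)) (l : Fin (n + 2) × Bool) (hl : (l.1 : ℕ) < n) :
    mk (del c.W l) = ev (n + 2) (hd n) * inc n (ev n (del W ((l.1 : ℕ), l.2))) *
      (ev (n + 2) (hd n))⁻¹ := by
  rw [ab_del hW h hc, ab_old W hl, ab_app, ab_app, ab_inv, (hW.2 n).2.2.2.1 _ (ab_bd_del h hl _)]

theorem ab_new {n : ℕ} {φ : MulAut (FreeGroup (Fin (n + 2)))}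
    (ha : φ (io (n + 2) n) = io (n + 2) n) (hb : φ (io (n + 2) (n + 1)) = io (n + 2) (n + 1))
    (x : Fin (n + 2)) (hx : n ≤ (x : ℕ)) : φ (of x) = of x := by
  have h : of x = io (n + 2) x := (ab_io x.2).symm
  have h1 := x.2
  rw [h]
  rcases (show (x : ℕ) = n ∨ (x : ℕ) = n + 1 by omega) with e | e <;> rw [e] <;> assumption

theorem ab_key (hU : DualSt) (hW : RawSt) {n : ℕ} {c : Ctx (Fin (n + 2))} {W : RW}
    (h : bd n W = true) (hc : c.W = fw (n + 2) (hd n ++ W))
    (hg : Subgroup.closure (Set.range fun x : Fin n => ev n (del W ((x : ℕ), true))) = ⊤)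
    (φ : MulAut (FreeGroup (Fin (n + 2)))) (hr : φ c.r = c.r)
    (ha : φ (io (n + 2) n) = io (n + 2) n) (hb : φ (io (n + 2) (n + 1)) = io (n + 2) (n + 1))
    (y : FreeGroup (Fin n)) : inc n (abRet n (φ (inc n y))) = φ (inc n y) := by
  have hp : φ (ev (n + 2) (hd n)) = ev (n + 2) (hd n) := by
    simp only [ab_hd, map_mul, map_inv, ha, hb]
  have h1 := hU _ c {x | n ≤ (x : ℕ)}
    ((inc n).range.map (MulAut.conj (ev (n + 2) (hd n))).toMonoidHom)
    (fun l hl => ⟨_, ⟨_, rfl⟩, (ab_del_old hW h hc l (not_le.1 hl)).symm⟩) φ hr (ab_new ha hb)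
  have h2 : (⊤ : Subgroup (FreeGroup (Fin n))) ≤
      (inc n).range.comap (φ.toMonoidHom.comp (inc n)) := by
    rw [← hg, Subgroup.closure_le]
    rintro _ ⟨x, rfl⟩
    obtain ⟨_, ⟨z, rfl⟩, hz⟩ := h1 (Fin.castAdd 2 x, true) (not_le.2 x.2)
    rw [ab_del_old hW h hc _ x.2, map_mul, map_mul, map_inv, hp] at hz
    exact ⟨z, mul_left_cancel (mul_right_cancel hz)⟩
  obtain ⟨z, hz⟩ := h2 (Subgroup.mem_top y)
  have h3 : φ (inc n y) = inc n z := hz.symm
  rw [h3, ab_ret_inc]

theorem abSt (hU : DualSt) (hW : RawSt) : AbSt := by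
  intro n c W h hc hg φ hr ha hb
  have h1 := ab_key hU hW h hc hg φ hr ha hb
  have h2 := ab_key hU hW h hc hg φ.symm (φ.symm_apply_eq.2 hr.symm) (φ.symm_apply_eq.2 ha.symm)
    (φ.symm_apply_eq.2 hb.symm)
  refine ⟨MonoidHom.toMulEquiv ((abRet n).comp (φ.toMonoidHom.comp (inc n)))
    ((abRet n).comp (φ.symm.toMonoidHom.comp (inc n))) (MonoidHom.ext fun y => ?_)
    (MonoidHom.ext fun y => ?_), ?_, ?_⟩
  · show abRet n (φ.symm (inc n (abRet n (φ (inc n y))))) = y
    rw [h1, φ.symm_apply_apply, ab_ret_inc]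
  · show abRet n (φ (inc n (abRet n (φ.symm (inc n y))))) = y
    rw [h2, φ.apply_symm_apply, ab_ret_inc]
  · show abRet n (φ (inc n (ev n W))) = ev n W
    rw [Ctx.r, hc, ← (hW.2 (n + 2)).1, ab_app, ← (hW.2 n).2.2.2.1 W h, map_mul] at hr
    simp only [ab_hd, map_mul, map_inv, ha, hb] at hr
    rw [mul_left_cancel hr, ab_ret_inc]
  · apply MulEquiv.toMonoidHom_injective
    ext i
    show φ (of i) = exE n _ (of i)
    rw [exE, lift_apply_of]
    split_ifs with hi
    · exact (h1 (of ⟨i, hi⟩)).symm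
    · exact ab_new ha hb i (not_lt.1 hi)

theorem acSt (hU : DualSt) (hW : RawSt) : AcSt := by
  intro n c W hf hc β hβ hd' j φ w hr ha hj hk
  have h := ((hW.2 n).2.2.2.2.2.1 W hf).2
  have r1 := ab_ret_io (le_refl n)
  have r2 := ab_ret_io (Nat.le_add_right n 1)
  have e1 : ev (n + 2) (del (hd n ++ W) (n, true)) =
      io (n + 2) n * (io (n + 2) n * io (n + 2) (n + 1))⁻¹ := by
    simp [del, hd, bar, ab_cons, ab_inv, ab_nil]
  have e2 : abRet n (ev (n + 2) (del (hd n ++ W) (n + 1, true))) = 1 := by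
    simp [del, hd, bar, ab_cons, ab_inv, ab_nil, r1, r2]
  have h0 : ∀ x : Fin (n + 2), x ≠ Fin.castAdd 2 j →
      abRet n (ev (n + 2) (del (hd n ++ W) ((x : ℕ), true))) ∈ (Fr {j}).map β := fun x hx => by
    have h1 := x.2
    rcases (show (x : ℕ) < n ∨ (x : ℕ) = n ∨ (x : ℕ) = n + 1 by omega) with e | e | e
    · refine ⟨of ⟨x, e⟩, Subgroup.subset_closure ⟨_, fun h2 => hx (Fin.ext
        (congrArg (Fin.val (n := n)) (Set.mem_singleton_iff.1 h2) :)), rfl⟩, ?_⟩
      rw [← ab_del hW h hc (x, true), ab_del_old hW h hc (x, true) e, hd']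
      simp only [ab_hd, map_mul, map_inv, r1, r2, ab_ret_inc, inv_one, one_mul, mul_one]
    · rw [e, e1]
      simp only [map_mul, map_inv, r1, r2, inv_one, one_mul, one_mem]
    · rw [e, e2]
      exact one_mem _
  have h1 := hU _ c {Fin.castAdd 2 j} (((Fr {j}).map β).comap (abRet n)) (fun l hl => by
      rw [Subgroup.mem_comap, ab_del hW h hc]
      obtain ⟨x, _ | _⟩ := l
      · rw [ab_bar, map_inv]
        exact inv_mem (h0 x hl)
      · exact h0 x hl) φ hr (fun x hx => by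
      rw [Set.mem_singleton_iff.1 hx]
      exact hj) (⟨n, by omega⟩, true) fun h2 => j.2.ne' (congrArg Fin.val h2)
  have h2 := congrArg (abRet n) hk
  rw [ab_ret_kil, map_mul, map_inv, ab_ret_inc, r2, mul_one] at h2
  rw [Subgroup.mem_comap, ab_del hW h hc, e1] at h1
  simp only [map_mul, map_inv, ha, r1, h2, one_mul, inv_inv] at h1
  obtain ⟨z, hz, e⟩ := h1
  exact hβ e ▸ hz

end Pool.Agent.MB
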