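import Pool.Agent.Lib.MP_c86c76_al.B.St

/-! Neighbours after a slide. -/

set_option autoImplicit false

namespace Pool.Agent.MB

section lists

variable {β γ : Type}

theorem adj_split {D : List β} (hn : D.Nodup) {x : β} {l1 l2 m1 m2 : List β}
    (h : D = l1 ++ x :: l2) (h' : D = m1 ++ x :: m2) : l1 = m1 ∧ l2 = m2 := by
  have a1 : x ∉ l1 := by
    rw [h] at hn
    intro hx
    exact (List.nodup_append.1 hn).2.2 x hx x List.mem_cons_self rfl
  have a2 : x ∉ l2 := by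
    rw [h] at hn
    exact (List.nodup_cons.1 (List.nodup_append.1 hn).2.1).1
  have := (List.append_cons_inj_of_notMem a1 a2).1 (h.symm.trans h')
  exact ⟨this.1, this.2.2⟩

theorem adj_succ {D : List β} (hn : D.Nodup) {u v v' : β} (h : Adj D u v) (h' : Adj D u v') :
    v = v' := by
  obtain ⟨l1, l2, h⟩ := h
  obtain ⟨m1, m2, h'⟩ := h'
  exact (List.cons.inj (adj_split hn h h').2).1

theorem adj_pred {D : List β} (hn : D.Nodup) {u u' v : β} (h : Adj D u v) (h' : Adj D u' v) :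
    u = u' := by
  obtain ⟨l1, l2, h⟩ := h
  obtain ⟨m1, m2, h'⟩ := h'
  have := (adj_split hn (l1 := l1 ++ [u]) (l2 := l2) (m1 := m1 ++ [u']) (m2 := m2) (x := v)
    (by simp [h]) (by simp [h'])).1
  simpa using (List.append_inj' this rfl).2

theorem adj_three {D : List β} (hn : D.Nodup) {u v w : β} (h : Adj D u v) (h' : Adj D v w) :
    ∃ l1 l2, D = l1 ++ u :: v :: w :: l2 := by
  obtain ⟨l1, l2, h⟩ := h
  obtain ⟨m1, m2, h'⟩ := h'
  have := (adj_split hn (l1 := l1 ++ [u]) (l2 := l2) (m1 := m1) (m2 := w :: m2) (x := v)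
    (by simp [h]) h').2
  exact ⟨l1, m2, by rw [h, this]⟩

theorem adj_asymm {D : List β} (hn : D.Nodup) {u v : β} (h : Adj D u v) (h' : Adj D v u) :
    False := by
  obtain ⟨l1, l2, e⟩ := adj_three hn h h'
  rw [e] at hn
  have := (List.nodup_cons.1 (List.nodup_append.1 hn).2.1).1
  simp at this

theorem adj_flat {D : List β} (f : β → List γ) {u v : β} (h : Adj D u v) {p q : List γ} {x y : γ}
    (hu : f u = p ++ [x]) (hv : f v = y :: q) : Adj (D.flatMap f) x y := by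
  obtain ⟨l1, l2, rfl⟩ := h
  exact ⟨l1.flatMap f ++ p, q ++ l2.flatMap f, by simp [hu, hv]⟩

theorem adj_flat3 {D : List β} (hn : D.Nodup) (f : β → List γ) {u v w : β} (h : Adj D u v)
    (h' : Adj D v w) {p q : List γ} {x y : γ} (hu : f u = p ++ [x]) (hv : f v = [])
    (hw : f w = y :: q) : Adj (D.flatMap f) x y := by
  obtain ⟨l1, l2, rfl⟩ := adj_three hn h h'
  exact ⟨l1.flatMap f ++ p, q ++ l2.flatMap f, by simp [hu, hv, hw]⟩

theorem adj_flat1 {D : List β} (f : β → List γ) {u : β} (h : u ∈ D) {x y : γ}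
    (hu : f u = [x, y]) : Adj (D.flatMap f) x y := by
  obtain ⟨l1, l2, rfl⟩ := List.append_of_mem h
  exact ⟨l1.flatMap f, l2.flatMap f, by simp [hu]⟩

end lists

theorem adj_left (hD : DiaSt) (α : Type) [DecidableEq α] [Fintype α] (c : Ctx α)
    (D D' : List (FreeGroup α)) (a b : FreeGroup α) (h : IsD c D) (h' : IsD c D')
    (hab : Adj D a b) (hr : Rep D a (a * b) D') :
    ((∀ u v, Adj D u v → ¬ Pm u a → ¬ Pm v a → u ≠ b → Adj D' u v) ∧
    (∀ s, Adj D a⁻¹ s → Adj D' (a * b)⁻¹ s) ∧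
    (∀ q, Adj D q a⁻¹ → q ≠ b → Adj D' q b) ∧
    (∀ y, Adj D b y → y ≠ a⁻¹ → Adj D' (a * b) y) ∧
    (∀ z, Adj D z a → Adj D' z (a * b)) ∧
    Adj D' b (a * b)⁻¹) ∧ (Adj D b a⁻¹ → Adj D' (a * b) b) := by
  classical
  obtain ⟨-, -, -, huniq, hall⟩ := hD α c
  obtain ⟨hn, -, -, hmem, hadj⟩ := hall D h
  obtain ⟨ha, hb, hba, hba', -, hs, hrs⟩ := hadj a b hab
  obtain ⟨hai, -, haa, -⟩ := hmem a ha
  have e : D' = slide D a b := huniq _ _ h' hs fun w => (hr w).trans (hrs w).symm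
  subst e
  unfold slide
  refine ⟨⟨fun u v huv hu hv hub => ?_, fun s hs => ?_, fun q hq hqb => ?_, fun y hy hya => ?_,
    fun z hz => ?_, ?_⟩, fun hy => ?_⟩
  · have hvb : v ≠ b := fun e => hu (Or.inl (adj_pred hn (e ▸ huv) hab))
    simp only [Pm, not_or] at hu hv
    exact adj_flat _ huv (p := []) (q := []) (by simp [hu.1, hu.2, hub]) (by simp [hv.1, hv.2, hvb])
  · obtain ⟨-, -, h1, h2, -⟩ := hadj _ _ hs
    rw [inv_inv] at h2
    have h3 : s ≠ b := fun e => haa (adj_pred hn hab (e ▸ hs))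
    exact adj_flat _ hs (p := [b]) (q := []) (by simp [haa.symm, hba'.symm]) (by simp [h1, h2, h3])
  · obtain ⟨-, -, h1, h2, -⟩ := hadj _ _ hq
    have h3 : q ≠ a := fun e => h2 (by rw [e])
    exact adj_flat _ hq (p := []) (q := [(a * b)⁻¹]) (by simp [h1.symm, h3, hqb])
      (by simp [haa.symm, hba'.symm])
  · obtain ⟨-, -, h1, -⟩ := hadj _ _ hy
    have h3 : y ≠ a := fun e => adj_asymm hn hab (e ▸ hy)
    exact adj_flat3 hn _ hab hy (p := []) (q := []) (by simp) (by simp [hba])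
      (by simp [h1, h3, hya])
  · obtain ⟨-, -, h1, h2, -⟩ := hadj _ _ hz
    have h3 : z ≠ a⁻¹ := fun e => h2 (by rw [e, inv_inv])
    have h4 : z ≠ b := fun e => adj_asymm hn hab (e ▸ hz)
    exact adj_flat _ hz (p := []) (q := []) (by simp [h1.symm, h3, h4]) (by simp)
  · exact adj_flat1 _ hai (by simp [haa.symm, hba'.symm])
  · exact adj_flat3 hn _ hab hy (p := []) (q := [(a * b)⁻¹]) (by simp) (by simp [hba])
      (by simp [haa.symm, hba'.symm])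

theorem adjLSt (hD : DiaSt) : AdjLSt := fun α _ _ c D D' a b h h' hab hr =>
  (adj_left hD α c D D' a b h h' hab hr).1

theorem adjRSt (hD : DiaSt) : AdjRSt := by
  intro α _ _ c D a b h hab
  obtain ⟨-, -, -, -, hall⟩ := hD α c
  obtain ⟨hn, -, -, hmem, hadj⟩ := hall D h
  obtain ⟨ha, hb, hba, hba', he, h1, hr1⟩ := hadj a b hab
  obtain ⟨hai, -, haa, -⟩ := hmem a ha
  obtain ⟨hbi, -, hbb, -⟩ := hmem b hb
  have he' : (a * b)⁻¹ ∉ D := fun k => he (by simpa using (hmem _ k).1)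
  obtain ⟨⟨l1, l2, l3, l4, l5, l6⟩, l7⟩ := adj_left hD α c D _ a b h h1 hab hr1
  obtain ⟨-, -, -, hmem1, hadj1⟩ := hall _ h1
  have hp : b * (a * b)⁻¹ = a⁻¹ := by group
  have hbia : b⁻¹ ≠ a := fun e => hba' (by rw [← e, inv_inv])
  have hbia' : b⁻¹ ≠ a⁻¹ := fun e => hba (inv_injective e)
  have ne1 : ∀ w ∈ D, w ≠ a * b := fun w hw e => he (e ▸ hw)
  have ne2 : ∀ w ∈ D, w ≠ (a * b)⁻¹ := fun w hw e => he' (e ▸ hw)
  have hrep : ∀ D', Rep D b (a * b) D' ↔ Rep (slide D a b) b (b * (a * b)⁻¹) D' := by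
    intro D'
    rw [hp]
    refine forall_congr' fun w => iff_congr Iff.rfl ?_
    rw [hr1 w, inv_inv]
    constructor
    · rintro (⟨k1, k2, k3⟩ | k | k)
      · by_cases k4 : w = a
        · exact Or.inr (Or.inr k4)
        by_cases k5 : w = a⁻¹
        · exact Or.inr (Or.inl k5)
        exact Or.inl ⟨Or.inl ⟨k1, k4, k5⟩, k2, k3⟩
      · exact Or.inl ⟨Or.inr (Or.inl k), k ▸ (ne1 b hb).symm, k ▸ (ne1 _ hbi).symm⟩
      · exact Or.inl ⟨Or.inr (Or.inr k), k ▸ (ne2 b hb).symm, k ▸ (ne2 _ hbi).symm⟩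
    · rintro (⟨⟨k1, -⟩ | k | k, k2, k3⟩ | k | k)
      · exact Or.inl ⟨k1, k2, k3⟩
      · exact Or.inr (Or.inl k)
      · exact Or.inr (Or.inr k)
      · exact Or.inl ⟨k ▸ hai, k ▸ hba'.symm, k ▸ hbia'.symm⟩
      · exact Or.inl ⟨k ▸ ha, k ▸ hba.symm, k ▸ hbia.symm⟩
  refine ⟨?_, fun D' h' hr => ?_⟩
  · obtain ⟨-, -, -, -, -, h2, hr2⟩ := hadj1 _ _ l6
    exact ⟨_, h2, (hrep _).2 hr2⟩
  obtain ⟨⟨m1, m2, m3, m4, m5, m6⟩, m7⟩ :=
    adj_left hD α c _ D' b (a * b)⁻¹ h1 h' l6 ((hrep _).1 hr)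
  rw [hp] at m2 m4 m5 m6 m7
  rw [inv_inv] at m2 m6
  have heb : ¬ Pm (a * b) b := fun k => k.elim (ne1 b hb).symm (ne1 _ hbi).symm
  refine ⟨fun u v huv hu hv hva => ?_, fun q hq => ?_, fun s hs hsa => ?_, fun z hz hzb => ?_,
    fun y hy => ?_, m6⟩
  · have hua : u ≠ a := fun e => hv (Or.inl (adj_succ hn (e ▸ huv) hab))
    have hub : u ≠ b := fun e => hu (Or.inl e)
    by_cases k1 : u = a⁻¹
    · subst k1
      exact m4 v (l2 v huv) fun e => hv (Or.inr e)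
    by_cases k2 : v = a⁻¹
    · subst k2
      exact m5 u (l3 u huv hub)
    exact m1 u v (l1 u v huv (not_or.2 ⟨hua, k1⟩) (not_or.2 ⟨hva, k2⟩) hub) hu hv
      (ne2 u (hadj _ _ huv).1)
  · obtain ⟨k0, -, -, k2, -⟩ := hadj _ _ hq
    have hqb : q ≠ b := fun e => k2 (by rw [e])
    have hqa : q ≠ a := fun e => hbb (adj_succ hn hab (e ▸ hq))
    by_cases k1 : q = a⁻¹
    · subst k1
      exact m7 (l2 _ hq)
    exact m3 q (l1 q _ hq (not_or.2 ⟨hqa, k1⟩) (not_or.2 ⟨hbia, hbia'⟩) hqb) (ne2 q k0)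
  · by_cases k1 : s = a⁻¹
    · subst k1
      exact absurd (inv_inv b).symm (hadj1 _ _ (l3 _ hs hbb.symm)).2.2.2.1
    exact m2 s (l1 _ s hs (not_or.2 ⟨hbia, hbia'⟩) (not_or.2 ⟨hsa, k1⟩) hbb.symm)
  · have h4 : z ≠ b := fun e => adj_asymm hn hab (e ▸ hz)
    exact m1 _ _ (l5 z hz) (not_or.2 ⟨h4, hzb⟩) heb (ne2 z (hadj _ _ hz).1)
  · obtain ⟨-, -, k1, k2, -⟩ := hadj _ _ hy
    by_cases k3 : y = a⁻¹
    · subst k3
      exact m5 _ (l7 hy)
    exact m1 _ _ (l4 y hy k3) heb (not_or.2 ⟨k1, k2⟩)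
      (hmem1 _ ((hr1 _).2 (Or.inr (Or.inl rfl)))).2.2.1

end Pool.Agent.MB
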