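import Pool.Agent.Lib.MP_c86c76_al.B.St

/-!
From the stabiliser of an arc to the whole group.
-/

set_option autoImplicit false

namespace Pool.Agent.MB

open FreeGroup

/-- Two members of a graph subgroup with the same first entry agree. -/
theorem brown_func {G A : Type} [Group G] [Group A] {Γ : Subgroup (G × A)} (hF : Func Γ)
    {φ : G} {s s' : A} (h : (φ, s) ∈ Γ) (h' : (φ, s') ∈ Γ) : s = s' := by
  have h1 := Γ.mul_mem (Γ.inv_mem h') h
  have h2 : ((φ, s')⁻¹ * (φ, s) : G × A) = (1, s'⁻¹ * s) := by simp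
  rw [h2] at h1
  exact (inv_mul_eq_one.1 (hF _ h1)).symm

theorem brown_rr {P : Type} [Group P] {Γ : Subgroup P} {Ty : Set P} {k p k' : P} (hk : k ∈ Γ)
    (hp : p ∈ RR Γ Ty) (hk' : k' ∈ Γ) : k * p * k'⁻¹ ∈ RR Γ Ty := by
  obtain ⟨k1, h1, t, ht, k2, h2, rfl⟩ := hp
  exact ⟨k * k1, Γ.mul_mem hk h1, t, ht, k2 * k'⁻¹, Γ.mul_mem h2 (Γ.inv_mem hk'), by group⟩

theorem brown_rr_le {P : Type} [Group P] {Γ : Subgroup P} {Ty : Set P} {p : P}
    (hp : p ∈ RR Γ Ty) : p ∈ Γ ⊔ Subgroup.closure Ty := by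
  obtain ⟨k1, h1, t, ht, k2, h2, rfl⟩ := hp
  exact Subgroup.mul_mem _ (Subgroup.mul_mem _ (Subgroup.mem_sup_left h1)
    (Subgroup.mem_sup_right (Subgroup.subset_closure ht))) (Subgroup.mem_sup_left h2)

theorem brown_pm {G : Type} [Group G] {x y z : G} (h : Pm x y) (h' : Pm x z) : Pm y z := by
  rcases h with rfl | rfl
  · exact h'
  · rcases h' with h' | h'
    · exact Or.inr (by rw [← h', inv_inv])
    · exact Or.inl (inv_injective h')

theorem brown_fix {F : Type} [Group F] {g g' : MulAut F} {x : F} (h : g x = g' x) :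
    (g⁻¹ * g') x = x := by
  rw [MulAut.mul_apply, ← h, MulAut.inv_apply_self]

/-- The union of double cosets is the graph of a function. -/
theorem brown_rr_func {F A : Type} [Group F] [Group A] {Γ : Subgroup (MulAut F × A)}
    {Ty : Set (MulAut F × A)} {r a : F} (hΓ : ∀ k ∈ Γ, k.1 r = r ∧ k.1 a = a)
    (hU : ∀ t ∈ Ty, ∀ t' ∈ Ty, ∀ φ : MulAut F, φ r = r → φ a = a → φ (t.1 a) = t'.1 a → t = t')
    (hF : Func Γ) (hN : ∀ t ∈ Ty, ∀ k ∈ Γ, k.1 (t.1 a) = t.1 a → t⁻¹ * k * t ∈ Γ)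
    {φ : MulAut F} {s s' : A} (h : (φ, s) ∈ RR Γ Ty) (h' : (φ, s') ∈ RR Γ Ty) : s = s' := by
  obtain ⟨k1, h1, t, ht, k2, h2, e⟩ := h
  obtain ⟨k1', h1', t', ht', k2', h2', e'⟩ := h'
  have f : φ a = k1.1 (t.1 a) := by
    have := congrArg Prod.fst e
    simp only [Prod.fst_mul] at this
    rw [this, MulAut.mul_apply, MulAut.mul_apply, (hΓ k2 h2).2]
  have f' : φ a = k1'.1 (t'.1 a) := by
    have := congrArg Prod.fst e'
    simp only [Prod.fst_mul] at this
    rw [this, MulAut.mul_apply, MulAut.mul_apply, (hΓ k2' h2').2]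
  have hk : k1'⁻¹ * k1 ∈ Γ := Γ.mul_mem (Γ.inv_mem h1') h1
  have g : (k1'⁻¹ * k1).1 (t.1 a) = t'.1 a := by
    rw [Prod.fst_mul, Prod.fst_inv, MulAut.mul_apply, ← f, f', MulAut.inv_apply_self]
  obtain rfl : t = t' := hU t ht t' ht' _ (hΓ _ hk).1 (hΓ _ hk).2 g
  have m := Γ.mul_mem (Γ.mul_mem (Γ.inv_mem h2') (hN t ht _ hk g)) h2
  have e2 : k2'⁻¹ * (t⁻¹ * (k1'⁻¹ * k1) * t) * k2 = (1, s'⁻¹ * s) := by
    have : ((φ, s')⁻¹ * (φ, s) : MulAut F × A) = (1, s'⁻¹ * s) := by simp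
    rw [← this, e, e']
    group
  rw [e2] at m
  exact (inv_mul_eq_one.1 (hF _ m)).symm

theorem brownSt (hD : DiaSt) (hM : MvSt) (hK : ConnSt) (hO : OrdSt) (hS : ScSt) : BrownSt := by
  classical
  intro α _ _ c l0 A _ Γ Ty hΓ hT hU hF hOn hN hE hG
  obtain ⟨-, hD0, hmap, -, hdia⟩ := hD α c
  obtain ⟨-, hmv, -, hcom, -⟩ := hM α c
  obtain ⟨-, -, hconn⟩ := hK α c
  have a0 : lt l0 ∈ c.D0 := List.mem_map_of_mem (c.full.2 l0)
  have mulr : ∀ {g g' : MulAut (FreeGroup α)}, g c.r = c.r → g' c.r = c.r → (g * g') c.r = c.r :=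
    fun h h' => by rw [MulAut.mul_apply, h', h]
  have invr : ∀ {g : MulAut (FreeGroup α)}, g c.r = c.r → g⁻¹ c.r = c.r := fun {g} h => by
    conv_lhs => rw [← h]
    rw [MulAut.inv_apply_self]
  have pm : ∀ {g g' : MulAut (FreeGroup α)} {x : FreeGroup α}, g c.r = c.r → g' c.r = c.r →
      Pm x (g (lt l0)) → Pm x (g' (lt l0)) → ∃ s, (g⁻¹ * g', s) ∈ Γ := by
    intro g g' x h h' p p'
    refine hOn _ ⟨mulr (invr h) h', brown_fix ?_⟩
    rcases brown_pm p p' with e | e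
    · exact e
    · refine absurd ?_ ((hO α c _ hD0).2.2.2 _ a0 (g'⁻¹ * g) (mulr (invr h') h))
      rw [MulAut.mul_apply, e, _root_.map_inv, MulAut.inv_apply_self]
  have Jr : ∀ p ∈ Γ ⊔ Subgroup.closure Ty, p.1 c.r = c.r := by
    let H : Subgroup (MulAut (FreeGroup α) × A) :=
      { carrier := {p | p.1 c.r = c.r}
        mul_mem' := fun h h' => mulr h h'
        one_mem' := rfl
        inv_mem' := fun h => invr h }
    exact fun p hp => (sup_le (fun k hk => (hΓ k hk).1) ((Subgroup.closure_le H).2 hT) :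
      Γ ⊔ Subgroup.closure Ty ≤ H) hp
  constructor
  · have hex : ∀ x : FreeGroup α, ∃ g : MulAut (FreeGroup α), g c.r = c.r ∧
        ∀ g' : MulAut (FreeGroup α), g' c.r = c.r → Pm x (g' (lt l0)) → Pm x (g (lt l0)) := by
      intro x
      by_cases e : ∃ g : MulAut (FreeGroup α), g c.r = c.r ∧ Pm x (g (lt l0))
      · obtain ⟨g, h1, h2⟩ := e
        exact ⟨g, h1, fun _ _ _ => h2⟩
      · exact ⟨1, rfl, fun g' h1 h2 => absurd ⟨g', h1, h2⟩ e⟩
    choose h hr hp using hex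
    have kex : ∀ φ : MulAut (FreeGroup α), ∃ s : A, ∀ s', (φ, s') ∈ RR Γ Ty → s = s' := by
      intro φ
      by_cases e : ∃ s, (φ, s) ∈ RR Γ Ty
      · obtain ⟨s, hs⟩ := e
        exact ⟨s, fun s' hs' => brown_rr_func hΓ hU hF hN hs hs'⟩
      · exact ⟨1, fun s' hs' => absurd ⟨s', hs'⟩ e⟩
    choose κ0 hκ0 using kex
    have sec : ∀ (x : FreeGroup α) (g : MulAut (FreeGroup α)), g c.r = c.r → Pm x (g (lt l0)) →
        ∃ s, ((h x)⁻¹ * g, s) ∈ Γ := fun x g h1 h2 => pm (hr x) h1 (hp x g h1 h2) h2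
    have kap : ∀ (x y : FreeGroup α) (g g' : MulAut (FreeGroup α)) (s s' u : A),
        ((h x)⁻¹ * g, s) ∈ Γ → ((h y)⁻¹ * g', s') ∈ Γ → (g⁻¹ * g', u) ∈ RR Γ Ty →
        κ0 ((h x)⁻¹ * h y) = s * u * s'⁻¹ := by
      intro x y g g' s s' u h1 h2 h3
      refine hκ0 _ _ ?_
      have := brown_rr h1 h3 h2
      have e : (((h x)⁻¹ * g, s) * (g⁻¹ * g', u) * ((h y)⁻¹ * g', s')⁻¹ :
          MulAut (FreeGroup α) × A) = ((h x)⁻¹ * h y, s * u * s'⁻¹) := by
        refine Prod.ext ?_ rfl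
        simp only [Prod.fst_mul, Prod.fst_inv]
        group
      rwa [e] at this
    obtain ⟨K, K1, K2⟩ := hS α c A (fun x y => κ0 ((h x)⁻¹ * h y)) (by
      intro D a b h1 h2 x y z hx hy hz
      obtain ⟨p, q, s, p1, q1, s1, pq, qs, ps, px, qy, sz⟩ := hG D a b h1 h2 x y z hx hy hz
      obtain ⟨sx, hsx⟩ := sec x p.1 p1 px
      obtain ⟨sy, hsy⟩ := sec y q.1 q1 qy
      obtain ⟨sw, hsw⟩ := sec z s.1 s1 sz
      show κ0 _ * κ0 _ = κ0 _
      rw [kap x y p.1 q.1 sx sy _ hsx hsy pq, kap y z q.1 s.1 sy sw _ hsy hsw qs,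
        kap x z p.1 s.1 sx sw _ hsx hsw ps]
      simp only [Prod.snd_inv]
      group)
    have ind : ∀ (g : MulAut (FreeGroup α)), g c.r = c.r → ∀ D, IsD c D → g (lt l0) ∈ D →
        K D (g (lt l0)) = K (c.D0.map g) (g (lt l0)) := by
      intro g hg D h1 h2
      have := hconn {l0} (fun E => K (E.map g) (g (lt l0)) = K (c.D0.map g) (g (lt l0))) rfl
        (fun E E' m e e' q => (K2 _ _ (hmv g E E' hg m) _ (List.mem_map_of_mem (e l0 rfl))
          (List.mem_map_of_mem (e' l0 rfl))).trans q) (D.map (g⁻¹ : MulAut (FreeGroup α)))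
        (hmap _ D (invr hg) h1) (by
          rintro l rfl
          exact List.mem_map.2 ⟨_, h2, MulAut.inv_apply_self _ g _⟩)
      have e : (D.map (g⁻¹ : MulAut (FreeGroup α))).map g = D := by
        rw [List.map_map]
        conv_rhs => rw [← List.map_id D]
        exact List.map_congr_left fun x _ => MulAut.apply_inv_self _ g x
      rwa [e] at this
    have sex : ∀ g : MulAut (FreeGroup α), ∃ s : A, g c.r = c.r →
        ((h (g (lt l0)))⁻¹ * g, s) ∈ Γ := by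
      intro g
      by_cases e : g c.r = c.r
      · obtain ⟨s, hs⟩ := sec _ g e (Or.inl rfl)
        exact ⟨s, fun _ => hs⟩
      · exact ⟨1, fun e' => absurd e' e⟩
    choose σ hσ using sex
    let Φ : MulAut (FreeGroup α) → A := fun g => K (c.D0.map g) (g (lt l0)) * σ g
    let H : Subgroup (MulAut (FreeGroup α) × A) :=
      { carrier := {p | p.1 c.r = c.r ∧ ∀ g, g c.r = c.r → Φ (g * p.1) = Φ g * p.2}
        mul_mem' := fun {p q} hp hq => ⟨mulr hp.1 hq.1, fun g hg => by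
          rw [Prod.fst_mul, Prod.snd_mul, ← mul_assoc, hq.2 _ (mulr hg hp.1), hp.2 g hg,
            mul_assoc]⟩
        one_mem' := ⟨rfl, fun g _ => by simp⟩
        inv_mem' := fun {p} hp => ⟨invr hp.1, fun g hg => by
          have := hp.2 _ (mulr hg (invr hp.1))
          rw [inv_mul_cancel_right] at this
          rw [this, Prod.fst_inv, Prod.snd_inv, mul_inv_cancel_right]⟩ }
    have hle : Γ ⊔ Subgroup.closure Ty ≤ H := by
      refine sup_le (fun k hk => ⟨(hΓ k hk).1, fun g hg => ?_⟩)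
        ((Subgroup.closure_le H).2 fun t ht => ⟨hT t ht, fun g hg => ?_⟩)
      · have hg' := mulr hg (hΓ k hk).1
        have e : (g * k.1) (lt l0) = g (lt l0) := by rw [MulAut.mul_apply, (hΓ k hk).2]
        have m1 := hσ _ hg'
        have m2 := Γ.mul_mem (hσ g hg) hk
        have e2 : (((h (g (lt l0)))⁻¹ * g, σ g) * k : MulAut (FreeGroup α) × A)
            = ((h (g (lt l0)))⁻¹ * (g * k.1), σ g * k.2) := Prod.ext (mul_assoc _ _ _) rfl
        rw [e] at m1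
        rw [e2] at m2
        have e3 := ind g hg _ (hmap _ _ hg' hD0) (e ▸ List.mem_map_of_mem a0)
        show K _ _ * _ = K _ _ * _ * _
        rw [e, e3, brown_func hF m1 m2, mul_assoc]
      · obtain ⟨D, d1, d2, d3⟩ := hE t ht
        have hg' := mulr hg (hT t ht)
        have d4 := hmap g D hg d1
        have mx : g (lt l0) ∈ D.map g := List.mem_map_of_mem d2
        have my : (g * t.1) (lt l0) ∈ D.map g := List.mem_map_of_mem d3
        have e := kap _ _ g (g * t.1) _ _ t.2 (hσ g hg) (hσ _ hg') (by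
          rw [inv_mul_cancel_left]
          exact ⟨1, Γ.one_mem, t, ht, 1, Γ.one_mem, by simp⟩)
        show K _ _ * _ = K _ _ * _ * _
        rw [← ind g hg _ d4 mx, ← ind _ hg' _ d4 my, K1 _ d4 _ mx _ my, e]
        group
    intro s hs
    have := (hle hs).2 1 rfl
    simpa using this
  · have key : ∀ D a b, IsD c D → Adj D a b → ∀ x ∈ D, ∀ y ∈ D,
        (∃ p ∈ Γ ⊔ Subgroup.closure Ty, Pm x (p.1 (lt l0))) →
        ∃ p ∈ Γ ⊔ Subgroup.closure Ty, Pm y (p.1 (lt l0)) := by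
      rintro D a b h1 h2 x hx y hy ⟨p, p1, p2⟩
      obtain ⟨p', q, -, r1, -, -, pq, -, -, px, qy, -⟩ :=
        hG D a b h1 h2 x y y (Or.inl hx) (Or.inl hy) (Or.inl hy)
      obtain ⟨s, hs⟩ := pm (Jr p p1) r1 p2 px
      refine ⟨_, Subgroup.mul_mem _ (Subgroup.mul_mem _ p1 (Subgroup.mem_sup_left hs))
        (brown_rr_le pq), ?_⟩
      have e : (p * (p.1⁻¹ * p'.1, s) * (p'⁻¹ * q)).1 = q.1 := by
        simp only [Prod.fst_mul, Prod.fst_inv]
        group
      rwa [e]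
    have all := hconn ∅ (fun D => ∀ x ∈ D, ∃ p ∈ Γ ⊔ Subgroup.closure Ty, Pm x (p.1 (lt l0)))
      (fun x hx => by
        obtain ⟨a, b, hab⟩ := ((hdia _ hD0).2.2.2.1 _ a0).2.2.2
        exact key _ a b hD0 hab _ a0 x hx ⟨1, Subgroup.one_mem _, Or.inl rfl⟩)
      (fun D D' m _ _ q x hx => by
        obtain ⟨⟨z, z1, z2⟩, a, b, hab, -⟩ := hcom D D' m
        exact key D a b m.1 hab z z1 x hx (q z z2))
    intro φ hφ
    obtain ⟨p, p1, p2⟩ := all _ (hmap φ _ hφ hD0) (fun _ h => h.elim) _ (List.mem_map_of_mem a0)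
    obtain ⟨s, hs⟩ := pm (Jr p p1) hφ p2 (Or.inl rfl)
    refine ⟨p.2 * s, ?_⟩
    have := Subgroup.mul_mem _ p1 (Subgroup.mem_sup_left hs)
    rwa [show (p * (p.1⁻¹ * φ, s) : MulAut (FreeGroup α) × A) = (φ, p.2 * s) from
      Prod.ext (mul_inv_cancel_left _ _) rfl] at this

end Pool.Agent.MB
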