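import Pool.Agent.Lib.MP_c86c76_al.B.St

set_option autoImplicit false

namespace Pool.Agent.MB

theorem covAll2 {β γ : Type} (f : β → γ → Bool) (l : List β) (es : List γ)
    (h : all2 f l es = true) (b : β) (hb : b ∈ l) : ∃ e, f b e = true := by
  induction l generalizing es with
  | nil => simp at hb
  | cons a l ih =>
    cases es with
    | nil => simp [all2] at h
    | cons e es =>
      simp only [all2, Bool.and_eq_true] at h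
      rcases List.mem_cons.mp hb with rfl | hb
      exacts [⟨e, h.1⟩, ih es h.2 hb]

theorem covSymm {G : Type} [Group G] {x y : G} (h : Pm x y) : Pm y x := by
  rcases h with rfl | rfl <;> simp [Pm]

theorem covTrans {G : Type} [Group G] {x y z : G} (h : Pm x y) (h' : Pm y z) : Pm x z := by
  rcases h with rfl | rfl <;> rcases h' with rfl | rfl <;> simp [Pm]

theorem covMap {G : Type} [Group G] (ψ : MulAut G) {x y : G} (h : Pm x y) : Pm (ψ x) (ψ y) := by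
  rcases h with rfl | rfl <;> simp [Pm]

theorem covAdj {β : Type} {V : List β} {p q : β} (h : Adj V p q) : (p, q) ∈ V.zip V.tail := by
  obtain ⟨l1, l2, rfl⟩ := h
  induction l1 with
  | nil => simp
  | cons a l ih =>
    cases l with
    | nil => simp
    | cons b l => exact List.mem_cons_of_mem _ ih

/-- The arc `x` is moved into the family `Z`. -/
def CovZ {n : ℕ} (ψ : MulAut (FreeGroup (Fin n))) (Z : List RW) (x : FreeGroup (Fin n)) : Prop :=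
  ∃ u ∈ Z, Pm (ψ x) (ev n u)

theorem CovZ.pm {n : ℕ} {ψ : MulAut (FreeGroup (Fin n))} {Z : List RW} {x y : FreeGroup (Fin n)}
    (h : CovZ ψ Z y) (hx : Pm x y) : CovZ ψ Z x := by
  obtain ⟨u, hu, h⟩ := h
  exact ⟨u, hu, covTrans (covMap ψ hx) h⟩

theorem covHit (hW : RawSt) {n : ℕ} {s : SA} (hs : okS n s = true) {Z : List RW} {w : RW}
    (h : hitW Z (sub s.1 w) = true) (ψ : MulAut (FreeGroup (Fin n))) {x : FreeGroup (Fin n)}
    (hx : Pm (ψ x) (ev n w)) : CovZ (aut n s * ψ) Z x := by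
  obtain ⟨-, -, e1, -, -, -, e2, -⟩ := hW.1 _ (io n)
  simp only [hitW, List.any_eq_true, Bool.or_eq_true] at h
  obtain ⟨u, hu, h⟩ := h
  refine ⟨u, hu, covTrans (covMap (aut n s) hx) ?_⟩
  rw [((hW.2 n).2.1 s w hs).1]
  exact h.imp (fun a => e2 _ _ a) (fun a => (e2 _ _ a).trans (e1 u))

theorem covFix (hW : RawSt) {n : ℕ} {c : Ctx (Fin n)} {W V : RW} (hr : c.r = ev n W) {s : SA}
    (hs : okS n s = true) (h : eqF (sub s.1 V) W = true) {ψ : MulAut (FreeGroup (Fin n))}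
    (hψ : ψ c.r = ev n V) : (aut n s * ψ) c.r = c.r := by
  obtain ⟨-, -, -, -, -, -, e2, -⟩ := hW.1 _ (io n)
  rw [MulAut.mul_apply, hψ, ((hW.2 n).2.1 s V hs).1, hr]
  exact e2 _ _ h

theorem covTwo (hS : StdSt) (hW : RawSt) {n : ℕ} {c : Ctx (Fin n)} {W : RW} {Fam : List (List RW)}
    {e2 : List SA} (hr : c.r = ev n W) (h2 : all2 (ok2 n W Fam) (raws 2 n) e2 = true)
    {D : List (FreeGroup (Fin n))} (hD : IsD c D) {a b : FreeGroup (Fin n)} (ha : a ∈ D) (hb : b ∈ D)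
    (hab : ¬ Pm a b) : ∃ ψ : MulAut (FreeGroup (Fin n)), ψ c.r = c.r ∧
      (∃ Z ∈ Fam, CovZ ψ Z a ∧ CovZ ψ Z b) ∧
      (Adj D a b → ∃ Z ∈ Fam, CovZ ψ Z a ∧ CovZ ψ Z b ∧ CovZ ψ Z (a * b)) := by
  obtain ⟨V, hV, ψ, p1, p2, p3⟩ := hS n c D hD 2 (Or.inl rfl) (fun i => if i = 0 then a else b)
    (fun i _ => by split_ifs; exacts [ha, hb]) (fun i hi j hj h => by
      interval_cases i <;> interval_cases j <;> first | rfl | exact absurd h hab | exact absurd (covSymm h) hab)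
  obtain ⟨s, hs⟩ := covAll2 _ _ _ h2 V hV
  simp only [ok2, Bool.and_eq_true, List.any_eq_true, List.all_eq_true, Bool.or_eq_true] at hs
  obtain ⟨⟨⟨s1, s2⟩, Z, hZ, z0, z1⟩, s3⟩ := hs
  refine ⟨aut n s * ψ, covFix hW hr s1 s2 p1, ⟨Z, hZ, ?_⟩, fun hA => ?_⟩
  · have key : ∀ i < 2, CovZ (aut n s * ψ) Z (if i = 0 then a else b) := by
      intro i hi
      obtain ⟨j, hj, h⟩ := p2 i hi
      interval_cases j
      exacts [covHit hW s1 z0 ψ h, covHit hW s1 z1 ψ h]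
    exact ⟨key 0 (by norm_num), key 1 (by norm_num)⟩
  · obtain ⟨p, q, q1, q2, q3, q4, q5⟩ := p3 hA
    rcases s3 _ (covAdj q3) with h | ⟨Z, hZ, ⟨y0, y1⟩, y2⟩
    · simp [Nat.blt_eq.mpr q1, Nat.blt_eq.mpr q2] at h
    refine ⟨Z, hZ, covHit hW s1 y0 ψ (Or.inl q4), covHit hW s1 y1 ψ (Or.inl q5),
      covHit hW s1 y2 ψ (Or.inl ?_)⟩
    rw [map_mul]
    exact (congrArg₂ (· * ·) q4 q5).trans ((hW.1 _ (io n)).2.1 [p] [q]).symm

theorem covIn (hS : StdSt) (hW : RawSt) {n : ℕ} {c : Ctx (Fin n)} {W : RW} {Fam : List (List RW)}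
    {e2 e3 : List SA} (hr : c.r = ev n W) (h2 : all2 (ok2 n W Fam) (raws 2 n) e2 = true)
    (h3 : all2 (ok3 n W Fam) (raws 3 n) e3 = true) (hD : DiaSt)
    {D : List (FreeGroup (Fin n))} (hd : IsD c D) {x y z : FreeGroup (Fin n)} (hx : x ∈ D)
    (hy : y ∈ D) (hz : z ∈ D) : Hit c Fam x y z := by
  have two : ∀ a ∈ D, ∀ b ∈ D, ¬ Pm a b → (Pm x a ∨ Pm x b) → (Pm y a ∨ Pm y b) →
      (Pm z a ∨ Pm z b) → Hit c Fam x y z := by
    intro a ha b hb hab a1 a2 a3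
    obtain ⟨ψ, p1, ⟨Z, hZ, z1, z2⟩, -⟩ := covTwo hS hW hr h2 hd ha hb hab
    exact ⟨ψ, p1, Z, hZ, a1.elim z1.pm z2.pm, a2.elim z1.pm z2.pm, a3.elim z1.pm z2.pm⟩
  have rf : ∀ w : FreeGroup (Fin n), Pm w w := fun w => Or.inl rfl
  by_cases hxy : Pm x y
  · by_cases hxz : Pm x z
    · obtain ⟨-, -, -, d1, d2⟩ := (hD _ c).2.2.2.2 D hd
      obtain ⟨a, b, hab⟩ := (d1 x hx).2.2.2
      obtain ⟨a1, a2, a3, a4, -⟩ := d2 a b hab
      by_cases hxa : Pm x a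
      · exact two x hx b a2 (fun h => (covTrans (covSymm h) hxa).elim a3 a4) (Or.inl (rf x))
          (Or.inl (covSymm hxy)) (Or.inl (covSymm hxz))
      · exact two x hx a a1 hxa (Or.inl (rf x)) (Or.inl (covSymm hxy)) (Or.inl (covSymm hxz))
    · exact two x hx z hz hxz (Or.inl (rf x)) (Or.inl (covSymm hxy)) (Or.inr (rf z))
  by_cases hxz : Pm x z
  · exact two x hx y hy hxy (Or.inl (rf x)) (Or.inr (rf y)) (Or.inl (covSymm hxz))
  by_cases hyz : Pm y z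
  · exact two x hx y hy hxy (Or.inl (rf x)) (Or.inr (rf y)) (Or.inr (covSymm hyz))
  obtain ⟨V, hV, ψ, p1, p2, -⟩ := hS n c D hd 3 (Or.inr rfl)
    (fun i => if i = 0 then x else if i = 1 then y else z)
    (fun i _ => by split_ifs; exacts [hx, hy, hz]) (fun i hi j hj h => by
      interval_cases i <;> interval_cases j <;>
        first | rfl | exact absurd h ‹_› | exact absurd (covSymm h) ‹_›)
  obtain ⟨s, hs⟩ := covAll2 _ _ _ h3 V hV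
  simp only [ok3, Bool.and_eq_true, List.any_eq_true] at hs
  obtain ⟨⟨s1, s2⟩, Z, hZ, ⟨z0, z1⟩, z2⟩ := hs
  have key : ∀ i < 3, CovZ (aut n s * ψ) Z (if i = 0 then x else if i = 1 then y else z) := by
    intro i hi
    obtain ⟨j, hj, h⟩ := p2 i hi
    interval_cases j
    exacts [covHit hW s1 z0 ψ h, covHit hW s1 z1 ψ h, covHit hW s1 z2 ψ h]
  exact ⟨aut n s * ψ, covFix hW hr s1 s2 p1, Z, hZ, key 0 (by norm_num), key 1 (by norm_num),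
    key 2 (by norm_num)⟩

theorem covLogic {a b e a' b' e' a'' b'' e'' : Prop}
    (h : ¬ (a ∧ b) ∧ ¬ (e ∧ a) ∧ ¬ (e ∧ b)) (h' : ¬ (a' ∧ b') ∧ ¬ (e' ∧ a') ∧ ¬ (e' ∧ b'))
    (h'' : ¬ (a'' ∧ b'') ∧ ¬ (e'' ∧ a'') ∧ ¬ (e'' ∧ b'')) (c1 : ¬ (¬ e ∧ ¬ e' ∧ ¬ e''))
    (c2 : ¬ (¬ a ∧ ¬ a' ∧ ¬ a'')) (c3 : ¬ (¬ b ∧ ¬ b' ∧ ¬ b'')) :
    (a ∨ b ∨ e) ∧ (a' ∨ b' ∨ e') ∧ (a'' ∨ b'' ∨ e'') := by
  grind

theorem covSt (hD : DiaSt) (hR : AdjRSt) (hS : StdSt) (hW : RawSt) : CovSt := by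
  intro n c W Fam e2 e3 hr h2 h3 D a b hd hab x y z hx hy hz
  obtain ⟨-, -, -, d1, d2⟩ := (hD _ c).2.2.2.2 D hd
  obtain ⟨a1, a2, a3, a4, a5, a6, a7⟩ := d2 a b hab
  obtain ⟨D2, b1, b2⟩ := (hR _ c D a b hd hab).1
  have nab : ¬ Pm a b := fun h => (covSymm h).elim a3 a4
  have ne : ∀ w ∈ D, ¬ Pm (a * b) w := fun w hw h =>
    a5 (h.elim (fun e => e ▸ hw) (fun e => e ▸ (d1 w hw).1))
  have m1 : ∀ (u : FreeGroup (Fin n)) D', Rep D u (a * b) D' → ∀ w, Dp D a b w → ¬ Pm w u → w ∈ D' :=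
    fun u D' h w hw hu => (h w).mpr (hw.imp (fun h => ⟨h, not_or.mp hu⟩) id)
  by_cases c1 : ¬ Pm x (a * b) ∧ ¬ Pm y (a * b) ∧ ¬ Pm z (a * b)
  · exact covIn hS hW hr h2 h3 hD hd (hx.resolve_right c1.1) (hy.resolve_right c1.2.1)
      (hz.resolve_right c1.2.2)
  by_cases c2 : ¬ Pm x a ∧ ¬ Pm y a ∧ ¬ Pm z a
  · exact covIn hS hW hr h2 h3 hD a6 (m1 _ _ a7 x hx c2.1) (m1 _ _ a7 y hy c2.2.1)
      (m1 _ _ a7 z hz c2.2.2)
  by_cases c3 : ¬ Pm x b ∧ ¬ Pm y b ∧ ¬ Pm z b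
  · exact covIn hS hW hr h2 h3 hD b1 (m1 _ _ b2 x hx c3.1) (m1 _ _ b2 y hy c3.2.1)
      (m1 _ _ b2 z hz c3.2.2)
  obtain ⟨ψ, p1, -, p2⟩ := covTwo hS hW hr h2 hd a1 a2 nab
  obtain ⟨Z, hZ, z1, z2, z3⟩ := p2 hab
  have ex : ∀ w, ¬ (Pm w a ∧ Pm w b) ∧ ¬ (Pm w (a * b) ∧ Pm w a) ∧ ¬ (Pm w (a * b) ∧ Pm w b) :=
    fun w => ⟨fun h => nab (covTrans (covSymm h.1) h.2), fun h => ne a a1 (covTrans (covSymm h.1) h.2),
      fun h => ne b a2 (covTrans (covSymm h.1) h.2)⟩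
  have fin : ∀ w, Pm w a ∨ Pm w b ∨ Pm w (a * b) → CovZ ψ Z w := fun w h =>
    h.elim z1.pm (fun h => h.elim z2.pm z3.pm)
  obtain ⟨f1, f2, f3⟩ := covLogic (ex x) (ex y) (ex z) c1 c2 c3
  exact ⟨ψ, p1, Z, hZ, fin x f1, fin y f2, fin z f3⟩

end Pool.Agent.MB
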