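import Pool.Agent.Lib.MP_c86c76_al.B.St

/-!
The cyclic order on the free group.
-/

set_option autoImplicit false

namespace Pool.Agent.MB

open FreeGroup

section

variable {α : Type} [DecidableEq α] [Fintype α]

theorem cycBt (hB : BtSt) {p c q : FreeGroup α} (h : dir c p ≠ dir c q) : Bt p c q :=
  ((hB α).2.2.2.2.1 p c q).2 (Or.inr h)

theorem cycSide (hB : BtSt) {u v c c' : FreeGroup α} (h : Bt u c' v) (hc : c ≠ c') :
    dir c u = dir c c' ∨ dir c v = dir c c' := by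
  by_cases h1 : dir c u = dir c c'
  · exact Or.inl h1
  · exact Or.inr ((hB α).2.2.2.2.2.1 c c' v ((hB α).2.2.2.1 u c c' v (cycBt hB h1) h).2 hc)

omit [DecidableEq α] [Fintype α] in
theorem cycNe {ρ : α × Bool → ℕ} {a b d : Option (α × Bool)}
    (h : pos3 (rk ρ a) (rk ρ b) (rk ρ d)) : a ≠ b ∧ b ≠ d ∧ a ≠ d := by
  refine ⟨?_, ?_, ?_⟩ <;> rintro rfl <;> unfold pos3 at h <;> omega

theorem cycUniq (hB : BtSt) {u v w c c' : FreeGroup α} (h1 : dir c u ≠ dir c v)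
    (h2 : dir c v ≠ dir c w) (h3 : dir c u ≠ dir c w) (k1 : dir c' u ≠ dir c' v)
    (k2 : dir c' v ≠ dir c' w) (k3 : dir c' u ≠ dir c' w) : c = c' := by
  by_contra hc
  have a1 := cycSide hB (cycBt hB k1) hc
  have a2 := cycSide hB (cycBt hB k2) hc
  have a3 := cycSide hB (cycBt hB k3) hc
  rcases a1 with a1 | a1
  · rcases a2 with a2 | a2
    · exact h1 (a1.trans a2.symm)
    · exact h3 (a1.trans a2.symm)
  · rcases a3 with a3 | a3
    · exact h1 (a3.trans a1.symm)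
    · exact h2 (a1.trans a3.symm)

omit [Fintype α] in
theorem cycRot {ρ : α × Bool → ℕ} {u v w : FreeGroup α} (h : Cyc ρ u v w) : Cyc ρ v w u := by
  obtain ⟨c, h⟩ := h
  refine ⟨c, ?_⟩
  unfold pos3 at h ⊢
  omega

omit [Fintype α] in
theorem cycDist {ρ : α × Bool → ℕ} {u v w : FreeGroup α} (h : Cyc ρ u v w) :
    u ≠ v ∧ v ≠ w ∧ u ≠ w := by
  obtain ⟨c, h⟩ := h
  obtain ⟨h1, h2, h3⟩ := cycNe h
  refine ⟨?_, ?_, ?_⟩ <;> rintro rfl
  · exact h1 rfl
  · exact h2 rfl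
  · exact h3 rfl

theorem cycTrans (hB : BtSt) {ρ : α × Bool → ℕ} {u v w z : FreeGroup α} (h : Cyc ρ u v w)
    (k : Cyc ρ u w z) : Cyc ρ u v z := by
  obtain ⟨c, h⟩ := h
  obtain ⟨c', k⟩ := k
  obtain ⟨h1, _, h3⟩ := cycNe h
  obtain ⟨k1, _, k3⟩ := cycNe k
  by_cases hc : c = c'
  · subst hc
    refine ⟨c, ?_⟩
    unfold pos3 at h k ⊢
    omega
  by_cases e : dir c w = dir c c'
  · rcases cycSide hB (cycBt hB k3) hc with a | a
    · exact absurd (a.trans e.symm) h3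
    · exact ⟨c, by rw [a, ← e]; exact h⟩
  · have e' : dir c' w = dir c' c :=
      (hB α).2.2.2.2.2.1 c' c w ((hB α).1 w c c' (cycBt hB e)) (Ne.symm hc)
    rcases cycSide hB (cycBt hB h1) (Ne.symm hc) with a | a
    · exact absurd (a.trans e'.symm) k1
    · exact ⟨c', by rw [a, ← e']; exact k⟩

theorem cycAsym (hB : BtSt) {ρ : α × Bool → ℕ} {u v w : FreeGroup α} (h : Cyc ρ u v w) :
    ¬ Cyc ρ u w v := by
  intro k
  exact (cycDist (cycTrans hB h k)).2.1 rfl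

end

theorem cycSt (hB : BtSt) : CycSt := by
  intro α _ _ ρ
  refine ⟨fun u v w h => cycRot h, ?_, fun u v w z h k => cycTrans hB h k,
    fun u v w h => cycAsym hB h, ?_, ?_, ?_, ?_, ?_, ?_⟩
  · rintro g u v w ⟨c, h⟩
    refine ⟨g * c, ?_⟩
    have e : ∀ x, dir (g * c) (g * x) = dir c x := fun x => by
      simp [dir, mul_assoc]
    rw [e, e, e]
    exact h
  · rintro u (⟨h1, h2⟩ | h)
    · exact h2 h1
    · exact (cycDist h).2.1 rfl
  · rintro u v w (⟨h1, h2⟩ | h) (⟨k1, _⟩ | k)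
    · exact absurd k1 h2
    · exact Or.inl ⟨h1, (cycDist k).2.2.symm⟩
    · exact absurd k1.symm (cycDist h).2.2
    · exact Or.inr (cycTrans hB h k)
  · rintro u v w (⟨h1, h2⟩ | h) (⟨k1, _⟩ | k)
    · exact absurd k1 h2
    · rw [h1]; exact k
    · exact absurd k1.symm (cycDist h).2.2
    · exact cycRot (cycRot (cycTrans hB (cycRot k) (cycRot (cycRot h))))
  · rintro u v w (⟨h1, _⟩ | h) k
    · subst h1
      exact ⟨Or.inl ⟨rfl, (cycDist k).1.symm⟩, Or.inr k⟩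
    · exact ⟨Or.inr (cycRot (cycRot (cycTrans hB k (cycRot h)))),
        Or.inr (cycRot (cycTrans hB (cycRot (cycRot h)) (cycRot (cycRot k))))⟩
  · intro U l l' hr hl
    refine Or.inr ⟨mk (U ++ [l]), ?_⟩
    have e1 : dir (mk (U ++ [l])) 1 = some (bar l) := by
      rw [dir, mul_one, toWord_inv, toWord_mk, hr.reduce_eq]
      simp [invRev, bar]
    have e2 : dir (mk (U ++ [l])) (mk (U ++ [l])) = none := by
      rw [dir, inv_mul_cancel, toWord_one]
      rfl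
    have e3 : dir (mk (U ++ [l])) (mk (U ++ [l]) * lt l') = some l' := by
      rw [dir, inv_mul_cancel_left, lt, toWord_mk]
      simp
    rw [e1, e2, e3]
    simp only [rk, pos3]
    omega
  · rintro p0 p1 p2 p3 ⟨c, h⟩ ⟨d, k⟩ ⟨a1, a2⟩
    obtain ⟨h1, h2, h3⟩ := cycNe h
    obtain ⟨k1, k2, k3⟩ := cycNe k
    obtain ⟨c', b1, b2, b3⟩ := (hB α).2.1 p2 p1 p3
    obtain ⟨hc, _, m2⟩ := (hB α).2.2.2.2.2.2.2.2.2.1 p2 p0 p1 p3 c c' (cycBt hB h2.symm)
      (cycBt hB h3.symm) (cycBt hB h1.symm) b1 b3 b2 a1 a2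
    have e1 : dir c p1 = dir c c' := (hB α).2.2.2.2.2.1 c c' p1 m2 hc
    rcases cycSide hB b3 hc with a | a
    · exact h2 (e1.trans a.symm)
    · have e3 : dir c p3 = dir c p1 := a.trans e1.symm
      have hd : c = d := cycUniq hB h3 (by rw [e3]; exact h2.symm) (by rw [e3]; exact h1) k1 k2 k3
      subst hd
      rw [e3] at k
      unfold pos3 at h k
      omega

end Pool.Agent.MB
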