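import Pool.Agent.Lib.MP_c86c76_al.B.St

/-!
Basic facts on diagrams: reducedness, uniqueness, slides.
-/

set_option autoImplicit false

namespace Pool.Agent.MB

open FreeGroup

section

variable {α : Type}

theorem Dia_mk_prod (W : List (α × Bool)) : mk W = (W.map lt).prod := by
  induction W with
  | nil => rfl
  | cons l W ih =>
    rw [List.map_cons, List.prod_cons, ← ih]
    exact (FreeGroup.mul_mk (L₁ := [l]) (L₂ := W)).symm

theorem Dia_lt_bar (l : α × Bool) : lt (bar l) = (lt l)⁻¹ := by
  simp [lt, bar, FreeGroup.inv_mk, FreeGroup.invRev]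

theorem Dia_bar_bar (l : α × Bool) : bar (bar l) = l := by
  simp [bar]

theorem Dia_bar_ne (l : α × Bool) : bar l ≠ l := by
  rcases l with ⟨x, b⟩
  cases b <;> simp [bar]

theorem Dia_eq_or_bar {l u : α × Bool} (h : u.1 = l.1) : u = l ∨ u = bar l := by
  rcases l with ⟨x, b⟩
  rcases u with ⟨y, d⟩
  simp only at h
  subst h
  cases b <;> cases d <;> simp [bar]

theorem Dia_lt_inj [DecidableEq α] {l u : α × Bool} (h : lt l = lt u) : l = u := by
  have := FreeGroup.reduce.sound h
  simpa [FreeGroup.reduce_singleton] using this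

theorem Dia_lt_ne_one [DecidableEq α] (l : α × Bool) : lt l ≠ 1 := by
  intro h
  have : (lt l).toWord = [] := by rw [h]; rfl
  simp [lt] at this

theorem Dia_lt_true (x : α) : lt (x, true) = of x := rfl

theorem Dia_lt_false (x : α) : lt (x, false) = (of x)⁻¹ := Dia_lt_bar (x, true)

theorem Dia_mem_Fr {x : α} {l : α × Bool} (h : l.1 ≠ x) : lt l ∈ Fr ({x} : Set α) := by
  have h1 : of l.1 ∈ Fr ({x} : Set α) := Subgroup.subset_closure ⟨l.1, h, rfl⟩
  rcases l with ⟨y, b⟩
  cases b
  · rw [Dia_lt_false]; exact inv_mem h1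
  · exact h1

theorem Dia_map_prod (θ : MulAut (FreeGroup α)) (W : List (α × Bool)) :
    (W.map fun l => θ (lt l)).prod = θ (mk W) := by
  rw [Dia_mk_prod, map_list_prod, List.map_map]
  rfl

theorem Dia_red (c : Ctx α) (θ : MulAut (FreeGroup α)) (W : List (α × Bool)) (hW : Full W)
    (hr : θ (mk W) = c.r) : FreeGroup.IsReduced W := by
  rw [FreeGroup.IsReduced, List.isChain_iff_forall_rel_of_append_cons_cons]
  intro a b l1 l2 hE h1
  by_contra h2
  have hb : b = bar a := by
    rcases Dia_eq_or_bar h1.symm with h | h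
    · exact absurd (by rw [h]) h2
    · exact h
  subst hb
  have hn := hW.1
  rw [hE] at hn
  have key : ∀ l ∈ l1 ++ l2, l.1 ≠ a.1 := by
    intro l hl h
    have hp : (l1 ++ a :: bar a :: l2).Perm (a :: bar a :: (l1 ++ l2)) :=
      List.perm_middle.trans (List.Perm.cons _ List.perm_middle)
    have hn' := hp.nodup_iff.1 hn
    simp only [List.nodup_cons, List.mem_cons, not_or] at hn'
    rcases Dia_eq_or_bar h with h | h
    · exact hn'.1.2 (h ▸ hl)
    · exact hn'.2.1 (h ▸ hl)
  apply c.ess θ⁻¹ a.1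
  have e1 : θ⁻¹ (mk c.W) = mk W := by
    have : mk c.W = θ (mk W) := hr.symm
    rw [this]; simp
  have e2 : mk W = ((l1 ++ l2).map lt).prod := by
    rw [Dia_mk_prod, hE]
    simp [Dia_lt_bar]
  rw [e1, e2]
  apply Subgroup.list_prod_mem
  intro g hg
  obtain ⟨l, hl, rfl⟩ := List.mem_map.1 hg
  exact Dia_mem_Fr (key l hl)

theorem Dia_nie [DecidableEq α] (la lb : α × Bool) (h : lb.1 ≠ la.1) :
    ∃ ν : MulAut (FreeGroup α), ν (lt la) = lt la * lt lb ∧
      ∀ l : α × Bool, l.1 ≠ la.1 → ν (lt l) = lt l := by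
  let f : FreeGroup α → (FreeGroup α →* FreeGroup α) := fun s =>
    FreeGroup.lift fun x => if x = la.1 then (if la.2 then of x * s else s⁻¹ * of x) else of x
  have hf : ∀ s (l : α × Bool), l.1 ≠ la.1 → f s (lt l) = lt l := by
    intro s l hl
    rcases l with ⟨y, b⟩
    simp only at hl
    cases b
    · simp [Dia_lt_false, f, hl]
    · simp [Dia_lt_true, f, hl]
  have hc : ∀ s t, f t s = s → t * s = 1 → (f t).comp (f s) = MonoidHom.id _ := by
    intro s t h1 h2
    ext x
    by_cases hx : x = la.1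
    · have e : ∀ u, f u (of x) = if la.2 then of x * u else u⁻¹ * of x := by
        intro u; simp [f, hx]
      rw [MonoidHom.comp_apply, e]
      split_ifs with hb
      · rw [_root_.map_mul, e, if_pos hb, h1, mul_assoc, h2]; simp
      · rw [_root_.map_mul, e, if_neg hb, _root_.map_inv, h1, ← mul_assoc, ← mul_inv_rev, h2]; simp
    · simp [f, hx]
  have h1 : ∀ s, f s (lt lb) = lt lb := fun s => hf s lb h
  refine ⟨MonoidHom.toMulEquiv (f (lt lb)) (f (lt lb)⁻¹) (hc _ _ (h1 _) (by simp))
    (hc _ _ (by rw [_root_.map_inv, h1]) (by simp)), ?_, fun l hl => hf _ l hl⟩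
  change f (lt lb) (lt la) = _
  rcases la with ⟨y, b⟩
  cases b
  · simp [Dia_lt_false, f]
  · simp [Dia_lt_true, f]

end

theorem Dia_slide_aux {G : Type} [Group G] (a b : G) (l : List G) (h : ∀ w ∈ l, w ≠ a ∧ w ≠ b) :
    (slide l a b).prod = l.prod := by
  induction l with
  | nil => simp [slide]
  | cons w l ih =>
    have h1 := h w (by simp)
    have h2 := ih fun u hu => h u (by simp [hu])
    unfold slide at h2 ⊢
    rw [List.flatMap_cons, List.prod_append, h2, List.prod_cons, if_neg h1.1, if_neg h1.2]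
    split_ifs with h3
    · simp [h3]
    · simp

theorem Dia_slide_prod {G : Type} [Group G] (D : List G) (a b : G) (hn : D.Nodup)
    (h : Adj D a b) : (slide D a b).prod = D.prod := by
  obtain ⟨l1, l2, rfl⟩ := h
  have hp : (l1 ++ a :: b :: l2).Perm (a :: b :: (l1 ++ l2)) :=
    List.perm_middle.trans (List.Perm.cons _ List.perm_middle)
  have hn' := hp.nodup_iff.1 hn
  simp only [List.nodup_cons, List.mem_cons, not_or, List.mem_append] at hn'
  have e1 := Dia_slide_aux a b l1 fun w hw =>
    ⟨fun e => hn'.1.2.1 (e ▸ hw), fun e => hn'.2.1.1 (e ▸ hw)⟩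
  have e2 := Dia_slide_aux a b l2 fun w hw =>
    ⟨fun e => hn'.1.2.2 (e ▸ hw), fun e => hn'.2.1.2 (e ▸ hw)⟩
  have hba : b ≠ a := fun e => hn'.1.1 e.symm
  unfold slide at e1 e2 ⊢
  rw [List.flatMap_append, List.flatMap_cons, List.flatMap_cons, List.prod_append,
    List.prod_append, List.prod_append, e1, e2]
  simp [hba, mul_assoc]

theorem Dia_slide_rep {G : Type} [Group G] (D : List G) (a b : G) (ha : a ∈ D) (hb : b ∈ D)
    (hi : a⁻¹ ∈ D) (h1 : b ≠ a) (h2 : b ≠ a⁻¹) (h3 : a ≠ a⁻¹) :
    Rep D a (a * b) (slide D a b) := by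
  intro w
  unfold slide
  rw [List.mem_flatMap]
  constructor
  · rintro ⟨u, hu, hw⟩
    split_ifs at hw with e1 e2 e3
    · simp at hw; tauto
    · simp at hw
    · simp only [List.mem_cons, List.not_mem_nil, or_false] at hw
      rcases hw with rfl | rfl
      · exact Or.inl ⟨hb, h1, h2⟩
      · tauto
    · simp only [List.mem_cons, List.not_mem_nil, or_false] at hw
      subst hw
      exact Or.inl ⟨hu, e1, e3⟩
  · rintro (⟨hw, e1, e3⟩ | rfl | rfl)
    · by_cases e2 : w = b
      · exact ⟨a⁻¹, hi, by rw [if_neg h3.symm, if_neg h2.symm, if_pos rfl]; simp [e2]⟩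
      · exact ⟨w, hw, by rw [if_neg e1, if_neg e2, if_neg e3]; simp⟩
    · exact ⟨a, ha, by simp⟩
    · exact ⟨a⁻¹, hi, by rw [if_neg h3.symm, if_neg h2.symm, if_pos rfl]; simp⟩

theorem Dia_full_slide {α : Type} [DecidableEq α] (W : List (α × Bool)) (hW : Full W)
    (la lb : α × Bool) (h : lb.1 ≠ la.1) :
    Full (W.flatMap fun l =>
      if l = la then [la] else if l = lb then [] else if l = bar la then [lb, bar la] else [l]) := by
  have h1 : lb ≠ la := fun e => h (by rw [e])
  have h2 : lb ≠ bar la := fun e => h (by rw [e]; rfl)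
  have h3 : bar la ≠ la := Dia_bar_ne la
  constructor
  · rw [List.nodup_flatMap]
    constructor
    · intro x _
      split_ifs <;> simp [h2]
    · refine List.Pairwise.imp ?_ hW.1
      intro x y hxy
      simp only [Function.onFun]
      split_ifs <;> simp only [List.disjoint_left, List.mem_cons, List.not_mem_nil] <;> grind
  · intro l
    rw [List.mem_flatMap]
    by_cases e2 : l = lb
    · exact ⟨bar la, hW.2 _, by rw [if_neg h3, if_neg h2.symm, if_pos rfl]; simp [e2]⟩
    · refine ⟨l, hW.2 _, ?_⟩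
      split_ifs with e1 e3
      · simp [e1]
      · simp [e3]
      · simp

theorem diaSt : DiaSt := by
  intro α _ _ c
  have inj : ∀ θ : MulAut (FreeGroup α), Function.Injective fun l : α × Bool => θ (lt l) :=
    fun θ l u h => Dia_lt_inj (θ.injective h)
  have nd : ∀ D, IsD c D → D.Nodup := by
    rintro D ⟨θ, W, hW, rfl, -⟩
    exact hW.1.map (inj θ)
  refine ⟨Dia_red c 1 c.W c.full rfl, ⟨1, c.W, c.full, rfl, (Dia_mk_prod c.W).symm⟩, ?_, ?_, ?_⟩
  · rintro φ D hφ ⟨θ, W, hW, rfl, hp⟩
    refine ⟨φ * θ, W, hW, by simp, ?_⟩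
    rw [← map_list_prod, hp, hφ]
  · intro D D' hD hD' hm
    have n' := nd D' hD'
    obtain ⟨θ, W, hW, rfl, hp⟩ := hD
    have hp' := hD'.choose_spec.choose_spec.2.2
    have ex : ∃ W'' : List (α × Bool), D' = W''.map fun l => θ (lt l) := by
      have : ∀ E : List (FreeGroup α), (∀ w ∈ E, ∃ l, θ (lt l) = w) →
          ∃ W'' : List (α × Bool), E = W''.map fun l => θ (lt l) := by
        intro E
        induction E with
        | nil => exact fun _ => ⟨[], rfl⟩
        | cons w E ih =>
          intro h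
          obtain ⟨l, hl⟩ := h w (by simp)
          obtain ⟨U, hU⟩ := ih fun u hu => h u (by simp [hu])
          exact ⟨l :: U, by rw [List.map_cons, ← hU, hl]⟩
      apply this
      intro w hw
      obtain ⟨l, -, hl⟩ := List.mem_map.1 ((hm w).2 hw)
      exact ⟨l, hl⟩
    obtain ⟨U, rfl⟩ := ex
    have hU : Full U := by
      refine ⟨n'.of_map _, fun l => ?_⟩
      obtain ⟨u, hu, e⟩ := List.mem_map.1 ((hm _).1 (List.mem_map_of_mem (hW.2 l)))
      exact inj θ e ▸ hu
    rw [Dia_map_prod] at hp hp'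
    have r1 := (Dia_red c θ W hW hp).reduce_eq
    have r2 := (Dia_red c θ U hU hp').reduce_eq
    have e : mk W = mk U := θ.injective (hp.trans hp'.symm)
    rw [← r1, ← r2, FreeGroup.reduce.sound e]
  · intro D hD
    have n := nd D hD
    obtain ⟨θ, W, hW, rfl, hp⟩ := hD
    have hred := Dia_red c θ W hW (by rw [← Dia_map_prod, hp])
    have mem : ∀ l, θ (lt l) ∈ W.map fun l => θ (lt l) := fun l => List.mem_map_of_mem (hW.2 l)
    have ginv : ∀ l, (θ (lt l))⁻¹ = θ (lt (bar l)) := fun l => by rw [Dia_lt_bar, _root_.map_inv]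
    have gne : ∀ l, θ (lt l) ≠ (θ (lt l))⁻¹ := fun l e => by
      rw [ginv] at e
      exact Dia_bar_ne l (inj θ e).symm
    refine ⟨n, ?_, hp, ?_, ?_⟩
    · rw [List.length_map]
      exact ((List.perm_ext_iff_of_nodup hW.1 c.full.1).2 fun l =>
        ⟨fun _ => c.full.2 l, fun _ => hW.2 l⟩).length_eq
    · intro w hw
      obtain ⟨l, -, rfl⟩ := List.mem_map.1 hw
      refine ⟨ginv l ▸ mem _, fun e => Dia_lt_ne_one l (θ.injective (by rw [e, _root_.map_one])),
        gne l, ?_⟩
      have m1 := hW.2 l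
      have m2 := hW.2 (bar l)
      rcases W with _ | ⟨u, _ | ⟨v, W⟩⟩
      · simp at m1
      · simp only [List.mem_singleton] at m1 m2
        exact absurd (m2.trans m1.symm) (Dia_bar_ne l)
      · exact ⟨_, _, [], _, rfl⟩
    · intro a b hab
      obtain ⟨l1, l2, hE⟩ := id hab
      obtain ⟨U1, U2, hW2, -, h2⟩ := List.map_eq_append_iff.1 hE
      obtain ⟨la, U3, rfl, rfl, h3⟩ := List.map_eq_cons_iff.1 h2
      obtain ⟨lb, U4, rfl, rfl, -⟩ := List.map_eq_cons_iff.1 h3
      have hne : lb ≠ la := by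
        have := hW.1
        rw [hW2] at this
        have := (List.nodup_append.1 this).2.1
        simp only [List.nodup_cons, List.mem_cons, not_or] at this
        exact fun e => this.1.1 e.symm
      have hch : la.1 = lb.1 → la.2 = lb.2 := by
        rw [FreeGroup.IsReduced, List.isChain_iff_forall_rel_of_append_cons_cons] at hred
        exact hred hW2
      have h1 : lb.1 ≠ la.1 := fun e => hne (Prod.ext e (hch e.symm).symm)
      have hb : lb ≠ bar la := fun e => h1 (by rw [e]; rfl)
      have n1 : θ (lt lb) ≠ θ (lt la) := fun e => hne (inj θ e)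
      have n2 : θ (lt lb) ≠ (θ (lt la))⁻¹ := fun e => hb (inj θ (e.trans (ginv la)))
      refine ⟨mem _, mem _, n1, n2, ?_, ?_,
        Dia_slide_rep _ _ _ (mem _) (mem _) (ginv la ▸ mem _) n1 n2 (gne la)⟩
      · intro hm
        obtain ⟨l, -, e⟩ := List.mem_map.1 hm
        rw [← _root_.map_mul] at e
        have e' : mk [l] = mk [la, lb] := θ.injective e
        have r2 : FreeGroup.IsReduced [la, lb] := by
          rw [FreeGroup.isReduced_cons_cons]
          exact ⟨hch, FreeGroup.IsReduced.singleton⟩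
        have := FreeGroup.reduce.sound e'
        rw [r2.reduce_eq, FreeGroup.reduce_singleton] at this
        simp at this
      · obtain ⟨ν, hν1, hν2⟩ := Dia_nie la lb h1
        refine ⟨θ * ν, _, Dia_full_slide W hW la lb h1, ?_, ?_⟩
        · unfold slide
          rw [List.flatMap_map, List.map_flatMap]
          congr 1
          funext l
          have g1 : (θ * ν) (lt la) = θ (lt la) * θ (lt lb) := by
            rw [MulAut.mul_apply, hν1, _root_.map_mul]
          have g2 : (θ * ν) (lt lb) = θ (lt lb) := by rw [MulAut.mul_apply, hν2 lb h1]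
          by_cases e1 : l = la
          · rw [if_pos (by rw [e1]), if_pos e1, List.map_singleton, g1]
          rw [if_neg (fun e => e1 (inj θ e)), if_neg e1]
          by_cases e2 : l = lb
          · rw [if_pos (by rw [e2]), if_pos e2, List.map_nil]
          rw [if_neg (fun e => e2 (inj θ e)), if_neg e2]
          by_cases e3 : l = bar la
          · rw [if_pos (by rw [e3, ginv]), if_pos e3, List.map_cons, List.map_singleton, g2,
              Dia_lt_bar, _root_.map_inv, g1]
          rw [if_neg (fun e => e3 (inj θ (e.trans (ginv la)))), if_neg e3, List.map_singleton,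
            MulAut.mul_apply, hν2 l fun e => (Dia_eq_or_bar e).elim e1 e3]
        · rw [Dia_slide_prod _ _ _ n hab, hp]

end Pool.Agent.MB
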