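import Pool.Agent.Lib.MP_c86c76_al.B.St

/-!
The loops dual to the sides of a diagram change by Nielsen moves under slides.
-/

set_option autoImplicit false

namespace Pool.Agent.MB

open FreeGroup

section Grp

variable {G : Type} [Group G]

open Classical in
/-- The product of the members before `w`. -/
noncomputable def DualPre : List G → G → G
  | [], _ => 1
  | x :: t, w => if x = w then 1 else x * DualPre t w

/-- The loop dual to the side `w`. -/
noncomputable def DualLoop (D : List G) (w : G) : G := DualPre D w * w * (DualPre D w⁻¹)⁻¹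

theorem Dual_loop_inv (D : List G) (w : G) : DualLoop D w⁻¹ = (DualLoop D w)⁻¹ := by
  simp only [DualLoop, inv_inv, mul_inv_rev, mul_assoc]

theorem Dual_pre_app {l1 l2 : List G} {w : G} (h : w ∉ l1) :
    DualPre (l1 ++ w :: l2) w = l1.prod := by
  induction l1 with
  | nil => simp [DualPre]
  | cons x t ih =>
    rw [List.mem_cons, not_or] at h
    simp [DualPre, Ne.symm h.1, ih h.2]

theorem Dual_pre_nodup {D l1 l2 : List G} {w : G} (h : D.Nodup) (e : D = l1 ++ w :: l2) :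
    DualPre D w = l1.prod := by
  subst e
  exact Dual_pre_app fun hw => (List.nodup_append.1 h).2.2 w hw w (by simp) rfl

theorem Dual_pre_map {β : Type} [DecidableEq β] (f : β → G) (hf : Function.Injective f)
    (W : List β) (l : β) :
    DualPre (W.map f) (f l) = ((W.takeWhile fun u => u ≠ l).map f).prod := by
  induction W with
  | nil => simp [DualPre]
  | cons x t ih =>
    by_cases h : x = l
    · simp [DualPre, h]
    · simp [DualPre, h, hf.ne h, ih]

theorem Dual_slide_app (l1 l2 : List G) (a b : G) :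
    slide (l1 ++ l2) a b = slide l1 a b ++ slide l2 a b := by
  simp [slide]

theorem Dual_slide_prod {l : List G} {a b : G} (ha : a ∉ l) (hb : b ∉ l) :
    (slide l a b).prod = l.prod := by
  induction l with
  | nil => simp [slide]
  | cons x t ih =>
    rw [List.mem_cons, not_or] at ha hb
    rw [← List.singleton_append, Dual_slide_app, List.prod_append, List.prod_append, ih ha.2 hb.2]
    congr 1
    by_cases h : x = a⁻¹
    · subst h
      simp [slide, Ne.symm ha.1, Ne.symm hb.1]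
    · simp [slide, Ne.symm ha.1, Ne.symm hb.1, h]

theorem Dual_init {D m1 m2 : List G} {a b x : G} (hD : D.Nodup) (h : Adj D a b)
    (e : D = m1 ++ x :: m2) (hx : x ≠ b) : (slide m1 a b).prod = m1.prod := by
  obtain ⟨l1, l2, rfl⟩ := h
  have n1 : a ∉ l1 := fun hw => (List.nodup_append.1 hD).2.2 a hw a (by simp) rfl
  have n2 : b ∉ l1 := fun hw => (List.nodup_append.1 hD).2.2 b hw b (by simp) rfl
  have n3 := (List.nodup_append.1 hD).2.1
  simp only [List.nodup_cons, List.mem_cons, not_or] at n3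
  rcases List.append_eq_append_iff.1 e with ⟨k, rfl, e'⟩ | ⟨k, rfl, -⟩
  · rw [Dual_slide_app, List.prod_append, List.prod_append, Dual_slide_prod n1 n2]
    congr 1
    rcases k with _ | ⟨y, _ | ⟨z, k⟩⟩
    · simp [slide]
    · simp only [List.cons_append, List.nil_append, List.cons.injEq] at e'
      exact absurd e'.2.1.symm hx
    · simp only [List.cons_append, List.cons.injEq] at e'
      obtain ⟨rfl, rfl, rfl⟩ := e'
      rw [show a :: b :: k = [a, b] ++ k from rfl, Dual_slide_app, List.prod_append,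
        List.prod_append, Dual_slide_prod (l := k) (fun h => n3.1.2 (by simp [h]))
          (fun h => n3.2.1 (by simp [h]))]
      simp [slide, Ne.symm n3.1.1]
  · exact Dual_slide_prod (fun h => n1 (by simp [h])) (fun h => n2 (by simp [h]))

theorem Dual_step {D : List G} {a b : G} (hD : D.Nodup) (hD' : (slide D a b).Nodup)
    (h : Adj D a b) (ha : a⁻¹ ∈ D) (hb : b⁻¹ ∈ D) (haa : a ≠ a⁻¹) (hbb : b ≠ b⁻¹) (hba : b ≠ a)
    (hba' : b ≠ a⁻¹) :
    DualLoop (slide D a b) (a * b) = DualLoop D a ∧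
    DualLoop (slide D a b) b = (DualLoop D a)⁻¹ * DualLoop D b ∧
    ∀ x ∈ D, x⁻¹ ∈ D → x ≠ a → x ≠ a⁻¹ → x ≠ b → x ≠ b⁻¹ →
      DualLoop (slide D a b) x = DualLoop D x := by
  have k1 : ∀ x ∈ D, x ≠ a → x ≠ a⁻¹ → x ≠ b → DualPre (slide D a b) x = DualPre D x := by
    intro x hx h1 h2 h3
    obtain ⟨m1, m2, e⟩ := List.append_of_mem hx
    rw [Dual_pre_nodup hD e, ← Dual_init hD h e h3]
    refine Dual_pre_nodup (l2 := slide m2 a b) hD' ?_
    rw [e]
    simp [slide, h1, h2, h3]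
  have k2 : DualPre (slide D a b) (a * b) = DualPre D a ∧ DualPre D b = DualPre D a * a := by
    obtain ⟨l1, l2, e⟩ := id h
    rw [Dual_pre_nodup hD e, Dual_pre_nodup (l1 := l1 ++ [a]) (l2 := l2) hD (by simp [e])]
    refine ⟨?_, by simp⟩
    rw [← Dual_init hD h e hba.symm]
    refine Dual_pre_nodup (l2 := slide (b :: l2) a b) hD' ?_
    rw [e]
    simp [slide]
  have k3 : DualPre (slide D a b) b = DualPre D a⁻¹ ∧
      DualPre (slide D a b) (a * b)⁻¹ = DualPre D a⁻¹ * b := by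
    obtain ⟨m1, m2, e⟩ := List.append_of_mem ha
    have e' : slide D a b = slide m1 a b ++ b :: (a * b)⁻¹ :: slide m2 a b := by
      rw [e]
      simp [slide, haa.symm, hba'.symm]
    rw [Dual_pre_nodup hD e, ← Dual_init hD h e hba'.symm, Dual_pre_nodup hD' e',
      Dual_pre_nodup (l1 := slide m1 a b ++ [b]) (l2 := slide m2 a b) hD' (by simp [e'])]
    simp
  refine ⟨?_, ?_, fun x hx hx' h1 h2 h3 h4 => ?_⟩
  · rw [DualLoop, DualLoop, k2.1, k3.2]
    group
  · rw [DualLoop, DualLoop, DualLoop, k3.1, k2.2, k1 _ hb (fun e => hba' (by rw [← e, inv_inv]))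
      (fun e => hba (inv_injective e)) hbb.symm]
    group
  · rw [DualLoop, DualLoop, k1 x hx h1 h2 h3, k1 _ hx' (fun e => h2 (by rw [← e, inv_inv]))
      (fun e => h1 (inv_injective e)) (fun e => h4 (by rw [← e, inv_inv]))]

end Grp

section Free

variable {α : Type}

theorem Dual_lt_bar (l : α × Bool) : lt (bar l) = (lt l)⁻¹ := by
  simp [lt, bar, FreeGroup.inv_mk, FreeGroup.invRev]

theorem Dual_lt_inj [DecidableEq α] : Function.Injective (lt (α := α)) := fun l l' h => by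
  have := congrArg FreeGroup.toWord h
  simpa [lt, FreeGroup.toWord_mk] using this

theorem Dual_mk (φ : MulAut (FreeGroup α)) (U : List (α × Bool)) :
    (U.map fun l => φ (lt l)).prod = φ (mk U) := by
  induction U with
  | nil => simp [← FreeGroup.one_eq_mk]
  | cons x t ih =>
    rw [List.map_cons, List.prod_cons, ih, ← _root_.map_mul, lt, FreeGroup.mul_mk]
    rfl

theorem Dual_del [DecidableEq α] (φ : MulAut (FreeGroup α)) (W : List (α × Bool))
    (l : α × Bool) : DualLoop (W.map fun l => φ (lt l)) (φ (lt l)) = φ (mk (del W l)) := by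
  have hf : Function.Injective fun l : α × Bool => φ (lt l) := φ.injective.comp Dual_lt_inj
  rw [DualLoop, ← _root_.map_inv, ← Dual_lt_bar, Dual_pre_map _ hf W l, Dual_pre_map _ hf W (bar l),
    Dual_mk, Dual_mk, ← _root_.map_inv, ← _root_.map_mul, ← _root_.map_mul, lt, FreeGroup.inv_mk, FreeGroup.mul_mk,
    FreeGroup.mul_mk, del]
  simp

theorem Dual_iff (hD : DiaSt) [DecidableEq α] [Fintype α] (c : Ctx α) (T : Set (FreeGroup α))
    (hT : ∀ w, w⁻¹ ∈ T → w ∈ T) (K : Subgroup (FreeGroup α)) {D : List (FreeGroup α)}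
    {a b : FreeGroup α} (h : IsD c D) (hab : Adj D a b) (h1 : ∀ w ∈ T, w ∈ D)
    (h2 : ∀ w ∈ T, w ∈ slide D a b) :
    (∀ w ∈ D, w ∉ T → DualLoop D w ∈ K) ↔
      ∀ w ∈ slide D a b, w ∉ T → DualLoop (slide D a b) w ∈ K := by
  obtain ⟨n1, -, -, n2, n3⟩ := (hD α c).2.2.2.2 D h
  obtain ⟨ha, hb, hba, hba', he, h', hR⟩ := n3 a b hab
  obtain ⟨s1, s2, s3⟩ := Dual_step n1 ((hD α c).2.2.2.2 _ h').1 hab (n2 a ha).1 (n2 b hb).1
    (n2 a ha).2.2.1 (n2 b hb).2.2.1 hba hba'
  have hT' : ∀ w, w⁻¹ ∉ T → w ∉ T := fun w hw hw' => hw (hT _ (by rwa [inv_inv]))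
  have aT : a ∉ T := fun e => by
    rcases (hR a).1 (h2 a e) with e' | e' | e'
    · exact e'.2.1 rfl
    · exact he (e' ▸ ha)
    · refine he ?_
      rw [← inv_inv (a * b), ← e']
      exact (n2 a ha).1
  have eT : a * b ∉ T := fun e => he (h1 _ e)
  constructor
  · intro hQ w hw hwT
    have ka := hQ a ha aT
    rcases (hR w).1 hw with e | rfl | rfl
    · by_cases e1 : w = b
      · subst e1
        rw [s2]
        exact K.mul_mem (K.inv_mem ka) (hQ _ hb hwT)
      by_cases e2 : w = b⁻¹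
      · subst e2
        rw [Dual_loop_inv, s2]
        exact K.inv_mem (K.mul_mem (K.inv_mem ka) (hQ _ hb (hT' _ hwT)))
      rw [s3 w e.1 (n2 w e.1).1 e.2.1 e.2.2 e1 e2]
      exact hQ w e.1 hwT
    · rwa [s1]
    · rw [Dual_loop_inv, s1]
      exact K.inv_mem ka
  · intro hQ w hw hwT
    have ka : DualLoop D a ∈ K := s1 ▸ hQ _ ((hR _).2 (Or.inr (Or.inl rfl))) eT
    have kb : b ∉ T → DualLoop D b ∈ K := fun e => by
      have := K.mul_mem ka (hQ b ((hR _).2 (Or.inl ⟨hb, hba, hba'⟩)) e)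
      rwa [s2, mul_inv_cancel_left] at this
    by_cases e1 : w = a
    · rwa [e1]
    by_cases e2 : w = a⁻¹
    · rw [e2, Dual_loop_inv]
      exact K.inv_mem ka
    by_cases e3 : w = b
    · subst e3
      exact kb hwT
    by_cases e4 : w = b⁻¹
    · subst e4
      rw [Dual_loop_inv]
      exact K.inv_mem (kb (hT' _ hwT))
    rw [← s3 w hw (n2 w hw).1 e1 e2 e3 e4]
    exact hQ w ((hR _).2 (Or.inl ⟨hw, e1, e2⟩)) hwT

end Free

theorem dualSt (hD : DiaSt) (hM : MvSt) (hK : ConnSt) : DualSt := by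
  intro α _ _ c S K h0 φ hφ hS l hl
  let T : Set (FreeGroup α) := {w | ∃ l : α × Bool, l.1 ∈ S ∧ w = lt l}
  have hT : ∀ w, w⁻¹ ∈ T → w ∈ T := fun w ⟨l, h1, h2⟩ =>
    ⟨bar l, h1, by rw [Dual_lt_bar, ← h2, inv_inv]⟩
  have fx : ∀ l : α × Bool, l.1 ∈ S → φ (lt l) = lt l := by
    rintro ⟨x, _ | _⟩ hx
    · rw [show lt (x, false) = (of x)⁻¹ from Dual_lt_bar (x, true), _root_.map_inv, hS x hx]
    · exact hS x hx
  have key := (hK α c).2.2 {l | l.1 ∈ S} (fun D => ∀ w ∈ D, w ∉ T → DualLoop D w ∈ K)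
    (fun w hw hwT => by
      obtain ⟨u, -, rfl⟩ := List.mem_map.1 hw
      have := Dual_del 1 c.W u
      simp only [MulAut.one_apply] at this
      rw [show DualLoop c.D0 (lt u) = mk (del c.W u) from this]
      exact h0 u fun e => hwT ⟨u, e, rfl⟩)
    (fun D D' hm h1 h2 hQ => by
      have t1 : ∀ w ∈ T, w ∈ D := fun w ⟨l, a1, a2⟩ => a2 ▸ h1 l a1
      have t2 : ∀ w ∈ T, w ∈ D' := fun w ⟨l, a1, a2⟩ => a2 ▸ h2 l a1
      rcases (hM α c).2.2.1 D D' hm with ⟨a, b, hab, rfl⟩ | ⟨a, b, hab, rfl⟩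
      · exact (Dual_iff hD c T hT K hm.1 hab t1 t2).2 hQ
      · exact (Dual_iff hD c T hT K hm.2.1 hab t2 t1).1 hQ)
    (c.D0.map φ) ((hD α c).2.2.1 φ _ hφ (hD α c).2.1)
    (fun u hu => List.mem_map.2 ⟨lt u, List.mem_map.2 ⟨u, c.full.2 u, rfl⟩, fx u hu⟩)
    (φ (lt l)) (List.mem_map.2 ⟨lt l, List.mem_map.2 ⟨l, c.full.2 l, rfl⟩, rfl⟩)
    (fun ⟨u, a1, a2⟩ => hl (Dual_lt_inj (φ.injective (a2.trans (fx u a1).symm)) ▸ a1))
  rw [← Dual_del, ← Function.comp_def φ lt, ← List.map_map]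
  exact key

end Pool.Agent.MB
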