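import Pool.Agent.Lib.MP_c86c76_al.B.St

/-!
A diagram without reducing slide is the base diagram.
-/

set_option autoImplicit false

namespace Pool.Agent.MB

open FreeGroup

theorem end_adj {β : Type} (L : List β) (j : ℕ) (h : j + 1 < L.length) : Adj L L[j] L[j + 1] :=
  ⟨L.take j, L.drop (j + 2), by
    rw [← List.drop_eq_getElem_cons, ← List.drop_eq_getElem_cons, List.take_append_drop]⟩

variable {α : Type} [DecidableEq α]

theorem end_word (l : α × Bool) : (lt l).toWord = [l] := rfl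

omit [DecidableEq α] in
theorem end_bar (l : α × Bool) : lt (bar l) = (lt l)⁻¹ := by
  simp [lt, bar, inv_mk, invRev]

theorem end_tr (g p c q : FreeGroup α) (h : Bt p c q) : Bt (g * p) (g * c) (g * q) := by
  simpa [Bt, mul_assoc] using h

theorem end_self {p c : FreeGroup α} (h : Bt p c p) : c = p := by
  simp only [Bt, inv_mul_cancel, toWord_one, List.nil_eq_append_iff, toWord_eq_nil_iff] at h
  exact (inv_mul_eq_one.1 h.1).symm

variable [Fintype α]

/-- The middle edge of the geodesic from `1` to `d`. -/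
structure endSp (d x : FreeGroup α) (l : α × Bool) : Prop where
  b0 : Bt 1 x d
  b1 : Bt 1 (x * lt l) d
  b2 : Bt 1 x (x * lt l)
  b3 : Bt x (x * lt l) d
  s1 : sv x < sv (d⁻¹ * x)
  s2 : sv (d⁻¹ * (x * lt l)) < sv (x * lt l)

theorem end_inv (hB : BtSt) {d x : FreeGroup α} {l : α × Bool} (h : endSp d x l) :
    endSp d⁻¹ (d⁻¹ * (x * lt l)) (bar l) := by
  have e : d⁻¹ * (x * lt l) * lt (bar l) = d⁻¹ * x := by simp [end_bar, mul_assoc]
  have S := (hB α).1
  refine ⟨?_, ?_, ?_, ?_, ?_, ?_⟩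
  · simpa using end_tr d⁻¹ _ _ _ (S _ _ _ h.b1)
  · simpa [e] using end_tr d⁻¹ _ _ _ (S _ _ _ h.b0)
  · simpa [e] using end_tr d⁻¹ _ _ _ (S _ _ _ h.b3)
  · simpa [e] using end_tr d⁻¹ _ _ _ (S _ _ _ h.b2)
  · simpa using h.s2
  · simpa [e] using h.s1

theorem end_len (hB : BtSt) {d x y : FreeGroup α} {l l' : α × Bool} (h : endSp d x l)
    (h' : endSp d y l') : ∃ t, t ≠ [] ∧ x.toWord ++ [l] = y.toWord ++ t := by
  obtain ⟨S, -, B3, -, -, -, -, B8, -⟩ := hB α
  have s1 := h'.s1
  have s2 := h.s2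
  rcases B3 _ _ _ _ h.b1 h'.b0 with ⟨a, b⟩ | ⟨a, -⟩
  · have a1 := B8 _ _ _ a
    have a2 := B8 _ _ _ (S _ _ _ b)
    simp only [inv_one, one_mul] at a1
    omega
  · have b2 := h.b2
    simp only [Bt, inv_one, one_mul, inv_mul_cancel_left, end_word] at a b2
    refine ⟨_, fun e => ?_, b2.symm.trans a⟩
    rw [toWord_eq_nil_iff, inv_mul_eq_one] at e
    rw [← e] at s2
    omega

theorem end_uniq (hB : BtSt) {d x y : FreeGroup α} {l l' : α × Bool} (h : endSp d x l)
    (h' : endSp d y l') : x = y ∧ l = l' := by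
  obtain ⟨t, ht, e⟩ := end_len hB h h'
  obtain ⟨t', ht', e'⟩ := end_len hB h' h
  have l1 := congrArg List.length e
  have l2 := congrArg List.length e'
  have l3 := List.length_pos_iff.2 ht
  have l4 := List.length_pos_iff.2 ht'
  simp only [List.length_append, List.length_singleton] at l1 l2
  have e1 : x = y := toWord_injective (List.append_inj_left e (by omega))
  subst e1
  have b := h.b3
  have b' := h'.b3
  simp only [Bt, inv_mul_cancel_left, end_word] at b b'
  exact ⟨rfl, (List.cons.inj (b.symm.trans b')).1⟩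

theorem end_hh (hB : BtSt) {p q : FreeGroup α} (h : p ≠ q) : Hh p p q := by
  obtain ⟨-, -, -, -, -, -, -, B8, B9, -⟩ := hB α
  have a := B8 q q p (by simp [Bt])
  simp only [inv_mul_cancel] at a
  simp only [Hh, inv_mul_cancel]
  exact lt_of_le_of_ne a fun e => h (inv_mul_eq_one.1 (B9 _ _ e).symm).symm

theorem endSt (hB : BtSt) (hD : DiaSt) : EndSt := by
  intro α _ _ c D hI hM
  obtain ⟨hW, -, -, -, hD⟩ := hD α c
  obtain ⟨-, hlen, hprod, hmem, -⟩ := hD D hI
  obtain ⟨S, B2, -, B4, B5, B6, B7, -, -, B10, -⟩ := hB α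
  obtain ⟨P, hP⟩ : ∃ P : ℕ → FreeGroup α, ∀ i, P i = (D.take i).prod := ⟨_, fun _ => rfl⟩
  have P0 : P 0 = 1 := by simp [hP]
  have Ps : ∀ j (h : j < D.length), P (j + 1) = P j * D[j] := fun j h => by
    rw [hP, hP, List.prod_take_succ _ _ h]
  have Pm : ∀ j, D.length ≤ j → P j = c.r := fun j h => by
    rw [hP, List.take_of_length_le h, hprod]
  have Pne : ∀ j, j < D.length → P j ≠ P (j + 1) := fun j h e => by
    rw [Ps j h, left_eq_mul] at e
    exact (hmem _ (List.getElem_mem h)).2.1 e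
  choose C c1 c2 c3 using fun i => B2 (P (i - 1)) (P i) (P (i + 1))
  have C0 : C 0 = 1 := (end_self (c1 0)).trans P0
  have Cm : C D.length = c.r := by
    have := c2 D.length
    rw [Pm _ le_rfl, Pm _ (Nat.le_succ _)] at this
    exact end_self this
  have H0 : ∀ j, j + 1 < D.length → Hh (P j) (P (j + 1)) (P (j + 2)) ∧
      Hh (P (j + 2)) (P (j + 1)) (P j) := fun j h => by
    have := hM _ _ (end_adj D j h)
    rw [Ps (j + 1) h, Ps j (by omega)]
    simpa [Mx, Hh, mul_assoc] using this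
  have H1 : ∀ j, j < D.length → Hh (P (j - 1)) (P j) (P (j + 1)) := fun j h => by
    rcases j with _ | j
    · exact end_hh hB (Pne 0 h)
    · exact (H0 j h).1
  have H2 : ∀ j, j < D.length → Hh (P (j + 2)) (P (j + 1)) (P j) := fun j h => by
    by_cases e : j + 1 < D.length
    · exact (H0 j e).2
    · rw [Pm (j + 2) (by omega), ← Pm (j + 1) (by omega)]
      exact end_hh hB (Pne j h).symm
  have T : ∀ j, j < D.length →
      C j ≠ C (j + 1) ∧ Bt (P j) (C j) (C (j + 1)) ∧ Bt (C j) (C (j + 1)) (P (j + 1)) :=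
    fun j h => B10 _ _ _ _ _ _ (c2 j) (S _ _ _ (c1 j)) (S _ _ _ (c3 j)) (c1 (j + 1)) (c3 (j + 1))
      (c2 (j + 1)) (H1 j h) (H2 j h)
  have G : ∀ j, j < D.length → Bt 1 (C j) (C (j + 1)) := by
    intro j
    induction j with
    | zero => intro _; simp [C0, Bt]
    | succ j ih =>
      intro h
      have t := T j (by omega)
      have a1 := (B4 _ _ _ _ t.2.1 (c3 (j + 1))).2
      have a2 := S _ _ _ (B4 _ _ _ _ (S _ _ _ (T (j + 1) h).2.2) (S _ _ _ a1)).2
      rw [B5, B6 _ _ _ (S _ _ _ (ih (by omega))) t.1.symm]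
      exact Or.inr (((B5 _ _ _).1 a2).resolve_left t.1)
  have G' : ∀ j, j < D.length → ∃ t, t ≠ [] ∧ (C (j + 1)).toWord = (C j).toWord ++ t :=
    fun j h => ⟨_, fun e => (T j h).1 (inv_mul_eq_one.1 (toWord_eq_nil_iff.1 e)), by
      simpa [Bt] using G j h⟩
  have L1 : ∀ j, j ≤ D.length → j ≤ (C j).toWord.length := by
    intro j
    induction j with
    | zero => intro _; omega
    | succ j ih =>
      intro h
      obtain ⟨t, ht, e⟩ := G' j h
      have := List.length_pos_iff.2 ht
      have := ih (by omega)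
      rw [e, List.length_append]
      omega
  have L2 : ∀ k j, j + k = D.length → ∃ t, k ≤ t.length ∧ c.W = (C j).toWord ++ t := by
    intro k
    induction k with
    | zero =>
      intro j h
      refine ⟨[], le_rfl, ?_⟩
      rw [show j = D.length from h, Cm, Ctx.r, toWord_mk, hW.reduce_eq, List.append_nil]
    | succ k ih =>
      intro j h
      obtain ⟨t, ht, e⟩ := G' j (by omega)
      obtain ⟨t', ht', e'⟩ := ih (j + 1) (by omega)
      have := List.length_pos_iff.2 ht
      exact ⟨t ++ t', by rw [List.length_append]; omega, by rw [e', e, List.append_assoc]⟩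
  have L3 : ∀ j, j ≤ D.length → C j = mk (c.W.take j) := fun j h => by
    obtain ⟨t, ht, e⟩ := L2 (D.length - j) j (by omega)
    have l1 := congrArg List.length e
    have l2 := L1 j h
    rw [List.length_append] at l1
    rw [e, List.take_left' (by omega), mk_toWord]
  have Cs : ∀ j (h : j < c.W.length), C (j + 1) = C j * lt c.W[j] := fun j h => by
    rw [L3 j (by omega), L3 (j + 1) (by omega), lt, mul_mk, List.take_succ_eq_append_getElem h]
  have Sp : ∀ j (h : j < D.length), endSp D[j] ((P j)⁻¹ * C j) (c.W[j]'(by omega)) := fun j h => by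
    have t := T j h
    have a1 := (B7 _ _ _ _ (S _ _ _ (c1 j)) (S _ _ _ (c3 j))).1 (H1 j h)
    have a2 := (B7 _ _ _ _ (c2 (j + 1)) (c3 (j + 1))).1 (H2 j h)
    have b0 := end_tr (P j)⁻¹ _ _ _ (c2 j)
    have b1 := end_tr (P j)⁻¹ _ _ _ (c1 (j + 1))
    have b2 := end_tr (P j)⁻¹ _ _ _ t.2.1
    have b3 := end_tr (P j)⁻¹ _ _ _ t.2.2
    simp only [Nat.add_sub_cancel, Ps j h, Cs j (by omega), inv_mul_cancel, inv_mul_cancel_left,
      mul_inv_rev, mul_assoc] at a1 a2 b0 b1 b2 b3
    exact ⟨b0, by rwa [mul_assoc], by rwa [mul_assoc], by rwa [mul_assoc], a1,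
      by rwa [mul_assoc]⟩
  have Xs : ∀ j (h : j < D.length), (P (j + 1))⁻¹ * C (j + 1) =
      D[j]⁻¹ * ((P j)⁻¹ * C j * lt (c.W[j]'(by omega))) := fun j h => by
    rw [Ps j h, Cs j (by omega)]; simp [mul_assoc]
  have Xm : (P D.length)⁻¹ * C D.length = 1 := by rw [Pm _ le_rfl, Cm, inv_mul_cancel]
  have X1 : ∀ n j (h : j < c.W.length), c.ρ c.W[j] < n → (P j)⁻¹ * C j = 1 := by
    intro n
    induction n with
    | zero => intro j h e; omega
    | succ n ih =>
      intro j h e
      obtain ⟨i, hi, ei⟩ := List.getElem_of_mem (hmem _ (List.getElem_mem (hlen ▸ h))).1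
      have u := end_inv hB (Sp i hi)
      rw [← Xs i hi, ei, inv_inv] at u
      obtain ⟨u1, u2⟩ := end_uniq hB (Sp j (by omega)) u
      rw [u1]
      by_cases e' : i + 1 < c.W.length
      · have := c.ch _ _ (end_adj c.W i e')
        rw [← u2] at this
        exact ih _ e' (by omega)
      · rw [show i + 1 = D.length by omega, Xm]
  have X2 : ∀ j, j ≤ D.length → (P j)⁻¹ * C j = 1 := fun j h => by
    by_cases e : j < c.W.length
    · exact X1 _ j e (Nat.lt_succ_self _)
    · rw [show j = D.length by omega, Xm]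
  refine List.ext_getElem (by simp [Ctx.D0, hlen]) fun j h h' => ?_
  have := Xs j h
  rw [X2 j h.le, X2 (j + 1) h, one_mul, eq_comm, inv_mul_eq_one] at this
  simp [Ctx.D0, this]

end Pool.Agent.MB
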