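import Pool.Agent.Lib.MP_c86c76_al.B.St

/-!
The boundary word lies in no proper free factor; its centraliser.
-/

set_option autoImplicit false

namespace Pool.Agent.MB

open FreeGroup hiding map_mul map_inv map_one

/-- The integral Heisenberg group. -/
@[ext] structure EssH : Type where
  a : ℤ
  b : ℤ
  c : ℤ

instance essHGroup : Group EssH where
  mul x y := ⟨x.a + y.a, x.b + y.b, x.c + y.c + x.a * y.b⟩
  one := ⟨0, 0, 0⟩
  inv x := ⟨-x.a, -x.b, x.a * x.b - x.c⟩
  mul_assoc x y z := EssH.ext (add_assoc _ _ _) (add_assoc _ _ _) (by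
    change x.c + y.c + x.a * y.b + z.c + (x.a + y.a) * z.b =
      x.c + (y.c + z.c + y.a * z.b) + x.a * (y.b + z.b)
    ring)
  one_mul x := EssH.ext (zero_add _) (zero_add _) (by
    change 0 + x.c + 0 * x.b = x.c
    ring)
  mul_one x := EssH.ext (add_zero _) (add_zero _) (by
    change x.c + 0 + x.a * 0 = x.c
    ring)
  inv_mul_cancel x := EssH.ext (neg_add_cancel _) (neg_add_cancel _) (by
    change x.a * x.b - x.c + x.c + -x.a * x.b = 0
    ring)

theorem Ess_mul_a (x y : EssH) : (x * y).a = x.a + y.a := rfl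
theorem Ess_mul_b (x y : EssH) : (x * y).b = x.b + y.b := rfl
theorem Ess_mul_c (x y : EssH) : (x * y).c = x.c + y.c + x.a * y.b := rfl
theorem Ess_inv_a (x : EssH) : (x⁻¹).a = -x.a := rfl
theorem Ess_inv_b (x : EssH) : (x⁻¹).b = -x.b := rfl
theorem Ess_inv_c (x : EssH) : (x⁻¹).c = x.a * x.b - x.c := rfl
theorem Ess_one_a : (1 : EssH).a = 0 := rfl
theorem Ess_one_b : (1 : EssH).b = 0 := rfl
theorem Ess_one_c : (1 : EssH).c = 0 := rfl

variable {α : Type}

theorem Ess_cons (l : α × Bool) (W : List (α × Bool)) : mk (l :: W) = lt l * mk W := by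
  rw [lt, mul_mk]; rfl

theorem Ess_lt_t (x : α) : lt (x, true) = of x := rfl

theorem Ess_lt_f (x : α) : lt (x, false) = (of x)⁻¹ := rfl

theorem Ess_lt_bar (l : α × Bool) : lt (bar l) = (lt l)⁻¹ := rfl

theorem Ess_mem_Fr {S : Set α} {M : List (α × Bool)} (h : ∀ l ∈ M, l.1 ∉ S) : mk M ∈ Fr S := by
  induction M with
  | nil => exact one_mem _
  | cons l M ih =>
    rw [Ess_cons]
    refine mul_mem ?_ (ih fun u hu => h u (List.mem_cons_of_mem _ hu))
    have h1 : of l.1 ∈ Fr S := Subgroup.subset_closure ⟨l.1, h l List.mem_cons_self, rfl⟩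
    obtain ⟨x, _ | _⟩ := l
    · exact inv_mem h1
    · exact h1

/-- A full word dies in every commutative group. -/
theorem Ess_kill [DecidableEq α] [Fintype α] {A : Type} [CommGroup A] (φ : FreeGroup α →* A)
    {W : List (α × Bool)} (hW : Full W) : φ (mk W) = 1 := by
  have h1 : ∀ U : List (α × Bool), φ (mk U) = (U.map fun l => φ (lt l)).prod := fun U => by
    induction U with
    | nil => exact map_one φ
    | cons l U ih => rw [Ess_cons, map_mul, ih, List.map_cons, List.prod_cons]
  have h2 : W.toFinset = Finset.univ := Finset.eq_univ_of_forall fun l => List.mem_toFinset.2 (hW.2 l)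
  rw [h1, ← List.prod_toFinset _ hW.1, h2, Fintype.prod_prod_type]
  refine Finset.prod_eq_one fun x _ => ?_
  rw [Fintype.prod_bool, Ess_lt_t, Ess_lt_f, map_inv, mul_inv_cancel]

/-- The Heisenberg representation. -/
def EssR [DecidableEq α] (A : α → ℤ) (y : α) : FreeGroup α →* EssH :=
  FreeGroup.lift fun x => ⟨A x, if x = y then 1 else 0, 0⟩

theorem Ess_of [DecidableEq α] (A : α → ℤ) (y x : α) :
    EssR A y (of x) = ⟨A x, if x = y then 1 else 0, 0⟩ := lift_apply_of

theorem Ess_c [DecidableEq α] (A : α → ℤ) (y : α) {W : List (α × Bool)} (hW : W.Nodup) :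
    (EssR A y (mk W)).b = (if (y, true) ∈ W then 1 else 0) - (if (y, false) ∈ W then 1 else 0) ∧
    (EssR A y (mk W)).c =
      (if (y, true) ∈ W then (EssR A y (mk (W.takeWhile fun u => u ≠ (y, true)))).a else 0) +
      (if (y, false) ∈ W then A y - (EssR A y (mk (W.takeWhile fun u => u ≠ (y, false)))).a
        else 0) := by
  have h0 : (mk [] : FreeGroup α) = 1 := rfl
  induction W with
  | nil => simp [h0, Ess_one_b, Ess_one_c]
  | cons l W ih =>
    obtain ⟨h1, h2⟩ := List.nodup_cons.1 hW
    obtain ⟨ib, ic⟩ := ih h2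
    rw [Ess_cons, map_mul, Ess_mul_b, Ess_mul_c, ib, ic]
    obtain ⟨x, s⟩ := l
    by_cases hx : x = y
    · subst hx
      cases s
      · simp only [List.takeWhile_cons, h1, Ess_lt_f, map_inv, Ess_of, Ess_inv_a, Ess_inv_b,
          Ess_inv_c, List.mem_cons]
        by_cases ht : (x, true) ∈ W <;>
          simp [ht, Ess_cons, h0, Ess_lt_f, Ess_of, Ess_mul_a, Ess_inv_a, Ess_one_a]
      · simp only [List.takeWhile_cons, h1, Ess_lt_t, Ess_of, List.mem_cons]
        by_cases ht : (x, false) ∈ W <;>
          simp [ht, Ess_cons, h0, Ess_lt_t, Ess_of, Ess_mul_a, Ess_one_a]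
        ring
    · have hx' : ¬ y = x := fun e => hx e.symm
      have hb : (EssR A y (lt (x, s))).b = 0 ∧ (EssR A y (lt (x, s))).c = 0 := by
        cases s <;> simp [Ess_lt_f, Ess_lt_t, Ess_of, hx, Ess_inv_b, Ess_inv_c]
      by_cases ht : (y, true) ∈ W <;> by_cases hf : (y, false) ∈ W <;>
        simp [ht, hf, hx, hx', hb.1, hb.2, Ess_cons, Ess_mul_a] <;> ring

theorem essSt : EssSt := by
  intro α _ _ W hW hcl θ x hx
  let e : FreeGroup α →* Multiplicative ℤ :=
    FreeGroup.lift fun y => if y = x then Multiplicative.ofAdd 1 else 1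
  let al : FreeGroup α →* Multiplicative ℤ := e.comp θ.toMonoidHom
  have hal : ∀ w, al (θ⁻¹ w) = e w := fun w => by simp [al]
  let A : α → ℤ := fun y => (al (of y)).toAdd
  have ha : ∀ y w, (EssR A y w).a = (al w).toAdd := fun y w => by
    induction w using FreeGroup.induction_on with
    | C1 => simp [Ess_one_a]
    | of z => rw [Ess_of]
    | inv_of z ih => rw [map_inv, map_inv, Ess_inv_a, ih, toAdd_inv]
    | mul u v iu iv => rw [map_mul, map_mul, Ess_mul_a, iu, iv, toAdd_mul]
  have key : ∀ y, al (mk (del W (y, true))) = 1 := fun y => by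
    let g : FreeGroup α →* Multiplicative ℤ :=
      FreeGroup.lift fun z => Multiplicative.ofAdd (EssR A y (θ⁻¹ (of z))).c
    have h1 : ∀ w ∈ Fr {x}, e w = 1 ∧ (EssR A y (θ⁻¹ w)).c = (g w).toAdd := fun w hw => by
      induction hw using Subgroup.closure_induction with
      | mem w hw =>
        obtain ⟨z, hz, rfl⟩ := hw
        have hz' : z ≠ x := hz
        simp [e, g, hz']
      | one => simp [Ess_one_c]
      | mul u v _ _ iu iv =>
        refine ⟨by rw [map_mul, iu.1, iv.1, mul_one], ?_⟩
        rw [map_mul, map_mul, map_mul, Ess_mul_c, iu.2, iv.2, ha, hal, iu.1, toAdd_mul]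
        simp
      | inv u _ iu =>
        refine ⟨by rw [map_inv, iu.1, inv_one], ?_⟩
        rw [map_inv, map_inv, map_inv, Ess_inv_c, iu.2, ha, hal, iu.1, toAdd_inv]
        simp
    have h2 := (h1 _ hx).2
    have h3 : g (θ (mk W)) = 1 := Ess_kill (g.comp θ.toMonoidHom) hW
    rw [h3, MulAut.inv_apply_self, (Ess_c A y hW.1).2, if_pos (hW.2 _), if_pos (hW.2 _), ha,
      ha] at h2
    rw [del, ← mul_mk, Ess_cons, ← inv_mk, map_mul, map_mul, map_inv, ← toAdd_eq_zero, toAdd_mul,
      toAdd_mul, toAdd_inv, ← sub_eq_add_neg]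
    exact h2
  have h4 : θ⁻¹ (of x) ∈ al.ker := by
    have : Subgroup.closure (Set.range fun x => mk (del W (x, true))) ≤ al.ker :=
      (Subgroup.closure_le _).2 (by rintro _ ⟨y, rfl⟩; exact key y)
    exact this (hcl ▸ Subgroup.mem_top _)
  rw [MonoidHom.mem_ker, hal] at h4
  simp [e] at h4

theorem Ess_core [DecidableEq α] {S : List (α × Bool)} (hS : S.Nodup) (hne : S ≠ [])
    {w : FreeGroup α} (hc : Commute w (mk S)) (hw : w ≠ 1) (hr : IsReduced (S ++ w.toWord)) :
    ∃ w', w = mk S * w' ∧ norm w' < norm w := by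
  have h1 : reduce (w.toWord ++ S) = S ++ w.toWord := by
    rw [← toWord_mk, ← mul_mk, mk_toWord, hc.eq]
    conv_lhs => rw [← mk_toWord (x := w), mul_mk, toWord_mk, hr.reduce_eq]
  have h2 : S ++ w.toWord = w.toWord ++ S :=
    (h1 ▸ (reduce.red (L := w.toWord ++ S)).sublist).eq_of_length (by simp [add_comm])
  have hl := List.length_pos_iff.2 hne
  rcases List.append_eq_append_iff.1 h2 with ⟨U, h3, -⟩ | ⟨U, h3, h4⟩
  · refine ⟨mk U, by rw [mul_mk, ← h3, mk_toWord], norm_mk_le.trans_lt ?_⟩
    rw [FreeGroup.norm, h3, List.length_append]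
    omega
  · have hv : w.toWord ≠ [] := fun h => hw (toWord_eq_nil_iff.1 h)
    rcases U with _ | ⟨u, U⟩
    · refine ⟨1, by rw [h3, List.append_nil, mk_toWord, mul_one], ?_⟩
      rw [FreeGroup.norm_one]
      exact Nat.pos_of_ne_zero fun h => hw (norm_eq_zero.1 h)
    · obtain ⟨v, V, hV⟩ := List.exists_cons_of_ne_nil hv
      rw [hV] at h3 h4
      have h5 : v = u := by
        rw [h3] at h4
        exact (List.cons.inj h4).1
      rw [h3, h5] at hS
      simp at hS

theorem cenSt (hD : DiaSt) : CenSt := by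
  intro α _ _ c w hw
  by_cases hne : c.W = []
  · exact Or.inl hne
  right
  have hred := (hD α c).1
  have hinv : IsReduced (invRev c.W) := by
    have := isReduced_toWord (x := (mk c.W)⁻¹)
    rwa [toWord_inv, toWord_mk, hred.reduce_eq] at this
  have hnd : (invRev c.W).Nodup := by
    rw [invRev, List.nodup_reverse]
    exact c.full.1.map fun a b h => by
      obtain ⟨h1, h2⟩ := Prod.mk.inj h
      exact Prod.ext h1 (Bool.not_inj h2)
  have hne' : invRev c.W ≠ [] := fun h => hne (by rw [← invRev_invRev (L₁ := c.W), h]; rfl)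
  have hj : ∀ V : List (α × Bool), IsReduced V →
      IsReduced (c.W ++ V) ∨ IsReduced (invRev c.W ++ V) := fun V hV => by
    by_contra hcon
    obtain ⟨n1, n2⟩ := not_or.1 hcon
    obtain ⟨l, W', hW'⟩ := List.exists_cons_of_ne_nil hne
    rcases V with _ | ⟨v, V⟩
    · exact n1 (by rwa [List.append_nil])
    have e2 : v = l := by
      by_contra h
      refine n2 (List.IsChain.append hinv hV ?_)
      intro a ha b hb e
      rw [hW', invRev_cons] at ha
      simp only [invRev, List.map_cons, List.map_nil, List.reverse_cons, List.reverse_nil,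
        List.nil_append, List.getLast?_append, List.getLast?_singleton, Option.some_or,
        Option.mem_def, Option.some.injEq, List.head?_cons] at ha hb
      subst ha hb
      by_contra h'
      exact h (Prod.ext e.symm (by simpa [eq_comm] using h'))
    subst e2
    refine n1 (List.IsChain.append hred hV ?_)
    intro a ha b hb e
    simp only [Option.mem_def, Option.some.injEq, List.head?_cons] at hb
    subst hb
    by_contra h'
    have e3 : a = bar v := Prod.ext e (by simpa [bar, Bool.eq_not] using h')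
    rcases List.eq_nil_or_concat W' with rfl | ⟨M, z, rfl⟩
    · rw [hW'] at ha
      simp only [List.getLast?_singleton, Option.mem_def, Option.some.injEq] at ha
      exact h' (ha ▸ rfl)
    · have e4 : z = bar v := by
        rw [hW', List.concat_eq_append, ← List.cons_append, List.getLast?_append] at ha
        simpa [e3] using ha
      subst e4
      have hn := c.full.1
      rw [hW', List.concat_eq_append] at hn
      refine c.ess (MulAut.conj (lt v)⁻¹) v.1 ?_
      have e5 : MulAut.conj (lt v)⁻¹ (mk c.W) = mk M := by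
        rw [hW', List.concat_eq_append, Ess_cons, ← mul_mk, MulAut.conj_apply]
        change _ * (_ * (_ * lt (bar v))) * _ = _
        rw [Ess_lt_bar]
        group
      rw [e5]
      refine Ess_mem_Fr fun u hu (e6 : u.1 = v.1) => ?_
      by_cases e7 : u.2 = v.2
      · obtain rfl : u = v := Prod.ext e6 e7
        simp [hu] at hn
      · obtain rfl : u = bar v := Prod.ext e6 (by simpa [bar, Bool.eq_not] using e7)
        simp only [List.nodup_cons, List.nodup_append, List.mem_singleton] at hn
        exact hn.2.2.2 _ hu _ rfl rfl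
  induction hn : norm w using Nat.strong_induction_on generalizing w with
  | _ n ih =>
    by_cases h1 : w = 1
    · exact h1 ▸ one_mem _
    have hr : c.r ∈ Subgroup.zpowers c.r := Subgroup.mem_zpowers _
    rcases hj _ (isReduced_toWord (x := w)) with h | h
    · obtain ⟨w', e, hlt⟩ := Ess_core c.full.1 hne hw h1 h
      have e' : w' = c.r⁻¹ * w := by rw [e, Ctx.r, inv_mul_cancel_left]
      rw [e]
      exact mul_mem hr (ih _ (hn ▸ hlt) w' (e' ▸ (Commute.refl _).inv_left.mul_left hw) rfl)
    · obtain ⟨w', e, hlt⟩ := Ess_core hnd hne' (by rw [← inv_mk]; exact hw.inv_right) h1 h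
      rw [← inv_mk] at e
      have e' : w' = c.r * w := by rw [e, Ctx.r, mul_inv_cancel_left]
      rw [e]
      exact mul_mem (inv_mem hr) (ih _ (hn ▸ hlt) w' (e' ▸ (Commute.refl _).mul_left hw) rfl)

end Pool.Agent.MB
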