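import Pool.Agent.Lib.MP_c86c76_al.B.St

/-!
Splitting off a commutator or a boundary block.
-/

set_option autoImplicit false

namespace Pool.Agent.MB

open FreeGroup

section

variable {α : Type}

theorem ex_bar_bar (l : α × Bool) : bar (bar l) = l := by
  obtain ⟨a, s⟩ := l
  simp [bar]

theorem ex_bar_ne (l : α × Bool) : l ≠ bar l := by
  obtain ⟨a, s⟩ := l
  cases s <;> simp [bar]

theorem ex_fst (l u : α × Bool) (h : u.1 = l.1) : u = l ∨ u = bar l := by
  obtain ⟨a, s⟩ := l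
  obtain ⟨b, t⟩ := u
  simp only at h
  subst h
  cases s <;> cases t <;> simp [bar]

theorem ex_lt_true (a : α) : lt (a, true) = of a := rfl

theorem ex_lt_false (a : α) : lt (a, false) = (of a)⁻¹ := by
  simp [lt, of, inv_mk, invRev]

theorem ex_lt_bar (l : α × Bool) : lt (bar l) = (lt l)⁻¹ := by
  obtain ⟨a, s⟩ := l
  cases s
  · simp [bar, ex_lt_true, ex_lt_false]
  · simp [bar, ex_lt_true, ex_lt_false]

theorem ex_mk_cons (l : α × Bool) (L : List (α × Bool)) : mk (l :: L) = lt l * mk L := by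
  simp [lt, mul_mk]

theorem ex_mk_append (L L' : List (α × Bool)) : mk (L ++ L') = mk L * mk L' := mul_mk.symm

theorem ex_mk_nil : (mk [] : FreeGroup α) = 1 := rfl

theorem ex_lt_mem (a : α) (l : α × Bool) (h : l.1 ≠ a) : lt l ∈ Fr ({a} : Set α) := by
  obtain ⟨b, s⟩ := l
  have hb : of b ∈ Fr ({a} : Set α) := Subgroup.subset_closure ⟨b, h, rfl⟩
  cases s
  · rw [ex_lt_false]; exact inv_mem hb
  · rw [ex_lt_true]; exact hb

theorem ex_mk_mem (a : α) (L : List (α × Bool)) (h : ∀ l ∈ L, l.1 ≠ a) :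
    mk L ∈ Fr ({a} : Set α) := by
  induction L with
  | nil => exact one_mem _
  | cons l L ih =>
    rw [ex_mk_cons]
    exact mul_mem (ex_lt_mem a l (h l (by simp))) (ih fun u hu => h u (by simp [hu]))

theorem ex_fix (a : α) (f : FreeGroup α →* FreeGroup α) (hf : ∀ x, x ≠ a → f (of x) = of x)
    (w : FreeGroup α) (hw : w ∈ Fr ({a} : Set α)) : f w = w := by
  induction hw using Subgroup.closure_induction with
  | mem w hw =>
    obtain ⟨b, hb, rfl⟩ := hw
    exact hf b hb
  | one => exact _root_.map_one f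
  | mul u v _ _ hu hv => rw [_root_.map_mul, hu, hv]
  | inv u _ hu => rw [_root_.map_inv, hu]

theorem ex_aut0 [DecidableEq α] (a : α) (u v : FreeGroup α) (hu : u ∈ Fr ({a} : Set α))
    (hv : v ∈ Fr ({a} : Set α)) :
    ∃ ψ : MulAut (FreeGroup α), ψ (of a) = u * of a * v ∧ ∀ x, x ≠ a → ψ (of x) = of x := by
  let F : FreeGroup α → FreeGroup α → (FreeGroup α →* FreeGroup α) := fun p q =>
    lift fun x => if x = a then p * of a * q else of x
  have h1 : ∀ p q, F p q (of a) = p * of a * q := fun p q => by simp [F]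
  have h2 : ∀ p q x, x ≠ a → F p q (of x) = of x := fun p q x hx => by simp [F, hx]
  have h3 : ∀ p q, p ∈ Fr ({a} : Set α) → q ∈ Fr ({a} : Set α) →
      (F p q).comp (F p⁻¹ q⁻¹) = MonoidHom.id _ := by
    intro p q hp hq
    ext x
    by_cases hx : x = a
    · subst hx
      simp only [MonoidHom.comp_apply, MonoidHom.id_apply, h1, _root_.map_mul, _root_.map_inv]
      rw [ex_fix x _ (h2 p q) p hp, ex_fix x _ (h2 p q) q hq]
      group
    · simp only [MonoidHom.comp_apply, MonoidHom.id_apply, h2 _ _ x hx]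
  have h4 := h3 u⁻¹ v⁻¹ (inv_mem hu) (inv_mem hv)
  rw [inv_inv, inv_inv] at h4
  refine ⟨MonoidHom.toMulEquiv (F u v) (F u⁻¹ v⁻¹) h4 (h3 u v hu hv), ?_, ?_⟩
  · exact h1 u v
  · exact h2 u v

theorem ex_aut [DecidableEq α] (l : α × Bool) (u v : FreeGroup α) (hu : u ∈ Fr ({l.1} : Set α))
    (hv : v ∈ Fr ({l.1} : Set α)) :
    ∃ ψ : MulAut (FreeGroup α), ψ (lt l) = u * lt l * v ∧
      (∀ x, x ≠ l.1 → ψ (of x) = of x) ∧ ∀ w ∈ Fr ({l.1} : Set α), ψ w = w := by
  obtain ⟨a, s⟩ := l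
  cases s
  · obtain ⟨ψ, h1, h2⟩ := ex_aut0 a v⁻¹ u⁻¹ (inv_mem hv) (inv_mem hu)
    refine ⟨ψ, ?_, h2, fun w hw => ex_fix a ψ.toMonoidHom h2 w hw⟩
    rw [ex_lt_false, _root_.map_inv, h1]
    group
  · obtain ⟨ψ, h1, h2⟩ := ex_aut0 a u v hu hv
    exact ⟨ψ, h1, h2, fun w hw => ex_fix a ψ.toMonoidHom h2 w hw⟩

end

section

variable {β : Type}

theorem ex_adj_split (l1 l2 : List β) (z u v : β) (h : Adj (l1 ++ z :: l2) u v) (hu : u ≠ z)
    (hv : v ≠ z) : Adj l1 u v ∨ Adj l2 u v := by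
  obtain ⟨p, q, h⟩ := h
  induction l1 generalizing p with
  | nil =>
    cases p with
    | nil =>
      simp only [List.nil_append, List.cons.injEq] at h
      exact absurd h.1.symm hu
    | cons c p =>
      simp only [List.nil_append, List.cons_append, List.cons.injEq] at h
      exact Or.inr ⟨p, q, h.2⟩
  | cons b l1 ih =>
    cases p with
    | nil =>
      simp only [List.nil_append, List.cons_append, List.cons.injEq] at h
      obtain ⟨rfl, h⟩ := h
      cases l1 with
      | nil =>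
        simp only [List.nil_append, List.cons.injEq] at h
        exact absurd h.1.symm hv
      | cons c l1 =>
        simp only [List.cons_append, List.cons.injEq] at h
        obtain ⟨rfl, -⟩ := h
        exact Or.inl ⟨[], l1, rfl⟩
    | cons c p =>
      simp only [List.cons_append, List.cons.injEq] at h
      obtain ⟨rfl, h⟩ := h
      rcases ih p h with ⟨r, s, h'⟩ | h'
      · exact Or.inl ⟨b :: r, s, by rw [h']; rfl⟩
      · exact Or.inr h'

theorem ex_adj_left (l1 l2 : List β) (u v : β) (h : Adj l1 u v) : Adj (l1 ++ l2) u v := by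
  obtain ⟨p, q, rfl⟩ := h
  exact ⟨p, q ++ l2, by simp⟩

theorem ex_adj_right (l1 l2 : List β) (u v : β) (h : Adj l2 u v) : Adj (l1 ++ l2) u v := by
  obtain ⟨p, q, rfl⟩ := h
  exact ⟨l1 ++ p, q, by simp⟩

theorem ex_two (L : List β) (a b : β) (ha : a ∈ L) (hb : b ∈ L) (hab : a ≠ b) :
    ∃ A B C, L = A ++ a :: (B ++ b :: C) ∨ L = A ++ b :: (B ++ a :: C) := by
  obtain ⟨s, t, rfl⟩ := List.append_of_mem ha
  rcases List.mem_append.1 hb with h | h
  · obtain ⟨p, q, rfl⟩ := List.append_of_mem h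
    exact ⟨p, q, t, Or.inr (by simp)⟩
  · rcases List.mem_cons.1 h with h | h
    · exact absurd h.symm hab
    · obtain ⟨p, q, rfl⟩ := List.append_of_mem h
      exact ⟨s, p, q, Or.inl rfl⟩

theorem ex_cons_sub (a : β) (l L : List β) (h : List.Sublist (a :: l) L) :
    ∃ A B, L = A ++ a :: B ∧ List.Sublist l B := by
  obtain ⟨r1, r2, rfl, h1, h2⟩ := List.cons_sublist_iff.1 h
  obtain ⟨s, t, rfl⟩ := List.append_of_mem h1
  exact ⟨s, t ++ r2, by simp, h2.trans (List.sublist_append_right t r2)⟩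

end

theorem exCSt : ExCSt := by
  intro α _ M U x y hU hs hx hy
  obtain ⟨A, U2, rfl, hs2⟩ := ex_cons_sub _ _ _ hs
  obtain ⟨B, U3, rfl, hs3⟩ := ex_cons_sub _ _ _ hs2
  obtain ⟨C, U4, rfl, hs4⟩ := ex_cons_sub _ _ _ hs3
  obtain ⟨D, E, rfl, -⟩ := ex_cons_sub _ _ _ hs4
  have hperm : ((A ++ (D ++ (C ++ (B ++ E)))) ++ [x, y, bar x, bar y]).Perm
      (A ++ x :: (B ++ y :: (C ++ bar x :: (D ++ bar y :: E)))) := by
    refine List.perm_iff_count.2 fun a => ?_
    simp only [List.count_append, List.count_cons, List.count_nil]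
    omega
  have hN := hperm.nodup_iff.2 hU
  have hd := (List.nodup_append.1 hN).2.2
  have h4 := (List.nodup_append.1 hN).2.1
  have hxy : y.1 ≠ x.1 := by
    intro h
    rcases ex_fst x y h with h | h
    · rw [h] at h4; simp at h4
    · rw [h] at h4; simp at h4
  have hout : ∀ l ∈ A ++ (D ++ (C ++ (B ++ E))), l.1 ≠ x.1 ∧ l.1 ≠ y.1 := by
    intro l hl
    constructor
    · intro h
      rcases ex_fst x l h with h | h
      · exact hd l hl x (by simp) h
      · exact hd l hl (bar x) (by simp) h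
    · intro h
      rcases ex_fst y l h with h | h
      · exact hd l hl y (by simp) h
      · exact hd l hl (bar y) (by simp) h
  have hAx : mk A ∈ Fr ({x.1} : Set α) := ex_mk_mem _ _ fun l hl => (hout l (by simp [hl])).1
  have hBx : mk B ∈ Fr ({x.1} : Set α) := ex_mk_mem _ _ fun l hl => (hout l (by simp [hl])).1
  have hCx : mk C ∈ Fr ({x.1} : Set α) := ex_mk_mem _ _ fun l hl => (hout l (by simp [hl])).1
  have hDx : mk D ∈ Fr ({x.1} : Set α) := ex_mk_mem _ _ fun l hl => (hout l (by simp [hl])).1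
  have hEx : mk E ∈ Fr ({x.1} : Set α) := ex_mk_mem _ _ fun l hl => (hout l (by simp [hl])).1
  have hAy : mk A ∈ Fr ({y.1} : Set α) := ex_mk_mem _ _ fun l hl => (hout l (by simp [hl])).2
  have hBy : mk B ∈ Fr ({y.1} : Set α) := ex_mk_mem _ _ fun l hl => (hout l (by simp [hl])).2
  have hCy : mk C ∈ Fr ({y.1} : Set α) := ex_mk_mem _ _ fun l hl => (hout l (by simp [hl])).2
  have hDy : mk D ∈ Fr ({y.1} : Set α) := ex_mk_mem _ _ fun l hl => (hout l (by simp [hl])).2
  have hEy : mk E ∈ Fr ({y.1} : Set α) := ex_mk_mem _ _ fun l hl => (hout l (by simp [hl])).2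
  have hyx : lt y ∈ Fr ({x.1} : Set α) := ex_lt_mem _ _ hxy
  have hxy' : lt x ∈ Fr ({y.1} : Set α) := ex_lt_mem _ _ hxy.symm
  obtain ⟨ψ1, a1, a2, a3⟩ := ex_aut x (mk D * mk C * mk B * mk E) (mk B * mk E)⁻¹
    (mul_mem (mul_mem (mul_mem hDx hCx) hBx) hEx) (inv_mem (mul_mem hBx hEx))
  obtain ⟨ψ2, b1, b2, b3⟩ := ex_aut y (mk E) ((mk B * mk E)⁻¹ * (mk C)⁻¹)
    hEy (mul_mem (inv_mem (mul_mem hBy hEy)) (inv_mem hCy))
  refine ⟨A ++ (D ++ (C ++ (B ++ E))), hperm, ⟨ψ1 * ψ2, ?_, ?_⟩, ?_⟩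
  · intro a ha
    have hax : a ≠ x.1 := by
      rintro rfl
      rcases ha with ha | ha
      · exact hx ha
      · exact ha x.2 (by simp)
    have hay : a ≠ y.1 := by
      rintro rfl
      rcases ha with ha | ha
      · exact hy ha
      · exact ha y.2 (by simp)
    rw [MulAut.mul_apply, b2 a hay, a2 a hax]
  · simp only [MulAut.mul_apply, ex_mk_append, ex_mk_cons, ex_mk_nil, ex_lt_bar, _root_.map_mul, _root_.map_inv,
      b1, b3 _ hAy, b3 _ hBy, b3 _ hCy, b3 _ hDy, b3 _ hEy, b3 _ hxy', a1, a3 _ hAx, a3 _ hBx,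
      a3 _ hCx, a3 _ hDx, a3 _ hEx, a3 _ hyx]
    group
  · intro u v hu hv h
    have n1 : ∀ w : α × Bool, M w.1 → w ≠ x ∧ w ≠ y ∧ w ≠ bar x ∧ w ≠ bar y := by
      intro w hw
      refine ⟨?_, ?_, ?_, ?_⟩
      · rintro rfl; exact hx hw
      · rintro rfl; exact hy hw
      · rintro rfl; exact hx hw
      · rintro rfl; exact hy hw
    obtain ⟨u1, u2, u3, u4⟩ := n1 u hu
    obtain ⟨v1, v2, v3, v4⟩ := n1 v hv
    apply ex_adj_left
    rcases ex_adj_split _ _ _ _ _ h u1 v1 with h | h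
    · exact ex_adj_left _ _ _ _ h
    apply ex_adj_right
    rcases ex_adj_split _ _ _ _ _ h u2 v2 with h | h
    · exact ex_adj_right _ _ _ _ (ex_adj_right _ _ _ _ (ex_adj_left _ _ _ _ h))
    rcases ex_adj_split _ _ _ _ _ h u3 v3 with h | h
    · exact ex_adj_right _ _ _ _ (ex_adj_left _ _ _ _ h)
    rcases ex_adj_split _ _ _ _ _ h u4 v4 with h | h
    · exact ex_adj_left _ _ _ _ h
    · exact ex_adj_right _ _ _ _ (ex_adj_right _ _ _ _ (ex_adj_right _ _ _ _ h))

theorem ex_out {α : Type} (A B C : List (α × Bool)) (z : α × Bool)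
    (hU : (A ++ z :: (B ++ bar z :: C)).Nodup) : ∀ l ∈ A ++ (B ++ C), l.1 ≠ z.1 := by
  classical
  have hperm : ((A ++ (B ++ C)) ++ [z, bar z]).Perm (A ++ z :: (B ++ bar z :: C)) := by
    refine List.perm_iff_count.2 fun a => ?_
    simp only [List.count_append, List.count_cons, List.count_nil]
    omega
  have hd := (List.nodup_append.1 (hperm.nodup_iff.2 hU)).2.2
  intro l hl h
  rcases ex_fst z l h with h | h
  · exact hd l hl z (by simp) h
  · exact hd l hl (bar z) (by simp) h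

theorem ex_min {α : Type} (M : α → Prop) (U : List (α × Bool)) (hU : U.Nodup)
    (hb : ∀ l ∈ U, ¬ M l.1 → bar l ∈ U)
    (hi : ∀ x y : α × Bool, ¬ M x.1 → ¬ M y.1 → ¬ List.Sublist [x, y, bar x, bar y] U) (n : ℕ) :
    ∀ (A B C : List (α × Bool)) (z : α × Bool), B.length = n → U = A ++ z :: (B ++ bar z :: C) →
      ¬ M z.1 → ∃ (A B C : List (α × Bool)) (z : α × Bool),
        U = A ++ z :: (B ++ bar z :: C) ∧ ¬ M z.1 ∧ ∀ l ∈ B, M l.1 := by
  induction n using Nat.strong_induction_on with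
  | _ n ih =>
    intro A B C z hn hE hz
    by_cases hB : ∀ l ∈ B, M l.1
    · exact ⟨A, B, C, z, hE, hz, hB⟩
    obtain ⟨y, hyB, hy⟩ : ∃ y ∈ B, ¬ M y.1 := by
      by_contra hc
      exact hB fun l hl => by
        by_contra h
        exact hc ⟨l, hl, h⟩
    have hyz : y.1 ≠ z.1 := ex_out A B C z (hE ▸ hU) y (by simp [hyB])
    have hby : bar y ∈ U := hb y (by rw [hE]; simp [hyB]) hy
    have hz1 : bar y ≠ z := fun h => hyz (by rw [← h]; rfl)
    have hz2 : bar y ≠ bar z := fun h => hyz (congrArg Prod.fst h :)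
    rw [hE] at hby
    simp only [List.mem_append, List.mem_cons, hz1, hz2, false_or] at hby
    rcases hby with h | h | h
    · exfalso
      apply hi (bar y) z hy hz
      rw [ex_bar_bar, hE]
      have s1 : List.Sublist [bar y] A := List.singleton_sublist.2 h
      have s2 : List.Sublist [y] B := List.singleton_sublist.2 hyB
      exact s1.append ((s2.append ((List.nil_sublist C).cons_cons (bar z))).cons_cons z)
    · obtain ⟨P, Q, R, h' | h'⟩ := ex_two B y (bar y) hyB h (ex_bar_ne y)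
      · refine ih Q.length ?_ (A ++ z :: P) Q (R ++ bar z :: C) y rfl ?_ hy
        · rw [← hn, h']; simp; omega
        · rw [hE, h']; simp
      · refine ih Q.length ?_ (A ++ z :: P) Q (R ++ bar z :: C) (bar y) rfl ?_ hy
        · rw [← hn, h']; simp; omega
        · rw [hE, h', ex_bar_bar]; simp
    · exfalso
      apply hi z y hz hy
      rw [hE]
      have s1 : List.Sublist [bar y] C := List.singleton_sublist.2 h
      have s2 : List.Sublist [y] B := List.singleton_sublist.2 hyB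
      exact (List.nil_sublist A).append ((s2.append (s1.cons_cons (bar z))).cons_cons z)

theorem exZSt : ExZSt := by
  intro α _ M U hU hb hex hi
  obtain ⟨l, hl, hlM⟩ := hex
  obtain ⟨A, B, C, z, hE, hz, hB⟩ : ∃ (A B C : List (α × Bool)) (z : α × Bool),
      U = A ++ z :: (B ++ bar z :: C) ∧ ¬ M z.1 ∧ ∀ l ∈ B, M l.1 := by
    obtain ⟨P, Q, R, h | h⟩ := ex_two U l (bar l) hl (hb l hl hlM) (ex_bar_ne l)
    · exact ex_min M U hU hb hi _ P Q R l rfl h hlM
    · exact ex_min M U hU hb hi _ P Q R (bar l) rfl (by rw [ex_bar_bar]; exact h) hlM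
  subst hE
  have hout := ex_out A B C z hU
  have hA : mk A ∈ Fr ({z.1} : Set α) := ex_mk_mem _ _ fun l hl => hout l (by simp [hl])
  have hB' : mk B ∈ Fr ({z.1} : Set α) := ex_mk_mem _ _ fun l hl => hout l (by simp [hl])
  have hC : mk C ∈ Fr ({z.1} : Set α) := ex_mk_mem _ _ fun l hl => hout l (by simp [hl])
  obtain ⟨ψ, a1, a2, a3⟩ := ex_aut z (mk C) 1 hC (one_mem _)
  refine ⟨A ++ C, z, B, hz, hB, ?_, ?_, ⟨ψ, ?_, ?_⟩, ?_⟩
  · exact (List.Sublist.refl A).append
      ((((List.Sublist.refl C).cons (bar z)).trans (List.sublist_append_right B _)).cons z)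
  · refine List.perm_iff_count.2 fun a => ?_
    simp only [List.count_append, List.count_cons, List.count_nil]
    omega
  · intro a ha
    apply a2
    rintro rfl
    rcases ha with ha | ha
    · exact hz ha
    · exact ha z.2 (by simp)
  · simp only [ex_mk_append, ex_mk_cons, ex_mk_nil, ex_lt_bar, _root_.map_mul, _root_.map_inv, a1, a3 _ hA,
      a3 _ hB', a3 _ hC, List.cons_append]
    group
  · intro u v hu hv h
    have n1 : ∀ w : α × Bool, M w.1 → w ≠ z ∧ w ≠ bar z := by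
      intro w hw
      refine ⟨?_, ?_⟩
      · rintro rfl; exact hz hw
      · rintro rfl; exact hz hw
    obtain ⟨u1, u2⟩ := n1 u hu
    obtain ⟨v1, v2⟩ := n1 v hv
    rcases ex_adj_split _ _ _ _ _ h u1 v1 with h | h
    · exact ex_adj_left _ _ _ _ (ex_adj_left _ _ _ _ h)
    rcases ex_adj_split _ _ _ _ _ h u2 v2 with h | h
    · apply ex_adj_right
      apply ex_adj_left
      exact ex_adj_right [z] B _ _ h
    · exact ex_adj_left _ _ _ _ (ex_adj_right _ _ _ _ h)

end Pool.Agent.MB
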