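import Pool.Agent.Lib.MP_c86c76_al.B.St

/-!
Generators of the stabiliser of an arc.
-/

set_option autoImplicit false

namespace Pool.Agent.MB

open FreeGroup

theorem genPmTrans {G : Type} [Group G] {y u v : G} (h1 : Pm y u) (h2 : Pm y v) : Pm u v := by
  unfold Pm at *
  rcases h1 with h1 | h1 <;> rcases h2 with h2 | h2
  · left; rw [← h1, h2]
  · right; rw [← h1, h2]
  · right; rw [← h2, h1, inv_inv]
  · left; exact inv_injective (h1.symm.trans h2)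

theorem genPmMap {G : Type} [Group G] (φ : MulAut G) {x y : G} (h : Pm x y) :
    Pm (φ x) (φ y) := by
  unfold Pm at *
  rcases h with h | h
  · left; rw [h]
  · right; rw [h, _root_.map_inv]

theorem genCrInv {α : Type} [DecidableEq α] (ρ : α × Bool → ℕ) (a y : FreeGroup α)
    (h : Cr ρ a y) : Cr ρ a y⁻¹ := by
  unfold Cr at *
  refine ⟨fun hp => h.1 ?_, ?_⟩
  · unfold Pm at *
    rcases hp with hp | hp
    · right; rw [← hp, inv_inv]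
    · left; exact inv_injective hp
  · rw [inv_inv]; exact fun e => h.2 e.symm

theorem genSt (hD : DiaSt) (hM : MvSt) (hK : ConnSt) (hO : OrdSt) : GenSt := by
  intro α _ _ c l0 A _ Γ Ty h1 h2 h3 h4 h5 h6
  obtain ⟨-, hD0, hmap, -, hdia⟩ := hD α c
  obtain ⟨hsym, -, -, hm4, -, -⟩ := hM α c
  obtain ⟨-, -, hconn⟩ := hK α c
  have ha0 : lt l0 ∈ c.D0 := List.mem_map.2 ⟨l0, c.full.2 l0, rfl⟩
  have hinv : ∀ (g : MulAut (FreeGroup α)) (x : FreeGroup α), g x = x → g⁻¹ x = x := by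
    intro g x hx
    have := congrArg (fun z => g⁻¹ z) hx
    simpa using this.symm
  have hpm : ∀ g g' : MulAut (FreeGroup α), g c.r = c.r → g' c.r = c.r →
      Pm (g (lt l0)) (g' (lt l0)) → g (lt l0) = g' (lt l0) := by
    intro g g' hg hg' hp
    rcases hp with hp | hp
    · exact hp
    · exfalso
      refine (hO α c c.D0 hD0).2.2.2 (lt l0) ha0 (g'⁻¹ * g) ?_ ?_
      · rw [MulAut.mul_apply, hg, hinv g' _ hg']
      · rw [MulAut.mul_apply, hp, _root_.map_inv]; simp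
  have hcr : ∀ D, IsD c D → lt l0 ∈ D → ∀ y ∈ D, Cr c.ρ (lt l0) y →
      ∀ g : MulAut (FreeGroup α), g c.r = c.r → g (lt l0) = lt l0 → ∀ x, Pm y (g x) →
      Cr c.ρ (lt l0) x := by
    intro D hDD ha y hy hc g hg hga x hp
    have hmem := (hdia D hDD).2.2.2.1
    have hw : g x ∈ D ∧ Cr c.ρ (lt l0) (g x) := by
      rcases hp with hp | hp
      · rw [← hp]; exact ⟨hy, hc⟩
      · have e : g x = y⁻¹ := by rw [hp, inv_inv]
        rw [e]; exact ⟨(hmem y hy).1, genCrInv _ _ _ hc⟩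
    have ho := (hO α c D hDD).2.1 g⁻¹ (hinv g _ hg)
    have e1 : g⁻¹ (lt l0) = lt l0 := hinv g _ hga
    have e2 : g⁻¹ (lt l0)⁻¹ = (lt l0)⁻¹ := by rw [_root_.map_inv, e1]
    have e3 : g⁻¹ (g x) = x := by simp
    have e4 : g⁻¹ (g x)⁻¹ = x⁻¹ := by rw [_root_.map_inv, e3]
    have o1 := ho _ ha _ hw.1
    have o2 := ho _ (hmem _ ha).1 _ hw.1
    have o3 := ho _ ha _ (hmem _ hw.1).1
    have o4 := ho _ (hmem _ ha).1 _ (hmem _ hw.1).1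
    rw [e1, e3] at o1
    rw [e2, e3] at o2
    rw [e1, e4] at o3
    rw [e2, e4] at o4
    refine ⟨fun hx => hw.2.1 ?_, ?_⟩
    · have := genPmMap g hx
      rwa [hga] at this
    · rw [o1, o2, o3, o4]; exact hw.2.2
  have core : ∀ D, IsD c D → lt l0 ∈ D → ∀ y ∈ D, Cr c.ρ (lt l0) y → ∀ j ∈ Γ, ∀ t ∈ Ty,
      Pm y (j.1 (t.1 (lt l0))) → ∀ g : MulAut (FreeGroup α), g c.r = c.r → g (lt l0) = lt l0 →
      ∀ k ∈ Γ, ∀ t' ∈ Ty, Pm y (g (k.1 (t'.1 (lt l0)))) → ∃ s, (g, s) ∈ Γ := by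
    intro D hDD ha y hy hc j hj t ht hp g hg hga k hk t' ht' hp'
    have e : (g * k.1 * t'.1) (lt l0) = (j.1 * t.1) (lt l0) := by
      refine hpm _ _ ?_ ?_ ?_
      · rw [MulAut.mul_apply, MulAut.mul_apply, h2 t' ht', (h1 k hk).1, hg]
      · rw [MulAut.mul_apply, h2 t ht, (h1 j hj).1]
      · simpa [MulAut.mul_apply] using genPmTrans hp' hp
    have f1 : (j.1⁻¹ * g * k.1) c.r = c.r := by
      rw [MulAut.mul_apply, MulAut.mul_apply, (h1 k hk).1, hg, hinv _ _ (h1 j hj).1]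
    have f2 : (j.1⁻¹ * g * k.1) (lt l0) = lt l0 := by
      rw [MulAut.mul_apply, MulAut.mul_apply, (h1 k hk).2, hga, hinv _ _ (h1 j hj).2]
    have f3 : (j.1⁻¹ * g * k.1) (t'.1 (lt l0)) = t.1 (lt l0) := by
      simp only [MulAut.mul_apply] at e ⊢
      rw [e]; simp
    have ett : t' = t := h3 t' ht' t ht _ f1 f2 f3
    subst ett
    have hct := hcr D hDD ha y hy hc j.1 (h1 j hj).1 (h1 j hj).2 _ hp
    obtain ⟨s, hs⟩ := h4 t' ht hct _ f1 f2 f3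
    have hm := Γ.mul_mem (Γ.mul_mem hj hs) (Γ.inv_mem hk)
    refine ⟨j.2 * s * k.2⁻¹, ?_⟩
    have eq : j * (j.1⁻¹ * g * k.1, s) * k⁻¹ = (g, j.2 * s * k.2⁻¹) := by
      refine Prod.ext ?_ ?_
      · simp [mul_assoc]
      · simp
    rwa [eq] at hm
  have key : ∀ D, IsD c D → lt l0 ∈ D → ∀ y ∈ D, Cr c.ρ (lt l0) y →
      (∃ k ∈ Γ, ∃ t ∈ Ty, Pm y (k.1 (t.1 (lt l0)))) → ∀ y',
      Good c (lt l0) (RR Γ Ty) (lt l0) y y' → ∃ k ∈ Γ, ∃ t ∈ Ty, Pm y' (k.1 (t.1 (lt l0))) := by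
    intro D hDD ha y hy hc hv y' hg
    obtain ⟨j, hj, t, ht, hp⟩ := hv
    obtain ⟨p, q, s, hpr, -, -, ⟨k1, hk1, t1, ht1, k1', hk1', e1⟩, -,
      ⟨k2, hk2, t2, ht2, k2', hk2', e2⟩, m1, m2, m3⟩ := hg
    have hpa : p.1 (lt l0) = lt l0 := (hpm 1 p.1 rfl hpr (by simpa using m1)).symm
    have q1 : q = p * (k1 * t1 * k1') := by rw [← e1]; simp
    have s1 : s = p * (k2 * t2 * k2') := by rw [← e2]; simp
    have q2 : q.1 (lt l0) = p.1 (k1.1 (t1.1 (lt l0))) := by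
      rw [q1]; simp [MulAut.mul_apply, (h1 k1' hk1').2]
    have s2 : s.1 (lt l0) = p.1 (k2.1 (t2.1 (lt l0))) := by
      rw [s1]; simp [MulAut.mul_apply, (h1 k2' hk2').2]
    rw [q2] at m2
    rw [s2] at m3
    obtain ⟨u, hu⟩ := core D hDD ha y hy hc j hj t ht hp p.1 hpr hpa k1 hk1 t1 ht1 m2
    exact ⟨(p.1, u) * k2, Γ.mul_mem hu hk2, t2, ht2, by simpa [MulAut.mul_apply] using m3⟩
  obtain ⟨y0, hy0, k0, hk0, t0, ht0, hc0, hp0⟩ := h5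
  have hQ := hconn {l0} (fun D => ∀ y ∈ D, ∃ k ∈ Γ, ∃ t ∈ Ty, Pm y (k.1 (t.1 (lt l0)))) ?_ ?_
  · rintro φ ⟨hφ, hφa⟩
    have hD1 := hmap φ c.D0 hφ hD0
    have hb : lt l0 ∈ c.D0.map φ := List.mem_map.2 ⟨lt l0, ha0, hφa⟩
    obtain ⟨k, hk, t, ht, hp⟩ := hQ _ hD1 (by simpa using hb) (φ y0)
      (List.mem_map.2 ⟨y0, hy0, rfl⟩)
    have hp' : Pm y0 (φ⁻¹ (k.1 (t.1 (lt l0)))) := by simpa using genPmMap φ⁻¹ hp
    obtain ⟨s, hs⟩ := core c.D0 hD0 ha0 y0 hy0 hc0 k0 hk0 t0 ht0 hp0 φ⁻¹ (hinv _ _ hφ)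
      (hinv _ _ hφa) k hk t ht hp'
    exact ⟨s⁻¹, by simpa using Γ.inv_mem hs⟩
  · intro y hy
    obtain ⟨a, b, hab⟩ := ((hdia _ hD0).2.2.2.1 y hy).2.2.2
    exact key _ hD0 ha0 y0 hy0 hc0 ⟨k0, hk0, t0, ht0, hp0⟩ y
      (h6 _ a b hD0 hab _ _ _ (Or.inl ha0) (Or.inl hy0) (Or.inl hy))
  · intro D D' hmv _ hb hq y hy
    have ha' : lt l0 ∈ D' := hb l0 rfl
    obtain ⟨-, a, b, hab, hx⟩ := hm4 D' D (hsym D D' hmv)
    obtain ⟨z, hz, hcz⟩ := (hO α c D' hmv.2.1).2.2.1 _ ha'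
    exact key _ hmv.2.1 ha' z hz hcz (hq z hz) y
      (h6 _ a b hmv.2.1 hab _ _ _ (Or.inl ha') (Or.inl hz) (hx y hy))

end Pool.Agent.MB
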