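import Pool.Agent.Lib.MP_c86c76_al.B.St

/-!
Slides: symmetry, equivariance, explicit form, height; connectivity.
-/

set_option autoImplicit false

namespace Pool.Agent.MB

open FreeGroup

theorem mvRepSymm {G : Type} [Group G] {D D' : List G} {x e : G} (hx : x ∈ D) (hx' : x⁻¹ ∈ D)
    (he : e ∉ D) (he' : e⁻¹ ∉ D) (h : Rep D x e D') : Rep D' e x D := by
  intro w
  rw [h w]
  constructor
  · intro hw
    by_cases h1 : w = x
    · exact Or.inr (Or.inl h1)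
    by_cases h2 : w = x⁻¹
    · exact Or.inr (Or.inr h2)
    exact Or.inl ⟨Or.inl ⟨hw, h1, h2⟩, fun h3 => he (h3 ▸ hw), fun h3 => he' (h3 ▸ hw)⟩
  · rintro (⟨(⟨h1, -⟩ | h1 | h1), h2, h3⟩ | h1 | h1)
    · exact h1
    · exact absurd h1 h2
    · exact absurd h1 h3
    · exact h1 ▸ hx
    · exact h1 ▸ hx'

theorem mvRepInv {G : Type} [Group G] {D D' : List G} {x e : G} (h : Rep D x e D') :
    Rep D x⁻¹ e⁻¹ D' := by
  intro w
  rw [h w, inv_inv, inv_inv]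
  tauto

theorem mvAdjMap {β γ : Type} (f : β → γ) {D : List β} {a b : β} (h : Adj D a b) :
    Adj (D.map f) (f a) (f b) := by
  obtain ⟨l1, l2, rfl⟩ := h
  exact ⟨l1.map f, l2.map f, by simp⟩

theorem mvRepMap {G : Type} [Group G] (φ : MulAut G) {D D' : List G} {x e : G}
    (h : Rep D x e D') : Rep (D.map φ) (φ x) (φ e) (D'.map φ) := by
  intro w
  obtain ⟨v, rfl⟩ := φ.surjective w
  rw [List.mem_map_of_injective φ.injective, List.mem_map_of_injective φ.injective, h v,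
    ← _root_.map_inv, ← _root_.map_inv]
  simp only [ne_eq, EmbeddingLike.apply_eq_iff_eq]

section

variable {α : Type} [DecidableEq α] [Fintype α]

theorem mvNNinv (w : FreeGroup α) : NN w⁻¹ = NN w := by
  simp [NN, add_comm]

theorem mvMxMul (g : FreeGroup α) {p q r : FreeGroup α} (h : Mx p q r) :
    Mx (g * p) (g * q) (g * r) := by
  simpa [Mx, Hh, mul_assoc] using h

theorem mvMxComm {p q r : FreeGroup α} (h : Mx p q r) : Mx q p r := ⟨h.2, h.1⟩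

theorem mvNotL (hT : TreeSt) {a r : FreeGroup α} (h : Mx 1 a r) (l : α × Bool) :
    lt l ≠ a ∧ lt l ≠ a⁻¹ := by
  obtain ⟨-, -, -, -, h5⟩ := hT α
  constructor
  · intro e
    exact h5 l r (e ▸ h)
  · intro e
    have h2 := mvMxComm (mvMxMul a⁻¹ h)
    rw [mul_one, inv_mul_cancel, ← e] at h2
    exact h5 l _ h2

theorem mvShift {a b : FreeGroup α} (h : Mx a (a * b) 1) : Mx 1 b a⁻¹ := by
  simpa using mvMxMul a⁻¹ h

/-- The reverse of a slide that replaces the left letter. -/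
theorem mvRevL (hD : DiaSt) (hL : AdjLSt) (c : Ctx α) {D D' : List (FreeGroup α)}
    {a b : FreeGroup α} (h1 : IsD c D) (h2 : IsD c D') (h : Adj D a b)
    (hr : Rep D a (a * b) D') :
    Adj D' b (a * b)⁻¹ ∧ Rep D' (a * b)⁻¹ (b * (a * b)⁻¹) D := by
  obtain ⟨-, -, -, -, h5⟩ := hD α c
  obtain ⟨-, -, -, hi, ha⟩ := h5 D h1
  obtain ⟨haD, -, -, -, he, -, -⟩ := ha a b h
  refine ⟨(hL α c D D' a b h1 h2 h hr).2.2.2.2.2, ?_⟩
  have e : b * (a * b)⁻¹ = a⁻¹ := by group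
  rw [e]
  exact mvRepInv (mvRepSymm haD (hi a haD).1 he
    (fun h3 => he (by simpa using (hi _ h3).1)) hr)

/-- The reverse of a slide that replaces the right letter. -/
theorem mvRevR (hD : DiaSt) (hR : AdjRSt) (c : Ctx α) {D D' : List (FreeGroup α)}
    {a b : FreeGroup α} (h1 : IsD c D) (h2 : IsD c D') (h : Adj D a b)
    (hr : Rep D b (a * b) D') :
    Adj D' (a * b)⁻¹ a ∧ Rep D' (a * b)⁻¹ ((a * b)⁻¹ * a) D := by
  obtain ⟨-, -, -, -, h5⟩ := hD α c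
  obtain ⟨-, -, -, hi, ha⟩ := h5 D h1
  obtain ⟨-, hbD, -, -, he, -, -⟩ := ha a b h
  refine ⟨((hR α c D a b h1 h).2 D' h2 hr).2.2.2.2.2, ?_⟩
  have e : (a * b)⁻¹ * a = b⁻¹ := by group
  rw [e]
  exact mvRepInv (mvRepSymm hbD (hi b hbD).1 he
    (fun h3 => he (by simpa using (hi _ h3).1)) hr)

/-- The height after a replacement. -/
theorem mvMu (hD : DiaSt) (c : Ctx α) {D D' : List (FreeGroup α)} {x e : FreeGroup α}
    (h1 : IsD c D) (h2 : IsD c D') (hx : x ∈ D) (he : e ∉ D) (hr : Rep D x e D') :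
    mu D' + 2 * 3 ^ NN x = mu D + 2 * 3 ^ NN e := by
  obtain ⟨-, -, -, -, h5⟩ := hD α c
  obtain ⟨hn, -, -, hi, -⟩ := h5 D h1
  obtain ⟨hn', -, -, hi', -⟩ := h5 D' h2
  have hx' := (hi x hx).1
  have he' : e⁻¹ ∉ D := fun h3 => he (by simpa using (hi _ h3).1)
  have hs := mvRepSymm hx hx' he he' hr
  have heD : e ∈ D' := (hr e).2 (Or.inr (Or.inl rfl))
  have hxD : x ∉ D' := by
    intro h3
    rcases (hr x).1 h3 with h4 | h4 | h4
    · exact h4.2.1 rfl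
    · exact he (h4 ▸ hx)
    · exact he' (h4 ▸ hx)
  have hxD' : x⁻¹ ∉ D' := fun h3 => hxD (by simpa using (hi' _ h3).1)
  have hp : (x :: x⁻¹ :: D').Perm (e :: e⁻¹ :: D) := by
    rw [List.perm_ext_iff_of_nodup]
    · intro w
      simp only [List.mem_cons]
      have h3 := hr w
      have h4 := hs w
      tauto
    · simp only [List.nodup_cons, List.mem_cons, not_or]
      exact ⟨⟨(hi x hx).2.2.1, hxD⟩, hxD', hn'⟩
    · simp only [List.nodup_cons, List.mem_cons, not_or]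
      exact ⟨⟨(hi' e heD).2.2.1, he⟩, he', hn⟩
  have hq := (hp.map fun w => 3 ^ NN w).sum_eq
  simp only [List.map_cons, List.sum_cons, mvNNinv] at hq
  simp only [mu]
  omega

end

theorem mvSt (hT : TreeSt) (hD : DiaSt) (hL : AdjLSt) (hR : AdjRSt) : MvSt := by
  intro α _ _ c
  have hD' := hD α c
  obtain ⟨-, -, h3, h4, h5⟩ := hD'
  refine ⟨?_, ?_, ?_, ?_, fun D D' x e h1 h2 hx he hr => mvMu hD c h1 h2 hx he hr, ?_⟩
  · rintro D D' ⟨h1, h2, a, b, h, hr | hr⟩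
    · obtain ⟨k1, k2⟩ := mvRevL hD hL c h1 h2 h hr
      exact ⟨h2, h1, _, _, k1, Or.inr k2⟩
    · obtain ⟨k1, k2⟩ := mvRevR hD hR c h1 h2 h hr
      exact ⟨h2, h1, _, _, k1, Or.inl k2⟩
  · rintro φ D D' hφ ⟨h1, h2, a, b, h, hr⟩
    refine ⟨h3 φ D hφ h1, h3 φ D' hφ h2, φ a, φ b, mvAdjMap φ h, ?_⟩
    rw [← _root_.map_mul]
    exact hr.imp (mvRepMap φ) (mvRepMap φ)
  · rintro D D' ⟨h1, h2, a, b, h, hr | hr⟩
    · obtain ⟨-, -, -, -, -, k1, k2⟩ := (h5 D h1).2.2.2.2 a b h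
      exact Or.inl ⟨a, b, h, h4 _ _ h2 k1 fun w => (hr w).trans (k2 w).symm⟩
    · obtain ⟨j1, j2⟩ := mvRevR hD hR c h1 h2 h hr
      obtain ⟨-, -, -, -, -, k1, k2⟩ := (h5 D' h2).2.2.2.2 _ _ j1
      exact Or.inr ⟨_, _, j1, h4 _ _ h1 k1 fun w => (j2 w).trans (k2 w).symm⟩
  · rintro D D' ⟨h1, h2, a, b, h, hr⟩
    obtain ⟨ha, hb, k1, k2, -⟩ := (h5 D h1).2.2.2.2 a b h
    refine ⟨?_, a, b, h, fun x hx => ?_⟩
    · rcases hr with hr | hr
      · exact ⟨b, hb, (hr b).2 (Or.inl ⟨hb, k1, k2⟩)⟩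
      · exact ⟨a, ha, (hr a).2 (Or.inl ⟨ha, k1.symm, fun e => k2 (by rw [e, inv_inv])⟩)⟩
    · rcases hr with hr | hr <;>
      exact ((hr x).1 hx).imp (fun k => k.1) id
  · rintro D D' ⟨h1, h2, a, b, h, hr⟩
    obtain ⟨ha, hb, -, -, he, -⟩ := (h5 D h1).2.2.2.2 a b h
    refine ⟨⟨h1, h2, a, b, h, hr.imp And.right And.right⟩, ?_⟩
    rcases hr with ⟨hm, hr⟩ | ⟨hm, hr⟩
    · refine ⟨?_, fun l hl => (hr _).2 (Or.inl ⟨hl, mvNotL hT hm l⟩)⟩
      have k1 := mvMu hD c h1 h2 ha he hr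
      have k2 := (hT α).2.1 _ _ _ hm
      rw [inv_one, one_mul, one_mul] at k2
      have k3 := Nat.pow_lt_pow_right (show 1 < 3 by norm_num) k2
      omega
    · refine ⟨?_, fun l hl => (hr _).2 (Or.inl ⟨hl, mvNotL hT (mvShift hm) l⟩)⟩
      have k1 := mvMu hD c h1 h2 hb he hr
      have k2 := (hT α).2.1 _ _ _ (mvMxComm hm)
      have e : (a * b)⁻¹ * a = b⁻¹ := by group
      rw [mul_one, e, mvNNinv, mvNNinv] at k2
      have k3 := Nat.pow_lt_pow_right (show 1 < 3 by norm_num) k2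
      omega

theorem connSt (hT : TreeSt) (hD : DiaSt) (hR : AdjRSt) (hM : MvSt) (hE : EndSt) : ConnSt := by
  intro α _ _ c
  have hD' := hD α c
  obtain ⟨-, h0, -, -, h5⟩ := hD'
  have k1 : ∀ D, IsD c D → D ≠ c.D0 → ∃ D', Red c D D' := by
    intro D h1 hne
    by_contra hno
    refine hne (hE α c D h1 fun a b h => ?_)
    obtain ⟨-, -, -, hi, ha⟩ := h5 D h1
    obtain ⟨haD, hbD, -, j2, -, j3, j4⟩ := ha a b h
    have n1 : (1 : FreeGroup α) ≠ a := (hi a haD).2.1.symm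
    have n2 : a ≠ a * b := fun e => (hi b hbD).2.1 (by simpa using e)
    have n3 : (1 : FreeGroup α) ≠ a * b := fun e => j2 (eq_inv_of_mul_eq_one_right e.symm)
    rcases (hT α).1 1 a (a * b) n1 n2 n3 with hm | hm | hm
    · exact absurd ⟨_, h1, j3, a, b, h, Or.inl ⟨hm, j4⟩⟩ hno
    · obtain ⟨D', i1, i2⟩ := (hR α c D a b h1 h).1
      exact absurd ⟨D', h1, i1, a, b, h, Or.inr ⟨hm, i2⟩⟩ hno
    · exact mvMxComm hm
  refine ⟨k1, ?_, ?_⟩
  · rintro D' ⟨-, -, a, b, h, hr⟩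
    obtain ⟨ha, hb, -⟩ := (h5 _ h0).2.2.2.2 a b h
    rcases hr with ⟨hm, -⟩ | ⟨hm, -⟩
    · obtain ⟨l, -, e⟩ := List.mem_map.1 ha
      exact (mvNotL hT hm l).1 e
    · obtain ⟨l, -, e⟩ := List.mem_map.1 hb
      exact (mvNotL hT (mvShift hm) l).1 e
  · intro S Q hQ hstep D
    induction hn : mu D using Nat.strong_induction_on generalizing D with
    | _ n ih =>
      intro h1 hS
      by_cases e : D = c.D0
      · exact e ▸ hQ
      obtain ⟨D', hred⟩ := k1 D h1 e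
      obtain ⟨j1, j2, j3⟩ := (hM α c).2.2.2.2.2 D D' hred
      have hS' : ∀ l ∈ S, lt l ∈ D' := fun l hl => j3 l (hS l hl)
      exact hstep D D' j1 hS hS' (ih _ (hn ▸ j2) D' rfl j1.2.1 hS')

end Pool.Agent.MB
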