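import Pool.Agent.Lib.MP_c86c76_al.B.St

/-!
The normal form of the boundary word relative to marked letters.
-/

set_option autoImplicit false

namespace Pool.Agent.MB

open FreeGroup

variable {α : Type}

theorem nf_bar_bar (l : α × Bool) : bar (bar l) = l := by simp [bar]

theorem nf_eq_or {l l' : α × Bool} (h : l.1 = l'.1) : l = l' ∨ l = bar l' := by
  obtain ⟨x, s⟩ := l
  obtain ⟨y, t⟩ := l'
  dsimp only at h
  subst h
  cases s <;> cases t <;> simp [bar]

theorem nf_inst_fst (L : ℕ → α × Bool) (p : ℕ × Bool) : (inst L p).1 = (L p.1).1 := by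
  unfold inst
  split_ifs <;> rfl

theorem nf_inst_congr {L L' : ℕ → α × Bool} {p : ℕ × Bool} (h : L p.1 = L' p.1) :
    inst L p = inst L' p := by
  unfold inst
  rw [h]

theorem nf_inst_snd {L : ℕ → α × Bool} {i : ℕ} {s t : Bool} (h : inst L (i, s) = inst L (i, t)) :
    s = t := by
  have := congrArg Prod.snd h
  cases s <;> cases t <;> simp [inst, bar] at this ⊢

theorem nf_mk_one (l : α × Bool) : mk [l] = of l.1 ∨ mk [l] = (of l.1)⁻¹ := by
  obtain ⟨x, s⟩ := l
  cases s
  · exact Or.inr rfl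
  · exact Or.inl rfl

theorem nf_mk_cons (l : α × Bool) (C : List (α × Bool)) : mk (l :: C) = mk [l] * mk C := rfl

theorem nf_fix (ψ : MulAut (FreeGroup α)) (C : List (α × Bool))
    (h : ∀ l ∈ C, ψ (of l.1) = of l.1) : ψ (mk C) = mk C := by
  induction C with
  | nil => exact _root_.map_one ψ
  | cons l C ih =>
    have h1 := h l List.mem_cons_self
    rw [nf_mk_cons, _root_.map_mul, ih fun u hu => h u (List.mem_cons_of_mem _ hu)]
    rcases nf_mk_one l with e | e <;> simp [e, h1]

theorem nf_fr (S : Set α) (C : List (α × Bool)) (h : ∀ l ∈ C, l.1 ∉ S) : mk C ∈ Fr S := by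
  induction C with
  | nil => exact (Fr S).one_mem
  | cons l C ih =>
    have h1 : of l.1 ∈ Fr S := Subgroup.subset_closure ⟨l.1, h l List.mem_cons_self, rfl⟩
    rw [nf_mk_cons]
    refine (Fr S).mul_mem ?_ (ih fun u hu => h u (List.mem_cons_of_mem _ hu))
    rcases nf_mk_one l with e | e <;> rw [e]
    · exact h1
    · exact (Fr S).inv_mem h1

theorem nf_adj_left {β : Type} {A : List β} (B : List β) {u v : β} (h : Adj A u v) :
    Adj (A ++ B) u v := by
  obtain ⟨l1, l2, rfl⟩ := h
  exact ⟨l1, l2 ++ B, by simp⟩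

theorem nf_adj_right {β : Type} (A : List β) {B : List β} {u v : β} (h : Adj B u v) :
    Adj (A ++ B) u v := by
  obtain ⟨l1, l2, rfl⟩ := h
  exact ⟨A ++ l1, l2, by simp⟩

theorem nf_adj_append {β : Type} {A B : List β} {u v : β} (h : Adj (A ++ B) u v) :
    Adj A u v ∨ Adj B u v ∨ ∃ B', B = v :: B' := by
  obtain ⟨l1, l2, h⟩ := h
  rcases List.append_eq_append_iff.1 h with ⟨a, -, h2⟩ | ⟨c, h1, h2⟩
  · exact Or.inr (Or.inl ⟨a, l2, h2⟩)
  · match c, h1, h2 with
    | [], _, h2 => exact Or.inr (Or.inl ⟨[], l2, h2.symm⟩)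
    | [a], _, h2 => exact Or.inr (Or.inr ⟨l2, (List.cons.inj h2).2.symm⟩)
    | a :: b :: c, h1, h2 =>
      obtain ⟨rfl, h3⟩ := List.cons.inj h2
      obtain ⟨rfl, -⟩ := List.cons.inj h3
      exact Or.inl ⟨l1, c, h1⟩

theorem nf_refl (M : α → Prop) (U : List (α × Bool)) : Eq0 M U U :=
  ⟨List.Perm.refl _, ⟨1, fun _ _ => rfl, rfl⟩, fun _ _ _ _ h => h⟩

/-- Removing a block. -/
theorem nf_block {M : α → Prop} {U U1 C : List (α × Bool)} {z : α × Bool} (hU : U.Nodup)
    (hb : ∀ l ∈ U, ¬M l.1 → bar l ∈ U) (h : Eq0 M U (U1 ++ z :: C)) (hz : ¬M z.1)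
    (hC : ∀ l ∈ z :: C, ¬M l.1 → bar l ∈ z :: C) :
    U1.Nodup ∧ (∀ l ∈ U1, ¬M l.1 → bar l ∈ U1) ∧ U1.length < U.length ∧
      ∀ U2, Eq0 M U1 U2 → Eq0 M U (U2 ++ z :: C) := by
  obtain ⟨hp, ⟨ψ, h1, h2⟩, h3⟩ := h
  obtain ⟨n1, -, n2⟩ := List.nodup_append.1 (hp.nodup_iff.2 hU)
  refine ⟨n1, fun l hl hm => ?_, ?_, ?_⟩
  · rcases List.mem_append.1 (hp.mem_iff.2 (hb l (hp.mem_iff.1 (List.mem_append_left _ hl)) hm))
      with a | a
    · exact a
    · exact absurd (nf_bar_bar l).symm (n2 l hl _ (hC _ a hm))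
  · rw [← hp.length_eq]
    simp
  · rintro U2 ⟨gp, ⟨φ, g1, g2⟩, g3⟩
    refine ⟨(gp.append_right _).trans hp, ⟨φ * ψ, fun x hx => ?_, ?_⟩, fun u v hu hv a => ?_⟩
    · rw [MulAut.mul_apply, h1 x hx]
      exact g1 x (hx.imp_right fun a s b => a s (hp.mem_iff.1 (List.mem_append_left _ b)))
    · rw [MulAut.mul_apply, h2, ← mul_mk, ← mul_mk, _root_.map_mul, g2,
        nf_fix φ _ fun l hl => g1 _ ?_]
      by_cases hm : M l.1
      · exact Or.inl hm
      · refine Or.inr fun s a => ?_
        rcases nf_eq_or (l := (l.1, s)) (l' := l) rfl with e | e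
        · exact n2 _ a _ hl e
        · exact n2 _ a _ (hC l hl hm) e
    · rcases nf_adj_append (h3 u v hu hv a) with b | b | ⟨B', b⟩
      · exact nf_adj_left _ (g3 u v hu hv b)
      · exact nf_adj_right _ b
      · exact absurd ((List.cons.inj b).1 ▸ hv) hz

theorem nf_pre (k : ℕ) (m : ℕ → α × Bool) (B : List (α × Bool))
    (h : ∀ l ∈ B, ∃ i < k, l.1 = (m i).1) :
    ∃ B' : RW, (∀ p ∈ B', p.1 < k) ∧ B'.map (inst m) = B := by
  induction B with
  | nil => exact ⟨[], by simp, rfl⟩
  | cons l B ih =>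
    obtain ⟨B', h1, h2⟩ := ih fun u hu => h u (List.mem_cons_of_mem _ hu)
    obtain ⟨i, hi, e⟩ := h l List.mem_cons_self
    rcases nf_eq_or e with e | e
    · exact ⟨(i, true) :: B', by simpa [hi] using h1, by simp [h2, inst, e]⟩
    · exact ⟨(i, false) :: B', by simpa [hi] using h1, by simp [h2, inst, e]⟩

theorem nf_memB {k : ℕ} {Bs : List RW} {p : ℕ × Bool} :
    p ∈ patB k Bs ↔ p ∈ Bs.flatten ∨ (k ≤ p.1 ∧ p.1 < k + Bs.length) := by
  obtain ⟨i, s⟩ := p
  induction Bs with
  | nil => simp [patB]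
  | cons B Bs ih =>
    simp only [patB, List.mem_append, List.mem_cons, ih, List.flatten_cons, List.length_cons,
      Prod.mk.injEq, List.not_mem_nil, or_false]
    cases s <;> grind

theorem nf_memC {j h : ℕ} {p : ℕ × Bool} : p ∈ patC j h ↔ j ≤ p.1 ∧ p.1 < j + 2 * h := by
  obtain ⟨i, s⟩ := p
  induction h with
  | zero => simp [patC]
  | succ h ih =>
    simp only [patC, List.mem_append, List.mem_cons, ih, Prod.mk.injEq, List.not_mem_nil, or_false]
    cases s <;> grind

theorem nf_mem {k h : ℕ} {p0 : RW} {Bs : List RW} {p : ℕ × Bool} :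
    p ∈ pat k p0 Bs h ↔ p ∈ p0 ++ Bs.flatten ∨ (k ≤ p.1 ∧ p.1 < k + Bs.length + 2 * h) := by
  simp only [pat, List.mem_append, nf_memB, nf_memC]
  grind

theorem nf_mem_sgn {k : ℕ} {p : ℕ × Bool} : p ∈ sgn k ↔ p.1 < k := by
  obtain ⟨i, s⟩ := p
  cases s <;> simp [sgn]

theorem nf_sgn_succ (k : ℕ) : sgn (k + 1) = sgn k ++ [(k, true), (k, false)] := by
  simp [sgn, List.range_succ]

theorem nf_sgn (k : ℕ) : (sgn k).Nodup ∧ (sgn k).length = 2 * k := by
  induction k with
  | zero => simp [sgn]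
  | succ k ih =>
    rw [nf_sgn_succ, List.nodup_append, List.length_append, ih.2]
    refine ⟨⟨ih.1, by simp, fun a ha b hb e => ?_⟩, by simp; ring⟩
    have := nf_mem_sgn.1 ha
    simp only [List.mem_cons, List.not_mem_nil, or_false] at hb
    rcases hb with rfl | rfl <;> simp [e] at this

theorem nf_subB (k : ℕ) (Bs : List RW) : Bs.flatten.Subperm (patB k Bs) := by
  induction Bs with
  | nil => exact List.Subperm.refl _
  | cons B Bs ih =>
    refine List.perm_append_comm.subperm.trans (ih.append ?_)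
    exact ((List.sublist_append_left B _).trans (List.sublist_cons_self _ _)).subperm

theorem nf_nil {k : ℕ} {Bs : List RW} (h : [] ∈ Bs) :
    ∃ j, Adj (patB k Bs) (j, true) (j, false) := by
  induction Bs with
  | nil => simp at h
  | cons B Bs ih =>
    rcases List.mem_cons.1 h with rfl | h
    · exact ⟨_, nf_adj_right _ ⟨[], [], rfl⟩⟩
    · obtain ⟨j, hj⟩ := ih h
      exact ⟨j, nf_adj_left _ hj⟩

theorem nf_main (hC : ExCSt) (hZ : ExZSt) [DecidableEq α] (k : ℕ) (m : ℕ → α × Bool)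
    (M : α → Prop) (hM : ∀ x, M x ↔ ∃ i < k, x = (m i).1) (n : ℕ) :
    ∀ U : List (α × Bool), U.length < n → U.Nodup → (∀ l ∈ U, ¬M l.1 → bar l ∈ U) →
    ∃ (L : ℕ → α × Bool) (p0 : RW) (Bs : List RW) (h : ℕ), (∀ i < k, L i = m i) ∧
      (∀ p ∈ p0 ++ Bs.flatten, p.1 < k) ∧
      (∀ i, k ≤ i → i < k + Bs.length + 2 * h → ¬M (L i).1) ∧
      Eq0 M U ((pat k p0 Bs h).map (inst L)) ∧
      ((∀ x y : α × Bool, ¬M x.1 → ¬M y.1 → ¬List.Sublist [x, y, bar x, bar y] U) → h = 0) := by
  induction n with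
  | zero => exact fun U h => absurd h (Nat.not_lt_zero _)
  | succ n ih =>
    intro U hn hU hb
    have hlt : ∀ {p0 : RW} {Bs : List RW} {h : ℕ}, (∀ p ∈ p0 ++ Bs.flatten, p.1 < k) →
        ∀ p ∈ pat k p0 Bs h, p.1 < k + Bs.length + 2 * h := by
      intro p0 Bs h a p hp
      rcases nf_mem.1 hp with b | b
      · have := a p b
        omega
      · exact b.2
    by_cases h1 : ∃ l ∈ U, ¬M l.1
    swap
    · obtain ⟨p0, a1, a2⟩ := nf_pre k m U fun l hl => (hM _).1 (by_contra fun a => h1 ⟨l, hl, a⟩)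
      refine ⟨m, p0, [], 0, fun _ _ => rfl, by simpa using a1, fun i a b => ?_, ?_, fun _ => rfl⟩
      · simp at b
        omega
      · simpa [pat, patB, patC, a2] using nf_refl M U
    by_cases h2 : ∀ x y : α × Bool, ¬M x.1 → ¬M y.1 → ¬List.Sublist [x, y, bar x, bar y] U
    · obtain ⟨U1, z, B, hz, hB, hs, e⟩ := hZ α M U hU hb h1 h2
      obtain ⟨b1, b2, b3, b4⟩ := nf_block (C := B ++ [bar z]) hU hb e hz (by
        intro l hl hm
        simp only [List.mem_cons, List.mem_append, List.not_mem_nil, or_false] at hl ⊢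
        rcases hl with rfl | hl | rfl
        · exact Or.inr (Or.inr rfl)
        · exact absurd (hB l hl) hm
        · exact Or.inl (nf_bar_bar z))
      obtain ⟨L, p0, Bs, h, c1, c2, c3, c4, c5⟩ := ih U1 (by omega) b1 b2
      obtain rfl := c5 fun x y hx hy a => h2 x y hx hy (a.trans hs)
      obtain ⟨B', d1, d2⟩ := nf_pre k m B fun l hl => (hM _).1 (hB l hl)
      refine ⟨Function.update L (k + Bs.length) z, p0, B' :: Bs, 0, fun i hi => ?_, ?_,
        fun i a b => ?_, ?_, fun _ => rfl⟩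
      · rw [Function.update_of_ne (by omega), c1 i hi]
      · intro p hp
        simp only [List.flatten_cons, List.mem_append] at hp c2
        rcases hp with hp | hp | hp
        · exact c2 p (Or.inl hp)
        · exact d1 p hp
        · exact c2 p (Or.inr hp)
      · by_cases e : i = k + Bs.length
        · rwa [e, Function.update_self]
        · rw [Function.update_of_ne e]
          exact c3 i a (by simp at b; omega)
      · have e1 : (pat k p0 Bs 0).map (inst (Function.update L (k + Bs.length) z)) =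
            (pat k p0 Bs 0).map (inst L) := List.map_congr_left fun p hp =>
          nf_inst_congr (Function.update_of_ne (by have := hlt c2 p hp; omega) _ _)
        have e2 : B'.map (inst (Function.update L (k + Bs.length) z)) = B := by
          rw [← d2]
          refine List.map_congr_left fun p hp => nf_inst_congr ?_
          have := d1 p hp
          rw [Function.update_of_ne (by omega), c1 _ this]
        have e3 : pat k p0 (B' :: Bs) 0 = pat k p0 Bs 0 ++
            ((k + Bs.length, true) :: (B' ++ [(k + Bs.length, false)])) := by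
          simp [pat, patB, patC]
        rw [e3, List.map_append, e1, List.map_cons, List.map_append, e2]
        simpa [inst] using b4 _ c4
    · push Not at h2
      obtain ⟨x, y, hx, hy, hs⟩ := h2
      obtain ⟨U1, e⟩ := hC α M U x y hU hs hx hy
      obtain ⟨b1, b2, b3, b4⟩ := nf_block hU hb e hx (by
        intro l hl _
        simp only [List.mem_cons, List.not_mem_nil, or_false] at hl ⊢
        rcases hl with rfl | rfl | rfl | rfl <;> simp [nf_bar_bar])
      obtain ⟨L, p0, Bs, h, c1, c2, c3, c4, -⟩ := ih U1 (by omega) b1 b2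
      obtain ⟨L', f1, f2, f3⟩ : ∃ L' : ℕ → α × Bool, (∀ i < k + Bs.length + 2 * h, L' i = L i) ∧
          L' (k + Bs.length + 2 * h) = x ∧ L' (k + Bs.length + 2 * h + 1) = y :=
        ⟨fun i => if i < k + Bs.length + 2 * h then L i else
          if i = k + Bs.length + 2 * h then x else y, fun i hi => if_pos hi, by simp, by simp⟩
      refine ⟨L', p0, Bs, h + 1, fun i hi => ?_, c2, fun i a b => ?_, ?_,
        fun a => absurd hs (a x y hx hy)⟩
      · rw [f1 i (by omega), c1 i hi]
      · rcases lt_trichotomy i (k + Bs.length + 2 * h) with d | d | d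
        · rw [f1 i d]
          exact c3 i a d
        · rwa [d, f2]
        · rwa [show i = k + Bs.length + 2 * h + 1 by omega, f3]
      · have e1 : (pat k p0 Bs h).map (inst L') = (pat k p0 Bs h).map (inst L) :=
          List.map_congr_left fun p hp => nf_inst_congr (f1 _ (hlt c2 p hp))
        have e3 : pat k p0 Bs (h + 1) = pat k p0 Bs h ++
            [(k + Bs.length + 2 * h, true), (k + Bs.length + 2 * h + 1, true),
              (k + Bs.length + 2 * h, false), (k + Bs.length + 2 * h + 1, false)] := by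
          simp [pat, patC]
        rw [e3, List.map_append, e1]
        simpa [inst, f2, f3] using b4 _ c4

theorem nfSt (hC : ExCSt) (hZ : ExZSt) : NfSt := by
  intro α _ _ W hW hE k m hm
  obtain ⟨L, p0, Bs, h, c1, c2, c3, ⟨hp, ⟨ψ, d1, d2⟩, d3⟩, -⟩ :=
    nf_main hC hZ k m (fun x => ∃ i < k, x = (m i).1) (fun _ => Iff.rfl) _ W (Nat.lt_succ_self _)
      hW.1 fun l _ _ => hW.2 _
  have hF : Full ((pat k p0 Bs h).map (inst L)) :=
    ⟨hp.nodup_iff.2 hW.1, fun l => hp.mem_iff.2 (hW.2 l)⟩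
  have hnd : (pat k p0 Bs h).Nodup := hF.1.of_map
  have hinj := List.inj_on_of_nodup_map hF.1
  have hlow : ∀ p : ℕ × Bool, p.1 < k → p ∈ p0 ++ Bs.flatten := by
    rintro ⟨i, s⟩ hi
    obtain ⟨⟨j, t⟩, hq, e⟩ := List.mem_map.1 (hF.2 (inst L (i, s)))
    have e1 : (L j).1 = (m i).1 := by
      have := congrArg Prod.fst e
      rwa [nf_inst_fst, nf_inst_fst, c1 i hi] at this
    rcases nf_mem.1 hq with a | a
    · have hj : j < k := c2 _ a
      rw [c1 j hj] at e1
      obtain rfl := hm j hj i hi e1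
      rwa [← nf_inst_snd e]
    · exact absurd ⟨i, hi, e1⟩ (c3 j a.1 a.2)
  have hall : ∀ p : ℕ × Bool, p ∈ pat k p0 Bs h ↔ p.1 < k + Bs.length + 2 * h := by
    intro p
    rw [nf_mem]
    constructor
    · rintro (a | a)
      · have := c2 p a
        omega
      · exact a.2
    · intro a
      by_cases b : p.1 < k
      · exact Or.inl (hlow p b)
      · exact Or.inr ⟨not_lt.1 b, a⟩
  have hcard : k + Bs.length + 2 * h = Fintype.card α := by
    have a1 := ((List.perm_ext_iff_of_nodup hnd (nf_sgn _).1).2 fun p =>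
      (hall p).trans nf_mem_sgn.symm).length_eq
    have a2 := hp.length_eq
    have a3 : W.toFinset = Finset.univ := Finset.eq_univ_of_forall fun l => by simp [hW.2 l]
    have a4 := List.toFinset_card_of_nodup hW.1
    rw [a3, Finset.card_univ, Fintype.card_prod, Fintype.card_bool] at a4
    rw [(nf_sgn _).2] at a1
    rw [List.length_map] at a2
    omega
  refine ⟨L, p0, Bs, h, ψ, c1, fun i hi j hj e => ?_, hcard, ?_, fun B hB e => ?_,
    fun i hi => ?_, d2, hF, fun p q hp' hq' a => ?_⟩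
  · rw [← hcard] at hi hj
    rcases nf_eq_or e with e | e
    · exact congrArg Prod.fst (hinj ((hall (i, true)).2 hi) ((hall (j, true)).2 hj) e)
    · exact congrArg Prod.fst (hinj ((hall (i, true)).2 hi) ((hall (j, false)).2 hj) e)
  · obtain ⟨l, l1, l2⟩ := (List.Subperm.refl p0).append (nf_subB k Bs)
    refine (List.perm_ext_iff_of_nodup (l1.nodup_iff.1 ?_) (nf_sgn k).1).2 fun p =>
      ⟨fun a => nf_mem_sgn.2 (c2 p a), fun a => hlow p (nf_mem_sgn.1 a)⟩
    exact hnd.sublist (l2.trans (List.sublist_append_left _ _))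
  · subst e
    obtain ⟨j, hj⟩ := nf_nil (k := k) hB
    obtain ⟨A, C, e⟩ : Adj (pat k p0 Bs h) (j, true) (j, false) :=
      nf_adj_left _ (nf_adj_right _ hj)
    refine hE ψ (L j).1 ?_
    have n1 := hF.1
    rw [d2]
    rw [e, List.map_append, List.map_cons, List.map_cons] at n1 ⊢
    change (_ ++ L j :: bar (L j) :: _).Nodup at n1
    change mk (_ ++ ((L j).1, (L j).2) :: ((L j).1, !(L j).2) :: _) ∈ _
    rw [← quot_mk_eq_mk, Quot.sound Red.Step.not, quot_mk_eq_mk]
    refine nf_fr _ _ fun l hl a => ?_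
    have n2 := (List.perm_middle.trans (List.perm_middle.cons _)).nodup_iff.1 n1
    simp only [List.nodup_cons, List.mem_cons, not_or] at n2
    rcases nf_eq_or (l := l) (l' := L j) a with b | b
    · exact n2.1.2 (b ▸ hl)
    · exact n2.2.1 (b ▸ hl)
  · exact nf_fix ψ _ fun l hl => d1 _ (Or.inl ⟨i, hi, by rw [List.mem_singleton.1 hl]⟩)
  · obtain ⟨l1, l2, e⟩ := d3 _ _ ⟨p.1, hp', nf_inst_fst m p⟩ ⟨q.1, hq', nf_inst_fst m q⟩ a
    obtain ⟨A, C, e1, -, e2⟩ := List.map_eq_append_iff.1 e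
    obtain ⟨p', C', rfl, e3, e4⟩ := List.map_eq_cons_iff.1 e2
    obtain ⟨q', C'', rfl, e5, -⟩ := List.map_eq_cons_iff.1 e4
    have a1 : p' = p := hinj (by simp [e1]) ((hall p).2 (by omega))
      (e3.trans (nf_inst_congr (c1 _ hp').symm))
    have a2 : q' = q := hinj (by simp [e1]) ((hall q).2 (by omega))
      (e5.trans (nf_inst_congr (c1 _ hq').symm))
    exact ⟨A, C'', by rw [e1, a1, a2]⟩

end Pool.Agent.MB
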