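import Pool.Agent.Lib.MP_c86c76_al.B.St

/-!
The order of the sides of a diagram.
-/

set_option autoImplicit false

namespace Pool.Agent.MB

open FreeGroup Relation

section Lists

variable {β : Type}

theorem ord_succ_unique {D : List β} (hD : D.Nodup) {u v v' : β} (h : Adj D u v)
    (h' : Adj D u v') : v = v' := by
  obtain ⟨l1, l2, rfl⟩ := h
  obtain ⟨l1', l2', e⟩ := h'
  have h1 := List.nodup_append.1 hD
  have h2 := (List.append_cons_inj_of_notMem (fun hu => h1.2.2 u hu u (by simp) rfl)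
    (List.nodup_cons.1 h1.2.1).1).1 e
  exact (List.cons.inj h2.2.2).1

theorem ord_pred {D : List β} {s : β} (h : s ∈ D) : D.head? = some s ∨ ∃ u, Adj D u s := by
  obtain ⟨l1, l2, rfl⟩ := List.append_of_mem h
  rcases l1.eq_nil_or_concat' with rfl | ⟨l, u, rfl⟩
  · exact Or.inl rfl
  · exact Or.inr ⟨u, l, l2, by simp⟩

theorem ord_adj_map {γ : Type} (f : β → γ) {D : List β} {u v : β} (h : Adj D u v) :
    Adj (D.map f) (f u) (f v) := by
  obtain ⟨l1, l2, rfl⟩ := h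
  exact ⟨l1.map f, l2.map f, by simp⟩

theorem ord_const (P : β → Prop) (D : List β) (h : ∀ u v, Adj D u v → (P u ↔ P v)) :
    ∀ x ∈ D, ∀ y ∈ D, (P x ↔ P y) := by
  induction D with
  | nil => intro x hx; simp at hx
  | cons a D ih =>
    have h1 := ih fun u v ⟨l1, l2, e⟩ => h u v ⟨a :: l1, l2, by rw [e]; rfl⟩
    have h2 : ∀ y ∈ D, (P a ↔ P y) := by
      intro y hy
      cases D with
      | nil => simp at hy
      | cons b D => exact (h a b ⟨[], D, rfl⟩).trans (h1 b (by simp) y hy)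
    intro x hx y hy
    rcases List.mem_cons.1 hx with e | hx' <;> rcases List.mem_cons.1 hy with e' | hy'
    exacts [by rw [e, e'], e ▸ h2 y hy', e' ▸ (h2 x hx').symm, h1 x hx' y hy']

/-- A chain of immediate successors in a finite strict order. -/
theorem ord_total {D : List β} {r L : β → β → Prop} (hi : ∀ u, ¬ L u u)
    (ht : ∀ u v w, L u v → L v w → L u w) (hr : ∀ s t, r s t → L s t)
    (hu : ∀ s s' t, r s t → r s' t → s = s')
    (hs : ∀ s ∈ D, D.head? = some s ∨ ∃ t ∈ D, r s t) :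
    ∀ s ∈ D, ∀ t ∈ D, s ≠ t → TransGen r s t ∨ TransGen r t s := by
  classical
  have key : ∀ n, ∀ s ∈ D, (D.toFinset.filter (L s)).card = n →
      ∃ h, D.head? = some h ∧ ReflTransGen (Function.swap r) h s := by
    intro n
    induction n using Nat.strong_induction_on with
    | _ n ih =>
      intro s hsD hn
      rcases hs s hsD with h | ⟨t, htD, h⟩
      · exact ⟨s, h, ReflTransGen.refl⟩
      · obtain ⟨h0, h1, h2⟩ := ih _ (hn ▸ Finset.card_lt_card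
          ⟨fun x hx => by
            rw [Finset.mem_filter] at hx ⊢
            exact ⟨hx.1, ht _ _ _ (hr _ _ h) hx.2⟩,
          fun hh => hi t (Finset.mem_filter.1 (hh (Finset.mem_filter.2
            ⟨List.mem_toFinset.2 htD, hr _ _ h⟩))).2⟩) t htD rfl
        exact ⟨h0, h1, h2.tail h⟩
  intro s hsD t htD hst
  obtain ⟨h, a1, a2⟩ := key _ s hsD rfl
  obtain ⟨h', b1, b2⟩ := key _ t htD rfl
  obtain rfl : h = h' := Option.some.inj (a1.symm.trans b1)
  have ru : Relator.RightUnique (Function.swap r) := fun _ _ _ h1 h2 => hu _ _ _ h1 h2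
  rcases ReflTransGen.total_of_right_unique ru a2 b2 with h | h
  · exact Or.inr ((reflTransGen_iff_eq_or_transGen.1 (reflTransGen_swap.1 h)).resolve_left hst)
  · exact Or.inl
      ((reflTransGen_iff_eq_or_transGen.1 (reflTransGen_swap.1 h)).resolve_left hst.symm)

end Lists

section Main

variable {α : Type} [DecidableEq α] [Fintype α]

theorem ord_lo (hC : CycSt) (hP : PlSt) {c : Ctx α} {D : List (FreeGroup α)} (h : IsD c D)
    {s t : FreeGroup α} (h' : TransGen (fun s t => Adj D t⁻¹ s) s t) : Lo c.ρ s t := by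
  have h1 : ∀ s t, Adj D t⁻¹ s → Lo c.ρ s t := fun s t e => by
    simpa using (hP α c D h).1 _ _ e
  induction h' with
  | single e => exact h1 _ _ e
  | tail _ e ih => exact (hC α c.ρ).2.2.2.2.2.1 _ _ _ ih (h1 _ _ e)

theorem ord_tot (hC : CycSt) (hD : DiaSt) (hP : PlSt) {c : Ctx α} {D : List (FreeGroup α)}
    (h : IsD c D) : ∀ s ∈ D, ∀ t ∈ D, s ≠ t →
      TransGen (fun s t => Adj D t⁻¹ s) s t ∨ TransGen (fun s t => Adj D t⁻¹ s) t s := by
  obtain ⟨d1, -, -, d2, d3⟩ := (hD α c).2.2.2.2 D h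
  refine ord_total (hC α c.ρ).2.2.2.2.1 (hC α c.ρ).2.2.2.2.2.1
    (fun s t e => ord_lo hC hP h (TransGen.single e))
    (fun s s' t e e' => ord_succ_unique d1 e e') fun s hs => (ord_pred hs).imp id ?_
  rintro ⟨u, hu⟩
  exact ⟨u⁻¹, (d2 u (d3 u s hu).1).1, by rwa [inv_inv]⟩

omit [DecidableEq α] [Fintype α] in
theorem ord_lift (φ : MulAut (FreeGroup α)) {D : List (FreeGroup α)} {s t : FreeGroup α}
    (h : TransGen (fun s t => Adj D t⁻¹ s) s t) :
    TransGen (fun s t => Adj (D.map φ) t⁻¹ s) (φ s) (φ t) := by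
  have h1 : ∀ s t, Adj D t⁻¹ s → Adj (D.map φ) (φ t)⁻¹ (φ s) := fun s t e => by
    have := ord_adj_map φ e
    rwa [_root_.map_inv] at this
  induction h with
  | single e => exact TransGen.single (h1 _ _ e)
  | tail _ e ih => exact ih.tail (h1 _ _ e)

end Main

theorem ord_p1 {A B C E N : Prop} (t1 : A ∨ B) (t2 : ¬ (A ∧ B)) (i2 : ¬ E) (n : ¬ N) {T : Prop}
    (t : T) : (((C ∨ T) ↔ (B ∨ N)) ↔ (A ↔ E)) := by tauto

theorem ord_p2 {A B C E N : Prop} (t1 : A ∨ B) (t2 : ¬ (A ∧ B)) (i1 : ¬ C) (n : ¬ N) {T : Prop}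
    (t : T) : (((A ∨ N) ↔ (E ∨ T)) ↔ (C ↔ B)) := by tauto

theorem ord_p3 {A B C E N N' P : Prop} (n : ¬ N) (n' : ¬ N') (p : ¬ P)
    (h : ¬ (¬ P ∧ ¬ ((A ↔ B) ↔ (C ↔ E)))) : (((A ∨ N) ↔ (B ∨ N')) ↔ (C ↔ E)) := by tauto

theorem ord_p4 {A B C E : Prop} (t1 : A ∨ B) (t2 : ¬ (A ∧ B)) (i1 : ¬ C) (i2 : ¬ E)
    (h : (A ↔ E) ↔ (C ↔ B)) : False := by tauto

theorem ordSt (hC : CycSt) (hD : DiaSt) (hP : PlSt) : OrdSt := by
  intro α _ _ c D h
  obtain ⟨d1, -, -, d2, d3⟩ := (hD α c).2.2.2.2 D h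
  have hi := (hC α c.ρ).2.2.2.2.1
  have ht := (hC α c.ρ).2.2.2.2.2.1
  have tot : ∀ s ∈ D, ∀ t ∈ D, s ≠ t → Lo c.ρ s t ∨ Lo c.ρ t s := fun s hs t ht' hst =>
    (ord_tot hC hD hP h s hs t ht' hst).imp (ord_lo hC hP h) (ord_lo hC hP h)
  have back : ∀ s ∈ D, ∀ t ∈ D, Lo c.ρ s t → TransGen (fun s t => Adj D t⁻¹ s) s t :=
    fun s hs t ht' e => (ord_tot hC hD hP h s hs t ht' fun e' => hi t (e' ▸ e)).resolve_right
      fun e' => hi s (ht _ _ _ e (ord_lo hC hP h e'))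
  have fwd : ∀ φ : MulAut (FreeGroup α), φ c.r = c.r → ∀ s ∈ D, ∀ t ∈ D,
      Lo c.ρ s t → Lo c.ρ (φ s) (φ t) := fun φ hφ s hs t ht' e =>
    ord_lo hC hP ((hD α c).2.2.1 φ D hφ h) (ord_lift φ (back s hs t ht' e))
  have inv : ∀ φ : MulAut (FreeGroup α), φ c.r = c.r → ∀ s ∈ D, ∀ t ∈ D,
      (Lo c.ρ (φ s) (φ t) ↔ Lo c.ρ s t) := fun φ hφ s hs t ht' =>
    ⟨fun e => (tot s hs t ht' fun e' => hi _ (e' ▸ e)).resolve_right
      fun e' => hi _ (ht _ _ _ e (fwd φ hφ t ht' s hs e')), fwd φ hφ s hs t ht'⟩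
  refine ⟨tot, inv, fun a ha => ?_, fun a ha φ hφ e => ?_⟩
  · by_contra hn
    obtain ⟨ha', -, hne, -⟩ := d2 a ha
    have t1 := tot a ha _ ha' hne
    have t2 : ¬ (Lo c.ρ a a⁻¹ ∧ Lo c.ρ a⁻¹ a) := fun e => hi a (ht _ _ _ e.1 e.2)
    have i1 := hi a
    have i2 := hi a⁻¹
    have step : ∀ u v, Adj D u v → ∀ x ∈ D, (Lo c.ρ x u⁻¹ ↔ Lo c.ρ x v ∨ x = v) := by
      intro u v e x hx
      have e1 := (hP α c D h).1 _ _ e
      refine ⟨fun e2 => ?_, fun e2 => e2.elim (fun e3 => ht _ _ _ e3 e1) fun e3 => e3 ▸ e1⟩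
      obtain ⟨s, e3, e4⟩ := TransGen.tail'_iff.1 (back x hx _ (d2 u (d3 u v e).1).1 e2)
      rw [inv_inv] at e4
      obtain rfl := ord_succ_unique d1 e e4
      exact (reflTransGen_iff_eq_or_transGen.1 e3).symm.imp (ord_lo hC hP h) Eq.symm
    have key := ord_const (fun w => (Lo c.ρ a w⁻¹ ↔ Lo c.ρ a⁻¹ w⁻¹)) D (fun u v e => by
      rw [step u v e a ha, step u v e _ ha']
      by_cases e1 : a = v
      · subst e1
        exact ord_p1 t1 t2 i2 hne.symm rfl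
      by_cases e2 : a⁻¹ = v
      · subst e2
        rw [inv_inv]
        exact ord_p2 t1 t2 i1 hne rfl
      exact ord_p3 e1 e2 (fun e4 : Pm v a => e4.elim (fun e5 => e1 e5.symm) fun e5 => e2 e5.symm)
        fun e3 => hn ⟨v, (d3 u v e).2.1, e3⟩) a ha _ ha'
    rw [inv_inv] at key
    exact ord_p4 t1 t2 i1 i2 key
  · obtain ⟨ha', -, hne, -⟩ := d2 a ha
    have e1 := inv φ hφ a ha _ ha'
    rw [_root_.map_inv, e, inv_inv] at e1
    rcases tot a ha _ ha' hne with e2 | e2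
    · exact hi a (ht _ _ _ e2 (e1.2 e2))
    · exact hi a (ht _ _ _ (e1.1 e2) e2)

end Pool.Agent.MB
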