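import Pool.Agent.Lib.MP_c86c76_al.B.St

/-!
Peaks at two corners with a common letter.
-/

set_option autoImplicit false

namespace Pool.Agent.MB

open FreeGroup

section Sets

variable {G : Type} [Group G] {D D1 D2 D3 D4 : List G} {x y e f k w : G}

theorem peakA_mem (h : Rep D x e D1) (hw : w ∈ D) (h1 : w ≠ x) (h2 : w ≠ x⁻¹) : w ∈ D1 :=
  (h w).2 (Or.inl ⟨hw, h1, h2⟩)

theorem peakA_new (h : Rep D x e D1) : e ∈ D1 := (h e).2 (Or.inr (Or.inl rfl))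

theorem peakA_rr (h : Rep D x e D1) (h' : Rep D1 e k D3) (h1 : e ∉ D) (h2 : e⁻¹ ∉ D) :
    Rep D x k D3 := by
  intro w
  rw [h' w, h w]
  grind

theorem peakA_rs (h : Rep D x f D2) (h' : Rep D x k D3) (h1 : f ∉ D) (h2 : f⁻¹ ∉ D) :
    Rep D2 f k D3 := by
  intro w
  rw [h' w, h w]
  grind

theorem peakA_sq (h3 : Rep D x k D3) (h2 : Rep D y f D2) (h4 : Rep D2 x k D4) (a1 : f ≠ x)
    (a2 : f ≠ x⁻¹) (a3 : k ≠ y) (a4 : k ≠ y⁻¹) : Rep D3 y f D4 := by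
  have b1 : f⁻¹ ≠ x := fun e => a2 (by rw [← e, inv_inv])
  have b2 : f⁻¹ ≠ x⁻¹ := fun e => a1 (inv_injective e)
  have b3 : k⁻¹ ≠ y := fun e => a4 (by rw [← e, inv_inv])
  have b4 : k⁻¹ ≠ y⁻¹ := fun e => a3 (inv_injective e)
  intro w
  rw [h4 w, h3 w, h2 w]
  grind

end Sets

section Tree

variable {α : Type} [DecidableEq α] [Fintype α]

theorem peakA_inv (w : FreeGroup α) : NN w⁻¹ = NN w := by rw [NN, NN, inv_inv, add_comm]

theorem peakA_mul (g : FreeGroup α) {p q r : FreeGroup α} (h : Mx p q r) :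
    Mx (g * p) (g * q) (g * r) := by
  simpa [Mx, Hh, mul_assoc] using h

theorem peakA_ne {u v : FreeGroup α} (h : NN u < NN v) : u ≠ v ∧ u ≠ v⁻¹ :=
  ⟨fun e => h.ne (by rw [e]), fun e => h.ne (by rw [e, peakA_inv])⟩

theorem peakA_pow {m n : ℕ} (h : m < n) : 3 ^ m < 3 ^ n := Nat.pow_lt_pow_right (by norm_num) h

end Tree

theorem peakASt (hT : TreeSt) (hD : DiaSt) (hL : AdjLSt) (hR : AdjRSt) (hM : MvSt) (hP : PlSt) :
    PeakASt := by
  intro α _ _ c D D1 D2 a b d iD i1 i2 hab hbd h1 h2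
  obtain ⟨-, T2, T3, T4, -⟩ := hT α
  obtain ⟨-, -, -, -, F⟩ := hD α c
  obtain ⟨M1, -, -, -, M5, -⟩ := hM α c
  obtain ⟨-, -, -, Fw, Fa⟩ := F D iD
  obtain ⟨ma, mb, ba, ba', ne, -, -⟩ := Fa a b hab
  obtain ⟨-, md, db, db', nf, -, -⟩ := Fa b d hbd
  have ninv : ∀ w, w ∉ D → w⁻¹ ∉ D := fun w hw h => hw (by simpa using (Fw _ h).1)
  have nD : ∀ w ∈ D, ∀ u, u ∉ D → w ≠ u ∧ w ≠ u⁻¹ := fun w hw u hu =>
    ⟨fun e => hu (e ▸ hw), fun e => ninv u hu (e ▸ hw)⟩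
  have nD' : ∀ w ∈ D, ∀ u, u ∉ D → u ≠ w ∧ u ≠ w⁻¹ := fun w hw u hu =>
    ⟨fun e => hu (e ▸ hw), fun e => hu (e ▸ (Fw w hw).1)⟩
  have ab' : a ≠ b⁻¹ := fun e => ba' (by rw [e, inv_inv])
  have bd' : b ≠ d⁻¹ := fun e => db' (by rw [e, inv_inv])
  rcases h1 with ⟨x1, r1⟩ | ⟨x1, r1⟩ <;> rcases h2 with ⟨x2, r2⟩ | ⟨x2, r2⟩
  · -- both slides replace the left letter
    have n1 : NN b < NN a := by simpa [peakA_inv] using T2 a 1 (a * b) x1.symm
    have n2 : NN d < NN b := by simpa [peakA_inv] using T2 b 1 (b * d) x2.symm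
    have x3 : Mx a (a * b) (a * (b * d)) := by simpa using peakA_mul a x2
    have n3 : NN (a * (b * d)) < NN a := by
      simpa using T2 1 a _ (T4 _ _ _ _ x3.symm x1.symm).symm
    obtain ⟨da, da'⟩ := peakA_ne (n2.trans n1)
    obtain ⟨-, -, -, L4, -, L6⟩ := hL α c D D1 a b iD i1 hab r1
    have c1 := L4 d hbd da'
    obtain ⟨-, -, -, -, k1, i3, r3⟩ := (F D1 i1).2.2.2.2 _ _ c1
    have c3 := (hL α c D1 _ _ _ i1 i3 c1 r3).2.2.1 b L6 db.symm
    have c2 := (hL α c D D2 b d iD i2 hbd r2).2.2.2.2.1 a hab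
    obtain ⟨-, -, -, -, k2, i4, r4⟩ := (F D2 i2).2.2.2.2 _ _ c2
    have v1 : Mv c D1 _ := ⟨i1, i3, _, _, c1, Or.inl r3⟩
    have v3 : Mv c _ D2 := M1 _ _ ⟨i2, i4, _, _, c2, Or.inl r4⟩
    have b1 : b ∈ D1 := peakA_mem r1 mb ba ba'
    have m1 := M5 _ _ _ _ iD i1 ma ne r1
    have m2 := M5 _ _ _ _ iD i2 mb nf r2
    have m3 := M5 _ _ _ _ i1 i3 (peakA_new r1) k1 r3
    have m4 := M5 _ _ _ _ i2 i4 (peakA_mem r2 ma ba.symm ab') k2 r4
    have d1 : d ∈ D1 := peakA_mem r1 md da da'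
    have d2 : d ∈ D2 := peakA_mem r2 md db db'
    have d3 := peakA_mem r3 d1 (nD d md _ ne).1 (nD d md _ ne).2
    have d4 := peakA_mem r4 d2 da da'
    generalize slide D1 (a * b) d = D3 at *
    generalize slide D2 a (b * d) = D4 at *
    rw [mul_assoc] at k1 r3 m3
    have v2 : Mv c D3 D4 := ⟨i3, i4, _, _, c3, Or.inl (peakA_sq (peakA_rr r1 r3 ne (ninv _ ne))
      r2 r4 (nD' a ma _ nf).1 (nD' a ma _ nf).2 (fun e => k1 (by rwa [e]))
      fun e => k1 (by rw [e]; exact ((F D1 i1).2.2.2.1 b b1).1))⟩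
    have p1 := peakA_pow (show NN (a * b) < NN a by simpa using T2 1 a _ x1)
    have p2 := peakA_pow (show NN (b * d) < NN b by simpa using T2 1 b _ x2)
    have p3 := peakA_pow n3
    exact ⟨d, md, d1, d2, .head ⟨v1, d1, d3, by omega, by omega⟩
      (.head ⟨v2, d3, d4, by omega, by omega⟩ (.single ⟨v3, d4, d2, by omega, by omega⟩))⟩
  · exact absurd ⟨x1, x2⟩ ((hP α c D iD).2 a b d hab hbd)
  · -- both slides replace the common letter
    have x3 : Mx a (a * b) (a * (b * d)) := by simpa using peakA_mul a x2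
    have n3 : NN (a * (b * d)) < NN b := by simpa using T3 _ _ _ _ x1 x3
    have c1 := ((hR α c D a b iD hab).2 D1 i1 r1).2.2.2.2.1 d hbd
    obtain ⟨-, -, -, -, k1, i3, r3⟩ := (F D1 i1).2.2.2.2 _ _ c1
    have c2 := (hL α c D D2 b d iD i2 hbd r2).2.2.2.2.1 a hab
    have v1 : Mv c D1 _ := ⟨i1, i3, _, _, c1, Or.inl r3⟩
    have m1 := M5 _ _ _ _ iD i1 mb ne r1
    have m2 := M5 _ _ _ _ iD i2 mb nf r2
    have m3 := M5 _ _ _ _ i1 i3 (peakA_new r1) k1 r3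
    have a1 : a ∈ D1 := peakA_mem r1 ma ba.symm ab'
    have a2 : a ∈ D2 := peakA_mem r2 ma ba.symm ab'
    have a3 := peakA_mem r3 a1 (nD a ma _ ne).1 (nD a ma _ ne).2
    generalize slide D1 (a * b) d = D3 at *
    rw [mul_assoc] at r3 m3
    have v2 : Mv c D3 D2 := M1 _ _ ⟨i2, i3, _, _, c2,
      Or.inr (peakA_rs r2 (peakA_rr r1 r3 ne (ninv _ ne)) nf (ninv _ nf))⟩
    have p1 := peakA_pow (show NN (a * b) < NN b by
      have := T2 _ _ _ x1.symm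
      rwa [mul_one, peakA_inv, mul_inv_rev, inv_mul_cancel_right, peakA_inv] at this)
    have p2 := peakA_pow (show NN (b * d) < NN b by simpa using T2 1 b _ x2)
    have p3 := peakA_pow n3
    exact ⟨a, ma, a1, a2, .head ⟨v1, a1, a3, by omega, by omega⟩
      (.single ⟨v2, a3, a2, by omega, by omega⟩)⟩
  · -- both slides replace the right letter
    have n1 : NN a < NN b := by simpa [peakA_inv] using T2 _ _ _ x1
    have n2 : NN b < NN d := by simpa [peakA_inv] using T2 _ _ _ x2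
    have x3 : Mx (a * b) (a * b * d) a := by simpa [mul_assoc] using peakA_mul a x2
    have n3 : NN (a * b * d) < NN d := by
      have := T2 _ _ _ (T4 _ _ _ _ x1 x3).symm
      rwa [mul_one, peakA_inv, mul_inv_rev, inv_mul_cancel_right, peakA_inv] at this
    obtain ⟨ad, ad'⟩ := peakA_ne (n1.trans n2)
    obtain ⟨-, -, -, R4, -, R6⟩ := (hR α c D b d iD hbd).2 D2 i2 r2
    have c2 := R4 a hab ad'
    obtain ⟨⟨D3, i3, r3⟩, R⟩ := hR α c D2 _ _ i2 c2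
    have c3 := (R D3 i3 r3).2.2.1 b R6 ba
    have c1 := ((hR α c D a b iD hab).2 D1 i1 r1).2.2.2.2.1 d hbd
    obtain ⟨⟨D4, i4, r4⟩, -⟩ := hR α c D1 _ _ i1 c1
    have k1 := ((F D1 i1).2.2.2.2 _ _ c1).2.2.2.2.1
    have k2 := ((F D2 i2).2.2.2.2 _ _ c2).2.2.2.2.1
    have v1 : Mv c D1 D4 := ⟨i1, i4, _, _, c1, Or.inr r4⟩
    have v3 : Mv c D3 D2 := M1 _ _ ⟨i2, i3, _, _, c2, Or.inr r3⟩
    have b2 : b ∈ D2 := peakA_mem r2 mb db.symm bd'
    have m1 := M5 _ _ _ _ iD i1 mb ne r1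
    have m2 := M5 _ _ _ _ iD i2 md nf r2
    have m3 := M5 _ _ _ _ i2 i3 (peakA_new r2) k2 r3
    have m4 := M5 _ _ _ _ i1 i4 (peakA_mem r1 md db db') k1 r4
    have a1 : a ∈ D1 := peakA_mem r1 ma ba.symm ab'
    have a2 : a ∈ D2 := peakA_mem r2 ma ad ad'
    have a3 := peakA_mem r3 a2 (nD a ma _ nf).1 (nD a ma _ nf).2
    have a4 := peakA_mem r4 a1 ad ad'
    rw [← mul_assoc] at k2 r3 m3
    have v2 : Mv c D4 D3 := M1 _ _ ⟨i3, i4, _, _, c3, Or.inr (peakA_sq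
      (peakA_rr r2 r3 nf (ninv _ nf)) r1 r4 (nD' d md _ ne).1 (nD' d md _ ne).2
      (fun e => k2 (by rwa [e])) fun e => k2 (by rw [e]; exact ((F D2 i2).2.2.2.1 b b2).1))⟩
    have p1 := peakA_pow (show NN (a * b) < NN b by
      have := T2 _ _ _ x1.symm
      rwa [mul_one, peakA_inv, mul_inv_rev, inv_mul_cancel_right, peakA_inv] at this)
    have p2 := peakA_pow (show NN (b * d) < NN d by
      have := T2 _ _ _ x2.symm
      rwa [mul_one, peakA_inv, mul_inv_rev, inv_mul_cancel_right, peakA_inv] at this)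
    have p3 := peakA_pow n3
    exact ⟨a, ma, a1, a2, .head ⟨v1, a1, a4, by omega, by omega⟩
      (.head ⟨v2, a4, a3, by omega, by omega⟩ (.single ⟨v3, a3, a2, by omega, by omega⟩))⟩

end Pool.Agent.MB
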