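import Pool.Agent.Lib.MP_c86c76_al.B.St

/-!
Peaks at two disjoint corners, both slides replace the left letter.
-/

set_option autoImplicit false

namespace Pool.Agent.MB

open FreeGroup

section Sets

variable {G : Type} [Group G]

theorem peakLL_repl {D D' : List G} {x e : G} (h : Rep D x e D') : Rep D x⁻¹ e D' := by
  intro w
  rw [h w, inv_inv]
  tauto

theorem peakLL_repr {D D' : List G} {x e : G} (h : Rep D x e D') : Rep D x e⁻¹ D' := by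
  intro w
  rw [h w, inv_inv]
  tauto

theorem peakLL_mem {D D' : List G} {x e w : G} (h : Rep D x e D') (hw : w ∈ D) (h1 : w ≠ x)
    (h2 : w ≠ x⁻¹) : w ∈ D' := (h w).2 (Or.inl ⟨hw, h1, h2⟩)

theorem peakLL_comp {D D1 D3 : List G} {x e k : G} (h1 : Rep D x e D1) (h3 : Rep D1 e k D3)
    (he : e ∉ D) (he' : e⁻¹ ∉ D) : Rep D x k D3 := by
  intro w
  rw [h3 w, h1 w]
  constructor
  · tauto
  · rintro (⟨hw, ha, hb⟩ | hw)
    · exact Or.inl ⟨Or.inl ⟨hw, ha, hb⟩, fun h => he (h ▸ hw), fun h => he' (h ▸ hw)⟩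
    · exact Or.inr hw

theorem peakLL_back {D D2 D3 : List G} {x f k : G} (h2 : Rep D x f D2) (h3 : Rep D x k D3)
    (hf : f ∉ D) (hf' : f⁻¹ ∉ D) : Rep D2 f k D3 := by
  intro w
  rw [h3 w, h2 w]
  constructor
  · rintro (⟨hw, ha, hb⟩ | hw)
    · exact Or.inl ⟨Or.inl ⟨hw, ha, hb⟩, fun h => hf (h ▸ hw), fun h => hf' (h ▸ hw)⟩
    · exact Or.inr hw
  · tauto

theorem peakLL_comm {D D1 D2 D' : List G} {a e u f : G} (h1 : Rep D a e D1) (h2 : Rep D u f D2)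
    (h3 : Rep D1 u f D') (ha : a ∈ D) (ha' : a⁻¹ ∈ D) (hu : u ∈ D) (hu' : u⁻¹ ∈ D)
    (he : e ∉ D) (he' : e⁻¹ ∉ D) (hf : f ∉ D) (hf' : f⁻¹ ∉ D) : Rep D2 a e D' := by
  intro w
  rw [h3 w, h1 w, h2 w]
  constructor
  · rintro (⟨(⟨hw, h4, h5⟩ | hw), h6, h7⟩ | hw | hw)
    · exact Or.inl ⟨Or.inl ⟨hw, h6, h7⟩, h4, h5⟩
    · exact Or.inr hw
    · subst hw
      exact Or.inl ⟨Or.inr (Or.inl rfl), fun h => hf (h ▸ ha), fun h => hf (h ▸ ha')⟩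
    · subst hw
      exact Or.inl ⟨Or.inr (Or.inr rfl), fun h => hf' (h ▸ ha), fun h => hf' (h ▸ ha')⟩
  · rintro (⟨(⟨hw, h4, h5⟩ | hw), h6, h7⟩ | hw | hw)
    · exact Or.inl ⟨Or.inl ⟨hw, h6, h7⟩, h4, h5⟩
    · exact Or.inr hw
    · subst hw
      exact Or.inl ⟨Or.inr (Or.inl rfl), fun h => he (h ▸ hu), fun h => he (h ▸ hu')⟩
    · subst hw
      exact Or.inl ⟨Or.inr (Or.inr rfl), fun h => he' (h ▸ hu), fun h => he' (h ▸ hu')⟩

end Sets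

section Main

variable {α : Type} [DecidableEq α] [Fintype α]

theorem peakLL_NN (w : FreeGroup α) : NN w⁻¹ = NN w := by
  rw [NN, NN, inv_inv, add_comm]

theorem peakLL_tr (g : FreeGroup α) {p q r : FreeGroup α} (h : Mx p q r) :
    Mx (g * p) (g * q) (g * r) := by
  simpa [Mx, Hh, mul_assoc] using h

theorem peakLL_lt (hT : TreeSt) {a e : FreeGroup α} (h : Mx 1 a e) : 3 ^ NN e < 3 ^ NN a := by
  have := (hT α).2.1 1 a e h
  rw [inv_one, one_mul, one_mul] at this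
  exact Nat.pow_lt_pow_right (by norm_num) this

theorem peakLL_inv (hD : DiaSt) {c : Ctx α} {D : List (FreeGroup α)} (h : IsD c D)
    {w : FreeGroup α} (hw : w ∈ D) : w⁻¹ ∈ D :=
  ((((hD α c).2.2.2.2 D h).2.2.2.1) w hw).1

theorem peakLL_ninv (hD : DiaSt) {c : Ctx α} {D : List (FreeGroup α)} (h : IsD c D)
    {w : FreeGroup α} (hw : w ∉ D) : w⁻¹ ∉ D := fun h' =>
  hw (inv_inv w ▸ peakLL_inv hD h h')

theorem peakLL_symm (hM : MvSt) {c : Ctx α} {n : ℕ} {z : FreeGroup α}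
    {D D' : List (FreeGroup α)} (h : Low c n z D D') : Low c n z D' D := by
  induction h with
  | refl => exact Relation.ReflTransGen.refl
  | tail _ h2 ih =>
    exact Relation.ReflTransGen.head
      ⟨(hM α c).1 _ _ h2.1, h2.2.2.1, h2.2.1, h2.2.2.2.2, h2.2.2.2.1⟩ ih

theorem peakLL_step {c : Ctx α} {n : ℕ} {z a b : FreeGroup α} {D D' : List (FreeGroup α)}
    (h : IsD c D) (h' : IsD c D') (hab : Adj D a b) (hr : Rep D a (a * b) D') (hz : z ∈ D)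
    (hz' : z ∈ D') (hn : mu D < n) (hn' : mu D' < n) : Low c n z D D' :=
  Relation.ReflTransGen.single ⟨⟨h, h', a, b, hab, Or.inl hr⟩, hz, hz', hn, hn'⟩

/-- The two corners start with a letter and its inverse. -/
theorem peakLL_A (hT : TreeSt) (hD : DiaSt) (hL : AdjLSt) (hM : MvSt) {c : Ctx α}
    {D D1 D2 : List (FreeGroup α)} {a b v : FreeGroup α} (h : IsD c D) (h1 : IsD c D1)
    (h2 : IsD c D2) (hab : Adj D a b) (huv : Adj D a⁻¹ v) (m1 : Mx 1 a (a * b))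
    (r1 : Rep D a (a * b) D1) (m2 : Mx 1 a⁻¹ (a⁻¹ * v)) (r2 : Rep D a⁻¹ (a⁻¹ * v) D2) :
    Low c (mu D) b D1 D2 := by
  obtain ⟨ha, hb, hba, hba', he, -, -⟩ := ((hD α c).2.2.2.2 D h).2.2.2.2 a b hab
  obtain ⟨ha', -, -, -, hf, -, -⟩ := ((hD α c).2.2.2.2 D h).2.2.2.2 _ v huv
  have he' := peakLL_ninv hD h he
  have hf' := peakLL_ninv hD h hf
  have a1 : Adj D1 (a * b)⁻¹ v := (hL α c D D1 a b h h1 hab r1).2.1 v huv
  have a2 : Adj D2 (a⁻¹ * v)⁻¹ b :=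
    (hL α c D D2 _ v h h2 huv r2).2.1 b (by rwa [inv_inv])
  obtain ⟨he1, -, -, -, hk, h3, r3⟩ := ((hD α c).2.2.2.2 D1 h1).2.2.2.2 _ v a1
  set D3 := slide D1 (a * b)⁻¹ v
  have r4 : Rep D a ((a * b)⁻¹ * v) D3 :=
    peakLL_comp (peakLL_repr r1) r3 he' (by rwa [inv_inv])
  have r5 : Rep D2 (a⁻¹ * v)⁻¹ ((a⁻¹ * v)⁻¹ * b) D3 := by
    have := peakLL_repr (peakLL_repl (peakLL_back r2 (peakLL_repl r4) hf hf'))
    rwa [show ((a * b)⁻¹ * v)⁻¹ = (a⁻¹ * v)⁻¹ * b by group] at this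
  have u1 := (hM α c).2.2.2.2.1 D D1 _ _ h h1 ha he r1
  have u2 := (hM α c).2.2.2.2.1 D D2 _ _ h h2 ha' hf r2
  have u3 := (hM α c).2.2.2.2.1 D1 D3 _ _ h1 h3 he1 hk r3
  rw [peakLL_NN] at u3
  have l1 := peakLL_lt hT m1
  have l2 := peakLL_lt hT m2
  have l3 : 3 ^ NN ((a * b)⁻¹ * v) < 3 ^ NN a := by
    have m3 : Mx 1 a v := by
      have := peakLL_tr a m2
      rw [mul_one, mul_inv_cancel, mul_inv_cancel_left] at this
      exact this.symm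
    have := (hT α).2.2.1 1 a (a * b) v m1 m3
    rw [inv_one, one_mul] at this
    exact Nat.pow_lt_pow_right (by norm_num) this
  have b1 := peakLL_mem r1 hb hba hba'
  have b2 := peakLL_mem r2 hb hba' (by rwa [inv_inv])
  have b3 := peakLL_mem r4 hb hba hba'
  exact (peakLL_step h1 h3 a1 r3 b1 b3 (by omega) (by omega)).trans
    (peakLL_symm hM (peakLL_step h2 h3 a2 r5 b2 b3 (by omega) (by omega)))

/-- The common end of the remaining cases. -/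
theorem peakLL_fin (hT : TreeSt) (hD : DiaSt) (hL : AdjLSt) (hM : MvSt) {c : Ctx α}
    {D D1 D2 D' : List (FreeGroup α)} {a b u v : FreeGroup α} (h : IsD c D)
    (h2 : IsD c D2) (h' : IsD c D') (hab : Adj D a b) (huv : Adj D u v) (hau : a ≠ u)
    (hau' : a ≠ u⁻¹) (hbu : b ≠ u) (hbu' : b ≠ u⁻¹) (hav : a ≠ v) (m1 : Mx 1 a (a * b))
    (r1 : Rep D a (a * b) D1) (m2 : Mx 1 u (u * v)) (r2 : Rep D u (u * v) D2)
    (r3 : Rep D1 u (u * v) D') :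
    b ∈ D' ∧ mu D' < mu D ∧ Low c (mu D) b D' D2 := by
  obtain ⟨ha, hb, hba, hba', he, -, -⟩ := ((hD α c).2.2.2.2 D h).2.2.2.2 a b hab
  obtain ⟨hu, -, -, -, hf, -, -⟩ := ((hD α c).2.2.2.2 D h).2.2.2.2 u v huv
  have r4 : Rep D2 a (a * b) D' := peakLL_comm r1 r2 r3 ha (peakLL_inv hD h ha) hu
    (peakLL_inv hD h hu) he (peakLL_ninv hD h he) hf (peakLL_ninv hD h hf)
  have a2 : Adj D2 a b := (hL α c D D2 u v h h2 huv r2).1 a b hab
    (fun x => x.elim hau hau') (fun x => x.elim hbu hbu') hav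
  obtain ⟨ha2, hb2, -, -, he2, -, -⟩ := ((hD α c).2.2.2.2 D2 h2).2.2.2.2 a b a2
  have u2 := (hM α c).2.2.2.2.1 D D2 _ _ h h2 hu hf r2
  have u4 := (hM α c).2.2.2.2.1 D2 D' _ _ h2 h' ha2 he2 r4
  have l1 := peakLL_lt hT m1
  have l2 := peakLL_lt hT m2
  have b3 := peakLL_mem r4 hb2 hba hba'
  exact ⟨b3, by omega,
    peakLL_symm hM (peakLL_step h2 h' a2 r4 hb2 b3 (by omega) (by omega))⟩

/-- The second corner ends with the inverse of the first letter. -/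
theorem peakLL_B (hT : TreeSt) (hD : DiaSt) (hL : AdjLSt) (hM : MvSt) {c : Ctx α}
    {D D1 D2 : List (FreeGroup α)} {a b u : FreeGroup α} (h : IsD c D) (h1 : IsD c D1)
    (h2 : IsD c D2) (hab : Adj D a b) (huv : Adj D u a⁻¹) (hau : a ≠ u) (hbu : b ≠ u)
    (hav : a ≠ a⁻¹) (m1 : Mx 1 a (a * b)) (r1 : Rep D a (a * b) D1) (m2 : Mx 1 u (u * a⁻¹))
    (r2 : Rep D u (u * a⁻¹) D2) : b ∈ D ∧ b ∈ D1 ∧ b ∈ D2 ∧ Low c (mu D) b D1 D2 := by
  obtain ⟨ha, hb, hba, hba', he, -, -⟩ := ((hD α c).2.2.2.2 D h).2.2.2.2 a b hab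
  obtain ⟨hu, -, hvu, -, hf, -, -⟩ := ((hD α c).2.2.2.2 D h).2.2.2.2 u _ huv
  have hau' : a ≠ u⁻¹ := fun x => hvu (by rw [x, inv_inv])
  have a1 : Adj D1 u b := (hL α c D D1 a b h h1 hab r1).2.2.1 u huv hbu.symm
  have a1' : Adj D1 b (a * b)⁻¹ := (hL α c D D1 a b h h1 hab r1).2.2.2.2.2
  obtain ⟨hu1, hb1, -, hbu', hk, h3, r3⟩ := ((hD α c).2.2.2.2 D1 h1).2.2.2.2 u b a1
  set D3 := slide D1 u b
  have a3 : Adj D3 (u * b) (a * b)⁻¹ := (hL α c D1 D3 u b h1 h3 a1 r3).2.2.2.1 _ a1'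
    (fun x => he (inv_injective x ▸ hu))
  obtain ⟨-, -, -, -, -, h4, r4⟩ := ((hD α c).2.2.2.2 D3 h3).2.2.2.2 _ _ a3
  set D4 := slide D3 (u * b) (a * b)⁻¹
  have r5 : Rep D1 u (u * a⁻¹) D4 := by
    have := peakLL_comp r3 r4 hk (peakLL_ninv hD h1 hk)
    rwa [show u * b * (a * b)⁻¹ = u * a⁻¹ by group] at this
  obtain ⟨b4, n4, lo⟩ := peakLL_fin hT hD hL hM h h2 h4 hab huv hau hau' hbu hbu' hav
    m1 r1 m2 r2 r5
  have u1 := (hM α c).2.2.2.2.1 D D1 _ _ h h1 ha he r1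
  have u3 := (hM α c).2.2.2.2.1 D1 D3 _ _ h1 h3 hu1 hk r3
  have l1 := peakLL_lt hT m1
  have l3 : 3 ^ NN (u * b) < 3 ^ NN u := by
    apply peakLL_lt hT
    have m3 := peakLL_tr (u * a⁻¹) m1
    rw [mul_one, inv_mul_cancel_right, mul_assoc, inv_mul_cancel_left] at m3
    exact ((hT α).2.2.2.1 _ _ _ _ m3 m2.symm).symm
  have b3 := peakLL_mem r3 hb1 hbu hbu'
  exact ⟨hb, hb1, peakLL_mem r2 hb hbu hbu',
    ((peakLL_step h1 h3 a1 r3 hb1 b3 (by omega) (by omega)).trans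
      (peakLL_step h3 h4 a3 r4 b3 b4 (by omega) n4)).trans lo⟩

end Main

theorem peakLLSt (hT : TreeSt) (hD : DiaSt) (hL : AdjLSt) (_hR : AdjRSt) (hM : MvSt) :
    PeakLLSt := by
  intro α _ _ c D D1 D2 a b u v h h1 h2 hab huv hau hbu hav hbv m1 r1 m2 r2
  obtain ⟨ha, hb, hba, hba', he, -, -⟩ := ((hD α c).2.2.2.2 D h).2.2.2.2 a b hab
  by_cases c1 : u = a⁻¹
  · subst c1
    exact ⟨b, hb, peakLL_mem r1 hb hba hba', peakLL_mem r2 hb hba' (by rwa [inv_inv]),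
      peakLL_A hT hD hL hM h h1 h2 hab huv m1 r1 m2 r2⟩
  by_cases c2 : v = a⁻¹
  · subst c2
    exact ⟨b, peakLL_B hT hD hL hM h h1 h2 hab huv hau hbu hav m1 r1 m2 r2⟩
  by_cases c3 : b = u⁻¹
  · subst c3
    obtain ⟨v0, v2, v1, lo⟩ :=
      peakLL_B hT hD hL hM h h2 h1 huv hab hau.symm hav.symm hbu.symm m2 r2 m1 r1
    exact ⟨v, v0, v1, v2, peakLL_symm hM lo⟩
  have a1 : Adj D1 u v := (hL α c D D1 a b h h1 hab r1).1 u v huv
    (fun x => x.elim hau.symm c1) (fun x => x.elim hav.symm c2) hbu.symm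
  obtain ⟨-, -, -, -, -, h3, r3⟩ := ((hD α c).2.2.2.2 D1 h1).2.2.2.2 u v a1
  obtain ⟨b3, n3, lo⟩ := peakLL_fin hT hD hL hM h h2 h3 hab huv hau
    (fun x => c1 (by rw [x, inv_inv])) hbu c3 hav m1 r1 m2 r2 r3
  have u1 := (hM α c).2.2.2.2.1 D D1 _ _ h h1 ha he r1
  have l1 := peakLL_lt hT m1
  have b1 := peakLL_mem r1 hb hba hba'
  exact ⟨b, hb, b1, peakLL_mem r2 hb hbu c3,
    (peakLL_step h1 h3 a1 r3 b1 b3 (by omega) n3).trans lo⟩

end Pool.Agent.MB
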