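import Pool.Agent.Lib.MP_c86c76_al.B.St

/-!
Peaks at two disjoint corners of mixed type; the peak lemma.
-/

set_option autoImplicit false

namespace Pool.Agent.MB

open FreeGroup

section Aux

variable {G : Type} [Group G]

theorem peakLR_pm_inv (w x : G) : Pm w x⁻¹ ↔ Pm w x := by
  simp only [Pm, inv_inv, or_comm]

theorem peakLR_pm_self (x : G) : Pm x x := Or.inl rfl

/-- One replacement, in the form used for set computations. -/
def PeakLRStep (E : List G) (x y : G) (E' : List G) : Prop :=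
  ∀ w, (w ∈ E' ↔ (w ∈ E ∧ ¬ Pm w x) ∨ Pm w y) ∧ (Pm w x → w ∈ E) ∧ (Pm w y → w ∉ E)

theorem PeakLRStep.inv {E E' : List G} {x y : G} (h : PeakLRStep E x⁻¹ y E') :
    PeakLRStep E x y E' := fun w => by simpa only [peakLR_pm_inv] using h w

theorem PeakLRStep.keep {E E' : List G} {x y z : G} (h : PeakLRStep E x y E') (h1 : z ∈ E)
    (h2 : ¬ Pm z x) : z ∈ E' := (h z).1.2 (Or.inl ⟨h1, h2⟩)

theorem peakLR_sq {D D1 D2 E E' : List G} {a e v f : G} (s1 : PeakLRStep D a e D1)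
    (s2 : PeakLRStep D v f D2) (s4 : PeakLRStep D1 v f E) (s5 : PeakLRStep D2 a e E') (w : G) :
    w ∈ E ↔ w ∈ E' := by
  obtain ⟨a1, a2, a3⟩ := s1 w
  obtain ⟨b1, b2, b3⟩ := s2 w
  rw [(s4 w).1, (s5 w).1, a1, b1]
  grind

theorem peakLR_pent1 {D D1 D2 E1 E E' : List G} {a e u k f : G} (s1 : PeakLRStep D a e D1)
    (s2 : PeakLRStep D a f D2) (s3 : PeakLRStep D1 u k E1) (s4 : PeakLRStep E1 e f E)
    (s5 : PeakLRStep D2 u k E') (hu : ∀ w, Pm w u → w ∈ D) (w : G) : w ∈ E ↔ w ∈ E' := by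
  obtain ⟨a1, a2, a3⟩ := s1 w
  obtain ⟨b1, b2, b3⟩ := s2 w
  obtain ⟨c1, c2, c3⟩ := s3 w
  have := hu w
  rw [(s4 w).1, (s5 w).1, c1, b1]
  rw [a1] at c3 ⊢
  grind

theorem peakLR_pent2 {D D1 D2 E1 E E' : List G} {a e v k f : G} (s1 : PeakLRStep D a e D1)
    (s2 : PeakLRStep D v f D2) (s3 : PeakLRStep D1 v k E1) (s4 : PeakLRStep E1 k f E)
    (s5 : PeakLRStep D2 a e E') (w : G) : w ∈ E ↔ w ∈ E' := by
  obtain ⟨a1, a2, a3⟩ := s1 w
  obtain ⟨b1, b2, b3⟩ := s2 w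
  obtain ⟨c1, c2, c3⟩ := s3 w
  rw [(s4 w).1, (s5 w).1, c1, b1]
  rw [a1] at c3 ⊢
  grind

theorem peakLR_succ {β : Type} {D : List β} (h : D.Nodup) {a b v : β} (h1 : Adj D a b)
    (h2 : Adj D a v) : b = v := by
  obtain ⟨l1, l2, rfl⟩ := h1
  obtain ⟨l3, l4, e⟩ := h2
  have a1 : a ∉ l1 := fun hh => (List.nodup_append.1 h).2.2 a hh a (by simp) rfl
  have a2 : a ∉ b :: l2 := (List.nodup_cons.1 (List.nodup_append.1 h).2.1).1
  have := ((List.append_cons_inj_of_notMem a1 a2).1 e).2.2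
  exact (List.cons.inj this).1

theorem peakLR_pred {β : Type} {D : List β} (h : D.Nodup) {a b u : β} (h1 : Adj D a b)
    (h2 : Adj D u b) : a = u := by
  obtain ⟨l1, l2, rfl⟩ := h1
  obtain ⟨l3, l4, e⟩ := h2
  rw [List.append_cons l1 a] at h
  rw [List.append_cons l1 a, List.append_cons l3 u] at e
  have a1 : b ∉ l1 ++ [a] := fun hh => (List.nodup_append.1 h).2.2 b hh b (by simp) rfl
  have a2 : b ∉ l2 := (List.nodup_cons.1 (List.nodup_append.1 h).2.1).1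
  have := ((List.append_cons_inj_of_notMem a1 a2).1 e).1
  simpa using (List.append_inj' this rfl).2

end Aux

section Main

variable {α : Type} [DecidableEq α] [Fintype α] {c : Ctx α}

theorem peakLR_NN (w : FreeGroup α) : NN w⁻¹ = NN w := by
  simp only [NN, inv_inv, add_comm]

theorem peakLR_mx (g : FreeGroup α) {p q r : FreeGroup α} (h : Mx p q r) :
    Mx (g * p) (g * q) (g * r) := by
  simpa [Mx, Hh, mul_assoc] using h

theorem peakLR_symm (hM : MvSt) {n : ℕ} {z : FreeGroup α} {D D' : List (FreeGroup α)}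
    (h : Low c n z D D') : Low c n z D' D := by
  induction h with
  | refl => exact Relation.ReflTransGen.refl
  | tail _ h2 ih =>
    exact Relation.ReflTransGen.head
      ⟨(hM α c).1 _ _ h2.1, h2.2.2.1, h2.2.1, h2.2.2.2.2, h2.2.2.2.1⟩ ih

theorem peakLR_step (hD : DiaSt) (hM : MvSt) {E E' : List (FreeGroup α)} {x y : FreeGroup α}
    (hE : IsD c E) (hE' : IsD c E') (hx : x ∈ E) (hy : y ∉ E) (h : Rep E x y E') :
    PeakLRStep E x y E' ∧ mu E' + 2 * 3 ^ NN x = mu E + 2 * 3 ^ NN y := by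
  have hi := ((hD α c).2.2.2.2 E hE).2.2.2.1
  refine ⟨fun w => ⟨?_, ?_, ?_⟩, (hM α c).2.2.2.2.1 E E' x y hE hE' hx hy h⟩
  · rw [h w]; simp only [Pm, not_or, ne_eq]
  · rintro (rfl | rfl)
    · exact hx
    · exact (hi x hx).1
  · rintro (rfl | rfl)
    · exact hy
    · exact fun hh => hy (by simpa using (hi _ hh).1)

theorem peakLR_L (hD : DiaSt) (hM : MvSt) {E : List (FreeGroup α)} {p q : FreeGroup α}
    (hE : IsD c E) (h : Adj E p q) : ∃ E', IsD c E' ∧ Rep E p (p * q) E' ∧ Mv c E E' ∧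
      PeakLRStep E p (p * q) E' ∧ mu E' + 2 * 3 ^ NN p = mu E + 2 * 3 ^ NN (p * q) := by
  obtain ⟨h1, -, -, -, h2, h3, h4⟩ := ((hD α c).2.2.2.2 E hE).2.2.2.2 p q h
  exact ⟨_, h3, h4, ⟨hE, h3, p, q, h, Or.inl h4⟩, peakLR_step hD hM hE h3 h1 h2 h4⟩

theorem peakLR_R (hD : DiaSt) (hR : AdjRSt) (hM : MvSt) {E : List (FreeGroup α)}
    {p q : FreeGroup α} (hE : IsD c E) (h : Adj E p q) :
    ∃ E', IsD c E' ∧ Rep E q (p * q) E' ∧ Mv c E E' ∧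
      PeakLRStep E q (p * q) E' ∧ mu E' + 2 * 3 ^ NN q = mu E + 2 * 3 ^ NN (p * q) := by
  obtain ⟨-, h1, -, -, h2, -, -⟩ := ((hD α c).2.2.2.2 E hE).2.2.2.2 p q h
  obtain ⟨E', h3, h4⟩ := (hR α c E p q hE h).1
  exact ⟨_, h3, h4, ⟨hE, h3, p, q, h, Or.inr h4⟩, peakLR_step hD hM hE h3 h1 h2 h4⟩

theorem peakLR_pow {x n : ℕ} (h : x < n) : 3 * 3 ^ x ≤ 3 ^ n := by
  rw [← pow_succ']
  exact Nat.pow_le_pow_right (by norm_num) h

end Main

theorem peakLRSt (hT : TreeSt) (hD : DiaSt) (hL : AdjLSt) (hR : AdjRSt) (hM : MvSt) :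
    PeakLRSt := by
  intro α _ _ c D D1 D2 a b u v hD0 hD1 hD2 hab huv au bu av bv m1 r1 m2 r2
  obtain ⟨-, T2, T3, T4, -⟩ := hT α
  have uq := (hD α c).2.2.2.1
  obtain ⟨ha, hb, ba, ba', he, -, -⟩ := ((hD α c).2.2.2.2 D hD0).2.2.2.2 a b hab
  obtain ⟨hu, hv, vu, vu', hf, -, -⟩ := ((hD α c).2.2.2.2 D hD0).2.2.2.2 u v huv
  obtain ⟨s1, e1⟩ := peakLR_step hD hM hD0 hD1 ha he r1
  obtain ⟨s2, e2⟩ := peakLR_step hD hM hD0 hD2 hv hf r2
  obtain ⟨L1, L2, L3, -, -, L6⟩ := hL α c D D1 a b hD0 hD1 hab r1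
  obtain ⟨R1, R2, R3, -, -, R6⟩ := (hR α c D u v hD0 huv).2 D2 hD2 r2
  have n1 : NN (a * b) < NN a := by simpa using T2 _ _ _ m1
  have n2 : NN b < NN a := by simpa [peakLR_NN] using T2 _ _ _ m1.symm
  have n3 : NN u < NN v := by simpa [peakLR_NN] using T2 _ _ _ m2
  have n4 : NN (u * v) < NN v := by
    have := T2 _ _ _ m2.symm
    rwa [mul_one, peakLR_NN, mul_inv_rev, inv_mul_cancel_right, peakLR_NN] at this
  have p1 := peakLR_pow n1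
  have p4 := peakLR_pow n4
  have q1 : 0 < 3 ^ NN (a * b) := by positivity
  have q4 : 0 < 3 ^ NN (u * v) := by positivity
  have nba : ¬ Pm b a := fun h => h.elim ba ba'
  have nuv : ¬ Pm u v := fun h => h.elim (fun e => vu e.symm) fun e => vu' (by rw [e, inv_inv])
  by_cases c1 : v = a⁻¹
  · subst c1
    rw [peakLR_NN] at n3 n4 e2 p4
    have A1 := L3 u huv (Ne.symm bu)
    have A2 := R3 b (by rwa [inv_inv]) bu
    have n5 : NN (u * b) < NN a := by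
      have m3 := (peakLR_mx (a * u⁻¹) m2).symm
      simp only [mul_assoc, inv_mul_cancel_left, mul_inv_cancel, mul_one,
        inv_mul_cancel] at m3
      simpa [mul_assoc] using T3 _ _ _ _ m3 m1
    have p5 := peakLR_pow n5
    obtain ⟨E1, i1, r3, v3, s3, e3⟩ := peakLR_L hD hM hD1 A1
    have A3 := (hL α c D1 E1 u b hD1 i1 A1 r3).2.2.2.1 _ L6
      (fun e => he (by rw [inv_injective e]; exact hu))
    obtain ⟨E2, i2, r4, v4, s4, e4⟩ := peakLR_R hD hR hM i1 A3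
    obtain ⟨E3, i3, r5, v5, s5, e5⟩ := peakLR_L hD hM hD2 A2
    have id : u * b * (a * b)⁻¹ = u * a⁻¹ := by group
    rw [id] at s4 e4
    rw [peakLR_NN] at e4
    have : E2 = E3 := uq _ _ i2 i3 (peakLR_pent1 s1 s2.inv s3 s4.inv s5 (by
      rintro w (rfl | rfl)
      · exact hu
      · exact (((hD α c).2.2.2.2 D hD0).2.2.2.1 u hu).1))
    subst this
    have nbu : ¬ Pm b u := by
      obtain ⟨-, -, h1, h2, -⟩ := ((hD α c).2.2.2.2 D1 hD1).2.2.2.2 u b A1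
      exact fun h => h.elim h1 h2
    have z : b ∈ D1 ∧ b ∈ D2 ∧ b ∈ E1 ∧ b ∈ E2 :=
      ⟨s1.keep hb nba, s2.inv.keep hb nba, s3.keep (s1.keep hb nba) nbu,
        s5.keep (s2.inv.keep hb nba) nbu⟩
    have q : 0 < 3 ^ NN u := by positivity
    exact ⟨b, hb, z.1, z.2.1, .head ⟨v3, z.1, z.2.2.1, by omega, by omega⟩
      (.head ⟨v4, z.2.2.1, z.2.2.2, by omega, by omega⟩
        (.single ⟨(hM α c).1 _ _ v5, z.2.2.2, z.2.1, by omega, by omega⟩))⟩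
  have nva : ¬ Pm v a := fun h => h.elim (fun e => av e.symm) c1
  have nav : ¬ Pm a v := fun h => h.elim av fun e => c1 (by rw [e, inv_inv])
  by_cases c2 : u = a⁻¹
  · subst c2
    rw [peakLR_NN] at n3
    have bv' : b ≠ v⁻¹ := fun e => by
      rw [e, peakLR_NN] at n2
      omega
    have nbv : ¬ Pm b v := fun h => h.elim bv bv'
    have A1 := L2 v huv
    have A2 := R1 a b hab nav nbv bu
    have n5 : NN ((a * b)⁻¹ * v) < NN v := by
      have m3 := peakLR_mx a m2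
      simp only [mul_inv_cancel, mul_inv_cancel_left, mul_one] at m3
      have := T2 _ _ _ (T4 _ _ _ _ m1.symm m3).symm
      rwa [mul_one, peakLR_NN, ← peakLR_NN, mul_inv_rev, inv_inv] at this
    have p5 := peakLR_pow n5
    obtain ⟨E1, i1, r3, v3, s3, e3⟩ := peakLR_R hD hR hM hD1 A1
    have A3 := ((hR α c D1 _ _ hD1 A1).2 E1 i1 r3).2.2.2.1 b L6 bv'
    obtain ⟨E2, i2, r4, v4, s4, e4⟩ := peakLR_R hD hR hM i1 A3
    obtain ⟨E3, i3, r5, v5, s5, e5⟩ := peakLR_L hD hM hD2 A2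
    have id : b * ((a * b)⁻¹ * v) = a⁻¹ * v := by group
    rw [id] at s4 e4
    have : E2 = E3 := uq _ _ i2 i3 (peakLR_pent2 s1 s2 s3 s4 s5)
    subst this
    have z : b ∈ D1 ∧ b ∈ D2 ∧ b ∈ E1 ∧ b ∈ E2 :=
      ⟨s1.keep hb nba, s2.keep hb nbv, s3.keep (s1.keep hb nba) nbv,
        s5.keep (s2.keep hb nbv) nba⟩
    have q : 0 < 3 ^ NN ((a * b)⁻¹ * v) := by positivity
    exact ⟨b, hb, z.1, z.2.1, .head ⟨v3, z.1, z.2.2.1, by omega, by omega⟩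
      (.head ⟨v4, z.2.2.1, z.2.2.2, by omega, by omega⟩
        (.single ⟨(hM α c).1 _ _ v5, z.2.2.2, z.2.1, by omega, by omega⟩))⟩
  have nua : ¬ Pm u a := fun h => h.elim (fun e => au e.symm) c2
  have A0 := L1 u v huv nua nva (Ne.symm bu)
  by_cases c3 : v = b⁻¹
  · subst c3
    have A1 := R2 a (by rwa [inv_inv])
    have n5 : NN (a * (u * b⁻¹)⁻¹) < NN a := by
      have m3 := peakLR_mx (a * b * u⁻¹) m2
      have id1 : a * b * u⁻¹ * u = a * b := by group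
      have id2 : a * b * u⁻¹ * (u * b⁻¹) = a := by group
      have id3 : a * b * u⁻¹ * 1 = a * (u * b⁻¹)⁻¹ := by group
      rw [id1, id2, id3] at m3
      have := T2 _ _ _ (T4 _ _ _ _ m3 m1.symm).symm
      rwa [inv_one, one_mul, one_mul] at this
    have p5 := peakLR_pow n5
    obtain ⟨E1, i1, r3, v3, s3, e3⟩ := peakLR_L hD hM hD2 A1
    have A3 := (hL α c D2 E1 _ _ hD2 i1 A1 r3).2.2.2.1 u R6 c2
    obtain ⟨E2, i2, r4, v4, s4, e4⟩ := peakLR_L hD hM i1 A3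
    obtain ⟨E3, i3, r5, v5, s5, e5⟩ := peakLR_R hD hR hM hD1 A0
    have id : a * (u * b⁻¹)⁻¹ * u = a * b := by group
    rw [id] at s4 e4
    have : E2 = E3 := uq _ _ i2 i3 (peakLR_pent2 s2 s1 s3 s4 s5)
    subst this
    have z : u ∈ D1 ∧ u ∈ D2 ∧ u ∈ E1 ∧ u ∈ E2 :=
      ⟨s1.keep hu nua, s2.keep hu nuv, s3.keep (s2.keep hu nuv) nua,
        s5.keep (s1.keep hu nua) nuv⟩
    have q : 0 < 3 ^ NN (a * (u * b⁻¹)⁻¹) := by positivity
    exact ⟨u, hu, z.1, z.2.1, .head ⟨v5, z.1, z.2.2.2, by omega, by omega⟩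
      (.head ⟨(hM α c).1 _ _ v4, z.2.2.2, z.2.2.1, by omega, by omega⟩
        (.single ⟨(hM α c).1 _ _ v3, z.2.2.1, z.2.1, by omega, by omega⟩))⟩
  have nbv : ¬ Pm b v := fun h => h.elim bv fun e => c3 (by rw [e, inv_inv])
  have A2 := R1 a b hab nav nbv bu
  obtain ⟨E2, i2, r4, v4, s4, e4⟩ := peakLR_R hD hR hM hD1 A0
  obtain ⟨E3, i3, r5, v5, s5, e5⟩ := peakLR_L hD hM hD2 A2
  have : E2 = E3 := uq _ _ i2 i3 (peakLR_sq s1 s2 s4 s5)
  subst this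
  have z : b ∈ D1 ∧ b ∈ D2 ∧ b ∈ E2 :=
    ⟨s1.keep hb nba, s2.keep hb nbv, s5.keep (s2.keep hb nbv) nba⟩
  exact ⟨b, hb, z.1, z.2.1, .head ⟨v4, z.1, z.2.2, by omega, by omega⟩
    (.single ⟨(hM α c).1 _ _ v5, z.2.2, z.2.1, by omega, by omega⟩)⟩

theorem peakSt (hD : DiaSt) (hM : MvSt) (hA : PeakASt) (h1 : PeakLLSt) (h2 : PeakRRSt)
    (h3 : PeakLRSt) : PeakSt := by
  intro α _ _ c D D1 D2 R1 R2
  have hz := ((hM α c).2.2.2.1 D D1 ((hM α c).2.2.2.2.2 D D1 R1).1).1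
  obtain ⟨hD0, hD1, a, b, hab, t1⟩ := R1
  obtain ⟨-, hD2, u, v, huv, t2⟩ := R2
  have nd := ((hD α c).2.2.2.2 D hD0).1
  have sw : (∃ z ∈ D, z ∈ D2 ∧ z ∈ D1 ∧ Low c (mu D) z D2 D1) →
      ∃ z ∈ D, z ∈ D1 ∧ z ∈ D2 ∧ Low c (mu D) z D1 D2 :=
    fun ⟨z, a1, a2, a3, a4⟩ => ⟨z, a1, a3, a2, peakLR_symm hM a4⟩
  by_cases c1 : a = u ∨ b = v
  · obtain ⟨rfl, rfl⟩ : a = u ∧ b = v := by
      rcases c1 with rfl | rfl
      · exact ⟨rfl, peakLR_succ nd hab huv⟩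
      · exact ⟨peakLR_pred nd hab huv, rfl⟩
    have : D1 = D2 := by
      rcases t1 with ⟨m1, r1⟩ | ⟨m1, r1⟩ <;> rcases t2 with ⟨m2, r2⟩ | ⟨m2, r2⟩
      · exact (hD α c).2.2.2.1 _ _ hD1 hD2 fun w => (r1 w).trans (r2 w).symm
      · exact absurd m1.2 (lt_asymm m2.1)
      · exact absurd m2.2 (lt_asymm m1.1)
      · exact (hD α c).2.2.2.1 _ _ hD1 hD2 fun w => (r1 w).trans (r2 w).symm
    subst this
    obtain ⟨z, z1, z2⟩ := hz
    exact ⟨z, z1, z2, z2, .refl⟩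
  rw [not_or] at c1
  by_cases c2 : b = u
  · subst c2
    exact hA α c D D1 D2 a b v hD0 hD1 hD2 hab huv t1 t2
  by_cases c3 : a = v
  · subst c3
    exact sw (hA α c D D2 D1 u a b hD0 hD2 hD1 huv hab t2 t1)
  rcases t1 with ⟨m1, r1⟩ | ⟨m1, r1⟩ <;> rcases t2 with ⟨m2, r2⟩ | ⟨m2, r2⟩
  · exact h1 α c D D1 D2 a b u v hD0 hD1 hD2 hab huv c1.1 c2 c3 c1.2 m1 r1 m2 r2
  · exact h3 α c D D1 D2 a b u v hD0 hD1 hD2 hab huv c1.1 c2 c3 c1.2 m1 r1 m2 r2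
  · exact sw (h3 α c D D2 D1 u v a b hD0 hD2 hD1 huv hab (Ne.symm c1.1) (Ne.symm c3) (Ne.symm c2)
      (Ne.symm c1.2) m2 r2 m1 r1)
  · exact h2 α c D D1 D2 a b u v hD0 hD1 hD2 hab huv c1.1 c2 c3 c1.2 m1 r1 m2 r2

end Pool.Agent.MB
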