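import Pool.Agent.Lib.MP_c86c76_al.B.St

/-!
The corners of a diagram are in cyclic order.
-/

set_option autoImplicit false

namespace Pool.Agent.MB

open FreeGroup

section

variable {G : Type} [Group G]

open Classical in
/-- The substitution of a slide. -/
noncomputable def plF (a b w : G) : List (G) :=
  if w = a then [a * b] else if w = b then [] else if w = a⁻¹ then [b, (a * b)⁻¹] else [w]

theorem plF_slide (D : List (G)) (a b : G) :
    slide D a b = D.flatMap (plF a b) := rfl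

theorem plF_cases (a b w : G) (ha : w ≠ a) (hb : w ≠ b) :
    (w = a⁻¹ ∧ plF a b w = [b, (a * b)⁻¹]) ∨ plF a b w = [w] := by
  unfold plF
  rw [if_neg ha, if_neg hb]
  by_cases h : w = a⁻¹
  · left; exact ⟨h, by rw [if_pos h]⟩
  · right; rw [if_neg h]

theorem plF_prod (a b : G) (l : List (G)) (ha : a ∉ l) (hb : b ∉ l) :
    (l.flatMap (plF a b)).prod = l.prod := by
  induction l with
  | nil => simp
  | cons w l ih =>
    simp only [List.mem_cons, not_or] at ha hb
    rw [List.flatMap_cons, List.prod_append, ih ha.2 hb.2, List.prod_cons]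
    rcases plF_cases a b w (Ne.symm ha.1) (Ne.symm hb.1) with ⟨h, e⟩ | e
    · rw [e, h]; simp
    · rw [e]; simp

theorem plF_split (a b : G) (l1 l2 : List (G)) (hab : b ≠ a) :
    slide (l1 ++ a :: b :: l2) a b =
      l1.flatMap (plF a b) ++ (a * b) :: l2.flatMap (plF a b) := by
  have e1 : plF a b a = [a * b] := by unfold plF; rw [if_pos rfl]
  have e2 : plF a b b = [] := by unfold plF; rw [if_neg hab, if_pos rfl]
  rw [plF_slide, List.flatMap_append, List.flatMap_cons, List.flatMap_cons, e1, e2]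
  simp

end

section

variable {α : Type} [DecidableEq α]

/-- The corners reached from `p` along the list increase. -/
def plIncr (ρ : α × Bool → ℕ) : FreeGroup α → List (FreeGroup α) → Prop
  | _, [] => True
  | p, w :: D => Lo ρ p (p * w) ∧ plIncr ρ (p * w) D

theorem plIncr_append (ρ : α × Bool → ℕ) (l1 l2 : List (FreeGroup α)) (p : FreeGroup α) :
    plIncr ρ p (l1 ++ l2) ↔ plIncr ρ p l1 ∧ plIncr ρ (p * l1.prod) l2 := by
  induction l1 generalizing p with
  | nil => simp [plIncr]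
  | cons w l ih => simp [plIncr, ih, mul_assoc, and_assoc]

variable [Fintype α]

theorem plIncr_flat (hC : CycSt) (ρ : α × Bool → ℕ) (a b : FreeGroup α)
    (H : ∀ q, Cyc ρ q (q * b) (q * a⁻¹)) (l : List (FreeGroup α)) (ha : a ∉ l) (hb : b ∉ l)
    (p : FreeGroup α) : plIncr ρ p (l.flatMap (plF a b)) ↔ plIncr ρ p l := by
  obtain ⟨-, -, -, -, -, h6, -, h8, -⟩ := hC α ρ
  induction l generalizing p with
  | nil => simp
  | cons w l ih =>
    simp only [List.mem_cons, not_or] at ha hb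
    rw [List.flatMap_cons]
    rcases plF_cases a b w (Ne.symm ha.1) (Ne.symm hb.1) with ⟨h, e⟩ | e
    · rw [e, h]
      have e2 : p * b * (a * b)⁻¹ = p * a⁻¹ := by group
      simp only [List.cons_append, List.nil_append, plIncr, e2, ih ha.2 hb.2]
      constructor
      · rintro ⟨h1, h2, h3⟩
        exact ⟨h6 _ _ _ h1 h2, h3⟩
      · rintro ⟨h1, h3⟩
        obtain ⟨h4, h5⟩ := h8 _ _ _ h1 (H p)
        exact ⟨h4, h5, h3⟩
    · rw [e]
      simp only [List.cons_append, List.nil_append, plIncr, ih ha.2 hb.2]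

theorem plIncr_adj (hC : CycSt) (ρ : α × Bool → ℕ) (D : List (FreeGroup α))
    (h : plIncr ρ 1 D) (u v : FreeGroup α) (huv : Adj D u v) (q : FreeGroup α) :
    Cyc ρ q (q * u) (q * u * v) := by
  obtain ⟨-, h2, -, -, -, -, h7, -⟩ := hC α ρ
  obtain ⟨l1, l2, rfl⟩ := huv
  rw [plIncr_append] at h
  obtain ⟨-, ha, hb, -⟩ := h
  have := h2 (q * (1 * l1.prod)⁻¹) _ _ _ (h7 _ _ _ ha hb)
  simpa [mul_assoc] using this

theorem plIncr_slide (hC : CycSt) (ρ : α × Bool → ℕ) (a b : FreeGroup α)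
    (l1 l2 : List (FreeGroup α)) (hn : (l1 ++ a :: b :: l2).Nodup)
    (H : ∀ q, Cyc ρ q (q * a) (q * a * b)) :
    plIncr ρ 1 (slide (l1 ++ a :: b :: l2) a b) ↔ plIncr ρ 1 (l1 ++ a :: b :: l2) := by
  have hC' := hC
  obtain ⟨h1, -, -, -, -, h6, -, h8, -⟩ := hC α ρ
  have H' : ∀ q, Cyc ρ q (q * b) (q * a⁻¹) := fun q => by
    have := h1 _ _ _ (H (q * a⁻¹))
    simpa [mul_assoc] using this
  rw [List.nodup_append] at hn
  obtain ⟨-, hn2, hn3⟩ := hn
  simp only [List.nodup_cons, List.mem_cons, not_or] at hn2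
  have ha1 : a ∉ l1 := fun h => hn3 a h a (by simp) rfl
  have hb1 : b ∉ l1 := fun h => hn3 b h b (by simp) rfl
  rw [plF_split a b l1 l2 (Ne.symm hn2.1.1), plIncr_append, plIncr_append,
    plIncr_flat hC' ρ a b H' l1 ha1 hb1, plF_prod a b l1 ha1 hb1]
  simp only [plIncr]
  rw [plIncr_flat hC' ρ a b H' l2 hn2.1.2 hn2.2.1, ← mul_assoc]
  constructor
  · rintro ⟨h0, h2, h3⟩
    obtain ⟨h4, h5⟩ := h8 _ _ _ h2 (H _)
    exact ⟨h0, h4, h5, h3⟩
  · rintro ⟨h0, h2, h3, h4⟩
    exact ⟨h0, h6 _ _ _ h2 h3, h4⟩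

theorem plIncr_base_aux (hC : CycSt) (ρ : α × Bool → ℕ) (V U : List (α × Bool)) (l : α × Bool)
    (hr : IsReduced (U ++ l :: V)) (hc : ∀ u v, Adj (U ++ l :: V) u v → ρ v < ρ (bar u)) :
    plIncr ρ (mk (U ++ [l])) (V.map lt) := by
  obtain ⟨-, -, -, -, -, -, -, -, h9, -⟩ := hC α ρ
  induction V generalizing U l with
  | nil => simp [plIncr]
  | cons l' V ih =>
    have e : U ++ l :: l' :: V = (U ++ [l]) ++ l' :: V := by simp
    refine ⟨h9 U l l' ?_ (hc l l' ⟨U, V, rfl⟩), ?_⟩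
    · rw [e] at hr
      exact List.IsChain.left_of_append hr
    · have e2 : mk (U ++ [l]) * lt l' = mk ((U ++ [l]) ++ [l']) := by
        rw [lt, mul_mk]
      rw [e2]
      exact ih (U ++ [l]) l' (e ▸ hr) (e ▸ hc)

theorem plIncr_base (hC : CycSt) (hD : DiaSt) (c : Ctx α) : plIncr c.ρ 1 c.D0 := by
  obtain ⟨hr, h0, -, -, h5⟩ := hD α c
  have hne := (h5 _ h0).2.2.2.1
  have hch := c.ch
  unfold Ctx.D0 at hne ⊢
  generalize c.W = W at hr hne hch
  cases W with
  | nil => simp [plIncr]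
  | cons l V =>
    refine ⟨Or.inl ⟨rfl, ?_⟩, ?_⟩
    · rw [one_mul]; exact (hne (lt l) (by simp)).2.1
    · rw [one_mul]
      exact plIncr_base_aux hC c.ρ V [] l hr hch

theorem plIncr_all (hC : CycSt) (hD : DiaSt) (hL : AdjLSt) (hM : MvSt) (hK : ConnSt)
    (c : Ctx α) (D : List (FreeGroup α)) (hd : IsD c D) : plIncr c.ρ 1 D := by
  obtain ⟨h1, -⟩ := hC α c.ρ
  obtain ⟨-, -, -, -, h5⟩ := hD α c
  refine (hK α c).2.2 ∅ (plIncr c.ρ 1) (plIncr_base hC hD c) ?_ D hd (by simp)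
  intro E E' hm _ _ hq
  rcases (hM α c).2.2.1 E E' hm with ⟨a, b, hab, he⟩ | ⟨a, b, hab, he⟩
  · have hs := (h5 E hm.1).2.2.2.2 a b hab
    have hadj : Adj E' b (a * b)⁻¹ :=
      (hL α c E E' a b hm.1 hm.2.1 hab (he ▸ hs.2.2.2.2.2.2)).2.2.2.2.2
    have H : ∀ q, Cyc c.ρ q (q * a) (q * a * b) := fun q => by
      have := h1 _ _ _ (h1 _ _ _ (plIncr_adj hC c.ρ E' hq b _ hadj (q * a)))
      simpa [mul_assoc] using this
    have hn := (h5 E hm.1).1
    obtain ⟨l1, l2, rfl⟩ := hab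
    rw [he] at hq
    exact (plIncr_slide hC c.ρ a b l1 l2 hn H).1 hq
  · have H := plIncr_adj hC c.ρ E' hq a b hab
    have hn := (h5 E' hm.2.1).1
    obtain ⟨l1, l2, rfl⟩ := hab
    rw [he]
    exact (plIncr_slide hC c.ρ a b l1 l2 hn H).2 hq

end

theorem plAdj3 {β : Type} (D : List β) (hn : D.Nodup) (a b d : β) (h1 : Adj D a b)
    (h2 : Adj D b d) : ∃ l1 l2, D = l1 ++ a :: b :: d :: l2 := by
  obtain ⟨l1, l2, rfl⟩ := h1
  obtain ⟨l3, l4, e⟩ := h2
  have e' : (l1 ++ [a]) ++ b :: l2 = l3 ++ b :: d :: l4 := by simpa using e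
  have hn1 : ((l1 ++ [a]) ++ b :: l2).Nodup := by simpa using hn
  have n1 : b ∉ l1 ++ [a] := fun h => (List.nodup_append.1 hn1).2.2 b h b (by simp) rfl
  have n2 : b ∉ l2 := (List.nodup_cons.1 (List.nodup_append.1 hn1).2.1).1
  have := (List.append_cons_inj_of_notMem n1 n2).1 e'
  exact ⟨l1, l4, by rw [this.2.2]⟩

theorem plSt (hC : CycSt) (hD : DiaSt) (hL : AdjLSt) (hM : MvSt) (hK : ConnSt) : PlSt := by
  intro α _ _ c D hd
  have hq := plIncr_all hC hD hL hM hK c D hd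
  obtain ⟨h1, h2, -, -, -, h6, h7, -, -, h10⟩ := hC α c.ρ
  constructor
  · intro u v huv
    have := h1 _ _ _ (plIncr_adj hC c.ρ D hq u v huv u⁻¹)
    exact Or.inr (by simpa using this)
  · rintro a b d hab hbd ⟨m1, m2⟩
    have c1 := plIncr_adj hC c.ρ D hq a b hab 1
    obtain ⟨l1, l2, rfl⟩ := plAdj3 D ((hD α c).2.2.2.2 D hd).1 a b d hab hbd
    rw [plIncr_append] at hq
    obtain ⟨-, ha, hb, hd', -⟩ := hq
    have c2 := h2 (1 * l1.prod)⁻¹ _ _ _ (h7 _ _ _ (h6 _ _ _ ha hb) hd')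
    refine h10 1 a (a * b) (a * b * d) (by simpa using c1) (by simpa [mul_assoc] using c2)
      ⟨m1.1, ?_⟩
    have := m2.2
    simpa [Hh, mul_assoc] using this

theorem plNx (V : RW) (l w : ℕ × Bool) (h : nx V l = some w) : ∃ u, Adj V u l ∧ w = bar u := by
  induction V with
  | nil => simp [nx] at h
  | cons u V ih =>
    cases V with
    | nil => simp [nx] at h
    | cons v t =>
      rw [nx] at h
      by_cases e : v = l
      · rw [if_pos e] at h
        exact ⟨u, ⟨[], t, by rw [e]; rfl⟩, (Option.some.inj h).symm⟩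
      · rw [if_neg e] at h
        obtain ⟨u', ⟨l1, l2, e'⟩, hw⟩ := ih h
        exact ⟨u', ⟨u :: l1, l2, by rw [e']; rfl⟩, hw⟩

theorem ltVSt (hC : CycSt) (hP : PlSt) : LtVSt := by
  intro α _ _ c V f hd hf l u h
  obtain ⟨-, -, -, -, -, h6, -⟩ := hC α c.ρ
  have step : ∀ l w, nx V l = some w → Lo c.ρ (f l) (f w) := by
    intro l w h
    obtain ⟨u, ⟨l1, l2, e⟩, rfl⟩ := plNx V l w h
    rw [hf]
    exact (hP α c _ hd).1 (f u) (f l) ⟨l1.map f, l2.map f, by rw [e]; simp⟩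
  have key : ∀ k l, u ∈ up V k l → Lo c.ρ (f l) (f u) := by
    intro k
    induction k with
    | zero => intro l h; simp [up] at h
    | succ k ih =>
      intro l h
      rw [up] at h
      cases e : nx V l with
      | none => rw [e] at h; simp at h
      | some w =>
        rw [e] at h
        rcases List.mem_cons.1 h with rfl | h
        · exact step l _ e
        · exact h6 _ _ _ (step l w e) (ih w h)
  exact key _ l (of_decide_eq_true h)

end Pool.Agent.MB
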