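import Pool.Agent.Lib.MP_c86c76_al.B.St

/-! Soundness of the calculus of raw words. -/

set_option autoImplicit false

namespace Pool.Agent.MB

open FreeGroup

section Gw

variable {G : Type} [Group G] (T : ℕ → G)

theorem Raw_nil : gw T [] = 1 := by
  rw [gw, ← one_eq_mk, _root_.map_one]

theorem Raw_append (u v : RW) : gw T (u ++ v) = gw T u * gw T v := by
  rw [gw, ← mul_mk, _root_.map_mul]; rfl

theorem Raw_iv_eq (u : RW) : iv u = invRev u := by
  have : ∀ acc : RW, u.foldl (fun acc l => (l.1, !l.2) :: acc) acc = invRev u ++ acc := by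
    induction u with
    | nil => intro acc; simp
    | cons l t ih => intro acc; simp [ih, invRev]
  simpa [iv] using this []

theorem Raw_iv (u : RW) : gw T (iv u) = (gw T u)⁻¹ := by
  rw [Raw_iv_eq, gw, ← inv_mk, _root_.map_inv]; rfl

theorem Raw_pos (i : ℕ) : gw T [(i, true)] = T i := by simp [gw]

theorem Raw_neg (i : ℕ) : gw T [(i, false)] = (T i)⁻¹ := by simp [gw]

theorem Raw_cons (l : ℕ × Bool) (u : RW) :
    gw T (l :: u) = cond l.2 (T l.1) (T l.1)⁻¹ * gw T u := by
  rw [← List.singleton_append, Raw_append]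
  obtain ⟨i, _ | _⟩ := l
  · rw [Raw_neg]; rfl
  · rw [Raw_pos]; rfl

theorem Raw_rd1 (l : ℕ × Bool) (u : RW) : gw T (rd1 l u) = gw T (l :: u) := by
  rcases u with _ | ⟨v, t⟩
  · rfl
  · obtain ⟨i, b⟩ := l
    obtain ⟨j, b'⟩ := v
    by_cases h : i = j
    · subst h
      cases b <;> cases b' <;> simp [rd1, Raw_cons]
    · have : Nat.beq i j = false := by
        cases e : Nat.beq i j
        · rfl
        · exact absurd (Nat.eq_of_beq_eq_true e) h
      simp [rd1, this]

theorem Raw_rd (u : RW) : gw T (rd u) = gw T u := by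
  induction u with
  | nil => rfl
  | cons l t ih =>
    have : rd (l :: t) = rd1 l (rd t) := rfl
    rw [this, Raw_rd1, Raw_cons, Raw_cons, ih]

theorem Raw_eqW : ∀ u v : RW, eqW u v = true → u = v
  | [], [], _ => rfl
  | [], _ :: _, h => by simp [eqW] at h
  | _ :: _, [], h => by simp [eqW] at h
  | (i, b) :: t, (j, b') :: v, h => by
    simp only [eqW, Bool.and_eq_true] at h
    obtain ⟨⟨h1, h2⟩, h3⟩ := h
    have e1 : i = j := Nat.eq_of_beq_eq_true h1
    have e2 : b = b' := by cases b <;> cases b' <;> simp_all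
    rw [e1, e2, Raw_eqW t v h3]

theorem Raw_eqW_refl : ∀ u : RW, eqW u u = true
  | [] => rfl
  | (i, b) :: t => by simp [eqW, Raw_eqW_refl t]

theorem Raw_eqF_refl (u : RW) : eqF u u = true := Raw_eqW_refl _

theorem Raw_eqF (u v : RW) (h : eqF u v = true) : gw T u = gw T v := by
  rw [← Raw_rd T u, ← Raw_rd T v, Raw_eqW _ _ h]

theorem Raw_sub (s : List RW) (u : RW) :
    gw T (sub s u) = gw (fun i => gw T (s.getD i [(i, true)])) u := by
  induction u with
  | nil => rfl
  | cons l t ih =>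
    have : sub s (l :: t) = cond l.2 (s.getD l.1 [(l.1, true)]) (iv (s.getD l.1 [(l.1, true)]))
        ++ sub s t := rfl
    rw [this, Raw_append, ih, Raw_cons]
    obtain ⟨i, _ | _⟩ := l
    · simp only [cond_false, Raw_iv]
    · simp only [cond_true]

theorem Raw_bd {m : ℕ} {u : RW} : bd m u = true ↔ ∀ l ∈ u, l.1 < m := by
  simp [bd, Nat.blt_eq]

theorem Raw_mem (H : Subgroup G) (m : ℕ) (u : RW) (h : ∀ i < m, T i ∈ H) (hb : bd m u = true) :
    gw T u ∈ H := by
  rw [Raw_bd] at hb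
  induction u with
  | nil => rw [Raw_nil]; exact H.one_mem
  | cons l t ih =>
    rw [Raw_cons]
    refine H.mul_mem ?_ (ih fun x hx => hb x (List.mem_cons_of_mem _ hx))
    have := h l.1 (hb l List.mem_cons_self)
    cases l.2
    · exact H.inv_mem this
    · exact this

theorem Raw_congr (T' : ℕ → G) (m : ℕ) (u : RW) (h : ∀ i < m, T i = T' i)
    (hb : bd m u = true) : gw T u = gw T' u := by
  rw [Raw_bd] at hb
  induction u with
  | nil => rw [Raw_nil, Raw_nil]
  | cons l t ih =>
    rw [Raw_cons, Raw_cons, ih fun x hx => hb x (List.mem_cons_of_mem _ hx),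
      h l.1 (hb l List.mem_cons_self)]

theorem Raw_map (G' : Type) [Group G'] (f : G →* G') (u : RW) :
    f (gw T u) = gw (fun i => f (T i)) u := by
  induction u with
  | nil => rw [Raw_nil, Raw_nil, _root_.map_one]
  | cons l t ih =>
    rw [Raw_cons, Raw_cons, _root_.map_mul, ih]
    cases l.2 <;> simp

end Gw

variable (n : ℕ)

theorem Raw_ev (w : RW) : ev n w = mk (fw n w) := by
  induction w with
  | nil => exact Raw_nil _
  | cons l t ih =>
    rw [ev, Raw_cons, ← ev, ih]
    obtain ⟨i, b⟩ := l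
    by_cases h : i < n
    · have : fw n ((i, b) :: t) = [((⟨i, h⟩ : Fin n), b)] ++ fw n t := by simp [fw, h]
      rw [this, ← mul_mk]
      congr 1
      cases b
      · simp only [io, dif_pos h, cond_false, FreeGroup.of, inv_mk]; rfl
      · simp only [io, dif_pos h, cond_true, FreeGroup.of]
    · have : fw n ((i, b) :: t) = fw n t := by simp [fw, h]
      rw [this]
      cases b <;> simp [io, h]

theorem Raw_of (i : Fin n) : ev n [((i : ℕ), true)] = of i := by
  rw [ev, Raw_pos, io, dif_pos i.2]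

theorem Raw_en (s : List RW) (hs : s.length ≤ n) (w : RW) :
    en n s (ev n w) = ev n (sub s w) := by
  rw [ev, Raw_map, ev, Raw_sub]
  congr 1
  ext i
  by_cases h : i < n
  · simp only [io, dif_pos h, en, lift_apply_of]; rfl
  · rw [List.getD_eq_default _ _ (by omega), Raw_pos]
    simp [io, h]

theorem Raw_ok {n : ℕ} {p : SA} : okS n p = true ↔ p.1.length ≤ n ∧ p.2.length ≤ n ∧
    (∀ u ∈ p.1, bd n u = true) ∧ (∀ u ∈ p.2, bd n u = true) ∧ ∀ i < n,
      eqF (sub p.1 (sub p.2 [(i, true)])) [(i, true)] = true ∧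
      eqF (sub p.2 (sub p.1 [(i, true)])) [(i, true)] = true := by
  simp only [okS, Bool.and_eq_true, Nat.ble_eq, List.all_eq_true, List.mem_range, and_assoc]

theorem Raw_aut (p : SA) (w : RW) (h : okS n p = true) :
    aut n p (ev n w) = ev n (sub p.1 w) ∧ (aut n p)⁻¹ (ev n w) = ev n (sub p.2 w) := by
  obtain ⟨h1, h2, -, -, h5⟩ := Raw_ok.1 h
  have e : (en n p.2).comp (en n p.1) = MonoidHom.id _ ∧
      (en n p.1).comp (en n p.2) = MonoidHom.id _ := by
    constructor
    · ext i
      rw [MonoidHom.comp_apply, MonoidHom.id_apply, ← Raw_of, Raw_en n _ h1, Raw_en n _ h2]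
      exact Raw_eqF _ _ _ (h5 i i.2).2
    · ext i
      rw [MonoidHom.comp_apply, MonoidHom.id_apply, ← Raw_of, Raw_en n _ h2, Raw_en n _ h1]
      exact Raw_eqF _ _ _ (h5 i i.2).1
  rw [aut, dif_pos e]
  exact ⟨Raw_en n _ h1 w, Raw_en n _ h2 w⟩

theorem Raw_sub_big (s : List RW) (i : ℕ) (h : s.length ≤ i) : sub s [(i, true)] = [(i, true)] := by
  simp only [sub, List.flatMap_cons, List.flatMap_nil, cond_true, List.append_nil]
  exact List.getD_eq_default _ _ h

theorem Raw_ok_nil : okS n ([], []) = true := by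
  refine Raw_ok.2 ⟨Nat.zero_le _, Nat.zero_le _, by simp, by simp, fun i _ => ?_⟩
  simp only [Raw_sub_big [] i (Nat.zero_le _), Raw_eqF_refl, and_self]

theorem Raw_ok_getD (Tl : List SA) (h : Tl.all (okS n) = true) (i : ℕ) :
    okS n (Tl.getD i ([], [])) = true := by
  by_cases hi : i < Tl.length
  · rw [List.getD_eq_getElem _ _ hi]
    exact List.all_eq_true.1 h _ (List.getElem_mem hi)
  · rw [List.getD_eq_default _ _ (by omega)]
    exact Raw_ok_nil n

theorem Raw_act (Tl : List SA) (h : Tl.all (okS n) = true) (w u : RW) :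
    gw (fun i => aut n (Tl.getD i ([], []))) w (ev n u) = ev n (act Tl w u) := by
  induction w with
  | nil => rw [Raw_nil]; rfl
  | cons l t ih =>
    have : act Tl (l :: t) u = rd (sub (cond l.2 (Tl.getD l.1 ([], [])).1
        (Tl.getD l.1 ([], [])).2) (act Tl t u)) := rfl
    rw [this, Raw_cons, MulAut.mul_apply, ih, ev, ev, Raw_rd, ← ev, ← ev]
    have h1 := Raw_aut n _ (act Tl t u) (Raw_ok_getD n Tl h l.1)
    cases l.2
    · exact h1.2
    · exact h1.1

theorem Raw_ext {φ ψ : MulAut (FreeGroup (Fin n))} (h : ∀ i, φ (of i) = ψ (of i)) : φ = ψ := by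
  apply MulEquiv.toMonoidHom_injective
  ext i
  exact h i

theorem Raw_triv (Tl : List SA) (h : Tl.all (okS n) = true) (w : RW) (ht : triv n Tl w = true) :
    gw (fun i => aut n (Tl.getD i ([], []))) w = 1 := by
  refine Raw_ext n fun i => ?_
  rw [MulAut.one_apply, ← Raw_of, Raw_act n Tl h]
  simp only [triv, List.all_eq_true, List.mem_range] at ht
  exact Raw_eqF _ _ _ (ht i i.2)

theorem Raw_inc (w : RW) (h : bd n w = true) : inc n (ev n w) = ev (n + 2) w := by
  rw [ev, Raw_map, ev]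
  refine Raw_congr _ _ n w (fun i hi => ?_) h
  have h2 : i < n + 2 := by omega
  simp only [io, dif_pos hi, dif_pos h2, inc, FreeGroup.map.of]
  rfl

theorem Raw_ok2 (p : SA) (h : okS n p = true) : okS (n + 2) p = true := by
  obtain ⟨h1, h2, h3, h4, h5⟩ := Raw_ok.1 h
  have hb : ∀ u, bd n u = true → bd (n + 2) u = true := fun u hu =>
    Raw_bd.2 fun l hl => by have := Raw_bd.1 hu l hl; omega
  refine Raw_ok.2 ⟨by omega, by omega, fun u hu => hb u (h3 u hu), fun u hu => hb u (h4 u hu),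
    fun i _ => ?_⟩
  by_cases hi : i < n
  · exact h5 i hi
  · simp only [Raw_sub_big p.1 i (by omega), Raw_sub_big p.2 i (by omega), Raw_eqF_refl, and_self]

theorem Raw_exA (p : SA) (h : okS n p = true) : exA n (aut n p) = aut (n + 2) p := by
  obtain ⟨h1, -, h3, -, -⟩ := Raw_ok.1 h
  refine Raw_ext (n + 2) fun i => ?_
  rw [exA_apply, exE, lift_apply_of]
  have e := (Raw_aut (n + 2) p [((i : ℕ), true)] (Raw_ok2 n p h)).1
  rw [Raw_of] at e
  rw [e]
  by_cases hi : (i : ℕ) < n
  · have e' := (Raw_aut n p [((i : ℕ), true)] h).1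
    rw [Raw_of n ⟨i, hi⟩] at e'
    rw [dif_pos hi, MonoidHom.coe_coe, e']
    refine Raw_inc n _ ?_
    simp only [sub, List.flatMap_cons, List.flatMap_nil, cond_true, List.append_nil]
    by_cases hl : (i : ℕ) < p.1.length
    · rw [List.getD_eq_getElem _ _ hl]
      exact h3 _ (List.getElem_mem hl)
    · rw [List.getD_eq_default _ _ (by omega)]
      exact Raw_bd.2 (by simpa using hi)
  · rw [dif_neg hi, Raw_sub_big p.1 i (by omega), Raw_of]

theorem Raw_mem_sgn (l : ℕ × Bool) : l ∈ sgn n ↔ l.1 < n := by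
  obtain ⟨i, b⟩ := l
  cases b <;> simp [sgn]

theorem Raw_nodup_sgn : (sgn n).Nodup := by
  induction n with
  | zero => simp [sgn]
  | succ k ih =>
    have : sgn (k + 1) = sgn k ++ [(k, true), (k, false)] := by
      simp [sgn, List.range_succ]
    rw [this, List.nodup_append]
    refine ⟨ih, by simp, fun a ha b hb e => ?_⟩
    rw [Raw_mem_sgn] at ha
    subst e
    simp only [List.mem_cons, List.not_mem_nil, or_false] at hb
    rcases hb with rfl | rfl <;> exact lt_irrefl _ ha

/-- a letter as a raw letter -/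
def Raw_up (l : Fin n × Bool) : ℕ × Bool := ((l.1 : ℕ), l.2)

theorem Raw_up_inj : Function.Injective (Raw_up n) := by
  rintro ⟨i, b⟩ ⟨j, b'⟩ h
  simp only [Raw_up, Prod.mk.injEq] at h
  exact Prod.ext (Fin.ext h.1) h.2

theorem Raw_fw_up (U : List (Fin n × Bool)) : fw n (U.map (Raw_up n)) = U := by
  induction U with
  | nil => rfl
  | cons l t ih =>
    have : fw n ((l :: t).map (Raw_up n)) = l :: fw n (t.map (Raw_up n)) := by
      simp [fw, Raw_up]
    rw [this, ih]

theorem Raw_lift (W : RW) (h : bd n W = true) :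
    ∃ U : List (Fin n × Bool), W = U.map (Raw_up n) := by
  rw [Raw_bd] at h
  induction W with
  | nil => exact ⟨[], rfl⟩
  | cons l t ih =>
    obtain ⟨U, hU⟩ := ih fun x hx => h x (List.mem_cons_of_mem _ hx)
    exact ⟨(⟨l.1, h l List.mem_cons_self⟩, l.2) :: U, congrArg (List.cons l) hU⟩

theorem Raw_full (W : RW) (h : fullR n W = true) : Full (fw n W) ∧ bd n W = true := by
  have hp : W.Perm (sgn n) := by simpa [fullR] using h
  have hb : bd n W = true := Raw_bd.2 fun l hl => (Raw_mem_sgn n l).1 (hp.mem_iff.1 hl)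
  refine ⟨?_, hb⟩
  obtain ⟨U, rfl⟩ := Raw_lift n W hb
  rw [Raw_fw_up]
  refine ⟨(hp.nodup_iff.2 (Raw_nodup_sgn n)).of_map _, fun l => ?_⟩
  have := hp.mem_iff.2 ((Raw_mem_sgn n (Raw_up n l)).2 l.1.2)
  exact (List.mem_map_of_injective (Raw_up_inj n)).1 this

theorem Raw_del (W : RW) (l : Fin n × Bool) (h : bd n W = true) :
    del (fw n W) l = fw n (del W ((l.1 : ℕ), l.2)) := by
  obtain ⟨U, rfl⟩ := Raw_lift n W h
  have e1 : ∀ x : Fin n × Bool, (U.map (Raw_up n)).takeWhile (fun u => u ≠ Raw_up n x)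
      = (U.takeWhile fun u => u ≠ x).map (Raw_up n) := by
    intro x
    rw [List.takeWhile_map]
    congr 2
    ext u
    simp [(Raw_up_inj n).eq_iff]
  have e2 : ∀ X : List (Fin n × Bool), invRev (X.map (Raw_up n)) = (invRev X).map (Raw_up n) := by
    intro X
    simp [invRev, Raw_up, Function.comp_def]
  have e : del (U.map (Raw_up n)) ((l.1 : ℕ), l.2) = (del U l).map (Raw_up n) := by
    have a1 := e1 l
    have a2 := e1 (bar l)
    rw [del, del, List.map_append, List.map_cons, ← e2, ← a1, ← a2]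
    rfl
  rw [e, Raw_fw_up, Raw_fw_up]

theorem Raw_zip {β : Type} (l1 : List β) (a b : β) (l2 : List β) :
    (a, b) ∈ (l1 ++ a :: b :: l2).zip (l1 ++ a :: b :: l2).tail := by
  induction l1 with
  | nil => simp
  | cons x t ih =>
    rcases t with _ | ⟨y, t⟩
    · simp
    · simp only [List.cons_append, List.tail_cons, List.zip_cons_cons, List.mem_cons] at ih ⊢
      exact Or.inr ih

theorem Raw_ch (W : RW) (ρ : ℕ × Bool → ℕ) (h : bd n W = true)
    (hz : ((W.zip W.tail).all fun q => Nat.blt (ρ q.2) (ρ (bar q.1))) = true)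
    (u v : Fin n × Bool) (ha : Adj (fw n W) u v) :
    ρ ((v.1 : ℕ), v.2) < ρ (((bar u).1 : ℕ), (bar u).2) := by
  obtain ⟨U, rfl⟩ := Raw_lift n W h
  rw [Raw_fw_up] at ha
  obtain ⟨l1, l2, rfl⟩ := ha
  simp only [List.map_append, List.map_cons] at hz
  have := List.all_eq_true.1 hz _ (Raw_zip _ _ _ _)
  rw [Nat.blt_eq] at this
  exact this

theorem Raw_lt (l : Fin n × Bool) : ev n [Raw_up n l] = lt l := by
  rw [Raw_ev, ← List.map_singleton, Raw_fw_up]; rfl

theorem Raw_isD (c : Ctx (Fin n)) (V : RW) (ψ : MulAut (FreeGroup (Fin n)))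
    (h : fullR n V = true) (hr : ψ (ev n V) = c.r) : IsD c (V.map fun l => ψ (ev n [l])) := by
  obtain ⟨hf, hb⟩ := Raw_full n V h
  obtain ⟨U, rfl⟩ := Raw_lift n V hb
  rw [Raw_ev] at hr
  rw [Raw_fw_up] at hf hr
  have e : (U.map (Raw_up n)).map (fun l => ψ (ev n [l])) = U.map fun l => ψ (lt l) := by
    rw [List.map_map]
    exact List.map_congr_left fun l _ => by rw [Function.comp_apply, Raw_lt]
  refine ⟨ψ, U, hf, e, ?_⟩
  rw [e, ← hr]
  clear hf hr e h hb
  induction U with
  | nil => rw [← one_eq_mk, _root_.map_one]; rfl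
  | cons l t ih =>
    rw [List.map_cons, List.prod_cons, ih, ← _root_.map_mul, lt, mul_mk]; rfl

theorem rawSt : RawSt :=
  ⟨fun _ _ T => ⟨Raw_nil T, Raw_append T, Raw_iv T, Raw_pos T, Raw_neg T, Raw_rd T, Raw_eqF T,
    Raw_sub T, Raw_mem T, Raw_congr T, fun G' _ f u => Raw_map T G' f u⟩,
  fun n => ⟨Raw_ev n, Raw_aut n, fun Tl h w => ⟨Raw_act n Tl h w, Raw_triv n Tl h w⟩, Raw_inc n,
    fun p h => ⟨Raw_ok2 n p h, Raw_exA n p h⟩, Raw_full n, Raw_del n, Raw_ch n, Raw_isD n⟩⟩

end Pool.Agent.MB
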