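import Pool.Agent.Lib.MP_c86c76_al.B.St

/-!
A cocycle on the arcs integrates.
-/

set_option autoImplicit false

namespace Pool.Agent.MB

open FreeGroup

section

variable {α : Type} [DecidableEq α] [Fintype α] {A : Type} [Group A]

theorem scMx (g p q r : FreeGroup α) : Mx (g * p) (g * q) (g * r) ↔ Mx p q r := by
  simp [Mx, Hh, mul_assoc]

open Classical in
/-- The integral of the cocycle, by recursion on the height. -/
noncomputable def scK (c : Ctx α) (κ : FreeGroup α → FreeGroup α → A)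
    (D : List (FreeGroup α)) (y : FreeGroup α) : A :=
  if h : ∃ p : List (FreeGroup α) × FreeGroup α,
      Red c D p.1 ∧ p.2 ∈ D ∧ p.2 ∈ p.1 ∧ mu p.1 < mu D then
    scK c κ (Classical.choose h).1 (Classical.choose h).2 * κ (Classical.choose h).2 y
  else κ (c.D0.headD 1) y
termination_by mu D
decreasing_by exact (Classical.choose_spec h).2.2.2

theorem scCo (hD : DiaSt) (c : Ctx α) (κ : FreeGroup α → FreeGroup α → A)
    (hκ : All3 c (fun x y z => κ x y * κ y z = κ x z)) (D : List (FreeGroup α)) (h : IsD c D)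
    (x y z : FreeGroup α) (hx : x ∈ D) (hy : y ∈ D) (hz : z ∈ D) : κ x y * κ y z = κ x z := by
  obtain ⟨a, b, hab⟩ := (((hD α c).2.2.2.2 D h).2.2.2.1 x hx).2.2.2
  exact hκ D a b h hab x y z (Or.inl hx) (Or.inl hy) (Or.inl hz)

theorem scIn (hD : DiaSt) (hM : MvSt) (hK : ConnSt) (c : Ctx α)
    (κ : FreeGroup α → FreeGroup α → A)
    (hκ : All3 c (fun x y z => κ x y * κ y z = κ x z)) (D : List (FreeGroup α)) (h : IsD c D)
    (x : FreeGroup α) (hx : x ∈ D) (y : FreeGroup α) (hy : y ∈ D) :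
    scK c κ D y = scK c κ D x * κ x y := by
  by_cases hp : ∃ p : List (FreeGroup α) × FreeGroup α,
      Red c D p.1 ∧ p.2 ∈ D ∧ p.2 ∈ p.1 ∧ mu p.1 < mu D
  · rw [scK.eq_1 c κ D y, scK.eq_1 c κ D x, dif_pos hp, dif_pos hp, mul_assoc,
      scCo hD c κ hκ D h _ x y (Classical.choose_spec hp).2.1 hx hy]
  · rw [scK.eq_1 c κ D y, scK.eq_1 c κ D x, dif_neg hp, dif_neg hp]
    have e : D = c.D0 := by
      by_contra hne
      obtain ⟨D', hr⟩ := (hK α c).1 D h hne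
      obtain ⟨hm, hlt, -⟩ := (hM α c).2.2.2.2.2 D D' hr
      obtain ⟨⟨z, hz, hz'⟩, -⟩ := (hM α c).2.2.2.1 D D' hm
      exact hp ⟨(D', z), hr, hz, hz', hlt⟩
    have h0 : c.D0.headD 1 ∈ D := by
      rw [← e]
      cases D with
      | nil => simp at hx
      | cons u t => simp
    exact (scCo hD c κ hκ D h _ x y h0 hx hy).symm

theorem scMvAux (hT : TreeSt) (hD : DiaSt) (hL : AdjLSt) (hR : AdjRSt)
    (c : Ctx α) (κ : FreeGroup α → FreeGroup α → A)
    (hκ : All3 c (fun x y z => κ x y * κ y z = κ x z))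
    (K : List (FreeGroup α) → FreeGroup α → A)
    (hin : ∀ D, IsD c D → ∀ x ∈ D, ∀ y ∈ D, K D y = K D x * κ x y)
    (E E' : List (FreeGroup α)) (hm : Mv c E E')
    (h1 : ∀ F, Red c E F → ∀ x ∈ E, x ∈ F → K E x = K F x)
    (h2 : ∀ F, Red c E' F → ∀ x ∈ E', x ∈ F → K E' x = K F x)
    (z : FreeGroup α) (hz : z ∈ E) (hz' : z ∈ E') : K E z = K E' z := by
  obtain ⟨hE, hE', a, b, hab, hrep⟩ := hm
  obtain ⟨-, -, -, hmem, hadj⟩ := (hD α c).2.2.2.2 E hE
  obtain ⟨ha, hb, hba, hba', he, hsl, hslr⟩ := hadj a b hab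
  obtain ⟨hai, ha1, haa, -⟩ := hmem a ha
  obtain ⟨hbi, hb1, hbb, -⟩ := hmem b hb
  have hei : (a * b)⁻¹ ∉ E := fun h => he (by simpa using (hmem _ h).1)
  have hab1 : a * b ≠ 1 := fun h => hba' (eq_inv_of_mul_eq_one_right h)
  have hab2 : a ≠ a * b := fun h => he (h ▸ ha)
  have hia : a⁻¹ ≠ b := fun h => hba' h.symm
  have hib : b⁻¹ ≠ a := fun h => hba' (by rw [← h, inv_inv])
  have hii : a⁻¹ ≠ b⁻¹ := fun h => hba (inv_injective h).symm
  have e1 : b * (a * b)⁻¹ = a⁻¹ := by group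
  have e2 : (a * b)⁻¹ * a = b⁻¹ := by group
  have htri := (hT α).1 1 a (a * b) ha1.symm hab2 hab1.symm
  rcases hrep with hrep | hrep
  · have hadj' : Adj E' b (a * b)⁻¹ := (hL α c E E' a b hE hE' hab hrep).2.2.2.2.2
    rcases htri with hx | hx | hx
    · exact h1 E' ⟨hE, hE', a, b, hab, Or.inl ⟨hx, hrep⟩⟩ z hz hz'
    · obtain ⟨F, hF, hFr⟩ := (hR α c E a b hE hab).1
      have r1 : Red c E F := ⟨hE, hF, a, b, hab, Or.inr ⟨hx, hFr⟩⟩
      have r2 : Red c E' F := by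
        refine ⟨hE', hF, b, (a * b)⁻¹, hadj', Or.inl ⟨?_, ?_⟩⟩
        · rw [e1, ← scMx a]
          simpa using hx
        · rw [e1]
          intro w
          rw [hFr w, hrep w, inv_inv]
          grind
      have haF : a ∈ F := (hFr a).2 (Or.inl ⟨ha, hba.symm, hib.symm⟩)
      have heF : a * b ∈ F := (hFr _).2 (Or.inr (Or.inl rfl))
      have heE : a * b ∈ E' := (hrep _).2 (Or.inr (Or.inl rfl))
      rw [hin E hE a ha z hz, hin E' hE' _ heE z hz', h1 F r1 a ha haF, h2 F r2 _ heE heF,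
        hin F hF a haF _ heF, mul_assoc,
        hκ E a b hE hab a (a * b) z (Or.inl ha) (Or.inr (Or.inl rfl)) (Or.inl hz)]
    · refine (h2 E ⟨hE', hE, b, (a * b)⁻¹, hadj', Or.inr ⟨?_, ?_⟩⟩ z hz' hz).symm
      · rw [e1, ← scMx a]
        simpa using hx
      · rw [e1]
        intro w
        rw [hrep w, inv_inv, inv_inv]
        grind
  · have hadj' : Adj E' (a * b)⁻¹ a := ((hR α c E a b hE hab).2 E' hE' hrep).2.2.2.2.2
    rcases htri with hx | hx | hx
    · have r1 : Red c E (slide E a b) := ⟨hE, hsl, a, b, hab, Or.inl ⟨hx, hslr⟩⟩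
      have r2 : Red c E' (slide E a b) := by
        refine ⟨hE', hsl, (a * b)⁻¹, a, hadj', Or.inr ⟨?_, ?_⟩⟩
        · rw [← scMx (a * b)]
          simpa [mul_assoc] using hx
        · rw [e2]
          intro w
          rw [hslr w, hrep w, inv_inv]
          grind
      have hbF : b ∈ slide E a b := (hslr b).2 (Or.inl ⟨hb, hba, hia.symm⟩)
      have heF : a * b ∈ slide E a b := (hslr _).2 (Or.inr (Or.inl rfl))
      have heE : a * b ∈ E' := (hrep _).2 (Or.inr (Or.inl rfl))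
      rw [hin E hE b hb z hz, hin E' hE' _ heE z hz', h1 _ r1 b hb hbF, h2 _ r2 _ heE heF,
        hin _ hsl b hbF _ heF, mul_assoc,
        hκ E a b hE hab b (a * b) z (Or.inl hb) (Or.inr (Or.inl rfl)) (Or.inl hz)]
    · exact h1 E' ⟨hE, hE', a, b, hab, Or.inr ⟨hx, hrep⟩⟩ z hz hz'
    · refine (h2 E ⟨hE', hE, (a * b)⁻¹, a, hadj', Or.inl ⟨?_, ?_⟩⟩ z hz' hz).symm
      · rw [← scMx (a * b)]
        simpa [mul_assoc] using hx
      · rw [e2]
        intro w
        rw [hrep w, inv_inv, inv_inv]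
        grind

theorem scRed (hT : TreeSt) (hD : DiaSt) (hL : AdjLSt) (hR : AdjRSt) (hM : MvSt) (hK : ConnSt)
    (hP : PeakSt) (c : Ctx α) (κ : FreeGroup α → FreeGroup α → A)
    (hκ : All3 c (fun x y z => κ x y * κ y z = κ x z)) (n : ℕ) :
    ∀ D, mu D = n → ∀ D1, Red c D D1 → ∀ x ∈ D, x ∈ D1 → scK c κ D x = scK c κ D1 x := by
  induction n using Nat.strong_induction_on with
  | _ n ih =>
  intro D hn D1 hr x hx hx1
  have hin := scIn hD hM hK c κ hκ
  have hp : ∃ p : List (FreeGroup α) × FreeGroup α,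
      Red c D p.1 ∧ p.2 ∈ D ∧ p.2 ∈ p.1 ∧ mu p.1 < mu D :=
    ⟨(D1, x), hr, hx, hx1, ((hM α c).2.2.2.2.2 D D1 hr).2.1⟩
  obtain ⟨hr', hu, hu', -⟩ := Classical.choose_spec hp
  obtain ⟨z, hz, hz', hz1, hlow⟩ := hP α c D _ D1 hr' hr
  have e0 : scK c κ D z = scK c κ (Classical.choose hp).1 z := by
    rw [scK.eq_1 c κ D z, dif_pos hp, hin _ hr'.2.1 _ hu' z hz']
  have e1 : ∀ E, Low c (mu D) z (Classical.choose hp).1 E →
      scK c κ (Classical.choose hp).1 z = scK c κ E z := by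
    intro E hE
    induction hE with
    | refl => rfl
    | tail _ hs ih2 =>
      obtain ⟨hm, g1, g2, l1, l2⟩ := hs
      rw [ih2]
      exact scMvAux hT hD hL hR c κ hκ _ hin _ _ hm (ih _ (hn ▸ l1) _ rfl)
        (ih _ (hn ▸ l2) _ rfl) z g1 g2
  rw [hin D hr.1 z hz x hx, hin D1 hr.2.1 z hz1 x hx1, e0, e1 D1 hlow]

end

theorem scSt (hT : TreeSt) (hD : DiaSt) (hL : AdjLSt) (hR : AdjRSt) (hM : MvSt) (hK : ConnSt)
    (hP : PeakSt) : ScSt := by
  intro α _ _ c A _ κ hκ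
  refine ⟨scK c κ, scIn hD hM hK c κ hκ, fun D D' hm x hx hx' => ?_⟩
  exact scMvAux hT hD hL hR c κ hκ _ (scIn hD hM hK c κ hκ) D D' hm
    (scRed hT hD hL hR hM hK hP c κ hκ _ D rfl) (scRed hT hD hL hR hM hK hP c κ hκ _ D' rfl)
    x hx hx'

end Pool.Agent.MB
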