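import Pool.Agent.Lib.MP_c86c76_al.B.Cert
import Pool.Agent.Lib.MP_c86c76_al.B.Raw

/-!
The base diagram and the basic facts of a step.
-/

set_option autoImplicit false

namespace Pool.Agent.MB

open FreeGroup

theorem Sp0_beta (n : ℕ) (W : RW) (bi : List RW) (h : okS n (dels n W, bi) = true) (x : Fin n) :
    aut n (dels n W, bi) (of x) = ev n (del W ((x : ℕ), true)) := by
  rw [← Raw_of, (Raw_aut n _ _ h).1]
  simp [sub, dels]

theorem Sp0_fst {A : Type} [Group A] (n : ℕ) (T : List SA) (τ : ℕ → A) (w : RW) :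
    (gw (TT n T τ) w).1 = gw (fun i => aut n (T.getD i ([], []))) w :=
  Raw_map (TT n T τ) _ (MonoidHom.fst _ A) w

theorem Sp0_snd {A : Type} [Group A] (n : ℕ) (T : List SA) (τ : ℕ → A) (w : RW) :
    (gw (TT n T τ) w).2 = gw τ w := Raw_map (TT n T τ) _ (MonoidHom.snd _ A) w

theorem Sp0_fix {A : Type} [Group A] (n : ℕ) (T : List SA) (τ : ℕ → A) (hT : T.all (okS n) = true)
    (m : ℕ) (u : RW) (h : ∀ i < m, eqF (act T [(i, true)] u) u = true) :
    ∀ p ∈ Gr n T τ m, p.1 (ev n u) = ev n u := by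
  intro p hp
  induction hp using Subgroup.closure_induction with
  | mem x hx =>
    obtain ⟨i, hi, rfl⟩ := hx
    have := Raw_act n T hT [(i, true)] u
    rw [Raw_pos] at this
    exact this.trans (Raw_eqF _ _ _ (h i hi))
  | one => rfl
  | mul x y _ _ hx hy => rw [Prod.fst_mul, MulAut.mul_apply, hy, hx]
  | inv x _ hx => exact x.1.symm_apply_eq.2 hx.symm

theorem sp0St (hE : EssSt) (_hW : RawSt) : Sp0St := by
  intro C n W Tl h
  simp only [Cert.c0, Bool.and_eq_true] at h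
  obtain ⟨⟨⟨⟨⟨⟨⟨⟨⟨-, h2⟩, h3⟩, h4⟩, -⟩, h6⟩, h7⟩, h8⟩, h9⟩, h10⟩ := h
  obtain ⟨f, b⟩ := Raw_full _ _ h2
  refine ⟨⟨⟨_, fun l => C.rk (l.1, l.2), f, hE _ _ f ?_, Raw_ch _ _ C.rk b h8⟩, rfl⟩,
    ⟨aut n (dels n W, C.bi), MulEquiv.bijective _, Sp0_beta n W _ h6⟩, fun A _ τ =>
    ⟨fun w u => by rw [Sp0_fst, Raw_act _ _ h4], fun w h1 h2 => Prod.ext
      ((Sp0_fst _ _ _ _).trans (Raw_triv _ _ h4 w h1))
      ((Sp0_snd _ _ _ _).trans h2), fun i hi => Prod.ext ?_ rfl,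
      Sp0_fix _ _ τ h4 _ _ fun i hi => List.all_eq_true.1 h9 i (List.mem_range.2 hi), ?_⟩⟩
  · have e : (fun x : Fin (n + 2) => mk (del (fw (n + 2) (hd n ++ W)) (x, true))) =
        (aut (n + 2) (dels (n + 2) (hd n ++ W), C.bi2)).toMonoidHom ∘ of := funext fun x => by
      rw [Raw_del _ _ _ b, ← Raw_ev]
      exact (Sp0_beta _ _ _ h7 x).symm
    rw [e, Set.range_comp, ← MonoidHom.map_closure, closure_range_of]
    exact Subgroup.map_top_of_surjective _ (MulEquiv.surjective _)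
  · change exA n (aut n _) = aut (n + 2) _
    rw [List.getD_append _ _ _ _ hi, Raw_exA n _ (Raw_ok_getD n Tl h3 i)]
  · rw [← Raw_pos (io (n + 2)) n]
    exact Sp0_fix _ _ τ h4 _ _ fun i hi => List.all_eq_true.1 h10 i (List.mem_range.2 hi)

end Pool.Agent.MB
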