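import Pool.Agent.Lib.MP_c86c76_al.B.Cert
import Pool.Agent.Lib.MP_c86c76_al.B.Raw

/-!
The stabiliser of the new letter: functionality and normal form.
-/

set_option autoImplicit false

namespace Pool.Agent.MB

open FreeGroup

theorem sp1_kil (n : ℕ) (w : RW) : kil n (ev (n + 2) w) = ev (n + 2) (sub (kl n) w) := by
  rw [← Raw_en (n + 2) (kl n) (by simp [kl])]
  have : kil n = en (n + 2) (kl n) := by
    ext i
    simp only [kil, en, lift_apply_of]
    rcases lt_trichotomy (i : ℕ) n with h | h | h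
    · rw [if_neg h.ne, kl, List.getD_append _ _ _ _ (by simpa using h),
        List.getD_eq_getElem _ _ (by simpa using h)]
      simp only [List.getElem_map, List.getElem_range]
      rw [Raw_of]
    · rw [if_pos h, kl, List.getD_append_right _ _ _ _ (by simp [h])]
      simp only [List.length_map, List.length_range, h, Nat.sub_self, List.getD_cons_zero]
      rw [ev, Raw_nil]
    · rw [if_neg h.ne', List.getD_eq_default _ _ (by simpa [kl] using h), Raw_of]
  rw [this]

theorem sp1_getD {β : Type} (p : β → Bool) (l : List β) (d : β) (h : l.all p = true)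
    (hd : p d = true) (i : ℕ) : p (l.getD i d) = true := by
  by_cases hi : i < l.length
  · rw [List.getD_eq_getElem _ _ hi]
    exact List.all_eq_true.1 h _ (List.getElem_mem hi)
  · rw [List.getD_eq_default _ _ (by omega)]
    exact hd

theorem sp1_bd_del {n : ℕ} {W : RW} (h : bd n W = true) {x : ℕ} (hx : x < n) :
    bd n (del W (x, true)) = true := by
  rw [Raw_bd] at h ⊢
  intro l hl
  simp only [del, List.mem_append, List.mem_cons, invRev, List.mem_reverse, List.mem_map] at hl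
  rcases hl with hl | rfl | ⟨u, hu, rfl⟩
  · exact h l ((List.takeWhile_sublist _).subset hl)
  · exact hx
  · exact h u ((List.takeWhile_sublist _).subset hu)

theorem sp1_inc (n : ℕ) (y : Fin n) : inc n (of y) = ev (n + 2) [((y : ℕ), true)] := by
  rw [← Raw_of, Raw_inc n _ (Raw_bd.2 fun l hl => by
    rw [List.mem_singleton.1 hl]; exact y.2)]

theorem sp1St (hS : SdSt) (_hW : RawSt) (h0 : Sp0St) : Sp1St := by
  intro C n W Tl A _ τ β c0 c1 hβ hβx hF hrel
  obtain ⟨-, -, hA⟩ := h0 C n W Tl c0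
  obtain ⟨hact, -, hex, -, hfa⟩ := hA A τ
  simp only [Cert.c0, Bool.and_eq_true, Nat.ble_eq] at c0
  simp only [Cert.c1, Bool.and_eq_true, Nat.beq_eq] at c1
  obtain ⟨⟨⟨⟨⟨⟨⟨⟨⟨f1, -⟩, -⟩, -⟩, f2⟩, -⟩, -⟩, -⟩, -⟩, -⟩ := c0
  obtain ⟨⟨⟨⟨⟨⟨g1, g2⟩, g3⟩, g4⟩, g5⟩, g6⟩, g7⟩ := c1
  simp only [List.all_eq_true, List.mem_range, Bool.and_eq_true] at g5 g6
  have hbW := (Raw_full n W f1).2
  have hL : (Tl ++ C.new).length = Tl.length + C.new.length := List.length_append
  set T := TT (n + 2) (Tl ++ C.new) τ with hT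
  have hio : ∀ i, io (n + 2) i = ev (n + 2) [(i, true)] := fun i => (Raw_pos _ i).symm
  have hGa : ∀ w, bd ((Tl ++ C.new).length - 1) w = true →
      gw T w ∈ Gr (n + 2) (Tl ++ C.new) τ ((Tl ++ C.new).length - 1) := fun w hw =>
    Raw_mem T _ _ w (fun i hi => Subgroup.subset_closure ⟨i, hi, rfl⟩) hw
  have nw1 : ∀ (x : ℕ) (d : RW), x < n → (C.NW Tl.length).getD x d = C.Pw.getD x [] := by
    intro x d hx
    rw [Cert.NW, List.getD_append _ _ _ _ (g1 ▸ hx), List.getD_eq_getElem _ _ (g1 ▸ hx),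
      List.getD_eq_getElem _ _ (g1 ▸ hx)]
  have nw2 : ∀ d : RW, (C.NW Tl.length).getD n d = [(Tl.length, true)] := by
    intro d
    rw [Cert.NW, List.getD_append_right _ _ _ _ g1.le, g1, Nat.sub_self, List.getD_cons_zero]
  have hN : ∀ ν, bd (n + 1) ν = true → gw T (sub (C.NW Tl.length) ν) ∈ Subgroup.closure
      (insert (T Tl.length) (Set.range fun x : Fin n => gw T (C.Pw.getD x []))) := by
    intro ν hν
    rw [Raw_sub]
    refine Raw_mem _ _ (n + 1) ν (fun i hi => Subgroup.subset_closure ?_) hν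
    rcases Nat.lt_succ_iff_lt_or_eq.1 hi with h | rfl
    · exact Or.inr ⟨⟨i, h⟩, by rw [nw1 i _ h]⟩
    · exact Or.inl (by rw [nw2, Raw_pos])
  have hcj : ∀ i < Tl.length, ∀ s : Bool, ∀ j < n + 1,
      gw T [(i, s)] * gw T ((C.NW Tl.length).getD j []) * gw T [(i, !s)] ∈ Subgroup.closure
        (insert (T Tl.length) (Set.range fun x : Fin n => gw T (C.Pw.getD x []))) := by
    intro i hi s j hj
    have e := hrel _ (List.mem_append_left _ (List.mem_append_right _ (List.mem_flatMap.2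
      ⟨i, List.mem_range.2 hi, List.mem_flatMap.2 ⟨s, by cases s <;> simp,
        List.mem_map.2 ⟨j, List.mem_range.2 hj, rfl⟩⟩⟩)))
    rw [Raw_append, Raw_append, Raw_append, Raw_iv, mul_inv_eq_one] at e
    rw [e]
    exact hN _ (sp1_getD _ _ _ (sp1_getD (fun l : List RW => l.all (bd (n + 1))) _ _ g3 rfl _)
      rfl _)
  refine hS n A (TT n Tl τ '' {i | i < Tl.length}) (T '' {i | i < (Tl ++ C.new).length - 1})
    (fun x : Fin n => gw T (C.Pw.getD x [])) (T Tl.length) β hF hβ (fun x => ?_) ?_ ?_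
    (fun x => ⟨hfa _ (hGa _ (sp1_getD _ _ _ g2 rfl _)), ?_, fun y => ?_⟩)
    (hfa _ (Subgroup.subset_closure ⟨_, by simp only [Set.mem_ofPred_eq]; omega, rfl⟩))
    (fun y => ?_) (Or.inl ?_)
  · have e := hrel _ (List.mem_append_left _ (List.mem_append_left _
      (List.mem_map.2 ⟨x, List.mem_range.2 x.2, rfl⟩)))
    rw [Raw_append, Raw_append, Raw_append, Raw_iv, Raw_pos, Raw_neg, mul_inv_eq_one,
      mul_inv_eq_iff_eq_mul] at e
    exact e
  · rintro _ ⟨i, hi, rfl⟩ m hm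
    obtain ⟨j, hj, rfl⟩ : ∃ j < n + 1, m = gw T ((C.NW Tl.length).getD j []) := by
      rcases hm with rfl | ⟨x, rfl⟩
      · exact ⟨n, by omega, by rw [nw2, Raw_pos]⟩
      · exact ⟨x, by omega, by rw [nw1 x _ x.2]⟩
    have e1 := hcj i hi true j hj
    have e2 := hcj i hi false j hj
    rw [Bool.not_true, Raw_pos, Raw_neg] at e1
    rw [Bool.not_false, Raw_pos, Raw_neg] at e2
    rw [hex i hi]
    exact ⟨e1, e2⟩
  · rintro _ ⟨i, hi, rfl⟩
    simp only [Set.mem_ofPred_eq] at hi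
    by_cases h : i < Tl.length
    · exact ⟨1, Subgroup.one_mem _, _, Subgroup.subset_closure ⟨i, h, rfl⟩, by
        rw [hex i h, one_mul]⟩
    · obtain ⟨j, rfl⟩ := Nat.exists_eq_add_of_le (not_lt.1 h)
      have e := hrel _ (List.mem_append_right _
        (List.mem_map.2 ⟨j, List.mem_range.2 (by omega), rfl⟩))
      have b := sp1_getD _ _ ([], []) g4 rfl j
      rw [Bool.and_eq_true] at b
      rw [Raw_append, Raw_append, Raw_neg, mul_inv_eq_one] at e
      refine ⟨_, hN _ b.1, gw (TT n Tl τ) (C.s3.getD j ([], [])).2,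
        Raw_mem _ _ _ _ (fun i hi => Subgroup.subset_closure ⟨i, hi, rfl⟩) b.2, ?_⟩
      rw [← e, Raw_map, Raw_congr _ T _ _ hex b.2]
  · rw [hio (n + 1), hact, sp1_kil, ev, Raw_eqF _ _ _ (g5 x x.2).1, Raw_append, Raw_iv, hβx,
      Raw_inc n _ (sp1_bd_del hbW x.2)]
    rfl
  · rw [sp1_inc, hact, sp1_kil, ev, Raw_eqF _ _ _ ((g5 x x.2).2 y y.2)]
    rfl
  · rw [sp1_inc, ← Raw_pos T, hact, ev, Raw_eqF _ _ _ (g6 y y.2)]
    rfl
  · rw [← Raw_pos T, hio (n + 1), hact, ev, Raw_eqF _ _ _ g7, hio n, ev, ev, ← Raw_append]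
    rfl

end Pool.Agent.MB
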