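import Pool.Agent.Lib.MP_c86c76_al.B.Cert
import Pool.Agent.Lib.MP_c86c76_al.B.Raw

/-! The listed families of three arcs are flat triangles. -/

set_option autoImplicit false

namespace Pool.Agent.MB

open FreeGroup

theorem Sp4_inv {P : Type} [Group P] {Γ : Subgroup P} {S : Set P} (hS : ∀ t ∈ S, t⁻¹ ∈ S)
    {p : P} (hp : p ∈ RR Γ S) : p⁻¹ ∈ RR Γ S := by
  obtain ⟨k, hk, t, ht, k', hk', rfl⟩ := hp
  exact ⟨k'⁻¹, Γ.inv_mem hk', t⁻¹, hS t ht, k⁻¹, Γ.inv_mem hk, by group⟩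

theorem Sp4_three {P : Type} [Group P] {R : Set P} (h1 : (1 : P) ∈ R) (hi : ∀ p ∈ R, p⁻¹ ∈ R)
    {p1 p2 : P} (a1 : p1 ∈ R) (a2 : p2 ∈ R) (a3 : p1⁻¹ * p2 ∈ R) {p q : P}
    (hp : p = 1 ∨ p = p1 ∨ p = p2) (hq : q = 1 ∨ q = p1 ∨ q = p2) : p⁻¹ * q ∈ R := by
  have b1 := hi _ a1
  have b2 := hi _ a2
  have b3 := hi _ a3
  rw [mul_inv_rev, inv_inv] at b3
  rcases hp with e | e | e <;> rcases hq with e' | e' | e' <;> rw [e, e'] <;>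
    simpa only [inv_one, one_mul, mul_one, inv_mul_cancel]

theorem Sp4_partner {β γ : Type} {l : List β} {l' : List γ} (h : l.length = l'.length) {b : β}
    (hb : b ∈ l) : ∃ e ∈ l', (b, e) ∈ l.zip l' := by
  obtain ⟨i, hi, rfl⟩ := List.mem_iff_getElem.1 hb
  refine ⟨l'[i]'(h ▸ hi), List.getElem_mem _, List.mem_iff_getElem.2 ⟨i, ?_, ?_⟩⟩
  · rw [List.length_zip]; omega
  · rw [List.getElem_zip]

theorem Sp4_mem {A : Type} [Group A] (N : ℕ) (T : List SA) (τ : ℕ → A) (m : ℕ) {w : RW}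
    (h : bd m w = true) : gw (TT N T τ) w ∈ Gr N T τ m :=
  Raw_mem _ _ m w (fun i hi => Subgroup.subset_closure ⟨i, hi, rfl⟩) h

theorem sp4St (_hW : RawSt) (h0 : Sp0St) : Sp4St := by
  intro C n W Tl A _ τ c hc c0 c2 c3 hF x y z hH
  obtain ⟨-, -, h0⟩ := h0 C n W Tl c0
  obtain ⟨hact, -, -, hr, -⟩ := h0 A τ
  have er : c.r = ev (n + 2) (hd n ++ W) := by rw [Ctx.r, hc, Raw_ev]
  rw [← er] at hr
  have ea : io (n + 2) n = ev (n + 2) [(n, true)] := (Raw_pos _ _).symm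
  have hg : ∀ i < C.tys.length, bd (Tl ++ C.new).length (C.ty i).g = true := by
    intro i hi
    simp only [Cert.c2, Bool.and_eq_true, List.all_eq_true, List.mem_range] at c2
    exact (c2.1.1.1.1.1.1.1.1.1 i hi).1.1.1.1.1.1
  simp only [Cert.c3, Bool.and_eq_true, List.all_eq_true, Nat.beq_eq, Bool.or_eq_true] at c3
  obtain ⟨⟨c31, c32⟩, c33⟩ := c3
  obtain ⟨ψ, hψ, Z, hZ, hx, hy, hz⟩ := hH
  obtain ⟨F, hFm, hzip⟩ := Sp4_partner c32 hZ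
  obtain ⟨⟨⟨⟨⟨⟨o1, o2⟩, o3⟩, b1⟩, b2⟩, b3⟩, b4⟩ := c31 F hFm
  have hle : Gr (n + 2) (Tl ++ C.new) τ ((Tl ++ C.new).length - 1)
      ≤ Gr (n + 2) (Tl ++ C.new) τ (Tl ++ C.new).length :=
    Subgroup.closure_mono (Set.image_mono fun i (hi : i < _) => lt_of_lt_of_le hi (Nat.sub_le _ _))
  have hty : ∀ o, C.okO o = true → gw (TT (n + 2) (Tl ++ C.new) τ) (C.tyw o)
      ∈ Gr (n + 2) (Tl ++ C.new) τ (Tl ++ C.new).length := by
    rintro (_ | ⟨i, b⟩) ho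
    · rw [Cert.tyw, Raw_nil]; exact Subgroup.one_mem _
    · have hi : i < C.tys.length := by simpa only [Cert.okO, Nat.blt_eq] using ho
      have := Sp4_mem (n + 2) (Tl ++ C.new) τ _ (hg i hi)
      cases b
      · rw [Cert.tyw, cond_false, Raw_iv]; exact Subgroup.inv_mem _ this
      · exact this
  have hS : ∀ t ∈ C.TyS n Tl τ, t⁻¹ ∈ C.TyS n Tl τ := by
    rintro _ ⟨_ | ⟨i, b⟩, ho, rfl⟩
    · exact ⟨none, rfl, by rw [Cert.tyw, Raw_nil, inv_one]⟩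
    · refine ⟨some (i, !b), ho, ?_⟩
      cases b
      · simp only [Cert.tyw, cond_false, Bool.not_false, cond_true, Raw_iv, inv_inv]
      · simp only [Cert.tyw, cond_false, Bool.not_true, cond_true, Raw_iv]
  have hR1 : (1 : MulAut (FreeGroup (Fin (n + 2))) × A) ∈ RR (Gr (n + 2) (Tl ++ C.new) τ
      ((Tl ++ C.new).length - 1)) (C.TyS n Tl τ) :=
    ⟨1, Subgroup.one_mem _, 1, ⟨none, rfl, by rw [Cert.tyw, Raw_nil]⟩, 1, Subgroup.one_mem _,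
      by simp⟩
  have hRp : ∀ k o, bd ((Tl ++ C.new).length - 1) k = true → C.okO o = true →
      gw (TT (n + 2) (Tl ++ C.new) τ) (k ++ C.tyw o) ∈ RR (Gr (n + 2) (Tl ++ C.new) τ
        ((Tl ++ C.new).length - 1)) (C.TyS n Tl τ) ∧
      (gw (TT (n + 2) (Tl ++ C.new) τ) (k ++ C.tyw o)).1 c.r = c.r := fun k o hk ho =>
    ⟨⟨_, Sp4_mem _ _ τ _ hk, _, ⟨o, ho, rfl⟩, 1, Subgroup.one_mem _, by rw [Raw_append, mul_one]⟩,
      hr _ (by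
        rw [Raw_append]
        exact Subgroup.mul_mem _ (hle (Sp4_mem _ _ τ _ hk)) (hty o ho))⟩
  have h12 : (gw (TT (n + 2) (Tl ++ C.new) τ) (F.k1 ++ C.tyw F.o1))⁻¹ *
      gw (TT (n + 2) (Tl ++ C.new) τ) (F.k2 ++ C.tyw F.o2) ∈ RR (Gr (n + 2) (Tl ++ C.new) τ
        ((Tl ++ C.new).length - 1)) (C.TyS n Tl τ) := by
    refine ⟨_, Sp4_mem _ _ τ _ b3, _, ⟨F.o, o3, rfl⟩, _, Sp4_mem _ _ τ _ b4, ?_⟩
    have := hF _ (List.mem_map_of_mem hFm)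
    rw [Raw_append, Raw_iv, mul_inv_eq_one, Raw_append, Raw_append, Raw_append] at this
    rw [← this]
    group
  have key : ∀ v, (∃ u ∈ Z, Pm (ψ v) (ev (n + 2) u)) → ∃ p, (p = 1 ∨
      p = gw (TT (n + 2) (Tl ++ C.new) τ) (F.k1 ++ C.tyw F.o1) ∨
      p = gw (TT (n + 2) (Tl ++ C.new) τ) (F.k2 ++ C.tyw F.o2)) ∧
      (((ψ⁻¹, (1 : A)) : MulAut (FreeGroup (Fin (n + 2))) × A) * p).1 c.r = c.r ∧
      Pm v ((((ψ⁻¹, (1 : A)) : MulAut (FreeGroup (Fin (n + 2))) × A) * p).1 (io (n + 2) n)) := by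
    rintro v ⟨u, hu, hv⟩
    have e : ∃ p : MulAut (FreeGroup (Fin (n + 2))) × A, (p = 1 ∨
        p = gw (TT (n + 2) (Tl ++ C.new) τ) (F.k1 ++ C.tyw F.o1) ∨
        p = gw (TT (n + 2) (Tl ++ C.new) τ) (F.k2 ++ C.tyw F.o2)) ∧ p.1 c.r = c.r ∧
        ev (n + 2) u = p.1 (io (n + 2) n) := by
      rcases c33 _ hzip u hu with (h | h) | h
      · exact ⟨1, Or.inl rfl, rfl, by rw [ea]; exact Raw_eqF _ _ _ h⟩
      · exact ⟨_, Or.inr (Or.inl rfl), (hRp _ _ b1 o1).2, by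
          rw [ea, hact]; exact Raw_eqF _ _ _ h⟩
      · exact ⟨_, Or.inr (Or.inr rfl), (hRp _ _ b2 o2).2, by
          rw [ea, hact]; exact Raw_eqF _ _ _ h⟩
    obtain ⟨p, hp, hp1, hp2⟩ := e
    refine ⟨p, hp, ?_, ?_⟩
    · rw [Prod.fst_mul, MulAut.mul_apply, hp1]
      exact (MulEquiv.symm_apply_eq ψ).2 hψ.symm
    · rw [Prod.fst_mul, MulAut.mul_apply, ← hp2]
      rcases hv with hv | hv
      · exact Or.inl ((MulEquiv.eq_symm_apply ψ).2 hv)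
      · refine Or.inr ?_
        rw [← _root_.map_inv]
        exact (MulEquiv.eq_symm_apply ψ).2 hv
  obtain ⟨p, hp, p1, p2⟩ := key x hx
  obtain ⟨q, hq, q1, q2⟩ := key y hy
  obtain ⟨s, hs, s1, s2⟩ := key z hz
  have fin : ∀ p q : MulAut (FreeGroup (Fin (n + 2))) × A, (p = 1 ∨
      p = gw (TT (n + 2) (Tl ++ C.new) τ) (F.k1 ++ C.tyw F.o1) ∨
      p = gw (TT (n + 2) (Tl ++ C.new) τ) (F.k2 ++ C.tyw F.o2)) → (q = 1 ∨
      q = gw (TT (n + 2) (Tl ++ C.new) τ) (F.k1 ++ C.tyw F.o1) ∨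
      q = gw (TT (n + 2) (Tl ++ C.new) τ) (F.k2 ++ C.tyw F.o2)) →
      (((ψ⁻¹, (1 : A)) : MulAut (FreeGroup (Fin (n + 2))) × A) * p)⁻¹ * ((ψ⁻¹, (1 : A)) * q)
        ∈ RR (Gr (n + 2) (Tl ++ C.new) τ ((Tl ++ C.new).length - 1)) (C.TyS n Tl τ) := by
    intro p q hp hq
    rw [mul_inv_rev, mul_assoc, inv_mul_cancel_left]
    exact Sp4_three hR1 (fun _ h => Sp4_inv hS h) (hRp _ _ b1 o1).1 (hRp _ _ b2 o2).1 h12 hp hq
  exact ⟨_, _, _, p1, q1, s1, fin p q hp hq, fin q s hq hs, fin p s hp hs, p2, q2, s2⟩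

end Pool.Agent.MB
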