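import Pool.Agent.Lib.MP_c86c76_al.B.Sp3
import Pool.Agent.Lib.MP_c86c76_al.B.Sp4

/-!
The types of pairs of arcs: uniqueness, diagrams, crossing types, the first crossing arc.
-/

set_option autoImplicit false

namespace Pool.Agent.MB

open FreeGroup hiding map_mul map_inv map_one

/-- An automorphism that fixes the boundary word and `a` keeps the order pattern. -/
theorem sp2_sig {α : Type} [DecidableEq α] [Fintype α] (hD : DiaSt) (hO : OrdSt) (c : Ctx α)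
    (D : List (FreeGroup α)) (hd : IsD c D) {a y : FreeGroup α} (ha : a ∈ D) (hy : y ∈ D)
    (φ : MulAut (FreeGroup α)) (hr : φ c.r = c.r) (hφ : φ a = a)
    {σ σ' : Bool × Bool × Bool × Bool} (h : Sg c.ρ a y σ) (h' : Sg c.ρ a (φ y) σ') : σ = σ' := by
  have hi := fun w hw => (((hD α c).2.2.2.2 D hd).2.2.2.1 w hw).1
  have ht := (hO α c D hd).2.1 φ hr
  have e1 := ht a ha y hy
  have e2 := ht a ha _ (hi y hy)
  have e3 := ht _ (hi a ha) y hy
  have e4 := ht _ (hi a ha) _ (hi y hy)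
  simp only [map_inv, hφ] at e1 e2 e3 e4
  obtain ⟨-, k1, k2, k3, k4⟩ := h
  obtain ⟨-, m1, m2, m3, m4⟩ := h'
  exact Prod.ext (Bool.eq_iff_iff.2 (k1.symm.trans (e1.symm.trans m1)))
    (Prod.ext (Bool.eq_iff_iff.2 (k2.symm.trans (e2.symm.trans m2)))
      (Prod.ext (Bool.eq_iff_iff.2 (k3.symm.trans (e3.symm.trans m3)))
        (Bool.eq_iff_iff.2 (k4.symm.trans (e4.symm.trans m4)))))

theorem sp2St (hD : DiaSt) (hO : OrdSt) (hA : AbSt) (_hW : RawSt) (hI : WitSt) (h0 : Sp0St) :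
    Sp2St := by
  intro C n W Tl A _ τ c hcW c0 c2 hL3
  obtain ⟨-, ⟨β, hβ, hβx⟩, hA0⟩ := h0 C n W Tl c0
  obtain ⟨hact, -, hex, -, -⟩ := hA0 A τ
  simp only [Cert.c0, Bool.and_eq_true, Nat.ble_eq] at c0
  obtain ⟨⟨⟨⟨⟨⟨⟨⟨⟨f1, -⟩, -⟩, -⟩, f2⟩, -⟩, -⟩, -⟩, -⟩, -⟩ := c0
  simp only [Cert.c2, Bool.and_eq_true] at c2
  obtain ⟨⟨⟨⟨⟨⟨⟨⟨⟨g1, g2⟩, g3⟩, g4⟩, g5⟩, g6⟩, g7⟩, g8⟩, g9⟩, g10⟩ := c2
  simp only [List.all_eq_true, List.mem_range, Bool.and_eq_true] at g1 g2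
  have g3' := of_decide_eq_true g3
  have hbW := (Raw_full n W f1).2
  have hLen : (Tl ++ C.new).length = Tl.length + C.new.length := List.length_append
  have hr : c.r = ev (n + 2) (hd n ++ W) := by rw [Ctx.r, hcW, Raw_ev]
  have hio : ∀ i, io (n + 2) i = ev (n + 2) [(i, true)] := fun i => (Raw_pos _ i).symm
  have hg : Subgroup.closure (Set.range fun x : Fin n => ev n (del W ((x : ℕ), true))) = ⊤ := by
    have e : (Set.range fun x : Fin n => ev n (del W ((x : ℕ), true))) = β '' Set.range of := by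
      rw [← Set.range_comp]
      exact congrArg Set.range (funext fun x => (hβx x).symm)
    rw [e, ← MonoidHom.map_closure, closure_range_of, ← MonoidHom.range_eq_map,
      MonoidHom.range_eq_top.2 hβ.2]
  have hle := sp3_mono (n + 2) (Tl ++ C.new) τ (Nat.sub_le (Tl ++ C.new).length 1)
  obtain ⟨⟨D0, d1, d2, -⟩, -, d3⟩ := hI (n + 2) c _ n _ _ hr g9
  have hk := Sp4_mem (n + 2) (Tl ++ C.new) τ _ g6
  set T := TT (n + 2) (Tl ++ C.new) τ with hT
  set Ga := Gr (n + 2) (Tl ++ C.new) τ ((Tl ++ C.new).length - 1) with hGa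
  have hTa : ∀ i < (Tl ++ C.new).length - 1, T i ∈ Ga := fun i hi =>
    Subgroup.subset_closure ⟨i, hi, rfl⟩
  have hlt : ∀ l : ℕ × Bool, C.okO (some l) = true → l.1 < C.tys.length := fun l ho => by
    simpa only [Cert.okO, Nat.blt_eq] using ho
  have hn : (gw T (C.tyw none)).1 (io (n + 2) n) = io (n + 2) n := by
    rw [Cert.tyw, Raw_nil]; rfl
  have hy : ∀ w, (gw T w).1 (io (n + 2) n) = ev (n + 2) (act (Tl ++ C.new) w [(n, true)]) :=
    fun w => by rw [hio n, hact]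
  have hw : ∀ l, C.okO (some l) = true →
      (∃ D, IsD c D ∧ io (n + 2) n ∈ D ∧ (gw T (C.tyw (some l))).1 (io (n + 2) n) ∈ D) ∧
      Sg c.ρ (io (n + 2) n) ((gw T (C.tyw (some l))).1 (io (n + 2) n)) (C.wit l).sig ∧
      (Cr c.ρ (io (n + 2) n) ((gw T (C.tyw (some l))).1 (io (n + 2) n)) ↔
        crs (C.wit l).sig = true) := fun l ho => by
    rw [hy]
    exact hI (n + 2) c _ n _ _ hr (g2 l ((Raw_mem_sgn _ l).2 (hlt l ho))).1
  have h1 : ∀ t ∈ C.TyS n Tl τ, t ∈ Gr (n + 2) (Tl ++ C.new) τ (Tl ++ C.new).length := by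
    rintro _ ⟨_ | ⟨i, b⟩, ho, rfl⟩
    · rw [Cert.tyw, Raw_nil]; exact Subgroup.one_mem _
    · have := Sp4_mem (n + 2) (Tl ++ C.new) τ _ (g1 i (hlt _ ho)).1.1.1.1.1.1
      cases b
      · rw [Cert.tyw, cond_false, Raw_iv]; exact Subgroup.inv_mem _ this
      · exact this
  refine ⟨h1, ?_, ?_, ?_, ?_, ?_⟩
  · rintro _ ⟨_ | l, ho, rfl⟩ _ ⟨_ | l', ho', rfl⟩ φ hφ ha e
    · rfl
    · rw [← hT, hn, ha] at e
      exact absurd (Or.inl e.symm) (hw l' ho').2.1.1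
    · rw [← hT, hn] at e
      exact absurd (Or.inl (φ.injective (e.trans ha.symm))) (hw l ho).2.1.1
    · obtain ⟨⟨D, b1, b2, b3⟩, s1, -⟩ := hw l ho
      have s2 := (hw l' ho').2.1
      rw [← hT] at e
      rw [← e] at s2
      rw [List.inj_on_of_nodup_map g3' ((Raw_mem_sgn _ l).2 (hlt l ho))
        ((Raw_mem_sgn _ l').2 (hlt l' ho')) (sp2_sig hD hO c D b1 b2 b3 φ hφ ha s1 s2)]
  · rintro _ ⟨_ | l, ho, rfl⟩
    · rw [← hT, hn]
      exact ⟨D0, d1, d2, d2⟩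
    · exact (hw l ho).1
  · rintro _ ⟨_ | l, ho, rfl⟩ hc φ hφ ha e
    · rw [← hT, hn] at hc
      exact absurd (Or.inl rfl) hc.1
    · have hx : (C.ty l.1).x = true := by
        have := (g2 l ((Raw_mem_sgn _ l).2 (hlt l ho))).2
        rwa [(hw l ho).2.2.1 hc, Bool.not_true, Bool.false_or] at this
      obtain ⟨⟨⟨⟨⟨-, a3⟩, a4⟩, -⟩, a6⟩, a7⟩ := g1 l.1 (hlt l ho)
      rw [hx, cond_true] at a6
      rw [hx, Bool.not_true, Bool.false_or] at a7
      rw [← hT, hy] at e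
      have hb : φ (io (n + 2) (n + 1)) = io (n + 2) (n + 1) := by
        obtain ⟨i, _ | _⟩ := l
        · have e7 : ev (n + 2) _ = ev (n + 2) _ := Raw_eqF _ _ _ a7
          rw [hio, ← e7]
          exact sp3_fix φ _ _ _ (by rw [← hio]; exact ha) e a4
        · have e6 : ev (n + 2) _ = ev (n + 2) _ := Raw_eqF _ _ _ a6
          rw [hio, ← e6]
          exact sp3_fix φ _ _ _ (by rw [← hio]; exact ha) e a3
      obtain ⟨ψ, hψ, rfl⟩ := hA n c W hbW hcW hg φ hφ ha hb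
      obtain ⟨s, hs⟩ := hL3 ψ hψ
      have m1 : exP n A (ψ, s) ∈ Ga := sp3_exP Ga _ (fun m hm => by
        rw [hex m hm]; exact hTa m (by omega)) _ hs
      exact ⟨s, m1⟩
  · refine ⟨ev (n + 2) [(n + 1, true)], ?_, _, hk, _, ⟨some C.h0.2, g7, rfl⟩, d3.2 g10, ?_⟩
    · exact List.mem_map.2 ⟨(⟨n + 1, by omega⟩, true), c.full.2 _,
        (Raw_lt (n + 2) (⟨n + 1, by omega⟩, true)).symm⟩
    · rw [← hT, ← MulAut.mul_apply, ← Prod.fst_mul, ← Raw_append, hy]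
      simp only [hitW, List.any_cons, List.any_nil, Bool.or_false, Bool.or_eq_true] at g8
      rcases g8 with h | h
      · exact Or.inl (Raw_eqF _ _ _ h).symm
      · have e : ev (n + 2) _ = ev (n + 2) _ := Raw_eqF _ _ _ h
        exact Or.inr (by rw [e, ev, ev, Raw_iv, inv_inv])
  · refine le_antisymm (sup_le hle ((Subgroup.closure_le _).2 h1)) ((Subgroup.closure_le _).2 ?_)
    rintro _ ⟨i, hi : i < _, rfl⟩
    by_cases h : i < (Tl ++ C.new).length - 1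
    · exact Subgroup.mem_sup_left (hTa i h)
    · refine Subgroup.mem_sup_right (Subgroup.subset_closure ⟨some (0, true), g4, ?_⟩)
      rw [Cert.tyw, cond_true, Raw_eqW _ _ g5, Raw_pos,
        show i = (Tl ++ C.new).length - 1 by omega]

end Pool.Agent.MB
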