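import Pool.Agent.Lib.MP_c86c76_al.B.St

/-!
The semidirect product structure of the stabiliser of the new letter.
-/

set_option autoImplicit false

namespace Pool.Agent.MB

open FreeGroup hiding map_mul map_one map_inv

theorem sd_a (n : ℕ) : io (n + 2) n = of ⟨n, by omega⟩ := by
  simp [io]

theorem sd_b (n : ℕ) : io (n + 2) (n + 1) = of ⟨n + 1, by omega⟩ := by
  simp [io]

theorem sd_inc_of (n : ℕ) (y : Fin n) : inc n (of y) = of (Fin.castAdd 2 y) := by
  simp [inc]

theorem sd_inc_inj (n : ℕ) : Function.Injective (inc n) :=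
  FreeGroup.map_injective (Fin.castAdd_injective n 2)

/-- Two homomorphisms that agree on the old and the new letters are equal. -/
theorem sd_ext {n : ℕ} {G : Type} [Group G] (f g : FreeGroup (Fin (n + 2)) →* G)
    (ha : f (io (n + 2) n) = g (io (n + 2) n))
    (hb : f (io (n + 2) (n + 1)) = g (io (n + 2) (n + 1)))
    (hy : ∀ y, f (inc n (of y)) = g (inc n (of y))) : f = g := by
  ext i
  by_cases h : (i : ℕ) < n
  · have := hy ⟨i, h⟩
    rw [sd_inc_of] at this
    exact this
  · by_cases h' : (i : ℕ) = n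
    · have e : i = ⟨n, by omega⟩ := Fin.ext h'
      rw [sd_a] at ha
      rw [e]
      exact ha
    · have e : i = ⟨n + 1, by omega⟩ := Fin.ext (by have := i.2; simp only; omega)
      rw [sd_b] at hb
      rw [e]
      exact hb

/-- Kill the first new letter and multiply the second one by an old element. -/
def SdPush (n : ℕ) (u : FreeGroup (Fin n)) :
    FreeGroup (Fin (n + 2)) →* FreeGroup (Fin (n + 2)) :=
  FreeGroup.lift fun i => if (i : ℕ) = n then 1 else
    if (i : ℕ) = n + 1 then (inc n u)⁻¹ * of i else of i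

theorem sd_push_a (n : ℕ) (u : FreeGroup (Fin n)) : SdPush n u (io (n + 2) n) = 1 := by
  simp [sd_a, SdPush]

theorem sd_push_b (n : ℕ) (u : FreeGroup (Fin n)) :
    SdPush n u (io (n + 2) (n + 1)) = (inc n u)⁻¹ * io (n + 2) (n + 1) := by
  simp [sd_b, SdPush]

theorem sd_push_inc (n : ℕ) (u y : FreeGroup (Fin n)) : SdPush n u (inc n y) = inc n y := by
  have : (SdPush n u).comp (inc n) = inc n := by
    ext i
    have h1 : (i : ℕ) ≠ n := by have := i.2; omega
    have h2 : (i : ℕ) ≠ n + 1 := by have := i.2; omega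
    simp [SdPush, sd_inc_of, h1, h2]
  exact DFunLike.congr_fun this y

theorem sd_push_push (n : ℕ) (u v : FreeGroup (Fin n)) (y : FreeGroup (Fin (n + 2))) :
    SdPush n u (SdPush n v y) = SdPush n (u * v) y := by
  have : (SdPush n u).comp (SdPush n v) = SdPush n (u * v) := by
    apply sd_ext
    · simp [sd_push_a]
    · simp [sd_push_b, sd_push_inc, mul_assoc]
    · intro y
      simp [sd_push_inc]
  exact DFunLike.congr_fun this y

theorem sd_kil (n : ℕ) : kil n = SdPush n 1 := by
  ext i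
  simp [kil, SdPush]

/-- The automorphism `φ` acts as the push by `u` modulo the first new letter. -/
def SdR (n : ℕ) (φ : MulAut (FreeGroup (Fin (n + 2)))) (u : FreeGroup (Fin n)) : Prop :=
  ∀ y, kil n (φ y) = SdPush n u y

theorem sd_R_of {n : ℕ} {φ : MulAut (FreeGroup (Fin (n + 2)))} {u : FreeGroup (Fin n)}
    (ha : φ (io (n + 2) n) = io (n + 2) n)
    (hb : kil n (φ (io (n + 2) (n + 1))) = (inc n u)⁻¹ * io (n + 2) (n + 1))
    (hy : ∀ y, kil n (φ (inc n (of y))) = inc n (of y)) : SdR n φ u := by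
  have : (kil n).comp φ.toMonoidHom = SdPush n u := by
    apply sd_ext
    · change kil n (φ _) = _
      rw [ha, sd_kil, sd_push_a, sd_push_a]
    · change kil n (φ _) = _
      rw [hb, sd_push_b]
    · intro y
      change kil n (φ _) = _
      rw [hy, sd_push_inc]
  exact fun y => DFunLike.congr_fun this y

theorem sd_R_one (n : ℕ) : SdR n 1 1 := fun y => by
  rw [sd_kil]
  rfl

theorem sd_R_push {n : ℕ} {φ : MulAut (FreeGroup (Fin (n + 2)))} {u : FreeGroup (Fin n)}
    (h : SdR n φ u) (v : FreeGroup (Fin n)) (y : FreeGroup (Fin (n + 2))) :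
    SdPush n v (φ y) = SdPush n (v * u) y := by
  have e := h y
  rw [sd_kil] at e
  rw [← sd_push_push, ← e, sd_push_push, mul_one]

theorem sd_R_mul {n : ℕ} {φ ψ : MulAut (FreeGroup (Fin (n + 2)))} {u v : FreeGroup (Fin n)}
    (h : SdR n φ u) (h' : SdR n ψ v) : SdR n (φ * ψ) (u * v) := fun y => by
  rw [MulAut.mul_apply, h, sd_R_push h']

theorem sd_R_inv {n : ℕ} {φ : MulAut (FreeGroup (Fin (n + 2)))} {u : FreeGroup (Fin n)}
    (h : SdR n φ u) : SdR n φ⁻¹ u⁻¹ := fun y => by
  have e := sd_R_push h u⁻¹ (φ⁻¹ y)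
  rw [inv_mul_cancel, ← sd_kil, MulAut.apply_inv_self] at e
  exact e.symm

theorem sd_R_zpow {n : ℕ} {φ : MulAut (FreeGroup (Fin (n + 2)))} (h : SdR n φ 1) (k : ℤ) :
    SdR n (φ ^ k) 1 := by
  induction k using Int.induction_on with
  | zero => simpa using sd_R_one n
  | succ k ih => simpa [zpow_add_one] using sd_R_mul ih h
  | pred k ih => simpa [zpow_sub_one] using sd_R_mul ih (sd_R_inv h)

theorem sd_R_lift {n : ℕ} {A : Type} [Group A]
    (P : Fin n → MulAut (FreeGroup (Fin (n + 2))) × A)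
    (β : FreeGroup (Fin n) →* FreeGroup (Fin n)) (h : ∀ x, SdR n (P x).1 (β (of x)))
    (w : FreeGroup (Fin n)) : SdR n (FreeGroup.lift P w).1 (β w) := by
  induction w using FreeGroup.induction_on with
  | C1 => simpa using sd_R_one n
  | of x => simpa using h x
  | inv_of x ih => simpa using sd_R_inv ih
  | mul x y hx hy => simpa using sd_R_mul hx hy

theorem sd_exA_a (n : ℕ) (φ : MulAut (FreeGroup (Fin n))) :
    exA n φ (io (n + 2) n) = io (n + 2) n := by
  simp [exA_apply, exE, sd_a]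

theorem sd_exA_b (n : ℕ) (φ : MulAut (FreeGroup (Fin n))) :
    exA n φ (io (n + 2) (n + 1)) = io (n + 2) (n + 1) := by
  simp [exA_apply, exE, sd_b]

theorem sd_exA_inc (n : ℕ) (φ : MulAut (FreeGroup (Fin n))) (y : FreeGroup (Fin n)) :
    exA n φ (inc n y) = inc n (φ y) := by
  rw [exA_apply, exE_inc]
  rfl

/-- Powers of a transvection. -/
theorem sd_zpow_apply {G : Type} [Group G] (φ : MulAut G) (b c : G) (hc : φ c = c)
    (hb : φ b = b * c) (k : ℤ) : (φ ^ k) c = c ∧ (φ ^ k) b = b * c ^ k := by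
  have hc' : φ⁻¹ c = c := by
    conv_lhs => rw [← hc]
    exact MulAut.inv_apply_self G φ c
  have hb' : φ⁻¹ b = b * c⁻¹ := by
    have : φ (b * c⁻¹) = b := by rw [map_mul, map_inv, hb, hc, mul_inv_cancel_right]
    conv_lhs => rw [← this]
    exact MulAut.inv_apply_self G φ _
  induction k using Int.induction_on with
  | zero => simp
  | succ k ih =>
    rw [zpow_add_one, MulAut.mul_apply, MulAut.mul_apply, hc, hb, map_mul, ih.1, ih.2,
      zpow_add_one, mul_assoc]
    exact ⟨rfl, rfl⟩
  | pred k ih =>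
    rw [zpow_sub_one, MulAut.mul_apply, MulAut.mul_apply, hc', hb', map_mul, map_inv, ih.1, ih.2,
      zpow_sub_one, mul_assoc]
    exact ⟨rfl, rfl⟩

theorem sd_a_zpow (n : ℕ) (k : ℤ) (h : io (n + 2) n ^ k = 1) : k = 0 := by
  have e := congrArg (FreeGroup.lift fun _ : Fin (n + 2) => Multiplicative.ofAdd (1 : ℤ)) h
  rw [map_one (FreeGroup.lift _), sd_a, map_zpow, FreeGroup.lift_apply_of, ← ofAdd_zsmul] at e
  simpa using e

/-- The elements of the group generated by a family and an element that commutes with it. -/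
theorem sd_mem_N {ι G : Type} [Group G] (P : ι → G) (t : G) (hc : ∀ x, Commute t (P x))
    (m : G) (hm : m ∈ Subgroup.closure (insert t (Set.range P))) :
    ∃ (w : FreeGroup ι) (k : ℤ), m = FreeGroup.lift P w * t ^ k := by
  have hw : ∀ w : FreeGroup ι, Commute t (FreeGroup.lift P w) := fun w => by
    induction w using FreeGroup.induction_on with
    | C1 => simp
    | of x => simpa using hc x
    | inv_of x ih => rw [map_inv]; exact ih.inv_right
    | mul x y hx hy => rw [map_mul]; exact hx.mul_right hy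
  induction hm using Subgroup.closure_induction with
  | mem x hx =>
    rcases hx with rfl | ⟨i, rfl⟩
    · exact ⟨1, 1, by simp⟩
    · exact ⟨of i, 0, by simp⟩
  | one => exact ⟨1, 0, by simp⟩
  | mul x y _ _ hx hy =>
    obtain ⟨w, k, rfl⟩ := hx
    obtain ⟨w', k', rfl⟩ := hy
    refine ⟨w * w', k + k', ?_⟩
    rw [map_mul, zpow_add, mul_assoc, mul_assoc, ← mul_assoc (t ^ k), ((hw w').zpow_left k).eq,
      mul_assoc]
  | inv x _ hx =>
    obtain ⟨w, k, rfl⟩ := hx
    refine ⟨w⁻¹, -k, ?_⟩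
    rw [mul_inv_rev, ← zpow_neg, ← map_inv, ((hw w⁻¹).zpow_left (-k)).eq]

/-- Conjugation preserves a generated subgroup when it does so on the generators. -/
theorem sd_conj {G : Type} [Group G] (T : Set G) (g : G)
    (h : ∀ m ∈ T, g * m * g⁻¹ ∈ Subgroup.closure T) (m : G) (hm : m ∈ Subgroup.closure T) :
    g * m * g⁻¹ ∈ Subgroup.closure T := by
  induction hm using Subgroup.closure_induction with
  | mem x hx => exact h x hx
  | one => simp
  | mul x y _ _ hx hy =>
    have e : g * (x * y) * g⁻¹ = g * x * g⁻¹ * (g * y * g⁻¹) := by group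
    rw [e]
    exact mul_mem hx hy
  | inv x _ hx =>
    have e : g * x⁻¹ * g⁻¹ = (g * x * g⁻¹)⁻¹ := by group
    rw [e]
    exact inv_mem hx

/-- The product of a normalised subgroup and the image of a subgroup. -/
theorem sd_prod {G H : Type} [Group G] [Group H] (e : H →* G) (T : Set G) (S' : Set H)
    (S : Set G)
    (hn : ∀ q ∈ S', ∀ m ∈ T, e q * m * (e q)⁻¹ ∈ Subgroup.closure T ∧
      (e q)⁻¹ * m * e q ∈ Subgroup.closure T)
    (hS : ∀ p ∈ S, ∃ m ∈ Subgroup.closure T, ∃ q ∈ Subgroup.closure S', p = m * e q)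
    (p : G) (hp : p ∈ Subgroup.closure S) :
    ∃ m ∈ Subgroup.closure T, ∃ q ∈ Subgroup.closure S', p = m * e q := by
  have key : ∀ q ∈ Subgroup.closure S', ∀ m ∈ Subgroup.closure T,
      e q * m * (e q)⁻¹ ∈ Subgroup.closure T ∧ (e q)⁻¹ * m * e q ∈ Subgroup.closure T := by
    intro q hq
    induction hq using Subgroup.closure_induction with
    | mem x hx =>
      intro m hm
      refine ⟨sd_conj T _ (fun m hm => (hn x hx m hm).1) m hm, ?_⟩
      have := sd_conj T (e x)⁻¹ (fun m hm => by rw [inv_inv]; exact (hn x hx m hm).2) m hm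
      rwa [inv_inv] at this
    | one =>
      intro m hm
      simpa using hm
    | mul x y _ _ hx hy =>
      intro m hm
      have e1 : e (x * y) * m * (e (x * y))⁻¹ = e x * (e y * m * (e y)⁻¹) * (e x)⁻¹ := by
        rw [map_mul]; group
      have e2 : (e (x * y))⁻¹ * m * e (x * y) = (e y)⁻¹ * ((e x)⁻¹ * m * e x) * e y := by
        rw [map_mul]; group
      rw [e1, e2]
      exact ⟨(hx _ (hy m hm).1).1, (hy _ (hx m hm).2).2⟩
    | inv x _ hx =>
      intro m hm
      rw [map_inv, inv_inv]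
      exact ⟨(hx m hm).2, (hx m hm).1⟩
  induction hp using Subgroup.closure_induction with
  | mem x hx => exact hS x hx
  | one => exact ⟨1, one_mem _, 1, one_mem _, by simp⟩
  | mul x y _ _ hx hy =>
    obtain ⟨m, hm, q, hq, rfl⟩ := hx
    obtain ⟨m', hm', q', hq', rfl⟩ := hy
    refine ⟨m * (e q * m' * (e q)⁻¹), mul_mem hm (key q hq m' hm').1, q * q', mul_mem hq hq', ?_⟩
    rw [map_mul]; group
  | inv x _ hx =>
    obtain ⟨m, hm, q, hq, rfl⟩ := hx
    refine ⟨(e q)⁻¹ * m⁻¹ * e q, (key q hq _ (inv_mem hm)).2, q⁻¹, inv_mem hq, ?_⟩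
    rw [map_inv]; group

theorem sdSt : SdSt := by
  intro n A _ S' S P t β hF hβ hc hn hS hP ha hy hb
  have hPR : ∀ x, SdR n (P x).1 (β (of x)) := fun x =>
    sd_R_of (hP x).1 (hP x).2.1 (hP x).2.2
  have htR : SdR n t.1 1 := by
    refine sd_R_of ha ?_ fun y => by rw [hy, sd_kil, sd_push_inc]
    rcases hb with hb | hb
    · rw [hb, sd_kil, map_mul, sd_push_a, sd_push_b, mul_one]
    · rw [hb, sd_kil, map_mul, map_inv, sd_push_a, sd_push_b, inv_one, mul_one]
  have main : ∀ p ∈ Subgroup.closure S, ∃ (w : FreeGroup (Fin n)) (k : ℤ),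
      ∃ q ∈ Subgroup.closure S', p = FreeGroup.lift P w * t ^ k * exP n A q ∧
        kil n (p.1 (io (n + 2) (n + 1))) = (inc n (β w))⁻¹ * io (n + 2) (n + 1) ∧
        ∀ y, kil n (p.1 (inc n y)) = inc n (q.1 y) := by
    intro p hp
    obtain ⟨m, hm, q, hq, rfl⟩ := sd_prod (exP n A) _ S' S hn hS p hp
    obtain ⟨w, k, rfl⟩ := sd_mem_N P t hc m hm
    have hR : SdR n (FreeGroup.lift P w * t ^ k).1 (β w) := by
      have := sd_R_mul (sd_R_lift P β hPR w) (sd_R_zpow htR k)
      rw [mul_one] at this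
      exact this
    have e : ∀ y, (FreeGroup.lift P w * t ^ k * exP n A q).1 y =
        (FreeGroup.lift P w * t ^ k).1 (exA n q.1 y) := fun y => rfl
    refine ⟨w, k, q, hq, rfl, ?_, fun y => ?_⟩
    · rw [e, sd_exA_b, hR, sd_push_b]
    · rw [e, sd_exA_inc, hR, sd_push_inc]
  refine ⟨fun s hs => ?_, main⟩
  obtain ⟨w, k, q, hq, h0, h1, h2⟩ := main _ hs
  have hw : w = 1 := by
    change kil n (io (n + 2) (n + 1)) = _ at h1
    rw [sd_kil, sd_push_b, map_one, mul_left_inj, inv_inj, eq_comm] at h1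
    apply hβ
    apply sd_inc_inj n
    rw [h1, map_one, map_one]
  have hq1 : q.1 = 1 := by
    ext y
    have := h2 y
    change kil n (inc n y) = _ at this
    rw [sd_kil, sd_push_inc] at this
    exact (sd_inc_inj n this).symm
  have hq2 : q.2 = 1 := hF q.2 (by rw [← hq1]; exact hq)
  have hq0 : q = 1 := Prod.ext hq1 hq2
  rw [hw, hq0, map_one, map_one, one_mul, mul_one] at h0
  have ht : t.1 ^ k = 1 := (congrArg Prod.fst h0).symm
  have hk : k = 0 := by
    rcases hb with hb | hb
    · have := (sd_zpow_apply t.1 _ _ ha hb k).2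
      rw [ht, MulAut.one_apply, left_eq_mul] at this
      exact sd_a_zpow n k this
    · have := (sd_zpow_apply t.1 _ _ (by rw [map_inv, ha]) hb k).2
      rw [ht, MulAut.one_apply, left_eq_mul, inv_zpow, inv_eq_one] at this
      exact sd_a_zpow n k this
  rw [hk, zpow_zero] at h0
  exact congrArg Prod.snd h0

end Pool.Agent.MB
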