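import Pool.Agent.Lib.MP_c86c76_al.B.Cert
import Pool.Agent.Lib.MP_c86c76_al.B.Raw
import Pool.Agent.Lib.MP_c86c76_al.B.Sd

/-!
Naturality: the stabiliser of a pair of arcs is carried into the stabiliser of the new letter.
-/

set_option autoImplicit false

namespace Pool.Agent.MB

open FreeGroup hiding map_mul map_inv map_one

/-- Members of a graph subgroup are determined by their first components. -/
theorem sp3_func {G A : Type} [Group G] [Group A] {Γ : Subgroup (G × A)} (h : Func Γ)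
    {p q : G × A} (hp : p ∈ Γ) (hq : q ∈ Γ) (e : p.1 = q.1) : p = q := by
  have h1 : p * q⁻¹ = ((1 : G), p.2 * q.2⁻¹) := Prod.ext (by simp [e]) rfl
  have h2 := h _ (h1 ▸ Γ.mul_mem hp (Γ.inv_mem hq))
  exact Prod.ext e (mul_inv_eq_one.1 h2)

/-- The naturality relators. -/
theorem sp3_nat {G : Type} [Group G] (T : ℕ → G) (H : Subgroup G) (m : ℕ) (hT : ∀ i < m, T i ∈ H)
    (g : RW) : ∀ ms ws : List RW, (∀ w ∈ ws, bd m w = true) →
    (∀ w ∈ natRel g ms ws, gw T w = 1) → ∀ u ∈ ms, (gw T g)⁻¹ * gw T u * gw T g ∈ H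
  | [], _, _, _, u, hu => absurd hu List.not_mem_nil
  | v :: ms, ws, hw, hr, u, hu => by
    rcases List.mem_cons.1 hu with rfl | hu
    · have e := hr _ List.mem_cons_self
      rw [Raw_append, Raw_append, Raw_append, Raw_iv, Raw_iv, mul_inv_eq_one] at e
      rw [e]
      refine Raw_mem T H m _ hT ?_
      rcases ws with _ | ⟨w, ws⟩
      · rfl
      · exact hw w List.mem_cons_self
    · exact sp3_nat T H m hT g ms ws.tail (fun w h => hw w (List.mem_of_mem_tail h))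
        (fun w h => hr w (List.mem_cons_of_mem _ h)) u hu

/-- The extension of the old generators. -/
theorem sp3_exP {A : Type} [Group A] {n : ℕ} {Tl : List SA} {τ : ℕ → A}
    (H : Subgroup (MulAut (FreeGroup (Fin (n + 2))) × A)) (m : ℕ)
    (h : ∀ i < m, exP n A (TT n Tl τ i) ∈ H) (q : MulAut (FreeGroup (Fin n)) × A)
    (hq : q ∈ Gr n Tl τ m) : exP n A q ∈ H := by
  have : Gr n Tl τ m ≤ H.comap (exP n A) := by
    rw [Gr, Subgroup.closure_le]
    rintro _ ⟨i, hi, rfl⟩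
    exact h i hi
  exact this hq

theorem sp3_mono {A : Type} [Group A] (n : ℕ) (Tl : List SA) (τ : ℕ → A) {m m' : ℕ}
    (h : m ≤ m') : Gr n Tl τ m ≤ Gr n Tl τ m' :=
  Subgroup.closure_mono (Set.image_mono fun _ hi => lt_of_lt_of_le hi h)

/-- An automorphism that fixes two elements fixes the words in them. -/
theorem sp3_fix {N : ℕ} (φ : MulAut (FreeGroup (Fin N))) (u v w : RW) (hu : φ (ev N u) = ev N u)
    (hv : φ (ev N v) = ev N v) (hw : bd 2 w = true) :
    φ (ev N (sub [u, v] w)) = ev N (sub [u, v] w) := by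
  have e := Raw_map (fun i => gw (io N) ([u, v].getD i [(i, true)])) _ φ.toMonoidHom w
  rw [ev, Raw_sub]
  refine e.trans (Raw_congr _ _ 2 w (fun i hi => ?_) hw)
  interval_cases i
  · exact hu
  · exact hv

theorem sp3_lift {ι G : Type} [Group G] (P : ι → G) (H : Subgroup G) (j : ι)
    (h : ∀ x, x ≠ j → P x ∈ H) (w : FreeGroup ι) (hw : w ∈ Fr {j}) : FreeGroup.lift P w ∈ H := by
  have : Fr {j} ≤ H.comap (FreeGroup.lift P) := by
    rw [Fr, Subgroup.closure_le]
    rintro _ ⟨x, hx, rfl⟩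
    show FreeGroup.lift P (of x) ∈ H
    rw [lift_apply_of]
    exact h x hx
  exact this hw

theorem sp3St (hA : AbSt) (hc : AcSt) (_hW : RawSt) (h0 : Sp0St) (h1 : Sp1St) : Sp3St := by
  intro C n W Tl A _ τ c hcW c0 c1 c2 hL hS hN hO
  obtain ⟨-, ⟨β, hβ, hβx⟩, hA0⟩ := h0 C n W Tl c0
  obtain ⟨hact, -, hex, hfr, hfa⟩ := hA0 A τ
  obtain ⟨hL1, hL2, hL3, hL4⟩ := hL
  obtain ⟨hF, hnf⟩ := h1 C n W Tl A τ β c0 c1 hβ.1 hβx hL2 hS
  simp only [Cert.c0, Bool.and_eq_true, Nat.ble_eq] at c0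
  obtain ⟨⟨⟨⟨⟨⟨⟨⟨⟨f1, -⟩, -⟩, -⟩, f2⟩, -⟩, -⟩, -⟩, -⟩, -⟩ := c0
  simp only [Cert.c2, Bool.and_eq_true] at c2
  obtain ⟨⟨⟨⟨⟨⟨⟨⟨⟨g1, -⟩, -⟩, -⟩, -⟩, -⟩, -⟩, -⟩, -⟩, -⟩ := c2
  simp only [List.all_eq_true, List.mem_range, Bool.and_eq_true] at g1
  have hbW := (Raw_full n W f1).2
  have hLen : (Tl ++ C.new).length = Tl.length + C.new.length := List.length_append
  have hr : c.r = ev (n + 2) (hd n ++ W) := by rw [Ctx.r, hcW, Raw_ev]
  have hio : ∀ i, io (n + 2) i = ev (n + 2) [(i, true)] := fun i => (Raw_pos _ i).symm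
  have hg : Subgroup.closure (Set.range fun x : Fin n => ev n (del W ((x : ℕ), true))) = ⊤ := by
    have e : (Set.range fun x : Fin n => ev n (del W ((x : ℕ), true))) = β '' Set.range of := by
      rw [← Set.range_comp]
      exact congrArg Set.range (funext fun x => (hβx x).symm)
    rw [e, ← MonoidHom.map_closure, closure_range_of, ← MonoidHom.range_eq_map,
      MonoidHom.range_eq_top.2 hβ.2]
  have hle := sp3_mono (n + 2) (Tl ++ C.new) τ (Nat.sub_le (Tl ++ C.new).length 1)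
  set T := TT (n + 2) (Tl ++ C.new) τ with hT
  set Ga := Gr (n + 2) (Tl ++ C.new) τ ((Tl ++ C.new).length - 1) with hGa
  have hTa : ∀ i < (Tl ++ C.new).length - 1, T i ∈ Ga := fun i hi =>
    Subgroup.subset_closure ⟨i, hi, rfl⟩
  have pos : ∀ i < C.tys.length, ∀ k ∈ Ga,
      k.1 ((gw T (C.ty i).g).1 (io (n + 2) n)) = (gw T (C.ty i).g).1 (io (n + 2) n) →
      (gw T (C.ty i).g)⁻¹ * k * gw T (C.ty i).g ∈ Ga := by
    intro i hi k hk hfix
    obtain ⟨⟨⟨⟨⟨⟨-, a2⟩, a3⟩, -⟩, a5⟩, a6⟩, -⟩ := g1 i hi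
    have hka := hfa k hk
    have hkr : k.1 c.r = c.r := by rw [hr]; exact hfr k (hle hk)
    have hup : k.1 (ev (n + 2) (cond (C.ty i).x [(n + 1, true)] [(n - 2, true)])) =
        ev (n + 2) (cond (C.ty i).x [(n + 1, true)] [(n - 2, true)]) := by
      have e : ev (n + 2) _ = ev (n + 2) _ := Raw_eqF _ _ _ a6
      rw [← e]
      refine sp3_fix k.1 _ _ _ (by rw [← hio]; exact hka) ?_ a3
      rw [← hact, ← hio]
      exact hfix
    let H := Ga.comap (MulAut.conj (gw T (C.ty i).g)⁻¹).toMonoidHom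
    have hH : ∀ m, m ∈ H ↔ (gw T (C.ty i).g)⁻¹ * m * gw T (C.ty i).g ∈ Ga := fun m => by
      simp only [H, Subgroup.mem_comap, MulEquiv.coe_toMonoidHom, MulAut.conj_apply, inv_inv]
    have hgl : ∀ u ∈ C.gl n Tl.length (C.ty i).x, gw T u ∈ H := fun u hu =>
      (hH _).2 (sp3_nat T Ga _ hTa _ _ _ a2 (fun w hw =>
        hN w (List.mem_flatMap.2 ⟨i, List.mem_range.2 hi, hw⟩)) u hu)
    rw [← hH]
    cases hx : (C.ty i).x
    · rw [hx] at a5 hup hgl
      simp only [Bool.false_or, Nat.ble_eq] at a5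
      simp only [Cert.gl, cond_false] at hup hgl
      have hj : n - 2 < n := by omega
      have ej : inc n (of ⟨n - 2, hj⟩) = ev (n + 2) [(n - 2, true)] := by
        rw [← Raw_of, Raw_inc n _ (Raw_bd.2 fun l hl => by
          rw [List.mem_singleton.1 hl]; exact hj)]
      rw [← ej] at hup
      obtain ⟨w, e, q, hq, hkq, hb, hy⟩ := hnf k hk
      have hw := hc n c W f1 hcW β hβ.1 hβx ⟨n - 2, hj⟩ k.1 w hkr hka hup hb
      have hqj : q.1 (io n (n - 2)) = io n (n - 2) := by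
        have e1 := hy (of ⟨n - 2, hj⟩)
        rw [hup, sd_kil, sd_push_inc] at e1
        rw [io, dif_pos hj]
        exact (sd_inc_inj n e1).symm
      obtain ⟨s, hs⟩ := hL4 q.1 ⟨hL1 q hq, hqj⟩
      have hq' : q ∈ Gr n Tl τ (Tl.length - 1) := by
        rw [sp3_func hL2 hq (sp3_mono n Tl τ (Nat.sub_le _ 1) hs) rfl]
        exact hs
      rw [hkq]
      refine H.mul_mem (H.mul_mem (sp3_lift _ H _ (fun x hxj => hgl _ ?_) w hw)
        (H.zpow_mem ?_ e)) (sp3_exP H _ (fun m hm => ?_) q hq')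
      · refine List.mem_append_left _ (List.mem_map.2 ⟨x, List.mem_filter.2
          ⟨List.mem_range.2 x.2, ?_⟩, rfl⟩)
        cases hb' : Nat.beq x (n - 2)
        · rfl
        · exact absurd (Fin.ext (Nat.eq_of_beq_eq_true hb')) hxj
      · rw [← Raw_pos T]
        exact hgl _ (List.mem_append_right _ List.mem_cons_self)
      · rw [hex m (by omega), ← Raw_pos T]
        exact hgl _ (List.mem_append_right _ (List.mem_cons_of_mem _
          (List.mem_map.2 ⟨m, List.mem_range.2 hm, rfl⟩)))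
    · rw [hx] at hup hgl
      simp only [Cert.gl, cond_true] at hup hgl
      rw [← hio] at hup
      obtain ⟨ψ, hψ, hkψ⟩ := hA n c W hbW hcW hg k.1 hkr hka hup
      obtain ⟨s, hs⟩ := hL3 ψ hψ
      have m1 : exP n A (ψ, s) ∈ Ga := sp3_exP Ga _ (fun m hm => by
        rw [hex m hm]; exact hTa m (by omega)) _ hs
      rw [sp3_func hF hk m1 hkψ]
      refine sp3_exP H _ (fun m hm => ?_) _ hs
      rw [hex m hm, ← Raw_pos T]
      exact hgl _ (List.mem_map.2 ⟨m, List.mem_range.2 hm, rfl⟩)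
  rintro t ⟨o, ho, rfl⟩ k hk hfix
  rcases o with _ | ⟨i, _ | _⟩
  · rw [Cert.tyw, Raw_nil, inv_one, one_mul, mul_one]
    exact hk
  · have hi : i < C.tys.length := by simpa [Cert.okO, Nat.blt_eq] using ho
    simp only [Cert.tyw, cond_false] at hfix ⊢
    rw [Raw_iv] at hfix ⊢
    have hgG : gw T (C.ty i).g ∈ Gr (n + 2) (Tl ++ C.new) τ (Tl ++ C.new).length :=
      Raw_mem T _ _ _ (fun j hj => Subgroup.subset_closure ⟨j, hj, rfl⟩) (g1 i hi).1.1.1.1.1.1
    set g := gw T (C.ty i).g with hgdef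
    have e1 : (g * k * g⁻¹).1 c.r = c.r := by
      rw [hr]
      exact hfr _ (Subgroup.mul_mem _ (Subgroup.mul_mem _ hgG (hle hk)) (Subgroup.inv_mem _ hgG))
    have e2 : (g * k * g⁻¹).1 (io (n + 2) n) = io (n + 2) n := by
      rw [Prod.fst_mul, Prod.fst_mul, MulAut.mul_apply, MulAut.mul_apply, hfix, Prod.fst_inv,
        MulAut.apply_inv_self]
    obtain ⟨s, hs⟩ := hO _ ⟨e1, e2⟩
    have e3 : g⁻¹ * ((g * k * g⁻¹).1, s) * g ∈ Ga := pos i hi _ hs (by
      show (g * k * g⁻¹).1 (g.1 _) = g.1 _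
      rw [Prod.fst_mul, Prod.fst_mul, MulAut.mul_apply, MulAut.mul_apply, Prod.fst_inv,
        MulAut.inv_apply_self, hfa k hk])
    have e4 := sp3_func hF e3 hk (by
      simp only [Prod.fst_mul, Prod.fst_inv]
      group)
    have e5 : g * k * g⁻¹ = ((g * k * g⁻¹).1, s) := by
      conv_lhs => rw [← e4]
      group
    rw [inv_inv, e5]
    exact hs
  · have hi : i < C.tys.length := by simpa [Cert.okO, Nat.blt_eq] using ho
    exact pos i hi k hk hfix

end Pool.Agent.MB
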