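import Pool.Agent.Lib.MP_c86c76_al.B.St

/-!
Two or three arcs of a diagram in standard position.
-/

set_option autoImplicit false

namespace Pool.Agent.MB

open FreeGroup hiding map_one map_mul map_inv

/-- The letters that occur before their inverses. -/
def stdFa (C : RW) : RW :=
  C.foldl (fun acc l => cond (acc.any fun u => Nat.beq u.1 l.1) acc (acc ++ [l])) []

/-- The renaming attached to a list of letters. -/
def stdTau (t : RW) (i : ℕ) : ℕ × Bool := t.getD i (i, true)

/-- The finite check. -/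
def StdOk (k : ℕ) (C : RW) : Prop :=
  (∃ P ∈ pats k, C = P.map (inst (stdTau (stdFa C))) ∧ ∀ l ∈ P, l.1 < k) ∧ (stdFa C).length = k ∧
  (∀ i < k, (stdTau (stdFa C) i).1 < k) ∧
  (∀ i < k, ∀ j < k, (stdTau (stdFa C) i).1 = (stdTau (stdFa C) j).1 → i = j) ∧
  ∀ i < k, ∃ j < k, (stdTau (stdFa C) j).1 = i

instance (k : ℕ) (C : RW) : Decidable (StdOk k C) := by unfold StdOk; infer_instance

theorem std_two : ∀ C ∈ (sgn 2).permutations', StdOk 2 C := by decide +kernel

theorem std_three : ∀ C ∈ (sgn 3).permutations', StdOk 3 C := by decide +kernel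

section Letters

variable {α : Type}

theorem std_lt_bar (l : α × Bool) : lt (bar l) = (lt l)⁻¹ := by
  rw [lt, lt, inv_mk]
  rfl

theorem std_lt_inj [DecidableEq α] {l l' : α × Bool} (h : lt l = lt l') : l = l' := by
  have h1 := congrArg toWord h
  rw [lt, lt, toWord_mk, toWord_mk, reduce_singleton, reduce_singleton] at h1
  exact List.singleton_injective h1

theorem std_prod {G : Type} [Group G] (θ : FreeGroup α →* G) (W : List (α × Bool)) :
    (W.map fun l => θ (lt l)).prod = θ (mk W) := by
  induction W with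
  | nil => exact (map_one θ).symm
  | cons l W ih => rw [List.map_cons, List.prod_cons, ih, ← map_mul, lt, mul_mk]; rfl

theorem std_inst_bar (L : ℕ → α × Bool) (p : ℕ × Bool) : inst L (bar p) = bar (inst L p) := by
  obtain ⟨i, b⟩ := p
  cases b <;> simp [inst, bar]

theorem std_inst_inst (L : ℕ → α × Bool) (τ : ℕ → ℕ × Bool) (p : ℕ × Bool) :
    inst (fun i => inst L (τ i)) p = inst L (inst τ p) := by
  obtain ⟨i, b⟩ := p
  cases b
  · exact (std_inst_bar L (τ i)).symm
  · rfl

theorem std_inst_fst (L : ℕ → α × Bool) (p : ℕ × Bool) : (inst L p).1 = (L p.1).1 := by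
  obtain ⟨i, b⟩ := p
  cases b <;> rfl

theorem std_adj {β γ : Type} {f : β → γ} {V : List β} {u v : γ} (h : Adj (V.map f) u v) :
    ∃ a b, Adj V a b ∧ f a = u ∧ f b = v := by
  obtain ⟨l1, l2, e⟩ := h
  obtain ⟨m1, m2, rfl, -, e2⟩ := List.map_eq_append_iff.1 e
  obtain ⟨a, m3, rfl, ha, e3⟩ := List.map_eq_cons_iff.1 e2
  obtain ⟨b, m4, rfl, hb, -⟩ := List.map_eq_cons_iff.1 e3
  exact ⟨a, b, ⟨m1, m4, rfl⟩, ha, hb⟩

end Letters

theorem std_flat {β γ : Type} (f : β → γ) (Bs : List (List γ)) (P : List β)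
    (h : P.map f = Bs.flatten) : ∃ Bs' : List (List β), Bs = Bs'.map (List.map f) ∧
      P = Bs'.flatten := by
  induction Bs generalizing P with
  | nil => exact ⟨[], rfl, List.map_eq_nil_iff.1 h⟩
  | cons B Bs ih =>
    obtain ⟨m1, m2, rfl, rfl, e⟩ := List.map_eq_append_iff.1 h
    obtain ⟨Bs', rfl, rfl⟩ := ih m2 e
    exact ⟨m1 :: Bs', rfl, rfl⟩

theorem std_splits (w p0 : RW) (Bs : List RW) (hB : ∀ B ∈ Bs, B ≠ [])
    (e : w = p0 ++ Bs.flatten) : (p0, Bs) ∈ splits w := by
  induction w generalizing p0 Bs with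
  | nil =>
    obtain ⟨rfl, e2⟩ := List.append_eq_nil_iff.1 e.symm
    cases Bs with
    | nil => simp [splits]
    | cons B Bs => exact (hB B List.mem_cons_self (List.append_eq_nil_iff.1 e2).1).elim
  | cons l t ih =>
    rw [splits, List.mem_flatMap]
    cases p0 with
    | cons l' p0 =>
      obtain ⟨rfl, e2⟩ := List.cons.inj e
      exact ⟨_, ih p0 Bs hB e2, List.mem_cons_self⟩
    | nil =>
      cases Bs with
      | nil => simp at e
      | cons B Bs =>
        cases B with
        | nil => exact (hB [] List.mem_cons_self rfl).elim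
        | cons l' B =>
          obtain ⟨rfl, e2⟩ := List.cons.inj e
          exact ⟨_, ih B Bs (fun B' h => hB B' (List.mem_cons_of_mem _ h)) e2,
            List.mem_cons_of_mem _ List.mem_cons_self⟩

theorem std_patB {k : ℕ} {f : ℕ × Bool → ℕ × Bool} (hf : ∀ l, k ≤ l.1 → f l = l) (Bs : List RW) :
    patB k (Bs.map (List.map f)) = (patB k Bs).map f := by
  induction Bs with
  | nil => rfl
  | cons B Bs ih =>
    simp only [List.map_cons, patB, ih, List.length_map, List.map_append, List.map_nil,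
      List.cons_append]
    rw [hf _ (Nat.le_add_right _ _), hf _ (Nat.le_add_right _ _)]

theorem std_patC {j : ℕ} {f : ℕ × Bool → ℕ × Bool} (hf : ∀ l, j ≤ l.1 → f l = l) (h : ℕ) :
    patC j h = (patC j h).map f := by
  induction h with
  | zero => rfl
  | succ h ih =>
    simp only [patC, List.map_append, ← ih, List.map_cons, List.map_nil]
    rw [hf _ (by simp), hf _ (by simp only; omega), hf _ (by simp), hf _ (by simp only; omega)]

theorem std_bdB {k : ℕ} (Bs : List RW) (hB : ∀ l ∈ Bs.flatten, l.1 < k) :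
    ∀ l ∈ patB k Bs, l.1 < k + Bs.length := by
  induction Bs with
  | nil => simp [patB]
  | cons B Bs ih =>
    intro l hl
    simp only [List.flatten_cons, List.mem_append] at hB
    simp only [patB, List.mem_append, List.mem_cons, List.not_mem_nil, or_false] at hl
    rw [List.length_cons]
    rcases hl with hl | (rfl | hl) | rfl
    · have := ih (fun l h => hB l (Or.inr h)) l hl
      omega
    · simp
    · have := hB l (Or.inl hl)
      omega
    · simp

theorem std_bdC (j h : ℕ) : ∀ l ∈ patC j h, l.1 < j + 2 * h := by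
  induction h with
  | zero => simp [patC]
  | succ h ih =>
    intro l hl
    simp only [patC, List.mem_append, List.mem_cons, List.not_mem_nil, or_false] at hl
    rcases hl with hl | rfl | rfl | rfl | rfl
    · have := ih l hl
      omega
    all_goals simp only; omega

theorem std_ev_bar (n : ℕ) (p : ℕ × Bool) : ev n [bar p] = (ev n [p])⁻¹ :=
  (congrArg (FreeGroup.lift (io n)) (std_lt_bar p)).trans (map_inv _ _)

/-- A signed permutation of the letters. -/
theorem std_pi {n : ℕ} (L : ℕ → Fin n × Bool)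
    (hL : ∀ i < n, ∀ j < n, (L i).1 = (L j).1 → i = j) : ∃ π : MulAut (FreeGroup (Fin n)),
    (∀ p : ℕ × Bool, p.1 < n → π (ev n [p]) = lt (inst L p)) ∧
    ∀ V : RW, (∀ l ∈ V, l.1 < n) → π (ev n V) = mk (V.map (inst L)) := by
  have hi : Function.Injective fun i : Fin n => (L i).1 := fun i j e =>
    Fin.ext (hL i i.2 j j.2 e)
  let e : Fin n ≃ Fin n := Equiv.ofBijective _ (Finite.injective_iff_bijective.1 hi)
  have key : ∀ (u : Fin n → Fin n) (s : Fin n → Bool) (j : Fin n),
      FreeGroup.lift (fun i => lt (u i, s i)) (lt (j, s j)) = of (u j) := fun u s j => by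
    cases hs : s j
    · have h1 : lt (j, false) = (of j)⁻¹ := std_lt_bar (j, true)
      have h2 : lt (u j, false) = (of (u j))⁻¹ := std_lt_bar (u j, true)
      rw [h1, map_inv, lift_apply_of, hs, h2, inv_inv]
    · have h1 : lt (j, true) = of j := rfl
      rw [h1, lift_apply_of, hs]
      rfl
  let f : FreeGroup (Fin n) →* FreeGroup (Fin n) := FreeGroup.lift fun i => lt (e i, (L i).2)
  let g : FreeGroup (Fin n) →* FreeGroup (Fin n) :=
    FreeGroup.lift fun j => lt (e.symm j, (L (e.symm j)).2)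
  have h1 : g.comp f = MonoidHom.id _ := by
    ext i
    have := key e.symm (fun j => (L (e.symm j)).2) (e i)
    rw [e.symm_apply_apply] at this
    rw [MonoidHom.comp_apply, lift_apply_of, MonoidHom.id_apply]
    exact this
  have h2 : f.comp g = MonoidHom.id _ := by
    ext j
    have := key e (fun i => (L i).2) (e.symm j)
    rw [e.apply_symm_apply] at this
    rw [MonoidHom.comp_apply, lift_apply_of, MonoidHom.id_apply]
    exact this
  have h3 : ∀ p : ℕ × Bool, p.1 < n → f (ev n [p]) = lt (inst L p) := by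
    have h4 : ∀ i < n, f (ev n [(i, true)]) = lt (L i) := fun i hi => by
      have h5 : ev n [(i, true)] = of ⟨i, hi⟩ :=
        (lift_apply_of (f := io n) (x := i)).trans (dif_pos hi)
      rw [h5, lift_apply_of]
      rfl
    rintro ⟨i, b⟩ hi
    cases b
    · have h6 := std_ev_bar n (i, true)
      have h7 := std_lt_bar (L i)
      exact (congrArg f h6).trans ((map_inv _ _).trans ((congrArg _ (h4 i hi)).trans h7.symm))
    · exact h4 i hi
  refine ⟨MonoidHom.toMulEquiv f g h1 h2, h3, fun V hV => ?_⟩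
  change f (FreeGroup.lift (io n) (mk V)) = _
  rw [← std_prod, map_list_prod, List.map_map]
  have h8 := std_prod (MonoidHom.id _) (V.map (inst L))
  rw [List.map_map] at h8
  rw [← MonoidHom.id_apply _ (mk (V.map (inst L))), ← h8]
  exact congrArg List.prod (List.map_congr_left fun l hl => h3 l (hV l hl))

theorem stdSt (_hD : DiaSt) (hN : NfSt) (hV : LtVSt) (_hR : RawSt) : StdSt := by
  rintro n c D ⟨θ, W, hW, rfl, hr⟩ k hk x hx hinj
  have hk2 : 2 ≤ k := by omega
  have hθ : θ (mk W) = c.r := (std_prod θ.toMonoidHom W).symm.trans hr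
  have : Nonempty (Fin n × Bool) := ⟨(List.mem_map.1 (hx 0 (by omega))).choose⟩
  choose! m hm using fun i (hi : i < k) => List.mem_map.1 (hx i hi)
  have hess : Ess (mk W) := fun θ' y hy => c.ess (θ' * θ⁻¹) y (by
    change θ' (θ.symm c.r) ∈ _
    rwa [← hθ, MulEquiv.symm_apply_apply])
  have hmi : ∀ i < k, ∀ j < k, (m i).1 = (m j).1 → i = j := fun i hi j hj e => by
    refine hinj i hi j hj ?_
    rw [← (hm i hi).2, ← (hm j hj).2, Pm, ← map_inv, ← std_lt_bar]
    by_cases h : (m i).2 = (m j).2
    · exact Or.inl (by rw [Prod.ext e h])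
    · exact Or.inr (by rw [show m i = bar (m j) from Prod.ext e (Bool.eq_not_of_ne h)])
  obtain ⟨L, p0, Bs, h, ψ, hL, hLi, hc, hp, hB, hψ, hψW, hF, hA⟩ := hN _ W hW hess k m hmi
  rw [Fintype.card_fin] at hLi hc
  have hok : StdOk k (p0 ++ Bs.flatten) := by
    rcases hk with rfl | rfl
    exacts [std_two _ (List.mem_permutations'.2 hp), std_three _ (List.mem_permutations'.2 hp)]
  obtain ⟨⟨P, hP, eP, hPk⟩, t1, t2, t3, t4⟩ := hok
  generalize stdFa (p0 ++ Bs.flatten) = t at eP t1 t2 t3 t4
  have hτ : ∀ i, k ≤ i → stdTau t i = (i, true) := fun i hi =>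
    List.getD_eq_default _ _ (t1.le.trans hi)
  have hf : ∀ l : ℕ × Bool, k ≤ l.1 → inst (stdTau t) l = l := by
    rintro ⟨i, b⟩ hi
    cases b <;> simp [inst, hτ i hi, bar]
  obtain ⟨q0, P2, rfl, rfl, e2⟩ := List.map_eq_append_iff.1 eP.symm
  obtain ⟨Cs, rfl, rfl⟩ := std_flat _ _ _ e2
  rw [List.length_map] at hc
  have hpat : pat k (q0.map (inst (stdTau t))) (Cs.map (List.map (inst (stdTau t)))) h =
      (pat k q0 Cs h).map (inst (stdTau t)) := by
    rw [pat, pat, List.map_append, List.map_append, std_patB hf, List.length_map,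
      ← std_patC fun l hl => hf l ((Nat.le_add_right _ _).trans hl)]
  rw [hpat] at hψW hF hA
  have hii : inst L ∘ inst (stdTau t) = inst fun i => inst L (stdTau t i) :=
    funext fun p => (std_inst_inst L _ p).symm
  rw [List.map_map, hii] at hψW hF
  have hbd : ∀ l ∈ pat k q0 Cs h, l.1 < n := fun l hl => by
    simp only [pat, List.mem_append] at hl
    rcases hl with (hl | hl) | hl
    · have := hPk l (List.mem_append_left _ hl)
      omega
    · have := std_bdB Cs (fun l h => hPk l (List.mem_append_right _ h)) l hl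
      omega
    · have := std_bdC _ _ l hl
      omega
  obtain ⟨π, hπ, hπV⟩ := std_pi (fun i => inst L (stdTau t i)) fun i hi j hj e => by
    rw [std_inst_fst, std_inst_fst] at e
    have b1 : ∀ i < n, (stdTau t i).1 < n := fun i hi => by
      rcases lt_or_ge i k with h1 | h1
      · have := t2 i h1
        omega
      · rwa [hτ i h1]
    have e' := hLi _ (b1 i hi) _ (b1 j hj) e
    rcases lt_or_ge i k with h1 | h1 <;> rcases lt_or_ge j k with h2 | h2
    · exact t3 i h1 j h2 e'
    · have := t2 i h1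
      rw [hτ j h2] at e'
      simp only at e'
      omega
    · have := t2 j h2
      rw [hτ i h1] at e'
      simp only at e'
      omega
    · rwa [hτ i h1, hτ j h2] at e'
  have key : ∀ i < k, ∀ a : ℕ × Bool, inst (stdTau t) a = (i, true) →
      a.1 < k ∧ (π⁻¹ * ψ * θ⁻¹) (x i) = ev n [a] := fun i hi a ha => by
    have h1 : a.1 < k := by
      by_contra h2
      rw [hf a (not_lt.1 h2)] at ha
      exact h2 (ha ▸ hi)
    refine ⟨h1, ?_⟩
    change π.symm (ψ (θ.symm (x i))) = _
    rw [← (hm i hi).2, MulEquiv.symm_apply_apply, hψ i hi, MulEquiv.symm_apply_eq,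
      hπ a (by omega), std_inst_inst, ha, ← hL i hi]
    rfl
  refine ⟨pat k q0 Cs h, List.mem_filter.2 ⟨List.mem_flatMap.2 ⟨_, hP, List.mem_filterMap.2
    ⟨(q0, Cs), std_splits _ _ _ (fun B hB' e => hB _ (List.mem_map_of_mem hB') (by rw [e]; rfl)) rfl,
      ?_⟩⟩, ?_⟩, π⁻¹ * ψ * θ⁻¹, ?_, fun i hi => ?_, fun hadj => ?_⟩
  · rw [if_pos ⟨by simp only; omega, by simp only; omega⟩]
    simp only
    rw [show (n - (k + Cs.length)) / 2 = h by omega]
  · rw [Bool.not_eq_true', List.any_eq_false]
    intro l _ hl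
    have hD' : IsD c ((pat k q0 Cs h).map fun l =>
        (θ * ψ⁻¹) (lt (inst (fun i => inst L (stdTau t i)) l))) := by
      refine ⟨θ * ψ⁻¹, _, hF, by rw [List.map_map]; rfl, ?_⟩
      have h1 := std_prod (θ * ψ⁻¹).toMonoidHom
        ((pat k q0 Cs h).map (inst fun i => inst L (stdTau t i)))
      rw [List.map_map, ← hψW] at h1
      refine h1.trans ?_
      change θ (ψ.symm (ψ (mk W))) = _
      rw [MulEquiv.symm_apply_apply, hθ]
    rcases hV _ c _ _ hD' (fun l => by rw [std_inst_bar, std_lt_bar, map_inv]) l l hl with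
      ⟨h1, h2⟩ | ⟨z, h1⟩
    · exact h2 h1
    · unfold pos3 at h1
      omega
  · change π.symm (ψ (θ.symm c.r)) = _
    rw [← hθ, MulEquiv.symm_apply_apply, hψW, MulEquiv.symm_apply_eq, hπV _ hbd]
  · obtain ⟨j, hj, e⟩ := t4 i hi
    refine ⟨j, hj, ?_⟩
    cases hs : (stdTau t j).2
    · rw [(key i hi (bar (j, true)) (Prod.ext e (congrArg not hs))).2]
      exact Or.inr (std_ev_bar n _)
    · exact Or.inl (key i hi (j, true) (Prod.ext e hs)).2
  · obtain ⟨u, v, huv, hu, hv⟩ := std_adj hadj
    rw [← (hm 0 (by omega)).2] at hu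
    rw [← (hm 1 (by omega)).2] at hv
    obtain rfl := std_lt_inj (θ.injective hu)
    obtain rfl := std_lt_inj (θ.injective hv)
    obtain ⟨a, b, hab, ha, hb⟩ :=
      std_adj (hA (0, true) (1, true) (by simp only; omega) (by simp only; omega) huv)
    have k0 := key 0 (by omega) a ha
    have k1 := key 1 (by omega) b hb
    exact ⟨a, b, k0.1, k1.1, hab, k0.2, k1.2⟩

end Pool.Agent.MB
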