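import Pool.Agent.Lib.MP_c86c76_al.B.Cert

/-!
The step from `n` to `n + 2` letters, assembled from its parts.
-/

set_option autoImplicit false

namespace Pool.Agent.MB

open FreeGroup

theorem step_lt (n : ℕ) :
    lt ((⟨n, by omega⟩, true) : Fin (n + 2) × Bool) = io (n + 2) n := by
  have h : n < n + 2 := by omega
  rw [io, dif_pos h]
  rfl

theorem stepSt (hG : GenSt) (hB : BrownSt) (hC : CovSt) (hW : RawSt) (h0 : Sp0St) (h1 : Sp1St)
    (h2 : Sp2St) (h3 : Sp3St) (h4 : Sp4St) : StepSt := by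
  intro C n W Tl A _ τ k0 k1 k2 k3 htriv e2 e3 hτ hLv
  obtain ⟨⟨c, hc⟩, ⟨β, hβ, hβx⟩, hA⟩ := h0 C n W Tl k0
  obtain ⟨-, hrel, -, hfix, hfixa⟩ := hA A τ
  have hr : c.r = ev (n + 2) (hd n ++ W) := by
    rw [(hW.2 (n + 2)).1, Ctx.r, hc]
  have hrels : ∀ w ∈ C.rels n Tl.length, gw (TT (n + 2) (Tl ++ C.new) τ) w = 1 := fun w hw =>
    hrel w (List.all_eq_true.1 htriv w hw) (hτ w hw)
  have hS : ∀ w ∈ C.relS n Tl.length, gw (TT (n + 2) (Tl ++ C.new) τ) w = 1 := fun w hw =>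
    hrels w (List.mem_append_left _ (List.mem_append_left _ hw))
  have hN : ∀ w ∈ C.relN n Tl.length, gw (TT (n + 2) (Tl ++ C.new) τ) w = 1 := fun w hw =>
    hrels w (List.mem_append_left _ (List.mem_append_right _ hw))
  have hF : ∀ w ∈ C.relF, gw (TT (n + 2) (Tl ++ C.new) τ) w = 1 := fun w hw =>
    hrels w (List.mem_append_right _ hw)
  have hFa := (h1 C n W Tl A τ β k0 k1 hβ.1 hβx hLv.2.1 hS).1
  obtain ⟨t1, t2, t3, t4, t5, t6⟩ := h2 C n W Tl A τ c hc k0 k2 hLv.2.2.1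
  have hle : Gr (n + 2) (Tl ++ C.new) τ ((Tl ++ C.new).length - 1) ≤
      Gr (n + 2) (Tl ++ C.new) τ (Tl ++ C.new).length := by
    rw [← t6]
    exact le_sup_left
  have hk : ∀ k ∈ Gr (n + 2) (Tl ++ C.new) τ ((Tl ++ C.new).length - 1),
      k.1 c.r = c.r ∧ k.1 (io (n + 2) n) = io (n + 2) n := fun k hk =>
    ⟨by rw [hr]; exact hfix k (hle hk), hfixa k hk⟩
  have ht : ∀ t ∈ C.TyS n Tl τ, t.1 c.r = c.r := fun t h => by
    rw [hr]; exact hfix t (t1 t h)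
  have hgood : All3 c (Good c (io (n + 2) n)
      (RR (Gr (n + 2) (Tl ++ C.new) τ ((Tl ++ C.new).length - 1)) (C.TyS n Tl τ))) :=
    fun D a b hD hab x y z hx hy hz => h4 C n W Tl A τ c hc k0 k2 k3 hF x y z
      (hC (n + 2) c (hd n ++ W) C.Fam C.e2 C.e3 hr e2 e3 D a b hD hab x y z hx hy hz)
  have gen := hG (Fin (n + 2)) c (⟨n, by omega⟩, true) A
    (Gr (n + 2) (Tl ++ C.new) τ ((Tl ++ C.new).length - 1)) (C.TyS n Tl τ)
  rw [step_lt] at gen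
  have hOa := gen hk ht t2 t4 t5 hgood
  have hnat := h3 C n W Tl A τ c hc k0 k1 k2 hLv hS hN hOa
  have br := hB (Fin (n + 2)) c (⟨n, by omega⟩, true) A
    (Gr (n + 2) (Tl ++ C.new) τ ((Tl ++ C.new).length - 1)) (C.TyS n Tl τ)
  rw [step_lt] at br
  have fin := br hk ht t2 hFa hOa hnat t3 hgood
  rw [t6, hr] at fin
  rw [hr] at hOa
  exact ⟨hfix, fin.1, fin.2, hOa⟩

end Pool.Agent.MB
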