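import Pool.Agent.Lib.MP_c86c76_al.B.St

/-!
Metric facts on triangles in the Cayley tree.
-/

set_option autoImplicit false

namespace Pool.Agent.MB

open FreeGroup

section

variable {α : Type} [DecidableEq α]

/-- The distance in the tree. -/
def treeL (a b : FreeGroup α) : ℕ := (a⁻¹ * b).toWord.length

theorem treeL_comm (a b : FreeGroup α) : treeL a b = treeL b a := by
  have e : b⁻¹ * a = (a⁻¹ * b)⁻¹ := by simp
  rw [treeL, treeL, e, toWord_inv, invRev_length]

theorem tree_sub (p c q : FreeGroup α) :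
    List.Sublist (p⁻¹ * q).toWord ((p⁻¹ * c).toWord ++ (c⁻¹ * q).toWord) := by
  have e : p⁻¹ * q = (p⁻¹ * c) * (c⁻¹ * q) := by simp [mul_assoc]
  rw [e]
  exact toWord_mul_sublist _ _

theorem treeL_tri (p c q : FreeGroup α) : treeL p q ≤ treeL p c + treeL c q := by
  simpa [treeL] using (tree_sub p c q).length_le

theorem tree_bt_of_len {p c q : FreeGroup α} (h : treeL p c + treeL c q ≤ treeL p q) : Bt p c q :=
  (tree_sub p c q).eq_of_length_le (by simpa [treeL] using h)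

theorem treeL_bt {p c q : FreeGroup α} (h : Bt p c q) : treeL p q = treeL p c + treeL c q := by
  rw [treeL, h, List.length_append, treeL, treeL]

variable [Fintype α]

theorem tree_NN (a b : FreeGroup α) : NN (a⁻¹ * b) = sv (a⁻¹ * b) + sv (b⁻¹ * a) := by
  simp [NN]

theorem tree_lo (hB : BtSt) (a b : FreeGroup α) :
    (Fintype.card (α × Bool) + 2) ^ treeL a b ≤ sv (a⁻¹ * b) :=
  ((hB α).2.2.2.2.2.2.2.2.2.2 [] _).2.1

theorem tree_hi (hB : BtSt) (a b : FreeGroup α) :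
    sv (a⁻¹ * b) < 2 * (Fintype.card (α × Bool) + 2) ^ treeL a b :=
  ((hB α).2.2.2.2.2.2.2.2.2.2 [] _).2.2

theorem tree_cat (hB : BtSt) {p c q : FreeGroup α} (h : Bt p c q) :
    sv (p⁻¹ * q) + (Fintype.card (α × Bool) + 2) ^ treeL c q =
      sv (p⁻¹ * c) * (Fintype.card (α × Bool) + 2) ^ treeL c q + sv (c⁻¹ * q) := by
  rw [sv, h]
  exact ((hB α).2.2.2.2.2.2.2.2.2.2 _ _).1

omit [DecidableEq α] in
theorem tree_pow {k m : ℕ} (h : k < m) :
    2 * (Fintype.card (α × Bool) + 2) ^ k ≤ (Fintype.card (α × Bool) + 2) ^ m := by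
  refine le_trans ?_ (Nat.pow_le_pow_right (by omega) h)
  rw [pow_succ']
  exact Nat.mul_le_mul_right _ (by omega)

theorem tree_len_le (hB : BtSt) {a b a' b' : FreeGroup α} (h : sv (a⁻¹ * b) < sv (a'⁻¹ * b')) :
    treeL a b ≤ treeL a' b' := by
  by_contra hn
  have h1 := tree_pow (α := α) (not_le.1 hn)
  have h2 := tree_lo hB a b
  have h3 := tree_hi hB a' b'
  omega

theorem tree_NN_lt (hB : BtSt) {a b a' b' : FreeGroup α} (h : treeL a b < treeL a' b') :
    NN (a⁻¹ * b) < NN (a'⁻¹ * b') := by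
  have h1 := tree_pow (α := α) h
  have h2 := tree_hi hB a b
  have h3 := tree_hi hB b a
  have h4 := tree_lo hB a' b'
  have h5 := tree_lo hB b' a'
  rw [treeL_comm] at h3 h5
  rw [tree_NN, tree_NN]
  omega

theorem tree_lex (hB : BtSt) {a c b a' c' b' : FreeGroup α} (h : Bt a c b) (h' : Bt a' c' b')
    (hl : treeL c' b' = treeL c b) (hs : sv (a'⁻¹ * c') < sv (a⁻¹ * c)) :
    sv (a'⁻¹ * b') < sv (a⁻¹ * b) := by
  have h1 := tree_cat hB h
  have h2 := tree_cat hB h'
  have h3 := tree_lo hB c b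
  have h4 := tree_hi hB c' b'
  rw [hl] at h2 h4
  have h5 := Nat.mul_le_mul_right ((Fintype.card (α × Bool) + 2) ^ treeL c b) (Nat.succ_le_of_lt hs)
  rw [Nat.succ_mul] at h5
  omega

theorem tree_mx (hB : BtSt) {p q r c : FreeGroup α} (h1 : Bt p c q) (h2 : Bt q c r)
    (h3 : Bt p c r) : Mx p q r ↔ sv (r⁻¹ * c) < sv (q⁻¹ * c) ∧ sv (r⁻¹ * c) < sv (p⁻¹ * c) := by
  obtain ⟨sy, -, -, -, -, -, hh, -⟩ := hB α
  rw [Mx, hh p q r c (sy _ _ _ h3) (sy _ _ _ h1), hh q p r c (sy _ _ _ h2) h1]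

theorem tree_ne (hB : BtSt) {p q : FreeGroup α} (h : p ≠ q) (c : FreeGroup α) :
    sv (p⁻¹ * c) ≠ sv (q⁻¹ * c) := fun e =>
  h (inv_injective (mul_right_cancel ((hB α).2.2.2.2.2.2.2.2.1 _ _ e)))

theorem tree_three (hB : BtSt) {x y w z c d : FreeGroup α} (h1 : Bt x c y) (h2 : Bt x d y)
    (h3 : Bt c d y) (hw : sv (w⁻¹ * c) < sv (x⁻¹ * c)) (hz : sv (z⁻¹ * d) < sv (y⁻¹ * d)) :
    NN (w⁻¹ * z) < NN (x⁻¹ * y) := by
  have sy := (hB α).1
  rcases Nat.lt_or_ge (treeL w z) (treeL x y) with hl | hl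
  · exact tree_NN_lt hB hl
  have l1 := treeL_bt h1
  have l2 := treeL_bt h2
  have l3 := treeL_bt h3
  have l4 := tree_len_le hB hw
  have l5 := tree_len_le hB hz
  have t1 := treeL_tri w c z
  have t2 := treeL_tri c d z
  have t3 := treeL_tri w d z
  have t4 := treeL_tri w c d
  have c1 := treeL_comm z d
  have c2 := treeL_comm y d
  have c3 := treeL_comm d w
  have c4 := treeL_comm d x
  have b1 : Bt w c z := tree_bt_of_len (by omega)
  have b2 : Bt w d z := tree_bt_of_len (by omega)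
  have s1 := tree_lex hB h1 b1 (by omega) hw
  have s2 := tree_lex hB (sy _ _ _ h2) (sy _ _ _ b2) (by omega) hz
  rw [tree_NN, tree_NN]
  omega

end

theorem treeSt (hB : BtSt) : TreeSt := by
  intro α _ _
  obtain ⟨sy, med, ord, tr, dr, dd, hh, -, -, ten, -⟩ := hB α
  refine ⟨fun p q r hpq hqr hpr => ?_, fun p q r h => ?_, fun x y w z hw hz => ?_,
    fun x y w z h h' => ?_, fun l r h => ?_⟩
  · obtain ⟨c, h1, h2, h3⟩ := med p q r
    rw [tree_mx hB h1 h2 h3, tree_mx hB h2 (sy _ _ _ h3) (sy _ _ _ h1),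
      tree_mx hB (sy _ _ _ h3) h1 (sy _ _ _ h2)]
    have := tree_ne hB hpq c
    have := tree_ne hB hqr c
    have := tree_ne hB hpr c
    omega
  · obtain ⟨c, h1, h2, h3⟩ := med p q r
    obtain ⟨a1, a2⟩ := (tree_mx hB h1 h2 h3).1 h
    have l1 := tree_len_le hB a1
    have l2 := tree_len_le hB a2
    have l3 := treeL_bt h1
    have l4 := treeL_bt h3
    have c1 := treeL_comm r c
    have c2 := treeL_comm q c
    have c3 := treeL_comm p c
    rcases l1.lt_or_eq with l1 | l1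
    · exact tree_NN_lt hB (by omega)
    have e1 := tree_cat hB h1
    have e2 := tree_cat hB h3
    have e3 := tree_cat hB (sy _ _ _ h1)
    have e4 := tree_cat hB (sy _ _ _ h3)
    have e5 := tree_lo hB c q
    have e6 := tree_hi hB c r
    have e7 : treeL c r = treeL c q := by omega
    rw [e7] at e2 e6
    have e8 := Nat.mul_le_mul_right ((Fintype.card (α × Bool) + 2) ^ treeL c p)
      (Nat.succ_le_of_lt a1)
    rw [Nat.succ_mul] at e8
    have e9 : (Fintype.card (α × Bool) + 2) ^ treeL c q ≤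
        (Fintype.card (α × Bool) + 2) ^ treeL c p := Nat.pow_le_pow_right (by omega) (by omega)
    rw [tree_NN, tree_NN]
    omega
  · obtain ⟨c, h1, h2, h3⟩ := med x y w
    obtain ⟨d, k1, k2, k3⟩ := med x y z
    obtain ⟨a1, a2⟩ := (tree_mx hB h1 h2 h3).1 hw
    obtain ⟨b1, b2⟩ := (tree_mx hB k1 k2 k3).1 hz
    rcases ord x c d y h1 k1 with ⟨-, o⟩ | ⟨-, o⟩
    · exact tree_three hB h1 k1 o a2 b1
    · have := tree_three hB k1 h1 o b2 a1
      rwa [tree_NN, add_comm, ← tree_NN] at this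
  · refine ⟨lt_trans h.2 h'.1, ?_⟩
    by_contra hn
    have hwy : y ≠ w := fun e => lt_irrefl _ (e ▸ h.1 : Hh x y y)
    have h0 : Hh z y w := lt_of_le_of_ne (not_lt.1 hn) (tree_ne hB hwy z)
    obtain ⟨c, h1, h2, h3⟩ := med w y x
    obtain ⟨d, k1, k2, k3⟩ := med w y z
    obtain ⟨ne, o1, o2⟩ := ten w x y z c d h1 h3 h2 k1 k3 k2 h.1 h0
    obtain ⟨o3, o4⟩ := tr w c d z o1 k3
    have o5 : Bt x c z := by
      rw [dr, dd c d z o4 ne, ← dd c d y o2 ne, ← dr]
      exact sy _ _ _ h2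
    have o6 : Hh z w x := (hh z x w c o3 o5).2 ((hh y x w c h1 (sy _ _ _ h2)).1 h.2)
    exact hn (lt_trans o6 h'.2)
  · obtain ⟨c, h1, h2, h3⟩ := med 1 (lt l) r
    obtain ⟨a1, a2⟩ := (tree_mx hB h1 h2 h3).1 h
    have l1 := treeL_bt h1
    have l2 : treeL 1 (lt l) = 1 := by simp [treeL, lt, toWord_mk]
    have c1 := treeL_comm (lt l) c
    have e1 := tree_lo hB r c
    have e2 : 0 < (Fintype.card (α × Bool) + 2) ^ treeL r c := by positivity
    have e3 := tree_hi hB 1 c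
    have e4 := tree_hi hB (lt l) c
    rcases Nat.eq_zero_or_pos (treeL 1 c) with z | z
    · rw [z, pow_zero] at e3
      omega
    · have z' : treeL (lt l) c = 0 := by omega
      rw [z', pow_zero] at e4
      omega

end Pool.Agent.MB
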