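import Pool.Agent.Lib.MP_c86c76_al.B.Cert
import Pool.Agent.Lib.MP_c86c76_al.B.Raw

/-!
Soundness of the witnesses for the order pattern of two arcs.
-/

set_option autoImplicit false

namespace Pool.Agent.MB

open FreeGroup

theorem wit_irr {α : Type} [DecidableEq α] (ρ : α × Bool → ℕ) (u : FreeGroup α) : ¬ Lo ρ u u := by
  rintro (⟨h1, h2⟩ | ⟨z, h1⟩)
  · exact h2 h1
  · unfold pos3 at h1
    omega

theorem wit_ev_bar (n : ℕ) (p : ℕ × Bool) : ev n [bar p] = (ev n [p])⁻¹ := by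
  obtain ⟨i, b⟩ := p
  cases b
  · exact (Raw_pos _ i).trans ((inv_inv _).symm.trans (congrArg _ (Raw_neg _ i).symm))
  · exact (Raw_neg _ i).trans (congrArg _ (Raw_pos _ i).symm)

theorem witSt (hC : CycSt) (_hD : DiaSt) (hV : LtVSt) (_hW : RawSt) : WitSt := by
  intro N c W a y w hr hok
  simp only [Wit.ok, Bool.and_eq_true, decide_eq_true_eq] at hok
  obtain ⟨⟨⟨⟨⟨⟨⟨⟨⟨⟨h1, h2⟩, h3⟩, h4⟩, h5⟩, h6⟩, h7⟩, t1⟩, t2⟩, t3⟩, t4⟩ := hok
  obtain ⟨-, -, -, -, -, htr, -⟩ := hC (Fin N) c.ρ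
  have hψ : aut N w.s (ev N w.V) = c.r := by
    rw [(Raw_aut N w.s w.V h1).1, hr]
    exact Raw_eqF _ _ _ h3
  have hd := Raw_isD N c w.V (aut N w.s) h2 hψ
  have ea : aut N w.s (ev N [w.pa]) = io N a := by
    rw [(Raw_aut N w.s _ h1).1]
    exact (Raw_eqF _ _ _ h4).trans (Raw_pos _ a)
  have eb : aut N w.s (ev N [w.pb]) = ev N y := by
    rw [(Raw_aut N w.s _ h1).1]
    exact Raw_eqF _ _ _ h5
  have hf : ∀ l, aut N w.s (ev N [bar l]) = (aut N w.s (ev N [l]))⁻¹ := fun l => by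
    rw [wit_ev_bar, _root_.map_inv]
  have hlt := hV (Fin N) c w.V (fun l => aut N w.s (ev N [l])) hd hf
  have key : ∀ l u, (ltV w.V l u || ltV w.V u l) = true →
      (Lo c.ρ (aut N w.s (ev N [l])) (aut N w.s (ev N [u])) ↔ ltV w.V l u = true) ∧
        aut N w.s (ev N [l]) ≠ aut N w.s (ev N [u]) := fun l u h => by
    rw [Bool.or_eq_true] at h
    refine ⟨⟨fun hl => h.resolve_right fun h' => wit_irr _ _ (htr _ _ _ hl (hlt u l h')),
      hlt l u⟩, fun e => ?_⟩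
    rcases h with h | h
    · have := hlt l u h
      simp only [e] at this
      exact wit_irr _ _ this
    · have := hlt u l h
      simp only [e] at this
      exact wit_irr _ _ this
  obtain ⟨k1, n1⟩ := key _ _ t1
  obtain ⟨k2, -⟩ := key _ _ t2
  obtain ⟨k3, n3⟩ := key _ _ t3
  obtain ⟨k4, -⟩ := key _ _ t4
  simp only [hf, ea, eb] at k1 k2 k3 k4 n1 n3
  have hp : ¬ Pm (ev N y) (io N a) := fun h => h.elim (fun e => n1 e.symm) fun e => n3 e.symm
  refine ⟨⟨_, hd, ?_, ?_⟩, ⟨hp, k1, k2, k3, k4⟩, ?_⟩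
  · exact List.mem_map.2 ⟨_, h6, ea⟩
  · exact List.mem_map.2 ⟨_, h7, eb⟩
  · rw [Cr, k1, k2, k3, k4, crs, Wit.sig, and_iff_right hp]
    dsimp only
    generalize ltV w.V w.pa w.pb = b1
    generalize ltV w.V w.pa (bar w.pb) = b2
    generalize ltV w.V (bar w.pa) w.pb = b3
    generalize ltV w.V (bar w.pa) (bar w.pb) = b4
    cases b1 <;> cases b2 <;> cases b3 <;> cases b4 <;> simp

end Pool.Agent.MB
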