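import Pool.Agent.Lib.MP_c86c76_al.B.Bt
import Pool.Agent.Lib.MP_c86c76_al.B.Tree
import Pool.Agent.Lib.MP_c86c76_al.B.Cyc
import Pool.Agent.Lib.MP_c86c76_al.B.End
import Pool.Agent.Lib.MP_c86c76_al.B.Dia
import Pool.Agent.Lib.MP_c86c76_al.B.Adj
import Pool.Agent.Lib.MP_c86c76_al.B.Mv
import Pool.Agent.Lib.MP_c86c76_al.B.Pl
import Pool.Agent.Lib.MP_c86c76_al.B.Ord
import Pool.Agent.Lib.MP_c86c76_al.B.PeakA
import Pool.Agent.Lib.MP_c86c76_al.B.PeakLL
import Pool.Agent.Lib.MP_c86c76_al.B.PeakRR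
import Pool.Agent.Lib.MP_c86c76_al.B.PeakLR
import Pool.Agent.Lib.MP_c86c76_al.B.Sc
import Pool.Agent.Lib.MP_c86c76_al.B.Gen
import Pool.Agent.Lib.MP_c86c76_al.B.Brown
import Pool.Agent.Lib.MP_c86c76_al.B.Dual
import Pool.Agent.Lib.MP_c86c76_al.B.Ess
import Pool.Agent.Lib.MP_c86c76_al.B.Ex
import Pool.Agent.Lib.MP_c86c76_al.B.Nf
import Pool.Agent.Lib.MP_c86c76_al.B.Std
import Pool.Agent.Lib.MP_c86c76_al.B.Cov
import Pool.Agent.Lib.MP_c86c76_al.B.Raw
import Pool.Agent.Lib.MP_c86c76_al.B.Sd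
import Pool.Agent.Lib.MP_c86c76_al.B.Ab
import Pool.Agent.Lib.MP_c86c76_al.B.Wit
import Pool.Agent.Lib.MP_c86c76_al.B.Sp0
import Pool.Agent.Lib.MP_c86c76_al.B.Sp1
import Pool.Agent.Lib.MP_c86c76_al.B.Sp2
import Pool.Agent.Lib.MP_c86c76_al.B.Sp3
import Pool.Agent.Lib.MP_c86c76_al.B.Sp4
import Pool.Agent.Lib.MP_c86c76_al.B.Step

/-!
All steps, unconditionally.
-/

set_option autoImplicit false

namespace Pool.Agent.MB

theorem treeA : TreeSt := treeSt btSt

theorem cycA : CycSt := cycSt btSt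

theorem adjLA : AdjLSt := adjLSt diaSt

theorem adjRA : AdjRSt := adjRSt diaSt

theorem mvA : MvSt := mvSt treeA diaSt adjLA adjRA

theorem connA : ConnSt := connSt treeA diaSt adjRA mvA (endSt btSt diaSt)

theorem plA : PlSt := plSt cycA diaSt adjLA mvA connA

theorem ltVA : LtVSt := ltVSt cycA plA

theorem ordA : OrdSt := ordSt cycA diaSt plA

theorem peakA : PeakSt := peakSt diaSt mvA (peakASt treeA diaSt adjLA adjRA mvA plA)
  (peakLLSt treeA diaSt adjLA adjRA mvA) (peakRRSt treeA diaSt adjLA adjRA mvA)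
  (peakLRSt treeA diaSt adjLA adjRA mvA)

theorem scA : ScSt := scSt treeA diaSt adjLA adjRA mvA connA peakA

theorem dualA : DualSt := dualSt diaSt mvA connA

theorem cenA : CenSt := cenSt diaSt

theorem covA : CovSt := covSt diaSt adjRA (stdSt diaSt (nfSt exCSt exZSt) ltVA rawSt) rawSt

theorem sp0A : Sp0St := sp0St essSt rawSt

theorem sp1A : Sp1St := sp1St sdSt rawSt sp0A

theorem stepA : StepSt := stepSt (genSt diaSt mvA connA ordA) (brownSt diaSt mvA connA ordA scA)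
  covA rawSt sp0A sp1A
  (sp2St diaSt ordA (abSt dualA rawSt) rawSt (witSt cycA diaSt ltVA rawSt) sp0A)
  (sp3St (abSt dualA rawSt) (acSt dualA rawSt) rawSt sp0A sp1A) (sp4St rawSt sp0A)

/-- The start of the induction. -/
theorem lv0 {A : Type} [Group A] (τ : ℕ → A) (a : ℕ) : Lv 0 [] [] a τ := by
  have e : ∀ φ : MulAut (FreeGroup (Fin 0)), φ = 1 := fun φ => Raw_ext 0 fun i => i.elim0
  have h : Gr 0 [] τ 0 = ⊥ := by simp [Gr]
  refine ⟨fun p _ => by rw [e p.1]; rfl, fun s hs => ?_, fun φ _ => ⟨1, ?_⟩, fun φ _ => ⟨1, ?_⟩⟩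
  · rw [List.length_nil, h, Subgroup.mem_bot] at hs
    exact congrArg Prod.snd hs
  · rw [e φ]; exact one_mem _
  · rw [e φ]; exact one_mem _

/-- Every word of `L` is freely trivial or reduces to a word of `R`. -/
def sbR (L R : List RW) : Bool := L.all fun w => eqW (rd w) [] || R.any (eqW (rd w))

theorem sbR_sound {A : Type} [Group A] (τ : ℕ → A) {L R : List RW} (h : sbR L R = true)
    (hR : ∀ w ∈ R, gw τ w = 1) : ∀ w ∈ L, gw τ w = 1 := by
  intro w hw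
  have := List.all_eq_true.1 h w hw
  rw [Bool.or_eq_true, List.any_eq_true] at this
  rw [← Raw_rd]
  rcases this with e | ⟨u, hu, e⟩
  · rw [Raw_eqW _ _ e, Raw_nil]
  · rw [Raw_eqW _ _ e, hR u hu]

end Pool.Agent.MB
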