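import Pool.Agent.Lib.MP_c86c76_al.B.St

/-!
Geodesics in the Cayley tree of a free group.
-/

set_option autoImplicit false

namespace Pool.Agent.MB

open FreeGroup

section

variable {α : Type} [DecidableEq α]

theorem btRed (p c q : FreeGroup α) :
    Bt p c q ↔ IsReduced ((p⁻¹ * c).toWord ++ (c⁻¹ * q).toWord) := by
  unfold Bt
  constructor
  · intro h
    rw [← h]
    exact isReduced_toWord
  · intro h
    have e : p⁻¹ * q = (p⁻¹ * c) * (c⁻¹ * q) := by group
    rw [e, toWord_mul, h.reduce_eq]

theorem btRest {p c q : FreeGroup α} {B : List (α × Bool)}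
    (h : (p⁻¹ * q).toWord = (p⁻¹ * c).toWord ++ B) : (c⁻¹ * q).toWord = B := by
  have hr : IsReduced B := by
    have := isReduced_toWord (x := p⁻¹ * q)
    rw [h] at this
    exact List.IsChain.right_of_append this
  have e : p⁻¹ * q = (p⁻¹ * c) * mk B := by
    conv_lhs => rw [← mk_toWord (x := p⁻¹ * q), h, ← mul_mk, mk_toWord]
  have e2 : c⁻¹ * q = mk B := by
    have : c⁻¹ * q = (p⁻¹ * c)⁻¹ * (p⁻¹ * q) := by group
    rw [this, e]
    group
  rw [e2, toWord_mk, hr.reduce_eq]

theorem btSymm (p c q : FreeGroup α) (h : Bt p c q) : Bt q c p := by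
  unfold Bt at *
  have e1 : q⁻¹ * p = (p⁻¹ * q)⁻¹ := by group
  have e2 : q⁻¹ * c = (c⁻¹ * q)⁻¹ := by group
  have e3 : c⁻¹ * p = (p⁻¹ * c)⁻¹ := by group
  rw [e1, e2, e3, toWord_inv, toWord_inv, toWord_inv, h, invRev_append]

theorem btDir (p c q : FreeGroup α) : Bt p c q ↔ p = c ∨ dir c p ≠ dir c q := by
  rw [btRed]
  unfold dir
  have e3 : c⁻¹ * p = (p⁻¹ * c)⁻¹ := by group
  have hA : IsReduced (p⁻¹ * c).toWord := isReduced_toWord
  have hB : IsReduced (c⁻¹ * q).toWord := isReduced_toWord
  have hp : p = c ↔ (p⁻¹ * c).toWord = [] := by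
    rw [toWord_eq_nil_iff, inv_mul_eq_one]
  rw [e3, toWord_inv, hp]
  generalize (p⁻¹ * c).toWord = A at *
  generalize (c⁻¹ * q).toWord = B at *
  unfold FreeGroup.IsReduced at *
  rw [List.isChain_append]
  rcases List.eq_nil_or_concat A with rfl | ⟨A, x, rfl⟩
  · simp [hB]
  · rw [List.concat_eq_append] at *
    rcases B with _ | ⟨y, B⟩
    · simp [hA, invRev]
    · obtain ⟨a, s⟩ := x
      obtain ⟨b, t⟩ := y
      simp only [hA, hB, invRev]
      cases s <;> cases t <;> simp

theorem btCommon (A C : List (α × Bool)) :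
    ∃ P A' C', A = P ++ A' ∧ C = P ++ C' ∧ (A' = [] ∨ A'.head? ≠ C'.head?) := by
  induction A generalizing C with
  | nil => exact ⟨[], [], C, rfl, rfl, Or.inl rfl⟩
  | cons a A ih =>
    rcases C with _ | ⟨b, C⟩
    · exact ⟨[], a :: A, [], rfl, rfl, Or.inr (by simp)⟩
    · by_cases h : a = b
      · obtain ⟨P, A', C', h1, h2, h3⟩ := ih C
        exact ⟨a :: P, A', C', by rw [h1]; rfl, by rw [h2, h]; rfl, h3⟩
      · exact ⟨[], a :: A, b :: C, rfl, rfl, Or.inr (by simpa using h)⟩

theorem btMedian (p q r : FreeGroup α) : ∃ c, Bt p c q ∧ Bt q c r ∧ Bt p c r := by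
  obtain ⟨P, A', C', h1, h2, h3⟩ := btCommon (p⁻¹ * q).toWord (p⁻¹ * r).toWord
  have hP : IsReduced P := by
    have := isReduced_toWord (x := p⁻¹ * q)
    rw [h1] at this
    exact List.IsChain.left_of_append this
  have e : (p⁻¹ * (p * mk P)).toWord = P := by
    rw [inv_mul_cancel_left, toWord_mk, hP.reduce_eq]
  rw [← e] at h1 h2
  have k1 := btRest h1
  have k2 := btRest h2
  refine ⟨p * mk P, ?_, ?_, ?_⟩
  · unfold Bt
    rw [k1, h1]
  · rw [btDir]
    rcases h3 with h3 | h3
    · left
      rw [h3, toWord_eq_nil_iff, inv_mul_eq_one] at k1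
      exact k1.symm
    · right
      unfold dir
      rw [k1, k2]
      exact h3
  · unfold Bt
    rw [k2, h2]

theorem btTotal (p c c' q : FreeGroup α) (h : Bt p c q) (h' : Bt p c' q) :
    (Bt p c c' ∧ Bt c c' q) ∨ (Bt p c' c ∧ Bt c' c q) := by
  unfold Bt at *
  rw [h] at h'
  rcases List.append_eq_append_iff.1 h' with ⟨M, h1, h2⟩ | ⟨M, h1, h2⟩
  · left
    have k := btRest h1
    rw [k]
    exact ⟨h1, h2⟩
  · right
    have k := btRest h1
    rw [k]
    exact ⟨h1, h2⟩

theorem btTrans (p c c' q : FreeGroup α) (h : Bt p c c') (h' : Bt p c' q) :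
    Bt p c q ∧ Bt c c' q := by
  unfold Bt at *
  rw [h, List.append_assoc] at h'
  have k := btRest h'
  rw [k]
  exact ⟨h', rfl⟩

theorem btHead (c c' p : FreeGroup α) (h : Bt c c' p) (hn : c ≠ c') : dir c p = dir c c' := by
  unfold Bt at h
  unfold dir
  rw [h]
  have : (c⁻¹ * c').toWord ≠ [] := by
    rw [Ne, toWord_eq_nil_iff, inv_mul_eq_one]
    exact hn
  rcases hw : (c⁻¹ * c').toWord with _ | ⟨x, w⟩
  · exact absurd hw this
  · rfl

variable [Fintype α]

omit [DecidableEq α] in
theorem btIdx (l : α × Bool) :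
    (Fintype.equivFin (α × Bool) l : ℕ) < Fintype.card (α × Bool) + 2 := by
  have := (Fintype.equivFin (α × Bool) l).2
  omega

omit [DecidableEq α] in
theorem btSnoc (w : List (α × Bool)) (l : α × Bool) :
    sl (w ++ [l]) = sl w * (Fintype.card (α × Bool) + 2) + (Fintype.equivFin (α × Bool) l : ℕ) := by
  unfold sl
  rw [List.foldl_append]
  rfl

omit [DecidableEq α] in
theorem btApp (u w : List (α × Bool)) :
    sl (u ++ w) + (Fintype.card (α × Bool) + 2) ^ w.length =
      sl u * (Fintype.card (α × Bool) + 2) ^ w.length + sl w := by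
  induction w using List.reverseRecOn with
  | nil => simp [sl]
  | append_singleton w l ih =>
    rw [← List.append_assoc, btSnoc, btSnoc, List.length_append, List.length_singleton, pow_succ]
    generalize Fintype.card (α × Bool) + 2 = B at *
    generalize B ^ w.length = b at *
    have := congrArg (· * B) ih
    nlinarith [this]

omit [DecidableEq α] in
theorem btBounds (w : List (α × Bool)) :
    (Fintype.card (α × Bool) + 2) ^ w.length ≤ sl w ∧
      sl w < 2 * (Fintype.card (α × Bool) + 2) ^ w.length := by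
  induction w using List.reverseRecOn with
  | nil => simp [sl]
  | append_singleton w l ih =>
    rw [btSnoc, List.length_append, List.length_singleton, pow_succ]
    have hi := btIdx l
    generalize Fintype.card (α × Bool) + 2 = B at *
    generalize B ^ w.length = b at *
    generalize (Fintype.equivFin (α × Bool) l : ℕ) = i at *
    obtain ⟨h1, h2⟩ := ih
    have k1 := Nat.mul_le_mul_right B h1
    have k2 := Nat.mul_le_mul_right B (Nat.succ_le_of_lt h2)
    constructor
    · omega
    · rw [Nat.succ_mul] at k2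
      nlinarith [k2]

omit [DecidableEq α] in
theorem btInj (u v : List (α × Bool)) (h : sl u = sl v) : u = v := by
  have pos : ∀ w : List (α × Bool), 1 ≤ sl w := fun w =>
    le_trans (Nat.one_le_pow _ _ (by omega)) (btBounds w).1
  have one : sl ([] : List (α × Bool)) = 1 := rfl
  have big : ∀ (w : List (α × Bool)) (l : α × Bool), 2 ≤ sl (w ++ [l]) := fun w l => by
    rw [btSnoc]
    have := Nat.mul_le_mul_right (Fintype.card (α × Bool) + 2) (pos w)
    omega
  induction u using List.reverseRecOn generalizing v with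
  | nil =>
    rcases List.eq_nil_or_concat v with rfl | ⟨v, y, rfl⟩
    · rfl
    · rw [List.concat_eq_append] at h
      have := big v y
      omega
  | append_singleton u x ih =>
    rcases List.eq_nil_or_concat v with rfl | ⟨v, y, rfl⟩
    · have := big u x
      omega
    · rw [List.concat_eq_append] at *
      rw [btSnoc, btSnoc] at h
      have hx := btIdx x
      have hy := btIdx y
      have m := congrArg (· % (Fintype.card (α × Bool) + 2)) h
      simp only [Nat.mul_add_mod_self_right, Nat.mod_eq_of_lt hx, Nat.mod_eq_of_lt hy] at m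
      rw [m] at h
      have d := Nat.eq_of_mul_eq_mul_right (by omega) (Nat.add_right_cancel h)
      rw [ih v d, (Fintype.equivFin (α × Bool)).injective (Fin.ext m)]

theorem btHh (p q r c : FreeGroup α) (h : Bt r c p) (h' : Bt q c p) :
    Hh p r q ↔ sv (r⁻¹ * c) < sv (q⁻¹ * c) := by
  unfold Bt at *
  unfold Hh sv
  rw [h, h']
  have k1 := btApp (r⁻¹ * c).toWord (c⁻¹ * p).toWord
  have k2 := btApp (q⁻¹ * c).toWord (c⁻¹ * p).toWord
  have hb : 0 < (Fintype.card (α × Bool) + 2) ^ (c⁻¹ * p).toWord.length := by positivity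
  rw [← Nat.mul_lt_mul_right hb (b := sl (r⁻¹ * c).toWord)]
  omega

theorem btLe (p c q : FreeGroup α) (h : Bt p c q) : sv (p⁻¹ * c) ≤ sv (p⁻¹ * q) := by
  unfold Bt at h
  unfold sv
  rw [h]
  have k1 := btApp (p⁻¹ * c).toWord (c⁻¹ * q).toWord
  have k2 := (btBounds (c⁻¹ * q).toWord).1
  have hb : 0 < (Fintype.card (α × Bool) + 2) ^ (c⁻¹ * q).toWord.length := by positivity
  have := Nat.le_mul_of_pos_right (sl (p⁻¹ * c).toWord) hb
  omega

end

theorem btSt : BtSt := by
  intro α _ _
  refine ⟨btSymm, btMedian, btTotal, btTrans, btDir, btHead, btHh, btLe, ?_, ?_,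
    fun u w => ⟨btApp u w, btBounds w⟩⟩
  · intro u v h
    exact toWord_injective (btInj _ _ h)
  · intro w x y z c c' h1 h2 h3 h4 h5 h6 h7 h8
    have k1 := (btHh x y w c h2 h3).1 h7
    have k2 := (btHh z w y c' h6 h5).1 h8
    refine ⟨?_, ?_⟩
    · rintro rfl
      omega
    · rcases btTotal w c c' y h1 h4 with h | ⟨ha, hb⟩
      · exact h
      · have k3 := btLe w c' c ha
        have k4 := btLe y c c' (btSymm _ _ _ hb)
        omega

end Pool.Agent.MB
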