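import Pool.Agent.Lib.MP_c86c76_al.B.St

/-!
Certificates for the step from `n` to `n + 2` letters, their tests, the relators, and the
statements of the parts of the step.
-/

set_option autoImplicit false

namespace Pool.Agent.MB

open FreeGroup

/-- A diagram with two named sides. -/
structure Wit : Type where
  V : RW
  s : SA
  pa : ℕ × Bool
  pb : ℕ × Bool

/-- A type of pairs of arcs. -/
structure Ty : Type where
  g : RW
  x : Bool
  up : RW
  um : RW
  nat : List RW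
  wp : Wit
  wm : Wit

/-- A type of triples of arcs. -/
structure Fm : Type where
  k1 : RW
  o1 : Option (ℕ × Bool)
  k2 : RW
  o2 : Option (ℕ × Bool)
  k : RW
  o : Option (ℕ × Bool)
  kp : RW

/-- The certificate of a step. -/
structure Cert : Type where
  new : List SA
  bi : List RW
  bi2 : List RW
  rho : List ℕ
  Pw : List RW
  cj : List (List RW)
  s3 : List (RW × RW)
  tys : List Ty
  fam : List Fm
  Fam : List (List RW)
  h0 : RW × (ℕ × Bool)
  e2 : List SA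
  e3 : List SA

/-- The dual loops. -/
def dels (n : ℕ) (W : RW) : List RW := (List.range n).map fun i => del W (i, true)

/-- The substitution that kills the letter `n`. -/
def kl (n : ℕ) : List RW := (List.range n).map (fun i => [(i, true)]) ++ [[]]

/-- The rank of a letter. -/
def Cert.rk (C : Cert) (l : ℕ × Bool) : ℕ := C.rho.getD (2 * l.1 + cond l.2 1 0) 0

/-- The type with a given number. -/
def Cert.ty (C : Cert) (i : ℕ) : Ty :=
  C.tys.getD i ⟨[], true, [], [], [], ⟨[], ([], []), (0, true), (0, true)⟩,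
    ⟨[], ([], []), (0, true), (0, true)⟩⟩

/-- The word of a signed type. -/
def Cert.tyw (C : Cert) : Option (ℕ × Bool) → RW
  | none => []
  | some l => cond l.2 (C.ty l.1).g (iv (C.ty l.1).g)

/-- The number of a signed type is in range. -/
def Cert.okO (C : Cert) : Option (ℕ × Bool) → Bool
  | none => true
  | some l => Nat.blt l.1 C.tys.length

/-- The witness of a signed type. -/
def Cert.wit (C : Cert) (l : ℕ × Bool) : Wit := cond l.2 (C.ty l.1).wp (C.ty l.1).wm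

/-- The pushes and the twist. -/
def Cert.NW (C : Cert) (L0 : ℕ) : List RW := C.Pw ++ [[(L0, true)]]

/-- Generators of the stabiliser of a pair of arcs. -/
def Cert.gl (C : Cert) (n L0 : ℕ) (x : Bool) : List RW :=
  cond x ((List.range L0).map fun i => [(i, true)])
    (((List.range n).filter fun i => !(Nat.beq i (n - 2))).map (fun i => C.Pw.getD i []) ++
      [(L0, true)] :: (List.range (L0 - 1)).map fun i => [(i, true)])

/-- The order pattern of a witness. -/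
def Wit.sig (w : Wit) : Bool × Bool × Bool × Bool :=
  (ltV w.V w.pa w.pb, ltV w.V w.pa (bar w.pb), ltV w.V (bar w.pa) w.pb,
    ltV w.V (bar w.pa) (bar w.pb))

/-- The pattern of a crossing pair. -/
def crs (σ : Bool × Bool × Bool × Bool) : Bool := xor (xor σ.1 σ.2.2.1) (xor σ.2.1 σ.2.2.2)

/-- The test of a witness for the letter `a` and the word `y`. -/
def Wit.ok (w : Wit) (N : ℕ) (W : RW) (a : ℕ) (y : RW) : Bool :=
  okS N w.s && fullR N w.V && eqF (sub w.s.1 w.V) W && eqF (sub w.s.1 [w.pa]) [(a, true)] &&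
  eqF (sub w.s.1 [w.pb]) y && decide (w.pa ∈ w.V) && decide (w.pb ∈ w.V) &&
  (ltV w.V w.pa w.pb || ltV w.V w.pb w.pa) &&
  (ltV w.V w.pa (bar w.pb) || ltV w.V (bar w.pb) w.pa) &&
  (ltV w.V (bar w.pa) w.pb || ltV w.V w.pb (bar w.pa)) &&
  (ltV w.V (bar w.pa) (bar w.pb) || ltV w.V (bar w.pb) (bar w.pa))

/-- Naturality relators. -/
def natRel (g : RW) : List RW → List RW → List RW
  | [], _ => []
  | m :: ms, ws => (iv g ++ m ++ g ++ iv (ws.headD [])) :: natRel g ms ws.tail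

/-- Relators of the semidirect product. -/
def Cert.relS (C : Cert) (n L0 : ℕ) : List RW :=
  (List.range n).map (fun x =>
    [(L0, true)] ++ C.Pw.getD x [] ++ [(L0, false)] ++ iv (C.Pw.getD x [])) ++
  (List.range L0).flatMap (fun i => [true, false].flatMap fun s => (List.range (n + 1)).map fun m =>
    [(i, s)] ++ (C.NW L0).getD m [] ++ [(i, !s)] ++
      iv (sub (C.NW L0) ((C.cj.getD (2 * i + cond s 0 1) []).getD m []))) ++
  (List.range (C.new.length - 1)).map fun j =>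
    sub (C.NW L0) (C.s3.getD j ([], [])).1 ++ (C.s3.getD j ([], [])).2 ++ [(L0 + j, false)]

/-- Relators of the pairs of arcs. -/
def Cert.relN (C : Cert) (n L0 : ℕ) : List RW :=
  (List.range C.tys.length).flatMap fun i =>
    natRel (C.ty i).g (C.gl n L0 (C.ty i).x) (C.ty i).nat

/-- Relators of the triples of arcs. -/
def Cert.relF (C : Cert) : List RW := C.fam.map fun F =>
  F.k1 ++ C.tyw F.o1 ++ F.k ++ C.tyw F.o ++ F.kp ++ iv (F.k2 ++ C.tyw F.o2)

/-- All relators of the step. -/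
def Cert.rels (C : Cert) (n L0 : ℕ) : List RW := C.relS n L0 ++ C.relN n L0 ++ C.relF

/-- Tests of the words and generators. -/
def Cert.c0 (C : Cert) (n : ℕ) (W : RW) (Tl : List SA) : Bool :=
  fullR n W && fullR (n + 2) (hd n ++ W) && Tl.all (okS n) && (Tl ++ C.new).all (okS (n + 2)) &&
  Nat.ble 2 C.new.length && okS n (dels n W, C.bi) &&
  okS (n + 2) (dels (n + 2) (hd n ++ W), C.bi2) &&
  (((hd n ++ W).zip (hd n ++ W).tail).all fun q => Nat.blt (C.rk q.2) (C.rk (bar q.1))) &&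
  ((List.range (Tl ++ C.new).length).all fun i =>
    eqF (act (Tl ++ C.new) [(i, true)] (hd n ++ W)) (hd n ++ W)) &&
  (List.range ((Tl ++ C.new).length - 1)).all fun i =>
    eqF (act (Tl ++ C.new) [(i, true)] [(n, true)]) [(n, true)]

/-- Tests of the semidirect product. -/
def Cert.c1 (C : Cert) (n : ℕ) (W : RW) (Tl : List SA) : Bool :=
  Nat.beq C.Pw.length n && C.Pw.all (bd ((Tl ++ C.new).length - 1)) &&
  C.cj.all (fun l => l.all (bd (n + 1))) &&
  C.s3.all (fun q => bd (n + 1) q.1 && bd Tl.length q.2) &&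
  ((List.range n).all fun x =>
    eqF (sub (kl n) (act (Tl ++ C.new) (C.Pw.getD x []) [(n + 1, true)]))
      (iv (del W (x, true)) ++ [(n + 1, true)]) &&
    (List.range n).all fun y =>
      eqF (sub (kl n) (act (Tl ++ C.new) (C.Pw.getD x []) [(y, true)])) [(y, true)]) &&
  ((List.range n).all fun y => eqF (act (Tl ++ C.new) [(Tl.length, true)] [(y, true)]) [(y, true)]) &&
  eqF (act (Tl ++ C.new) [(Tl.length, true)] [(n + 1, true)]) [(n + 1, true), (n, true)]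

/-- Tests of the pairs of arcs. -/
def Cert.c2 (C : Cert) (n : ℕ) (W : RW) (Tl : List SA) : Bool :=
  ((List.range C.tys.length).all fun i =>
    bd (Tl ++ C.new).length (C.ty i).g && (C.ty i).nat.all (bd ((Tl ++ C.new).length - 1)) &&
    bd 2 (C.ty i).up && bd 2 (C.ty i).um && ((C.ty i).x || Nat.ble 2 n) &&
    eqF (sub [[(n, true)], act (Tl ++ C.new) (C.ty i).g [(n, true)]] (C.ty i).up)
      (cond (C.ty i).x [(n + 1, true)] [(n - 2, true)]) &&
    (!(C.ty i).x ||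
      eqF (sub [[(n, true)], act (Tl ++ C.new) (iv (C.ty i).g) [(n, true)]] (C.ty i).um)
        [(n + 1, true)])) &&
  ((sgn C.tys.length).all fun l =>
    (C.wit l).ok (n + 2) (hd n ++ W) n (act (Tl ++ C.new) (C.tyw (some l)) [(n, true)]) &&
    (!crs (C.wit l).sig || (C.ty l.1).x)) &&
  decide (((sgn C.tys.length).map fun l => (C.wit l).sig).Nodup) &&
  Nat.blt 0 C.tys.length && eqW (C.ty 0).g [((Tl ++ C.new).length - 1, true)] &&
  bd ((Tl ++ C.new).length - 1) C.h0.1 && C.okO (some C.h0.2) &&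
  hitW [[(n + 1, true)]] (act (Tl ++ C.new) (C.h0.1 ++ C.tyw (some C.h0.2)) [(n, true)]) &&
  (⟨hd n ++ W, ([], []), (n, true), (n + 1, true)⟩ : Wit).ok (n + 2) (hd n ++ W) n [(n + 1, true)] &&
  crs (⟨hd n ++ W, ([], []), (n, true), (n + 1, true)⟩ : Wit).sig

/-- Tests of the triples of arcs. -/
def Cert.c3 (C : Cert) (n : ℕ) (Tl : List SA) : Bool :=
  (C.fam.all fun F => C.okO F.o1 && C.okO F.o2 && C.okO F.o &&
    bd ((Tl ++ C.new).length - 1) F.k1 && bd ((Tl ++ C.new).length - 1) F.k2 &&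
    bd ((Tl ++ C.new).length - 1) F.k && bd ((Tl ++ C.new).length - 1) F.kp) &&
  Nat.beq C.Fam.length C.fam.length &&
  (C.Fam.zip C.fam).all fun q => q.1.all fun z => eqF z [(n, true)] ||
    eqF z (act (Tl ++ C.new) (q.2.k1 ++ C.tyw q.2.o1) [(n, true)]) ||
    eqF z (act (Tl ++ C.new) (q.2.k2 ++ C.tyw q.2.o2) [(n, true)])

/-- The signed types as pairs. -/
def Cert.TyS (C : Cert) {A : Type} [Group A] (n : ℕ) (Tl : List SA) (τ : ℕ → A) :
    Set (MulAut (FreeGroup (Fin (n + 2))) × A) :=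
  {p | ∃ o, C.okO o = true ∧ p = gw (TT (n + 2) (Tl ++ C.new) τ) (C.tyw o)}

/-- The order pattern of two arcs. -/
def Sg {α : Type} [DecidableEq α] (ρ : α × Bool → ℕ) (a y : FreeGroup α)
    (σ : Bool × Bool × Bool × Bool) : Prop :=
  ¬ Pm y a ∧ (Lo ρ a y ↔ σ.1 = true) ∧ (Lo ρ a y⁻¹ ↔ σ.2.1 = true) ∧
    (Lo ρ a⁻¹ y ↔ σ.2.2.1 = true) ∧ (Lo ρ a⁻¹ y⁻¹ ↔ σ.2.2.2 = true)

/-- Soundness of witnesses. -/
def WitSt : Prop := ∀ (N : ℕ) (c : Ctx (Fin N)) (W : RW) (a : ℕ) (y : RW) (w : Wit),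
  c.r = ev N W → w.ok N W a y = true →
  (∃ D, IsD c D ∧ io N a ∈ D ∧ ev N y ∈ D) ∧ Sg c.ρ (io N a) (ev N y) w.sig ∧
    (Cr c.ρ (io N a) (ev N y) ↔ crs w.sig = true)

/-- The base diagram and the basic facts of a step. -/
def Sp0St : Prop := ∀ (C : Cert) (n : ℕ) (W : RW) (Tl : List SA), C.c0 n W Tl = true →
  (∃ c : Ctx (Fin (n + 2)), c.W = fw (n + 2) (hd n ++ W)) ∧
  (∃ β : FreeGroup (Fin n) →* FreeGroup (Fin n), Function.Bijective β ∧
    ∀ x : Fin n, β (of x) = ev n (del W ((x : ℕ), true))) ∧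
  ∀ (A : Type) [Group A] (τ : ℕ → A),
    (∀ w u, (gw (TT (n + 2) (Tl ++ C.new) τ) w).1 (ev (n + 2) u) =
      ev (n + 2) (act (Tl ++ C.new) w u)) ∧
    (∀ w, triv (n + 2) (Tl ++ C.new) w = true → gw τ w = 1 →
      gw (TT (n + 2) (Tl ++ C.new) τ) w = 1) ∧
    (∀ i < Tl.length, exP n A (TT n Tl τ i) = TT (n + 2) (Tl ++ C.new) τ i) ∧
    (∀ p ∈ Gr (n + 2) (Tl ++ C.new) τ (Tl ++ C.new).length,
      p.1 (ev (n + 2) (hd n ++ W)) = ev (n + 2) (hd n ++ W)) ∧
    ∀ p ∈ Gr (n + 2) (Tl ++ C.new) τ ((Tl ++ C.new).length - 1),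
      p.1 (io (n + 2) n) = io (n + 2) n

/-- The stabiliser of the new letter: functionality and normal form. -/
def Sp1St : Prop := ∀ (C : Cert) (n : ℕ) (W : RW) (Tl : List SA) (A : Type) [Group A] (τ : ℕ → A)
  (β : FreeGroup (Fin n) →* FreeGroup (Fin n)), C.c0 n W Tl = true → C.c1 n W Tl = true →
  Function.Injective β → (∀ x : Fin n, β (of x) = ev n (del W ((x : ℕ), true))) →
  Func (Gr n Tl τ Tl.length) →
  (∀ w ∈ C.relS n Tl.length, gw (TT (n + 2) (Tl ++ C.new) τ) w = 1) →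
  Func (Gr (n + 2) (Tl ++ C.new) τ ((Tl ++ C.new).length - 1)) ∧
  ∀ p ∈ Gr (n + 2) (Tl ++ C.new) τ ((Tl ++ C.new).length - 1),
    ∃ (w : FreeGroup (Fin n)) (k : ℤ), ∃ q ∈ Gr n Tl τ Tl.length,
      p = FreeGroup.lift (fun x : Fin n => gw (TT (n + 2) (Tl ++ C.new) τ) (C.Pw.getD x [])) w *
        TT (n + 2) (Tl ++ C.new) τ Tl.length ^ k * exP n A q ∧
      kil n (p.1 (io (n + 2) (n + 1))) = (inc n (β w))⁻¹ * io (n + 2) (n + 1) ∧
      ∀ y, kil n (p.1 (inc n y)) = inc n (q.1 y)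

/-- The types of pairs of arcs: uniqueness, diagrams, crossing types, the first crossing arc. -/
def Sp2St : Prop := ∀ (C : Cert) (n : ℕ) (W : RW) (Tl : List SA) (A : Type) [Group A] (τ : ℕ → A)
  (c : Ctx (Fin (n + 2))), c.W = fw (n + 2) (hd n ++ W) → C.c0 n W Tl = true →
  C.c2 n W Tl = true → Onto (Gr n Tl τ Tl.length) (fun φ => φ (ev n W) = ev n W) →
  (∀ t ∈ C.TyS n Tl τ, t ∈ Gr (n + 2) (Tl ++ C.new) τ (Tl ++ C.new).length) ∧
  (∀ t ∈ C.TyS n Tl τ, ∀ t' ∈ C.TyS n Tl τ, ∀ φ : MulAut (FreeGroup (Fin (n + 2))),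
    φ c.r = c.r → φ (io (n + 2) n) = io (n + 2) n →
    φ (t.1 (io (n + 2) n)) = t'.1 (io (n + 2) n) → t = t') ∧
  (∀ t ∈ C.TyS n Tl τ, ∃ D, IsD c D ∧ io (n + 2) n ∈ D ∧ t.1 (io (n + 2) n) ∈ D) ∧
  (∀ t ∈ C.TyS n Tl τ, Cr c.ρ (io (n + 2) n) (t.1 (io (n + 2) n)) →
    ∀ φ : MulAut (FreeGroup (Fin (n + 2))), φ c.r = c.r → φ (io (n + 2) n) = io (n + 2) n →
    φ (t.1 (io (n + 2) n)) = t.1 (io (n + 2) n) →
    ∃ s, (φ, s) ∈ Gr (n + 2) (Tl ++ C.new) τ ((Tl ++ C.new).length - 1)) ∧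
  (∃ y ∈ c.D0, ∃ k ∈ Gr (n + 2) (Tl ++ C.new) τ ((Tl ++ C.new).length - 1), ∃ t ∈ C.TyS n Tl τ,
    Cr c.ρ (io (n + 2) n) y ∧ Pm y (k.1 (t.1 (io (n + 2) n)))) ∧
  Gr (n + 2) (Tl ++ C.new) τ ((Tl ++ C.new).length - 1) ⊔ Subgroup.closure (C.TyS n Tl τ) =
    Gr (n + 2) (Tl ++ C.new) τ (Tl ++ C.new).length

/-- Naturality. -/
def Sp3St : Prop := ∀ (C : Cert) (n : ℕ) (W : RW) (Tl : List SA) (A : Type) [Group A] (τ : ℕ → A)
  (c : Ctx (Fin (n + 2))), c.W = fw (n + 2) (hd n ++ W) → C.c0 n W Tl = true →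
  C.c1 n W Tl = true → C.c2 n W Tl = true → Lv n W Tl (n - 2) τ →
  (∀ w ∈ C.relS n Tl.length, gw (TT (n + 2) (Tl ++ C.new) τ) w = 1) →
  (∀ w ∈ C.relN n Tl.length, gw (TT (n + 2) (Tl ++ C.new) τ) w = 1) →
  Onto (Gr (n + 2) (Tl ++ C.new) τ ((Tl ++ C.new).length - 1))
    (fun φ => φ c.r = c.r ∧ φ (io (n + 2) n) = io (n + 2) n) →
  ∀ t ∈ C.TyS n Tl τ, ∀ k ∈ Gr (n + 2) (Tl ++ C.new) τ ((Tl ++ C.new).length - 1),
    k.1 (t.1 (io (n + 2) n)) = t.1 (io (n + 2) n) →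
    t⁻¹ * k * t ∈ Gr (n + 2) (Tl ++ C.new) τ ((Tl ++ C.new).length - 1)

/-- The listed families are flat triangles. -/
def Sp4St : Prop := ∀ (C : Cert) (n : ℕ) (W : RW) (Tl : List SA) (A : Type) [Group A] (τ : ℕ → A)
  (c : Ctx (Fin (n + 2))), c.W = fw (n + 2) (hd n ++ W) → C.c0 n W Tl = true →
  C.c2 n W Tl = true → C.c3 n Tl = true →
  (∀ w ∈ C.relF, gw (TT (n + 2) (Tl ++ C.new) τ) w = 1) → ∀ x y z, Hit c C.Fam x y z →
  Good c (io (n + 2) n)
    (RR (Gr (n + 2) (Tl ++ C.new) τ ((Tl ++ C.new).length - 1)) (C.TyS n Tl τ)) x y z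

/-- The step. -/
def StepSt : Prop := ∀ (C : Cert) (n : ℕ) (W : RW) (Tl : List SA) (A : Type) [Group A] (τ : ℕ → A),
  C.c0 n W Tl = true → C.c1 n W Tl = true → C.c2 n W Tl = true → C.c3 n Tl = true →
  (C.rels n Tl.length).all (triv (n + 2) (Tl ++ C.new)) = true →
  all2 (ok2 (n + 2) (hd n ++ W) C.Fam) (raws 2 (n + 2)) C.e2 = true →
  all2 (ok3 (n + 2) (hd n ++ W) C.Fam) (raws 3 (n + 2)) C.e3 = true →
  (∀ w ∈ C.rels n Tl.length, gw τ w = 1) → Lv n W Tl (n - 2) τ →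
  Lv (n + 2) (hd n ++ W) (Tl ++ C.new) n τ

/-- One word from a number. -/
def dwF : ℕ → ℕ → RW
  | 0, _ => []
  | f + 1, m => cond (Nat.ble m 1) [] ((m % 32 / 2, Nat.beq (m % 2) 1) :: dwF f (m / 32))

/-- The word with the given code. -/
def dw (m : ℕ) : RW := dwF 400 m

/-- The substitution pair with the given codes. -/
def ds (p : List ℕ × List ℕ) : SA := (p.1.map dw, p.2.map dw)

end Pool.Agent.MB
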