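import Pool.Agent.Lib.MP_c86c76_al.B.Defs

/-!
The boundary words and the Lickorish twists as substitutions. The generators are numbered
`a1, b1, a2, c1, b2, a3, c2, b3, a4, c3, b4`.
-/

set_option autoImplicit false

namespace Pool.Agent.MB

/-- The boundary word of genus `g`. -/
def rW : ℕ → RW
  | 0 => []
  | g + 1 => hd (2 * g) ++ rW g

/-- The new twists of genus 1. -/
def new1 : List SA :=
  [([[(0,true)],[(1,true),(0,true)]],
    [[(0,true)],[(1,true),(0,false)]]),
   ([[(0,true),(1,false)],[(1,true)]],
    [[(0,true),(1,true)],[(1,true)]])]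

/-- The new twists of genus 2. -/
def new2 : List SA :=
  [([[(0,true)],[(1,true)],[(2,true)],[(3,true),(2,true)]],
    [[(0,true)],[(1,true)],[(2,true)],[(3,true),(2,false)]]),
   ([[(0,false),(3,true),(2,true),(3,false),(0,true),(3,true),(2,false),(3,false),(0,true)],[(1,true),(3,true),(2,false),(3,false),(0,true)],[(2,true)],[(0,false),(3,true),(2,true)]],
    [[(3,true),(2,false),(3,false),(0,true),(3,true),(2,true),(3,false)],[(1,true),(0,false),(3,true),(2,true),(3,false)],[(2,true)],[(3,true),(2,false),(3,false),(0,true),(3,true)]]),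
   ([[(0,true)],[(1,true)],[(2,true),(3,false)],[(3,true)]],
    [[(0,true)],[(1,true)],[(2,true),(3,true)],[(3,true)]])]

/-- The new twists of genus 3. -/
def new3 : List SA :=
  [([[(0,true)],[(1,true)],[(2,true)],[(3,true)],[(4,true)],[(5,true),(4,true)]],
    [[(0,true)],[(1,true)],[(2,true)],[(3,true)],[(4,true)],[(5,true),(4,false)]]),
   ([[(0,true)],[(1,true)],[(2,false),(5,true),(4,true),(5,false),(2,true),(5,true),(4,false),(5,false),(2,true)],[(3,true),(5,true),(4,false),(5,false),(2,true)],[(4,true)],[(2,false),(5,true),(4,true)]],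
    [[(0,true)],[(1,true)],[(5,true),(4,false),(5,false),(2,true),(5,true),(4,true),(5,false)],[(3,true),(2,false),(5,true),(4,true),(5,false)],[(4,true)],[(5,true),(4,false),(5,false),(2,true),(5,true)]]),
   ([[(0,true)],[(1,true)],[(2,true)],[(3,true)],[(4,true),(5,false)],[(5,true)]],
    [[(0,true)],[(1,true)],[(2,true)],[(3,true)],[(4,true),(5,true)],[(5,true)]])]

/-- The new twists of genus 4. -/
def new4 : List SA :=
  [([[(0,true)],[(1,true)],[(2,true)],[(3,true)],[(4,true)],[(5,true)],[(6,true)],[(7,true),(6,true)]],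
    [[(0,true)],[(1,true)],[(2,true)],[(3,true)],[(4,true)],[(5,true)],[(6,true)],[(7,true),(6,false)]]),
   ([[(0,true)],[(1,true)],[(2,true)],[(3,true)],[(4,false),(7,true),(6,true),(7,false),(4,true),(7,true),(6,false),(7,false),(4,true)],[(5,true),(7,true),(6,false),(7,false),(4,true)],[(6,true)],[(4,false),(7,true),(6,true)]],
    [[(0,true)],[(1,true)],[(2,true)],[(3,true)],[(7,true),(6,false),(7,false),(4,true),(7,true),(6,true),(7,false)],[(5,true),(4,false),(7,true),(6,true),(7,false)],[(6,true)],[(7,true),(6,false),(7,false),(4,true),(7,true)]]),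
   ([[(0,true)],[(1,true)],[(2,true)],[(3,true)],[(4,true)],[(5,true)],[(6,true),(7,false)],[(7,true)]],
    [[(0,true)],[(1,true)],[(2,true)],[(3,true)],[(4,true)],[(5,true)],[(6,true),(7,true)],[(7,true)]])]

/-- The twists of genus 1. -/
def Tl1 : List SA := [] ++ new1

/-- The twists of genus 2. -/
def Tl2 : List SA := Tl1 ++ new2

/-- The twists of genus 3. -/
def Tl3 : List SA := Tl2 ++ new3

/-- The twists of genus 4. -/
def Tl4 : List SA := Tl3 ++ new4

end Pool.Agent.MB
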