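import Pool.Agent.Lib.MP_c86c76_al.B.Cert
import Pool.Agent.Lib.MP_c86c76_al.B.Gens

/-!
The certificate of genus 1.
-/

set_option autoImplicit false

namespace Pool.Agent.MB

/-- The tables of normal forms with two marked letters. -/
def e2c1 : List (List ℕ × List ℕ) :=
  [([33, 1027], [33, 1059])]

/-- The tables of normal forms with three marked letters. -/
def e3c1 : List (List ℕ × List ℕ) :=
  []

/-- The certificate. -/
def C1 : Cert where
  new := new1
  bi := [].map dw
  bi2 := [32865, 33652801].map dw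
  rho := [2, 4, 3, 1]
  Pw := [].map dw
  cj := ([] : List (List ℕ)).map (List.map dw)
  s3 := [(dw 33, dw 1)]
  tys := [⟨dw 35, true, dw 1058, dw 1120,
    [].map dw,
    ⟨dw 1114209, ds ([33, 1027], [33, 1059]), (0,true), (1,false)⟩,
    ⟨dw 1114209, ds ([1121, 32], [34, 1059]), (1,false), (0,true)⟩⟩]
  fam := [⟨dw 1, (some (0,true)), dw 32, (some (0,false)), dw 32, (some (0,false)), dw 32⟩,
    ⟨dw 1, (some (0,true)), dw 32, (some (0,true)), dw 33, (some (0,false)), dw 32⟩,
    ⟨dw 1, (some (0,true)), dw 33, (some (0,true)), dw 33, (some (0,true)), dw 32⟩]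
  Fam := ([[33, 1089, 32865],
    [33, 1089, 34849],
    [33, 1089, 34]] : List (List ℕ)).map (List.map dw)
  h0 := (dw 33, (0,true))
  e2 := e2c1.map ds
  e3 := e3c1.map ds

theorem C1_c0 : C1.c0 0 (rW 0) [] = true := by
  decide +kernel

theorem C1_c1 : C1.c1 0 (rW 0) [] = true := by
  decide +kernel

theorem C1_c2 : C1.c2 0 (rW 0) [] = true := by
  decide +kernel

theorem C1_c3 : C1.c3 0 [] = true := by
  decide +kernel

theorem C1_tr : (C1.rels 0 ([] : List SA).length).all (triv (0 + 2) ([] ++ C1.new)) = true := by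
  decide +kernel

theorem C1_t2 : all2 (ok2 (0 + 2) (hd 0 ++ rW 0) C1.Fam) (raws 2 (0 + 2)) C1.e2 = true := by
  decide +kernel

theorem C1_t3 : all2 (ok3 (0 + 2) (hd 0 ++ rW 0) C1.Fam) (raws 3 (0 + 2)) C1.e3 = true := by
  decide +kernel

end Pool.Agent.MB
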