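import Pool.Agent.Lib.MP_c86c76_al.B.Raw

/-!
Words as numbers: a fast test that words in substitutions act in the same way.
-/

set_option autoImplicit false

namespace Pool.Agent.MB.Fw

open FreeGroup hiding map_mul map_inv map_one

/-- The word with the given digits. -/
def dg : ℕ → ℕ → RW
  | 0, _ => []
  | k + 1, N => (N % 64 / 2, Nat.beq (N % 2) 1) :: dg k (N / 64)

theorem dg_len : ∀ k N, (dg k N).length = k
  | 0, _ => rfl
  | k + 1, N => by rw [dg, List.length_cons, dg_len k]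

theorem dg_add : ∀ p q N, dg (p + q) N = dg p N ++ dg q (N / 64 ^ p)
  | 0, q, N => by simp [dg]
  | p + 1, q, N => by
    rw [Nat.add_right_comm, dg, dg, dg_add p, Nat.div_div_eq_div_mul, pow_succ']
    rfl

theorem dg_mod : ∀ p N M, N % 64 ^ p = M % 64 ^ p → dg p N = dg p M
  | 0, _, _, _ => rfl
  | p + 1, N, M, h => by
    have e : N % 64 = M % 64 := by
      rw [← Nat.mod_mod_of_dvd N (dvd_pow_self 64 p.succ_ne_zero), h,
        Nat.mod_mod_of_dvd M (dvd_pow_self 64 p.succ_ne_zero)]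
    rw [dg, dg, e, show N % 2 = M % 2 by omega, dg_mod p (N / 64) (M / 64) (by
      rw [← Nat.mod_mul_right_div_self, ← Nat.mod_mul_right_div_self, ← pow_succ', h])]

theorem dg_cat (p q a b : ℕ) : dg (p + q) (a % 64 ^ p + b * 64 ^ p) = dg p a ++ dg q b := by
  have h : 0 < 64 ^ p := by positivity
  rw [dg_add, dg_mod p _ a (by simp), Nat.add_mul_div_right _ _ h,
    Nat.div_eq_of_lt (Nat.mod_lt _ h), zero_add]

/-- A word: the power of the base given by its length, its digits and the digits of its inverse. -/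
structure FW : Type where
  m : ℕ
  f : ℕ
  r : ℕ

/-- Evaluation first. -/
noncomputable def frc (x : ℕ) (K : ℕ → Bool) : Bool := Nat.rec (K 0) (fun n _ => K n.succ) x

theorem frc_eq (x : ℕ) (K : ℕ → Bool) : frc x K = K x := by cases x <;> rfl

/-- The product of two words. -/
noncomputable def mulK (m f r n g s : ℕ) (K : ℕ → ℕ → ℕ → Bool) : Bool :=
  let z := Nat.gcd (Nat.lor (Nat.xor r g) (Nat.lor m n)) m
  let P := Nat.div z (Nat.mod z 63)
  let A := Nat.div m P
  let B := Nat.div n P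
  frc (Nat.mul A B) fun l => frc (Nat.add (Nat.mod f A) (Nat.mul (Nat.div g P) A)) fun a =>
    frc (Nat.add (Nat.mod s B) (Nat.mul (Nat.div r P) B)) fun b => K l a b

theorem pow_split (r g m n : ℕ) {z : ℕ} 
    (h : z = Nat.gcd (Nat.lor (Nat.xor r g) (Nat.lor (64 ^ m) (64 ^ n))) (64 ^ m)) :
    ∃ k, Nat.div z (Nat.mod z 63) = 64 ^ k ∧ k ≤ m ∧ k ≤ n ∧ r % 64 ^ k = g % 64 ^ k := by
  have d : z ∣ 2 ^ (6 * m) := h ▸ pow_mul 2 6 m ▸ Nat.gcd_dvd_right _ _
  have e : z ∣ (r ^^^ g) ||| (64 ^ m ||| 64 ^ n) := h ▸ Nat.gcd_dvd_left _ _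
  clear h
  obtain ⟨c, hc, rfl⟩ := (Nat.dvd_prime_pow Nat.prime_two).1 d
  obtain ⟨k, j, hj, rfl⟩ : ∃ k j, j < 6 ∧ c = 6 * k + j := ⟨c / 6, c % 6, by omega, by omega⟩
  have e := Nat.mod_eq_zero_of_dvd ((pow_dvd_pow 2 (Nat.le_add_right _ j)).trans e)
  simp only [Nat.or_mod_two_pow, Nat.xor_mod_two_pow, Nat.or_eq_zero_iff, Nat.xor_eq_zero_iff] at e
  rw [pow_mul] at e
  refine ⟨k, ?_, by omega, (Nat.pow_dvd_pow_iff_le_right (by omega)).1
    (Nat.dvd_of_mod_eq_zero e.2.2), e.1⟩
  change _ / (_ % 63) = _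
  rw [pow_add, pow_mul, Nat.mul_mod, Nat.pow_mod]
  interval_cases j <;> simp

theorem iv_app (u v : RW) : iv (u ++ v) = iv v ++ iv u := by
  simp only [Raw_iv_eq, invRev_append]

theorem iv_len (u : RW) : (iv u).length = u.length := by rw [Raw_iv_eq, invRev_length]

section

variable {G : Type} [Group G] (T0 : ℕ → G)

/-- The triple stands for `x`. -/
def Val (M f r : ℕ) (x : G) : Prop :=
  ∃ m, M = 64 ^ m ∧ dg m r = iv (dg m f) ∧ gw T0 (dg m f) = x

variable {T0}

theorem Val.inv {m f r : ℕ} {x : G} (h : Val T0 m f r x) : Val T0 m r f x⁻¹ :=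
  h.imp fun _ ⟨e, a, b⟩ => ⟨e, by rw [a, Raw_iv_eq, Raw_iv_eq, invRev_invRev], by rw [a, Raw_iv, b]⟩

theorem mulK_ok {m f r n g s : ℕ} {x y : G} {K : ℕ → ℕ → ℕ → Bool} (hx : Val T0 m f r x)
    (hy : Val T0 n g s y) (h : mulK m f r n g s K = true) :
    ∃ l a b, Val T0 l a b (x * y) ∧ K l a b = true := by
  simp only [mulK, frc_eq] at h
  obtain ⟨m, rfl, a1, a2⟩ := hx
  obtain ⟨n, rfl, b1, b2⟩ := hy
  obtain ⟨k, e, h1, h2, h3⟩ := pow_split r g m n rfl
  obtain ⟨p, rfl⟩ := Nat.exists_eq_add_of_le h1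
  obtain ⟨q, rfl⟩ := Nat.exists_eq_add_of_le h2
  have d : ∀ j, Nat.div (64 ^ (k + j)) (64 ^ k) = 64 ^ j := fun j =>
    (Nat.pow_div (by omega) (by omega)).trans (by rw [Nat.add_sub_cancel_left])
  rw [e, d, d] at h
  rw [dg_add k p r, add_comm k p, dg_add p k f, iv_app] at a1
  rw [dg_add k q g, iv_app, add_comm k q, dg_add q k s] at b1
  obtain ⟨a3, a4⟩ := List.append_inj a1 (by rw [iv_len, dg_len, dg_len])
  obtain ⟨b3, -⟩ := List.append_inj b1 (by rw [iv_len, dg_len, dg_len])
  refine ⟨_, _, _, ⟨p + q, (pow_add _ _ _).symm, ?_, ?_⟩, h⟩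
  · exact (add_comm p q ▸ dg_cat q p s _).trans (by
      rw [b3]; exact (congrArg _ a4).trans ((iv_app _ _).symm.trans (congrArg iv
        (dg_cat p q f _).symm)))
  · refine (congrArg _ (dg_cat p q f _)).trans ?_
    rw [← a2, ← b2, add_comm k p, dg_add p k f, dg_add k q g, ← dg_mod k r g h3, a3]
    simp only [Raw_append, Raw_iv, mul_assoc, mul_inv_cancel_left]
    rfl

/-- The image of a signed letter. -/
noncomputable def nthK (φ : List FW) (l : ℕ × Bool) (K : ℕ → ℕ → ℕ → Bool) : Bool :=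
  List.rec (motive := fun _ => ℕ → Bool) (fun _ => false) (fun h _ ih i => Nat.rec
    (FW.rec (fun m f r => Bool.rec (K m r f) (K m f r) l.2) h) (fun j _ => ih j) i) φ l.1

/-- The image of a word. -/
noncomputable def prodK (φ : List FW) (w : RW) (K : ℕ → ℕ → ℕ → Bool) : Bool :=
  List.rec (K 1 0 0) (fun l t _ =>
    List.rec (motive := fun _ => ℕ × Bool → (ℕ → ℕ → ℕ → Bool) → Bool) (nthK φ)
      (fun u _ ih l K => ih u fun n g s => nthK φ l fun m f r => mulK m f r n g s K) t l K) w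

/-- The new images of the letters. -/
noncomputable def stK (φ : List FW) (S : List (Option RW)) (ψ : List FW) (K : List FW → Bool) :
    Bool :=
  List.rec (motive := fun _ => List FW → (List FW → Bool) → Bool) (fun t K => K t)
    (fun o _ ih t K => List.rec (K []) (fun x t _ => Option.rec (ih t fun L => K (x :: L))
      (fun w => prodK φ w fun m f r => ih t fun L => K (⟨m, f, r⟩ :: L)) o) t) S ψ K

/-- The letters that move under a generator, with their images. -/
def mvT (Tl : List SA) (i : ℕ) (b : Bool) : List (Option RW) :=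
  (cond b (Tl.getD i ([], [])).1 (Tl.getD i ([], [])).2).zipIdx.map fun p =>
    cond (eqW p.1 [(p.2, true)]) none (some p.1)

/-- The images of the letters under a word. -/
noncomputable def runK (Tl : List SA) (w : RW) (φ : List FW) (K : List FW → Bool) : Bool :=
  List.rec (motive := fun _ => List FW → Bool) K (fun l _ ih φ => frc l.1 fun i =>
    Bool.rec (stK φ (mvT Tl i false) φ ih) (stK φ (mvT Tl i true) φ ih) l.2) w φ

variable (T0) in
/-- The list stands for `T`. -/
def Iv (φ : List FW) (T : ℕ → G) : Prop := ∀ i x, φ[i]? = some x → Val T0 x.m x.f x.r (T i)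

variable {φ : List FW} {T : ℕ → G}

theorem nthK_ok (h : Iv T0 φ T) {l : ℕ × Bool} {K : ℕ → ℕ → ℕ → Bool} (e : nthK φ l K = true) :
    ∃ m f r, Val T0 m f r (gw T [l]) ∧ K m f r = true := by
  obtain ⟨i, b⟩ := l
  obtain ⟨x, h1, h2⟩ : ∃ x, φ[i]? = some x ∧
      Bool.rec (motive := fun _ => Bool) (K x.m x.r x.f) (K x.m x.f x.r) b = true := by
    clear h
    induction φ generalizing i with
    | nil => exact absurd e Bool.false_ne_true
    | cons y t ih =>
      cases i with
      | zero => exact ⟨y, rfl, e⟩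
      | succ j => exact ih j e
  cases b
  · exact ⟨_, _, _, Raw_neg T i ▸ (h i x h1).inv, h2⟩
  · exact ⟨_, _, _, Raw_pos T i ▸ h i x h1, h2⟩

theorem prodK_ok (h : Iv T0 φ T) {w : RW} {K : ℕ → ℕ → ℕ → Bool} (e : prodK φ w K = true) :
    ∃ m f r, Val T0 m f r (gw T w) ∧ K m f r = true := by
  rcases w with _ | ⟨l, t⟩
  · exact ⟨1, 0, 0, ⟨0, rfl, rfl, (Raw_nil _).trans (Raw_nil _).symm⟩, e⟩
  induction t generalizing l K with
  | nil => exact nthK_ok h e
  | cons u t ih =>
    obtain ⟨n, g, s, a, e⟩ := ih u (K := fun n g s => nthK φ l fun m f r => mulK m f r n g s K) e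
    obtain ⟨m, f, r, b, e⟩ := nthK_ok h e
    rw [← List.singleton_append, Raw_append]
    exact mulK_ok b a e

theorem stK_ok (h : Iv T0 φ T) {S : List (Option RW)} {ψ : List FW} {U : ℕ → G} (a : Iv T0 ψ U)
    {K : List FW → Bool} (e : stK φ S ψ K = true) :
    ∃ L, Iv T0 L (fun i => (S.getD i none).elim (U i) (gw T)) ∧ K L = true := by
  induction S generalizing K ψ U with
  | nil => exact ⟨ψ, a, e⟩
  | cons o S ih =>
    rcases ψ with _ | ⟨x, t⟩
    · exact ⟨[], fun _ _ k => by simp at k, e⟩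
    have ih := fun K => ih (ψ := t) (K := K) (U := fun i => U (i + 1)) fun i y k => a (i + 1) y k
    rcases o with _ | w
    · obtain ⟨L, b, e⟩ := ih (fun L => K (x :: L)) e
      exact ⟨_, fun i y k => by cases i; exacts [a 0 y k, b _ y k], e⟩
    · obtain ⟨m, f, r, c, e⟩ := prodK_ok h (w := w)
        (K := fun m f r => stK φ S t fun L => K (⟨m, f, r⟩ :: L)) e
      obtain ⟨L, b, e⟩ := ih _ e
      exact ⟨_, fun i y k => by cases i; exacts [Option.some.inj k ▸ c, b _ y k], e⟩

theorem runK_ok {Tl : List SA} {w : RW} {K : List FW → Bool} (h : Iv T0 φ T)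
    (e : runK Tl w φ K = true) :
    ∃ L, Iv T0 L (fun i => gw T (act Tl w [(i, true)])) ∧ K L = true := by
  induction w generalizing φ T with
  | nil => exact ⟨φ, fun i x k => Eq.mpr (congrArg _ (Raw_pos T i)) (h i x k), e⟩
  | cons l t ih =>
    have e' : stK φ (mvT Tl l.1 l.2) φ (fun ψ => runK Tl t ψ K) = true := by
      have := (frc_eq l.1 fun i => Bool.rec (motive := fun _ => Bool)
        (stK φ (mvT Tl i false) φ fun ψ => runK Tl t ψ K)
        (stK φ (mvT Tl i true) φ fun ψ => runK Tl t ψ K) l.2).symm.trans e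
      obtain ⟨i, _ | _⟩ := l <;> exact this
    obtain ⟨L, a, e⟩ := stK_ok h h e'
    have k : ∀ (s : List RW) i, ((s.zipIdx.map fun p => cond (eqW p.1 [(p.2, true)]) none
        (some p.1)).getD i none).elim (T i) (gw T) = gw T (s.getD i [(i, true)]) := fun s i => by
      simp only [List.getD_eq_getElem?_getD, List.getElem?_map, List.getElem?_zipIdx]
      rcases s[i]? with _ | w
      · exact (Raw_pos T i).symm
      · simp only [Option.map_some, Option.getD_some, zero_add]
        cases c : eqW w [(i, true)]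
        · rfl
        · exact Raw_eqW _ _ c ▸ (Raw_pos T i).symm
    simp only [mvT, k] at a
    obtain ⟨M, b, e⟩ := ih a e
    refine ⟨M, fun i x k => ?_, e⟩
    have := b i x k
    beta_reduce at this
    rwa [← Raw_sub, ← Raw_rd] at this

end

/-- The letters. -/
def idF (n : ℕ) : List FW := (List.range n).map fun i => ⟨64, 2 * i + 1, 2 * i⟩

theorem idF_ok {G : Type} [Group G] (T : ℕ → G) {n : ℕ} (h : n ≤ 32) : Iv T (idF n) T := by
  intro i x k
  simp only [idF, List.getElem?_map, Option.map_eq_some_iff] at k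
  obtain ⟨j, c, rfl⟩ := k
  obtain ⟨d, rfl⟩ := List.getElem?_eq_some_iff.1 c
  rw [List.length_range] at d
  refine ⟨1, rfl, ?_⟩
  simp only [List.getElem_range, dg, show (2 * i + 1) % 64 / 2 = i by omega,
    show 2 * i % 64 / 2 = i by omega, show (2 * i + 1) % 2 = 1 by omega,
    show 2 * i % 2 = 0 by omega]
  exact ⟨rfl, Raw_pos T i⟩

theorem rd_eq (u : RW) : rd u = reduce u := by
  induction u with
  | nil => rfl
  | cons l t ih =>
    rw [reduce.cons, ← ih, show rd (l :: t) = rd1 l (rd t) from rfl]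
    rcases rd t with _ | ⟨v, s⟩
    · rfl
    · obtain ⟨i, b⟩ := l
      obtain ⟨j, c⟩ := v
      by_cases h : i = j
      · cases b <;> cases c <;> simp [rd1, h]
      · simp [rd1, h, Bool.eq_false_iff.2 (mt Nat.beq_eq.mp h)]

theorem eqF_of {u v : RW} (h : gw of u = gw of v) : eqF u v = true := by
  simp only [gw, lift_of_eq_id, MonoidHom.id_apply] at h
  rw [eqF, rd_eq, rd_eq, reduce.sound h, Raw_eqW_refl]

/-- The two words act in the same way on the first `n` letters. -/
noncomputable def sameK (n : ℕ) (Tl : List SA) (u v : RW) : Bool :=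
  runK Tl u (idF n) fun φ => runK Tl v (idF n) fun ψ => (List.range n).all fun i =>
    nthK φ (i, true) fun m f _ => nthK ψ (i, true) fun l g _ => Nat.beq m l && Nat.beq f g

theorem sameK_ok {n : ℕ} (h : n ≤ 32) {Tl : List SA} {u v : RW} (e : sameK n Tl u v = true) :
    ((List.range n).all fun i => eqF (act Tl u [(i, true)]) (act Tl v [(i, true)])) = true := by
  obtain ⟨φ, a, e⟩ := runK_ok (idF_ok of h) e
  obtain ⟨ψ, b, e⟩ := runK_ok (idF_ok of h) e
  refine List.all_eq_true.2 fun i k => ?_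
  obtain ⟨m, f, _, c, e⟩ := nthK_ok a (List.all_eq_true.1 e i k)
  obtain ⟨l, g, _, d, e⟩ := nthK_ok b e
  simp only [Bool.and_eq_true, Nat.beq_eq] at e
  obtain ⟨_, rfl, -, c⟩ := c
  obtain ⟨_, rfl, -, d⟩ := d
  rw [Raw_pos] at c d
  exact eqF_of (c.symm.trans (Nat.pow_right_injective (by omega) e.1 ▸ e.2 ▸ d))

theorem trivK {n : ℕ} (h : n ≤ 32) {Tl : List SA} {R : List RW}
    (e : (R.all fun w => sameK n Tl w []) = true) : R.all (triv n Tl) = true :=
  List.all_eq_true.2 fun w k => sameK_ok h (List.all_eq_true.1 e w k)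

end Pool.Agent.MB.Fw
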