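import Pool.Agent.Lib.MP_c86c76_al.B.Cert
import Pool.Agent.Lib.MP_c86c76_al.B.Gens
import Pool.Agent.Lib.MP_c86c76_al.B.Fast

/-!
The certificate of genus 2.
-/

set_option autoImplicit false

namespace Pool.Agent.MB

/-- The tables of normal forms with two marked letters. -/
def e2c2 : List (List ℕ × List ℕ) :=
  [([1061, 37, 1248, 35], [1058, 39, 35, 37922]),
   ([37, 1159, 33, 35], [37, 39, 33, 1059]),
   ([1061, 36, 1175654624, 1248], [1059, 1218631, 34, 39971]),
   ([1061, 37, 1248, 1155], [1058, 1127, 35, 37922]),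
   ([37, 33, 1175654624, 1248], [35, 1218599, 33, 1251]),
   ([1061, 36, 38756618464, 1248], [1059, 35821639, 34, 39971]),
   ([37, 33, 1248, 35], [35, 39, 33, 1187])]

/-- The tables of normal forms with three marked letters. -/
def e3c2 : List (List ℕ × List ℕ) :=
  [([1061, 37, 39938, 1059], [1058, 35847, 35, 1244666914]),
   ([1253, 36, 33, 35], [37, 39, 34, 1059]),
   ([1061, 35878, 37, 40896547], [1060, 1212519, 37, 36675099684]),
   ([37, 33, 35878, 1248], [35, 1191, 33, 1251]),
   ([37, 40933511, 1221, 1251], [1241617444, 37895, 33, 1060]),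
   ([37, 1159, 37980357, 37981219], [1146325155, 34947, 33, 1059]),
   ([37, 40933511, 1221, 40016899], [1241617444, 1212519, 33, 1060]),
   ([37, 33, 39938, 1059], [35, 1095, 33, 1214691]),
   ([1061, 36, 35878, 1248856099], [1059, 35656807, 34, 1239103413283]),
   ([37, 1215338631, 1221, 1251], [38900772, 37895, 33, 1060]),
   ([37, 1159, 40006, 1281059], [37389001036835, 35655715, 33, 1059]),
   ([37, 33, 39938, 35], [35, 39, 33, 38115]),
   ([37, 33, 1248, 35], [35, 39, 33, 1187]),
   ([1061, 39938, 36, 35], [1061, 39, 36, 1154085]),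
   ([37, 1159, 1186854, 39939], [1119267, 34983, 33, 1059]),
   ([1061, 37, 39938, 1155], [1058, 1127, 35, 38902818]),
   ([37, 33, 35878, 37088], [35, 37927, 33, 34019]),
   ([37, 1215338631, 1221, 37091], [38900772, 1191, 33, 1060]),
   ([37, 1159, 1186854, 37091], [1119267, 1095, 33, 1059]),
   ([37, 33, 35, 39903561763], [35, 37, 33, 34367211683]),
   ([37, 1215338631, 1221, 40016899], [38900772, 37991, 33, 1060])]

/-- The certificate. -/
def C2 : Cert where
  new := new2
  bi := [32865, 33652801].map dw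
  bi2 := [40784391069470917, 41763216453893591237, 37093, 37982405].map dw
  rho := [2, 4, 3, 1, 6, 8, 7, 5]
  Pw := [1110639680, 1232590318141442].map dw
  cj := ([[1089, 35, 37],
    [1121, 35, 37],
    [33, 1121, 37],
    [33, 1120, 37]] : List (List ℕ)).map (List.map dw)
  s3 := [(dw 37, dw 1), (dw 32865, dw 33)]
  tys := [⟨dw 41, true, dw 1058, dw 1120,
    [33, 35].map dw,
    ⟨dw 1168333017317, ds ([33, 35, 37, 1159], [33, 35, 37, 1191]), (2,true), (3,false)⟩,
    ⟨dw 1168333017317, ds ([33, 35, 1253, 36], [33, 35, 38, 1191]), (3,false), (2,true)⟩⟩,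
    ⟨dw 1414362405890, false, dw 35, dw 1,
    [1184, 39, 37].map dw,
    ⟨dw 1168333017317, ds ([33, 35, 37, 39], [33, 35, 37, 39]), (2,true), (0,true)⟩,
    ⟨dw 1168333017317, ds ([37, 1251, 1209209061, 36965], [1166822423495872, 34016, 33,
    1148096]), (0,true), (2,true)⟩⟩,
    ⟨dw 1350792, false, dw 1120, dw 1,
    [1333278795030921218, 39, 33].map dw,
    ⟨dw 1310202167393, ds ([1061, 35, 37, 40896547], [1060, 35, 37, 41948285988]), (2,true),
    (0,true)⟩,
    ⟨dw 1310202167393, ds ([37, 1219587, 1219590, 1280035], [1226249245069218819, 36545075331,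
    33, 40965123]), (0,true), (2,true)⟩⟩]
  fam := [⟨dw 1, (some (2,true)), dw 1, (some (1,true)), dw 1148131, (some (2,false)), dw 1147106⟩,
    ⟨dw 1, (some (0,true)), dw 36, (some (0,false)), dw 36, (some (0,false)), dw 36⟩,
    ⟨dw 1, (some (0,true)), dw 36, (some (0,true)), dw 37, (some (0,false)), dw 36⟩,
    ⟨dw 1, (some (0,true)), dw 37, (some (0,true)), dw 37, (some (0,true)), dw 36⟩,
    ⟨dw 1, (some (2,true)), dw 1154050, (some (1,false)), dw 1120258, (some (2,false)), dw 1⟩,
    ⟨dw 1, (some (1,true)), dw 1, (some (2,true)), dw 1148098, (some (2,true)), dw 1114306⟩,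
    ⟨dw 1, (some (2,true)), dw 1250, (some (0,true)), dw 35, (some (2,false)), dw 1250⟩,
    ⟨dw 1, (some (1,true)), dw 1, (some (0,false)), dw 34, (some (1,false)), dw 1⟩,
    ⟨dw 1, (some (1,true)), dw 1250, (some (0,true)), dw 1, (some (0,false)), dw 1180742⟩,
    ⟨dw 1, (some (0,true)), dw 1190, (some (0,true)), dw 1, (some (2,false)), dw 1⟩,
    ⟨dw 1, (some (0,true)), dw 36934, (some (2,false)), dw 1127, (some (1,false)), dw 1026⟩,
    ⟨dw 1, (some (0,true)), dw 38, (some (0,true)), dw 39, (some (0,false)), dw 38⟩,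
    ⟨dw 1, (some (0,true)), dw 1094, (some (2,false)), dw 1094, (some (2,false)), dw 34⟩,
    ⟨dw 1, (some (1,true)), dw 39, (some (0,true)), dw 1121, (some (2,true)), dw 1114306⟩,
    ⟨dw 1, (some (0,true)), dw 36, (some (2,false)), dw 1159, (some (0,false)), dw 38⟩,
    ⟨dw 1, (some (1,true)), dw 1121, (some (1,true)), dw 40033, (some (0,true)), dw 1050790⟩]
  Fam := ([[37, 1061, 33],
    [37, 1221, 37093],
    [37, 1221, 39077],
    [37, 1221, 38],
    [37, 1061, 36901],
    [37, 33, 1061],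
    [37, 1061, 35878],
    [37, 33, 1253],
    [37, 33, 35878],
    [37, 1221, 40016902],
    [37, 1221, 37980357],
    [37, 1221, 1280540869],
    [37, 1221, 40006],
    [37, 33, 1062],
    [37, 1221, 1278149],
    [37, 33, 34]] : List (List ℕ)).map (List.map dw)
  h0 := (dw 37, (0,true))
  e2 := e2c2.map ds
  e3 := e3c2.map ds

theorem C2_c0 : C2.c0 2 (rW 1) Tl1 = true := by
  decide +kernel

theorem C2_c1 : C2.c1 2 (rW 1) Tl1 = true := by
  decide +kernel

theorem C2_c2 : C2.c2 2 (rW 1) Tl1 = true := by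
  decide +kernel

theorem C2_c3 : C2.c3 2 Tl1 = true := by
  decide +kernel

theorem C2_tr : (C2.rels 2 (Tl1 : List SA).length).all (triv (2 + 2) (Tl1 ++ C2.new)) = true :=
  Fw.trivK (by omega) (by decide +kernel)

theorem C2_t2 : all2 (ok2 (2 + 2) (hd 2 ++ rW 1) C2.Fam) (raws 2 (2 + 2)) C2.e2 = true := by
  decide +kernel

theorem C2_t3 : all2 (ok3 (2 + 2) (hd 2 ++ rW 1) C2.Fam) (raws 3 (2 + 2)) C2.e3 = true := by
  decide +kernel

end Pool.Agent.MB
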