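import Pool.Agent.Lib.MP_c86c76_al.B.Dat5

/-!
The normal forms with three marked letters in genus five.
-/

set_option autoImplicit false

namespace Pool.Agent.MB

theorem C5_t3 : all2 (ok3 (8 + 2) (hd 8 ++ rW 4) C5.Fam) (raws 3 (8 + 2)) C5.e3 = true := by
  decide +kernel

end Pool.Agent.MB
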