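import Pool.Agent.Lib.MP_c86c76_al.B.Dat5
import Pool.Agent.Lib.MP_c86c76_al.B.Fast

/-!
The relators of genus five act trivially.
-/

set_option autoImplicit false

namespace Pool.Agent.MB

theorem C5_trS : (C5.relS 8 Tl4.length).all (triv (8 + 2) (Tl4 ++ C5.new)) = true :=
  Fw.trivK (by omega) (by decide +kernel)

theorem C5_trN : (C5.relN 8 Tl4.length).all (triv (8 + 2) (Tl4 ++ C5.new)) = true :=
  Fw.trivK (by omega) (by decide +kernel)

theorem C5_trF : (C5.relF).all (triv (8 + 2) (Tl4 ++ C5.new)) = true :=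
  Fw.trivK (by omega) (by decide +kernel)

theorem C5_tr : (C5.rels 8 Tl4.length).all (triv (8 + 2) (Tl4 ++ C5.new)) = true := by
  rw [Cert.rels, List.all_append, List.all_append, C5_trS, C5_trN, C5_trF]
  rfl

end Pool.Agent.MB
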