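import Pool.Agent.Lib.MP_c86c76_al.B.St

/-! From the stabiliser of the boundary word to the stabiliser of its conjugacy class. -/

set_option autoImplicit false

namespace Pool.Agent.MB

theorem fin_uniq {F A : Type} [Group F] [Group A] {Γ : Subgroup (MulAut F × A)} {r : F}
    (hc : ∀ w, Commute w r → w ∈ Subgroup.zpowers r) (hr : ∀ p ∈ Γ, p.1 r = r) (hF : Func Γ)
    (h1 : (MulAut.conj r, (1 : A)) ∈ Γ) {f : MulAut F} {w w' : F} {s s' : A}
    (h : (MulAut.conj w * f, s) ∈ Γ) (h' : (MulAut.conj w' * f, s') ∈ Γ) : s = s' := by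
  have h2 : (MulAut.conj (w * w'⁻¹), s * s'⁻¹) ∈ Γ := by
    have := Γ.mul_mem h (Γ.inv_mem h')
    simpa [mul_assoc] using this
  have h3 : Commute (w * w'⁻¹) r := by
    have := hr _ h2
    rw [MulAut.conj_apply] at this
    exact mul_inv_eq_iff_eq_mul.1 this
  obtain ⟨k, hk⟩ := Subgroup.mem_zpowers_iff.1 (hc _ h3)
  have h4 := Γ.mul_mem (Γ.inv_mem (Γ.zpow_mem h1 k)) h2
  rw [← hk, map_zpow] at h4
  exact mul_inv_eq_one.1 (hF _ (by simpa using h4))

theorem fin_mul {F : Type} [Group F] (f g : MulAut F) (w w' : F) :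
    MulAut.conj w * f * (MulAut.conj w' * g) = MulAut.conj (w * f w') * (f * g) := by
  ext x
  simp [mul_assoc]

theorem finSt : FinSt := by
  intro F A _ _ Γ r0 ω C hC hc hr hF hO h1
  have ex : ∀ φ : C, ∃ (s : A) (w : F),
      (MulAut.conj w * (ω * (φ : MulAut F) * ω⁻¹), s) ∈ Γ := fun φ => by
    obtain ⟨c, e⟩ := isConj_iff.1 ((hC φ).1 φ.2)
    obtain ⟨s, hs⟩ := hO (MulAut.conj (ω c) * (ω * (φ : MulAut F) * ω⁻¹)) (by
      have := congrArg ω e
      simpa using this)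
    exact ⟨s, _, hs⟩
  choose s w hw using ex
  refine ⟨MonoidHom.mk' s fun φ ψ => ?_, fun φ w' s' h => fin_uniq hc hr hF h1 (hw φ) h⟩
  have h2 := Γ.mul_mem (hw φ) (hw ψ)
  rw [Prod.mk_mul_mk, fin_mul] at h2
  have e : ω * (φ : MulAut F) * ω⁻¹ * (ω * (ψ : MulAut F) * ω⁻¹) =
      ω * ((φ * ψ : C) : MulAut F) * ω⁻¹ := by
    rw [Subgroup.coe_mul]; group
  rw [e] at h2
  exact fin_uniq hc hr hF h1 (hw (φ * ψ)) h2

end Pool.Agent.MB
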