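import Pool.Agent.Lib.MP_c86c76_al.B.Glue
import Pool.Agent.Lib.MP_c86c76_al.B.Gens
import Pool.Agent.Lib.MP_c86c76_al.B.Ess
import Pool.Agent.Lib.MP_c86c76_al.B.Dia

/-!
The rotation and the twist of the polygon as words in the Lickorish twists, genus three and four.
-/

set_option autoImplicit false

namespace Pool.Agent.MB

open Pool.Agent.MCG

/-- A power of a raw word. -/
def pw (n : ℕ) (w : RW) : RW := (List.replicate n w).flatten

theorem gw_pw {G : Type} [Group G] (T : ℕ → G) (n : ℕ) (w : RW) : gw T (pw n w) = gw T w ^ n := by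
  induction n with
  | zero => exact (Raw_nil T).trans (pow_zero _).symm
  | succ n ih => rw [pow_succ', ← ih, ← Raw_append]; rfl

/-- The commutator of a power of `u` with `v`. -/
def cmw (n : ℕ) (u v : RW) : RW := pw n u ++ v ++ iv (pw n u) ++ iv v

theorem gw_cmw {G : Type} [Group G] (T : ℕ → G) (n : ℕ) (u v : RW) (h : gw T (cmw n u v) = 1) :
    Commute (gw T u ^ n) (gw T v) := by
  rw [cmw, Raw_append, Raw_append, Raw_append, Raw_iv, Raw_iv, gw_pw] at h
  exact commutatorElement_eq_one_iff_commute.1 h

/-- The negated form of property (T) for the subgroups of the extended mapping class group that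
meet the mapping class group in a subgroup of finite index. -/
def NoT (g : ℕ) : Prop := ∀ (Γ : Subgroup (ModPM (Surf g))), Γ.relIndex (ModP (Surf g)) ≠ 0 →
  ∀ (S : Finset Γ) (ε : ℝ), 0 < ε →
    ∃ (H : Type) (_ : NormedAddCommGroup H) (_ : InnerProductSpace ℂ H) (_ : CompleteSpace H)
      (π : Γ →* (H ≃ₗᵢ[ℂ] H)) (v : H), ‖v‖ = 1 ∧ (∀ s ∈ S, ‖π s v - v‖ < ε) ∧
      ∀ w : H, (∀ x, π x w = w) → w = 0

/-- The value of `w` has a non-trivial image in the integers under a virtual homomorphism. -/
def Hol {A : Type} [Group A] (τ : ℕ → A) (w : RW) : Prop :=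
  ∃ K : Subgroup A, K.FiniteIndex ∧ ∃ (χ : K →* Multiplicative ℤ) (γ : K),
    χ γ ≠ 1 ∧ γ.1 = gw τ w

/-- The change of basis. -/
def om3 : SA :=
  ([[(5,false),(3,false),(0,true),(1,false),(0,false),(3,true),(2,true),(3,false),(2,false),(5,true),(4,true),(5,false)],
    [(5,true),(4,false),(5,false),(2,true),(3,true),(2,false),(3,false),(0,true),(1,true),(0,true),(1,false),(0,false),(3,true),(2,true),(3,false),(2,false),(5,true),(4,true),(5,false)],
    [(5,true),(4,false),(5,false),(2,true),(3,true),(2,false),(3,false),(0,true),(1,true),(0,false),(0,false),(3,true),(2,true),(3,false),(2,false),(5,true),(4,true),(5,false)],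
    [(5,true),(4,false),(5,false),(2,true),(0,true),(1,false),(0,false),(3,true),(2,true),(3,false),(2,false),(5,true),(4,true),(5,false)],
    [(5,true),(4,false),(5,false),(2,true),(3,true),(2,false),(3,false),(0,true),(1,true),(0,false),(3,true),(2,false),(5,true),(4,true),(5,false)],
    [(3,false),(0,true),(1,false),(0,false),(3,true),(2,true),(3,false),(2,false),(5,true),(4,true),(5,false)]],
   [[(5,true),(4,true),(3,true),(1,true),(3,false),(4,false),(5,false)],
    [(5,true),(4,true),(3,true),(2,true),(1,true),(3,false),(4,false),(5,false)],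
    [(5,true),(1,true),(2,true),(3,true),(5,false)],
    [(5,true),(4,true),(3,true),(5,false)],
    [(0,true),(1,true),(2,true),(3,true),(4,true),(5,true),(0,false)],
    [(5,true),(0,false)]])

/-- The rotation. -/
def wR3 : RW := [(0,false),(0,false),(1,false),(3,false),(4,false),(6,false),(7,false)]

/-- The twist. -/
def wT3 : RW := [(5,false)]

/-- The boundary twist. -/
def gB3 : RW := pw 12 wR3

/-- The point push. -/
def gC3 : RW := cmw 6 wR3 wT3

/-- The loop with holonomy as a word in the rotation and the twist. -/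
def wG3 : RW :=
  [(1,true),(0,false),(1,true),(0,false),(1,false),(0,true),(0,true)]

/-- The loop with holonomy. -/
def gG3 : RW := sub [wR3, wT3] wG3

theorem noT3 {A : Type} [Group A] (τ : ℕ → A) (c : Ctx (Fin 6)) (hc : c.W = fw 6 (rW 3))
    (hL : Lv 6 (rW 3) Tl3 4 τ) (h1 : gw τ gB3 = 1) (h2 : gw τ gC3 = 1) (n : ℕ)
    (h3 : Hol τ (pw n gG3)) : NoT 3 := by
  obtain ⟨K, hK, χ, γ, i1, i2⟩ := h3
  refine glue (cenSt diaSt) (by norm_num) rawOk_three τ c (rW 3) Tl3 4
    (by rw [Ctx.r, hc]; exact (Raw_ev _ _).symm) hL om3 gB3 wR3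
    [(5,false),(3,false),(0,true),(1,false),(0,false),(3,true),(2,true),(3,false),(2,false),(5,true),(4,true),(5,false)]
    wT3 [] wG3 (by decide +kernel) h1 (gw_cmw τ _ _ _ h2) K χ γ i1 n (by rw [i2, gw_pw]; rfl)

/-- The change of basis. -/
def om4 : SA :=
  ([[(7,false),(5,false),(3,false),(0,true),(1,false),(0,false),(3,true),(2,true),(3,false),(2,false),(5,true),(4,true),(5,false),(4,false),(7,true),(6,true),(7,false)],
    [(7,true),(6,false),(7,false),(4,true),(5,true),(4,false),(5,false),(2,true),(3,true),(2,false),(3,false),(0,true),(1,true),(0,true),(1,false),(0,false),(3,true),(2,true),(3,false),(2,false),(5,true),(4,true),(5,false),(4,false),(7,true),(6,true),(7,false)],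
    [(7,true),(6,false),(7,false),(4,true),(5,true),(4,false),(5,false),(2,true),(3,true),(2,false),(3,false),(0,true),(1,true),(0,false),(0,false),(3,true),(2,true),(3,false),(2,false),(5,true),(4,true),(5,false),(4,false),(7,true),(6,true),(7,false)],
    [(7,true),(6,false),(7,false),(4,true),(5,true),(4,false),(5,false),(2,true),(0,true),(1,false),(0,false),(3,true),(2,true),(3,false),(2,false),(5,true),(4,true),(5,false),(4,false),(7,true),(6,true),(7,false)],
    [(7,true),(6,false),(7,false),(4,true),(5,true),(4,false),(5,false),(2,true),(3,true),(2,false),(3,false),(0,true),(1,true),(0,false),(3,true),(2,false),(5,true),(4,true),(5,false),(4,false),(7,true),(6,true),(7,false)],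
    [(7,true),(6,false),(7,false),(4,true),(3,false),(0,true),(1,false),(0,false),(3,true),(2,true),(3,false),(2,false),(5,true),(4,true),(5,false),(4,false),(7,true),(6,true),(7,false)],
    [(7,true),(6,false),(7,false),(4,true),(5,true),(4,false),(5,false),(2,true),(3,true),(2,false),(3,false),(0,true),(1,true),(0,false),(3,true),(5,true),(4,false),(7,true),(6,true),(7,false)],
    [(5,false),(3,false),(0,true),(1,false),(0,false),(3,true),(2,true),(3,false),(2,false),(5,true),(4,true),(5,false),(4,false),(7,true),(6,true),(7,false)]],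
   [[(7,true),(6,true),(5,true),(4,true),(3,true),(1,true),(3,false),(4,false),(5,false),(6,false),(7,false)],
    [(7,true),(6,true),(5,true),(4,true),(3,true),(2,true),(1,true),(3,false),(4,false),(5,false),(6,false),(7,false)],
    [(7,true),(6,true),(5,true),(1,true),(2,true),(3,true),(5,false),(6,false),(7,false)],
    [(7,true),(6,true),(5,true),(4,true),(3,true),(5,false),(6,false),(7,false)],
    [(7,true),(1,true),(2,true),(3,true),(4,true),(5,true),(7,false)],
    [(7,true),(6,true),(5,true),(7,false)],
    [(0,true),(1,true),(2,true),(3,true),(4,true),(5,true),(6,true),(7,true),(0,false)],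
    [(7,true),(0,false)]])

/-- The rotation. -/
def wR4 : RW := [(0,false),(0,false),(1,false),(3,false),(4,false),(6,false),(7,false),(9,false),(10,false)]

/-- The twist. -/
def wT4 : RW := [(8,false)]

/-- The boundary twist. -/
def gB4 : RW := pw 16 wR4

/-- The point push. -/
def gC4 : RW := cmw 8 wR4 wT4

/-- The loop with holonomy as a word in the rotation and the twist. -/
def wG4 : RW :=
  [(1,true),(0,false),(1,true),(0,false),(1,true),(0,false),(0,false),(1,true),(0,true),(1,false),(0,true),(0,true),(0,true)]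

/-- The loop with holonomy. -/
def gG4 : RW := sub [wR4, wT4] wG4

theorem noT4 {A : Type} [Group A] (τ : ℕ → A) (c : Ctx (Fin 8)) (hc : c.W = fw 8 (rW 4))
    (hL : Lv 8 (rW 4) Tl4 6 τ) (h1 : gw τ gB4 = 1) (h2 : gw τ gC4 = 1) (n : ℕ)
    (h3 : Hol τ (pw n gG4)) : NoT 4 := by
  obtain ⟨K, hK, χ, γ, i1, i2⟩ := h3
  refine glue (cenSt diaSt) (by norm_num) rawOk_four τ c (rW 4) Tl4 6
    (by rw [Ctx.r, hc]; exact (Raw_ev _ _).symm) hL om4 gB4 wR4
    [(7,false),(5,false),(3,false),(0,true),(1,false),(0,false),(3,true),(2,true),(3,false),(2,false),(5,true),(4,true),(5,false),(4,false),(7,true),(6,true),(7,false)]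
    wT4 [] wG4 (by decide +kernel) h1 (gw_cmw τ _ _ _ h2) K χ γ i1 n (by rw [i2, gw_pw]; rfl)

end Pool.Agent.MB
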