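import Pool.Agent.Lib.MP_c86c76_al.B.K4b
import Pool.Agent.Lib.MP_c86c76_al.B.Rels

/-!
Kernel checks of relators of genus four.
-/

set_option autoImplicit false

namespace Pool.Agent.MB.K4

theorem ck_0 : chkL (((rels4.drop (8 * 0)).take 8)) = true := by decide +kernel
theorem ck_1 : chkL (((rels4.drop (8 * 1)).take 8)) = true := by decide +kernel
theorem ck_2 : chkL (((rels4.drop (8 * 2)).take 8)) = true := by decide +kernel
theorem ck_3 : chkL (((rels4.drop (8 * 3)).take 8)) = true := by decide +kernel
theorem ck_4 : chkL (((rels4.drop (8 * 4)).take 8)) = true := by decide +kernel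
theorem ck_5 : chkL (((rels4.drop (8 * 5)).take 8)) = true := by decide +kernel
theorem ck_6 : chkL (((rels4.drop (8 * 6)).take 8)) = true := by decide +kernel
theorem ck_7 : chkL (((rels4.drop (8 * 7)).take 8)) = true := by decide +kernel
theorem ck_8 : chkL (((rels4.drop (8 * 8)).take 8)) = true := by decide +kernel
theorem ck_9 : chkL (((rels4.drop (8 * 9)).take 8)) = true := by decide +kernel
theorem ck_10 : chkL (((rels4.drop (8 * 10)).take 8)) = true := by decide +kernel
theorem ck_11 : chkL (((rels4.drop (8 * 11)).take 8)) = true := by decide +kernel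
theorem ck_12 : chkL (((rels4.drop (8 * 12)).take 8)) = true := by decide +kernel
theorem ck_13 : chkL (((rels4.drop (8 * 13)).take 8)) = true := by decide +kernel

end Pool.Agent.MB.K4
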