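import Pool.Agent.Lib.MP_c86c76_al.B.K4b
import Pool.Agent.Lib.MP_c86c76_al.B.Rels

/-!
Kernel checks of relators of genus four.
-/

set_option autoImplicit false

namespace Pool.Agent.MB.K4

theorem ck_14 : chkL (((rels4.drop (8 * 14)).take 8)) = true := by decide +kernel
theorem ck_15 : chkL (((rels4.drop (8 * 15)).take 8)) = true := by decide +kernel
theorem ck_16 : chkL (((rels4.drop (8 * 16)).take 8)) = true := by decide +kernel
theorem ck_17 : chkL (((rels4.drop (8 * 17)).take 8)) = true := by decide +kernel
theorem ck_18 : chkL (((rels4.drop (8 * 18)).take 8)) = true := by decide +kernel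
theorem ck_19 : chkL (((rels4.drop (8 * 19)).take 8)) = true := by decide +kernel
theorem ck_20 : chkL (((rels4.drop (8 * 20)).take 8)) = true := by decide +kernel
theorem ck_21 : chkL (((rels4.drop (8 * 21)).take 8)) = true := by decide +kernel

end Pool.Agent.MB.K4
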