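import Pool.Agent.Lib.MP_c86c76_al.B.K4b
import Pool.Agent.Lib.MP_c86c76_al.B.Rels

/-!
Kernel checks of relators of genus four.
-/

set_option autoImplicit false

namespace Pool.Agent.MB.K4

theorem ck_22 : chkL (((rels4.drop (8 * 22)).take 8)) = true := by decide +kernel
theorem ck_23 : chkL (((rels4.drop (8 * 23)).take 8)) = true := by decide +kernel
theorem ck_24 : chkL (((rels4.drop (8 * 24)).take 8)) = true := by decide +kernel
theorem ck_25 : chkL (((rels4.drop (8 * 25)).take 8)) = true := by decide +kernel
theorem ck_26 : chkL (((rels4.drop (8 * 26)).take 8)) = true := by decide +kernel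
theorem ck_27 : chkL (((rels4.drop (8 * 27)).take 8)) = true := by decide +kernel
theorem ck_28 : chkL (((rels4.drop (8 * 28)).take 8)) = true := by decide +kernel
theorem ck_29 : chkL (((rels4.drop (8 * 29)).take 8)) = true := by decide +kernel

end Pool.Agent.MB.K4
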