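import Pool.Agent.Lib.MP_c86c76_al.B.K4b
import Pool.Agent.Lib.MP_c86c76_al.B.Rels

/-!
Kernel checks of relators of genus four.
-/

set_option autoImplicit false

namespace Pool.Agent.MB.K4

theorem ck_30 : chkL (((rels4.drop (8 * 30)).take 8)) = true := by decide +kernel
theorem ck_31 : chkL (((rels4.drop (8 * 31)).take 8)) = true := by decide +kernel
theorem ck_32 : chkL (((rels4.drop (8 * 32)).take 8)) = true := by decide +kernel
theorem ck_33 : chkL (((rels4.drop (8 * 33)).take 8)) = true := by decide +kernel
theorem ck_34 : chkL (((rels4.drop (8 * 34)).take 8)) = true := by decide +kernel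
theorem ck_35 : chkL (((rels4.drop (8 * 35)).take 8)) = true := by decide +kernel
theorem ck_36 : chkL (((rels4.drop (8 * 36)).take 8)) = true := by decide +kernel
theorem ck_37 : chkL (((rels4.drop (8 * 37)).take 8)) = true := by decide +kernel
theorem ck_38 : chkL (((rels4.drop (8 * 38)).take 8)) = true := by decide +kernel

end Pool.Agent.MB.K4
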