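import Pool.Agent.Lib.MP_c86c76_al.B.K4d
import Pool.Agent.Lib.MP_c86c76_al.B.K4r0
import Pool.Agent.Lib.MP_c86c76_al.B.K4r1
import Pool.Agent.Lib.MP_c86c76_al.B.K4r2
import Pool.Agent.Lib.MP_c86c76_al.B.K4r3
import Pool.Agent.Lib.MP_c86c76_al.B.GlueD

/-!
The relators of genus four hold in the group of good permutations.
-/

set_option autoImplicit false
set_option synthInstance.maxSize 2048

namespace Pool.Agent.MB.K4

theorem ck_all : ∀ k, k < 39 → ∀ w ∈ (rels4.drop (8 * k)).take 8, gw tau4 w = 1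
  | 0, _ => one_of_chkL ck_0
  | 1, _ => one_of_chkL ck_1
  | 2, _ => one_of_chkL ck_2
  | 3, _ => one_of_chkL ck_3
  | 4, _ => one_of_chkL ck_4
  | 5, _ => one_of_chkL ck_5
  | 6, _ => one_of_chkL ck_6
  | 7, _ => one_of_chkL ck_7
  | 8, _ => one_of_chkL ck_8
  | 9, _ => one_of_chkL ck_9
  | 10, _ => one_of_chkL ck_10
  | 11, _ => one_of_chkL ck_11
  | 12, _ => one_of_chkL ck_12
  | 13, _ => one_of_chkL ck_13
  | 14, _ => one_of_chkL ck_14
  | 15, _ => one_of_chkL ck_15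
  | 16, _ => one_of_chkL ck_16
  | 17, _ => one_of_chkL ck_17
  | 18, _ => one_of_chkL ck_18
  | 19, _ => one_of_chkL ck_19
  | 20, _ => one_of_chkL ck_20
  | 21, _ => one_of_chkL ck_21
  | 22, _ => one_of_chkL ck_22
  | 23, _ => one_of_chkL ck_23
  | 24, _ => one_of_chkL ck_24
  | 25, _ => one_of_chkL ck_25
  | 26, _ => one_of_chkL ck_26
  | 27, _ => one_of_chkL ck_27
  | 28, _ => one_of_chkL ck_28
  | 29, _ => one_of_chkL ck_29
  | 30, _ => one_of_chkL ck_30
  | 31, _ => one_of_chkL ck_31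
  | 32, _ => one_of_chkL ck_32
  | 33, _ => one_of_chkL ck_33
  | 34, _ => one_of_chkL ck_34
  | 35, _ => one_of_chkL ck_35
  | 36, _ => one_of_chkL ck_36
  | 37, _ => one_of_chkL ck_37
  | 38, _ => one_of_chkL ck_38
  | _ + 39, h => absurd h (by omega)

theorem rels4_hold : ∀ w ∈ rels4, gw tau4 w = 1 := by
  intro w hw
  obtain ⟨i, hi, rfl⟩ := List.getElem_of_mem hw
  have hl : rels4.length ≤ 312 := by decide +kernel
  refine ck_all (i / 8) (by omega) _ (List.mem_iff_getElem.2 ⟨i % 8, ?_, ?_⟩)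
  · simp only [List.length_take, List.length_drop]
    omega
  · simp only [List.getElem_take, List.getElem_drop, Nat.div_add_mod]

theorem gB4_hold : gw tau4 gB4 = 1 := one_of_chk4 (by decide +kernel)

theorem gC4_hold : gw tau4 gC4 = 1 := one_of_chk4 (by decide +kernel)

/-- The coordinates of the base point. -/
def c4 : V :=
  (0, ((((0, 0), (1, 2), (-3, 0)), ((-1, -2), (0, 0), (3, 0)), ((3, 0), (-3, 0), (0, 0))),
    (((0, 0), (-1, 0), (3, 0)), ((1, 0), (0, 0), (1, 2)), ((-3, 0), (-1, -2), (0, 0))),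
    (((0, 0), (1, 0), (1, 2)), ((-1, 0), (0, 0), (-1, -2)), ((-1, -2), (1, 2), (0, 0)))), 0)

theorem gG4_hol : Hol tau4 (pw 1 gG4) := virtual_of_hol4 (c := c4) (by decide +kernel)

theorem noT4_of (c : Ctx (Fin 8)) (hc : c.W = fw 8 (rW 4)) (hL : Lv 8 (rW 4) Tl4 6 tau4) :
    NoT 4 := noT4 tau4 c hc hL gB4_hold gC4_hold 1 gG4_hol

end Pool.Agent.MB.K4
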