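import Pool.Agent.Lib.MP_c86c76_al.B.Lv3
import Pool.Agent.Lib.MP_c86c76_al.B.Dat4

/-!
The presentation of the stabiliser of the boundary word in genus four.
-/

set_option autoImplicit false

namespace Pool.Agent.MB

theorem sb4 : sbR (C4.rels 6 Tl3.length) rels4 = true := by decide +kernel

theorem rels3_sub (w : RW) (h : w ∈ rels3) : w ∈ rels4 := by
  rw [rels4, List.map_append]
  exact List.mem_append_left _ h

variable {A : Type} [Group A] (τ : ℕ → A)

theorem lv4 (h : ∀ w ∈ rels4, gw τ w = 1) : Lv 8 (rW 4) Tl4 6 τ :=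
  stepA C4 6 (rW 3) Tl3 A τ C4_c0 C4_c1 C4_c2 C4_c3 C4_tr C4_t2 C4_t3 (sbR_sound τ sb4 h)
    (lv3 τ fun w hw => h w (rels3_sub w hw))

theorem cx4 : ∃ c : Ctx (Fin 8), c.W = fw 8 (rW 4) := (sp0A C4 6 (rW 3) Tl3 C4_c0).1

end Pool.Agent.MB
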