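import Pool.Agent.Lib.MP_c86c76_al.B.Rel3
import Pool.Agent.Lib.MP_c86c76_al.B.Lv4
import Pool.Agent.Lib.MP_c86c76_al.B.K4e

/-!
Genus three and four.
-/

set_option autoImplicit false

namespace Pool.Agent.MB

theorem noT (g : ℕ) (hg : g = 3 ∨ g = 4) : NoT g := by
  rcases hg with rfl | rfl
  · exact noT_three
  · obtain ⟨c, hc⟩ := cx4
    exact K4.noT4_of c hc (lv4 K4.tau4 K4.rels4_hold)

end Pool.Agent.MB
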