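import Pool.Agent.Lib.MP_c86c76_al.B.Raw
import Pool.Agent.Lib.MP_c86c76_al.B.Fin
import Pool.Agent.Lib.MP_c86c76_al.Top.Main

/-!
From the presentation of the stabiliser of the boundary word to the mapping class group.
-/

set_option autoImplicit false

namespace Pool.Agent.MB

open Pool.Agent.MCG

/-- The word `w` acts as `conj c * om * p * om⁻¹`. -/
def okG (n : ℕ) (Tl : List SA) (om p : SA) (w c : RW) : Bool :=
  okS n p && bd Tl.length w && (List.range n).all fun i =>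
    eqF (act Tl w [(i, true)]) (c ++ sub om.1 (sub p.1 (sub om.2 [(i, true)])) ++ iv c)

theorem glue_mem {A : Type} [Group A] (τ : ℕ → A) {n : ℕ} {Tl : List SA} {om p : SA} {w c : RW}
    (hT : Tl.all (okS n) = true) (ho : okS n om = true) (h : okG n Tl om p w c = true) :
    (MulAut.conj (ev n c) * (aut n om * aut n p * (aut n om)⁻¹), gw τ w) ∈
      Gr n Tl τ Tl.length := by
  simp only [okG, Bool.and_eq_true, List.all_eq_true, List.mem_range] at h
  obtain ⟨⟨h1, h2⟩, h3⟩ := h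
  refine (congrArg (· ∈ Gr n Tl τ Tl.length) ?_).mpr (Raw_mem (TT n Tl τ) _ _ w
    (fun i hi => Subgroup.subset_closure ⟨i, hi, rfl⟩) h2)
  refine Prod.ext ?_ (Raw_map (TT n Tl τ) _ (MonoidHom.snd _ _) w).symm
  refine Eq.trans (Raw_ext n fun i => ?_) (Raw_map (TT n Tl τ) _ (MonoidHom.fst _ _) w).symm
  rw [← Raw_of]
  refine Eq.trans ?_ (Raw_act n Tl hT w _).symm
  rw [MulAut.mul_apply, MulAut.mul_apply, MulAut.mul_apply, (Raw_aut n om _ ho).2,
    (Raw_aut n p _ h1).1, (Raw_aut n om _ ho).1, MulAut.conj_apply, ev, ev, ev,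
    Raw_eqF _ _ _ (h3 i i.2), Raw_append, Raw_append, Raw_iv]

/-- The raw boundary word of the polygon. -/
def rawR (g : ℕ) : RW :=
  ((List.range (2 * g)).map fun i => (i, true)) ++ (List.range (2 * g)).map fun i => (i, false)

/-- The rotation as a substitution. -/
def rawRho (g : ℕ) : SA :=
  (((List.range (2 * g - 1)).map fun i => [(i + 1, true)]) ++ [[(0, false)]],
    [(2 * g - 1, false)] :: (List.range (2 * g - 1)).map fun i => [(i, true)])

/-- The twist as a substitution. -/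
def rawTau (g : ℕ) : SA :=
  ([(List.range (2 * g)).map fun i => (i, true)],
    [(0, true) :: iv ((List.range (2 * g - 1)).map fun i => (i + 1, true))])

/-- The raw data describe the boundary word, the rotation and the twist. -/
def RawOk (g : ℕ) : Prop := rr g = ev (2 * g) (rawR g) ∧
  (∀ i, rho g (FreeGroup.of i) = ev (2 * g) (sub (rawRho g).1 [((i : ℕ), true)])) ∧
  ∀ i, tau g (FreeGroup.of i) = ev (2 * g) (sub (rawTau g).1 [((i : ℕ), true)])

theorem rawOk_three : RawOk 3 := by unfold RawOk; decide +kernel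

theorem rawOk_four : RawOk 4 := by unfold RawOk; decide +kernel

theorem glue (hC : CenSt) {g : ℕ} (hg : 0 < g) (hr : RawOk g) {A : Type} [Group A] (τ : ℕ → A)
    (c : Ctx (Fin (2 * g))) (W : RW) (Tl : List SA) (a : ℕ) (hc : c.r = ev (2 * g) W)
    (hL : Lv (2 * g) W Tl a τ) (om : SA) (wr wρ cρ wτ cτ wγ : RW)
    (ok : (Tl.all (okS (2 * g)) && okS (2 * g) om && eqF (sub om.1 (rawR g)) W &&
      okG (2 * g) Tl om ([], []) wr W && okG (2 * g) Tl om (rawRho g) wρ cρ &&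
      okG (2 * g) Tl om (rawTau g) wτ cτ && bd 2 wγ) = true)
    (h1 : gw τ wr = 1) (h2 : Commute (gw τ wρ ^ (2 * g)) (gw τ wτ))
    (K : Subgroup A) [K.FiniteIndex] (χ : K →* Multiplicative ℤ) (γ : K) (hχ : χ γ ≠ 1)
    (n : ℕ) (hγ : γ.1 = gw τ (sub [wρ, wτ] wγ) ^ n)
    (Γ : Subgroup (ModPM (Surf g))) (hΓ : Γ.relIndex (ModP (Surf g)) ≠ 0)
    (S : Finset Γ) (ε : ℝ) (hε : 0 < ε) :
    ∃ (H : Type) (_ : NormedAddCommGroup H) (_ : InnerProductSpace ℂ H) (_ : CompleteSpace H)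
      (π : Γ →* (H ≃ₗᵢ[ℂ] H)) (v : H), ‖v‖ = 1 ∧ (∀ s ∈ S, ‖π s v - v‖ < ε) ∧
      ∀ w : H, (∀ x, π x w = w) → w = 0 := by
  simp only [Bool.and_eq_true] at ok
  obtain ⟨⟨⟨⟨⟨⟨hT, ho⟩, hW⟩, o1⟩, o2⟩, o3⟩, o4⟩ := ok
  have hω : aut (2 * g) om (rr g) = ev (2 * g) W := by
    rw [hr.1, (Raw_aut _ om _ ho).1, ev, ev, Raw_eqF _ _ _ hW]
  have e : ∀ (p : SA) (w c : RW) (φ : MulAut (FG g)), okG (2 * g) Tl om p w c = true →
      (∀ i, φ (FreeGroup.of i) = ev (2 * g) (sub p.1 [((i : ℕ), true)])) → aut (2 * g) p = φ := by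
    intro p w c φ h h'
    simp only [okG, Bool.and_eq_true] at h
    exact Raw_ext _ fun i => by rw [h', ← Raw_of, (Raw_aut _ p _ h.1.1).1]
  have m1 := glue_mem τ hT ho o1
  have m2 := glue_mem τ hT ho o2
  have m3 := glue_mem τ hT ho o3
  rw [e _ _ _ 1 o1 fun i => (Raw_of _ i).symm, mul_one, mul_inv_cancel, mul_one, h1, ← hω] at m1
  rw [e _ _ _ _ o2 hr.2.1] at m2
  rw [e _ _ _ _ o3 hr.2.2] at m3
  obtain ⟨Φ, hΦ⟩ := finSt (FG g) A (Gr (2 * g) Tl τ Tl.length) (rr g) (aut (2 * g) om) (AutC g)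
    (fun _ => Iff.rfl) (fun w hw => by
      rw [hω, ← hc] at hw ⊢
      refine (hC _ c w hw).resolve_left fun h => ?_
      have := c.full.2 (⟨0, by omega⟩, true)
      rw [h] at this
      exact List.not_mem_nil this)
    (by rw [hω]; exact hL.1) hL.2.1 (by rw [hω]; exact hL.2.2.1) m1
  have p2 := hΦ ⟨rho g, rho_mem g⟩ _ _ m2
  have p3 := hΦ ⟨tau g, tau_mem g⟩ _ _ m3
  refine notT_of hg Φ (fun w => hΦ _ (aut (2 * g) om w)⁻¹ 1 ?_) (by rwa [p2, p3]) K χ γ hχ ?_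
    Γ hΓ S ε hε
  · refine (congrArg (· ∈ Gr (2 * g) Tl τ Tl.length) ?_).mpr (one_mem _)
    refine Prod.ext (MulEquiv.ext fun x => ?_) rfl
    simp [mul_assoc]
  · rw [hγ, Raw_sub, p2, p3]
    refine pow_mem (Raw_mem _ _ 2 _ (fun i hi => Subgroup.subset_closure ?_) o4) n
    interval_cases i
    · exact Or.inl rfl
    · exact Or.inr rfl

end Pool.Agent.MB
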