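import Pool.Agent.Lib.MP_c86c76_al.B.GlueD
import Pool.Agent.Lib.MP_c86c76_al.Eng.B3

/-!
The boundary twist, the point push and the loop with holonomy in the affine action of genus three.
-/

set_option autoImplicit false

namespace Pool.Agent.MB

open Pool.Agent.Lib.MP_c86c76_al.Eng

theorem hold3_B : gw tau3 gB3 = 1 := gw_tau3_one _ fun j => by cases j <;> decide +kernel

theorem hold3_C : gw tau3 gC3 = 1 := gw_tau3_one _ fun j => by cases j <;> decide +kernel

theorem hold3_G : Hol tau3 (pw 8 gG3) := virt3 _ .c0 .c4 4 (by decide +kernel)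

end Pool.Agent.MB
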