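import Pool.Agent.Lib.MP_c86c76_al.B.Defs

/-!
An action of eleven generators on functions from `(ZMod 3) ^ 4` to the Eisenstein integers:
definitions, the algebra of the levels and a strict evaluator.
-/

set_option autoImplicit false
set_option synthInstance.maxSize 2048

namespace Pool.Agent.MB.K4

/-- Eisenstein integers as pairs. -/
abbrev R : Type := ℤ × ℤ

/-- Triples. -/
abbrev P (α : Type) : Type := α × α × α

/-- Functions of four variables with three values. -/
abbrev V : Type := P (P (P (P R)))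

section comb

variable {α : Type}

/-- Three maps on a triple. -/
def m3 (f g h : α → α) (y : P α) : P α := (f y.1, g y.2.1, h y.2.2)

/-- One map on a triple. -/
def up (f : α → α) : P α → P α := m3 f f f

/-- A map on the diagonal. -/
def dg (U I : α → α) : P (P α) → P (P α) := m3 (m3 U I I) (m3 I U I) (m3 I I U)

/-- Mixing a triple. -/
def xo [Add α] (I S : α → α) (y : P α) : P α :=
  (I y.1 + S (y.1 + y.2.1 + y.2.2), I y.2.1 + S (y.1 + y.2.1 + y.2.2),
    I y.2.2 + S (y.1 + y.2.1 + y.2.2))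

/-- The form on triples. -/
def q3 (Q : α → ℤ) (y : P α) : ℤ := Q y.1 + Q y.2.1 + Q y.2.2

/-- Unit vectors of triples. -/
def u3 [Zero α] (us : List α) : List (P α) :=
  us.map (fun u => (u, 0, 0)) ++ us.map (fun u => (0, u, 0)) ++ us.map fun u => (0, 0, u)

/-- From binomial coefficients to values. -/
def bb [Add α] (F : ℕ → α → α) (k : ℕ) (y : P α) : P α :=
  (F k y.1, F k y.1 + F (k + 1) y.2.1, F k y.1 + F (k + 1) y.2.1 + F (k + 1) y.2.1 + F (k + 2) y.2.2)

/-- Powers arranged in a triple. -/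
def p3 (F : ℕ → α) (d a : ℕ) : P α := (F a, F (a + d), F (a + 2 * d))

/-- Equality test on triples. -/
def e3 (e : α → α → Bool) (x y : P α) : Bool := e x.1 y.1 && e x.2.1 y.2.1 && e x.2.2 y.2.2

theorem e3_eq {e : α → α → Bool} (h : ∀ x y, e x y = true → x = y) (x y : P α)
    (H : e3 e x y = true) : x = y := by
  simp only [e3, Bool.and_eq_true] at H
  exact Prod.ext (h _ _ H.1.1) (Prod.ext (h _ _ H.1.2) (h _ _ H.2))

variable [AddCommGroup α]

/-- Additive maps. -/
def Ad (g : α → α) : Prop := ∀ x y, g (x + y) = g x + g y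

/-- `f` is a third of the additive map `g`, which multiplies the form by nine. -/
structure Op (Q : α → ℤ) (f g : α → α) : Prop where
  ad : Ad g
  th : ∀ y t, g y = (3 : ℤ) • t → f y = t
  q : ∀ y, Q (g y) = 9 * Q y

/-- The data of one level. -/
structure Lev (Q : α → ℤ) (W I S W' I' S' : α → α) : Prop where
  w : Op Q W W'
  i : Op Q I I'
  tr : ∀ y, I' y = (3 : ℤ) • y
  one : ∀ y, I y = y
  ad : Ad S'
  th : ∀ y t, S' y = (3 : ℤ) • t → S y = t
  q : ∀ u v w, Q (I' u + S' (u + v + w)) + Q (I' v + S' (u + v + w)) +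
    Q (I' w + S' (u + v + w)) = 9 * (Q u + Q v + Q w)

theorem ad_m3 {f g h : α → α} (a : Ad f) (b : Ad g) (c : Ad h) : Ad (m3 f g h) := fun _ _ =>
  Prod.ext (a _ _) (Prod.ext (b _ _) (c _ _))

theorem Op.m3 {Q : α → ℤ} {f g h f' g' h' : α → α} (a : Op Q f f') (b : Op Q g g')
    (c : Op Q h h') : Op (q3 Q) (m3 f g h) (m3 f' g' h') where
  ad := ad_m3 a.ad b.ad c.ad
  th y t H := Prod.ext (a.th _ _ (congrArg (·.1) H))
    (Prod.ext (b.th _ _ (congrArg (·.2.1) H)) (c.th _ _ (congrArg (·.2.2) H)))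
  q y := by
    simp only [q3, K4.m3, a.q, b.q, c.q]
    ring

theorem Op.up {Q : α → ℤ} {f f' : α → α} (a : Op Q f f') : Op (q3 Q) (up f) (up f') := a.m3 a a

theorem Op.dg {Q : α → ℤ} {f g f' g' : α → α} (a : Op Q f f') (b : Op Q g g') :
    Op (q3 (q3 Q)) (dg f g) (dg f' g') := (a.m3 b b).m3 (b.m3 a b) (b.m3 b a)

theorem Lev.up {Q : α → ℤ} {W I S W' I' S' : α → α} (a : Lev Q W I S W' I' S') :
    Lev (q3 Q) (up W) (up I) (up S) (up W') (up I') (up S') where
  w := a.w.up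
  i := a.i.up
  tr y := Prod.ext (a.tr _) (Prod.ext (a.tr _) (a.tr _))
  one y := Prod.ext (a.one _) (Prod.ext (a.one _) (a.one _))
  ad := ad_m3 a.ad a.ad a.ad
  th y t H := Prod.ext (a.th _ _ (congrArg (·.1) H))
    (Prod.ext (a.th _ _ (congrArg (·.2.1) H)) (a.th _ _ (congrArg (·.2.2) H)))
  q u v w := by
    have h1 := a.q u.1 v.1 w.1
    have h2 := a.q u.2.1 v.2.1 w.2.1
    have h3 := a.q u.2.2 v.2.2 w.2.2
    simp only [q3, K4.up, K4.m3, Prod.fst_add, Prod.snd_add]
    linarith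

theorem Lev.xo {Q : α → ℤ} {W I S W' I' S' : α → α} (a : Lev Q W I S W' I' S') :
    Op (q3 Q) (xo I S) (xo I' S') where
  ad x y := by
    have e : S' ((x + y).1 + (x + y).2.1 + (x + y).2.2) =
        S' (x.1 + x.2.1 + x.2.2) + S' (y.1 + y.2.1 + y.2.2) := by
      rw [← a.ad]
      congr 1
      simp only [Prod.fst_add, Prod.snd_add]
      abel
    simp only [K4.xo, e, a.tr]
    refine Prod.ext ?_ (Prod.ext ?_ ?_) <;>
      simp only [Prod.fst_add, Prod.snd_add, smul_add] <;> abel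
  th y t H := by
    have e : ∀ u v : α, I' u + S' (y.1 + y.2.1 + y.2.2) = (3 : ℤ) • v →
        I u + S (y.1 + y.2.1 + y.2.2) = v := fun u v h => by
      rw [a.one, a.th _ (v - u) (by rw [smul_sub, ← h, a.tr]; abel)]
      abel
    exact Prod.ext (e _ _ (congrArg (·.1) H))
      (Prod.ext (e _ _ (congrArg (·.2.1) H)) (e _ _ (congrArg (·.2.2) H)))
  q y := a.q _ _ _

theorem ad_bb {F : ℕ → α → α} (a : ∀ k, Ad (F k)) (k : ℕ) : Ad (bb F k) := fun x y => by
  have a' : ∀ k x y, F k (x + y) = F k x + F k y := a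
  simp only [bb, Prod.fst_add, Prod.snd_add, a', Prod.mk_add_mk]
  refine Prod.ext rfl (Prod.ext ?_ ?_) <;> dsimp only <;> abel

/-- The geometry of one level. -/
structure Geo (Q : α → ℤ) (us : List α) : Prop where
  nn : ∀ y, 0 ≤ Q y
  sep : ∀ y, y ≠ 0 → ∃ φ : α →+ ℤ, φ y ≠ 0 ∧ ∀ z, φ z ^ 2 ≤ 2 * Q z
  fin : ∀ c, {y | Q y ≤ c}.Finite
  span : ∀ H : AddSubgroup α, (∀ u ∈ us, u ∈ H) → ∀ y, y ∈ H

theorem Geo.le {Q : α → ℤ} {us : List α} (a : Geo Q us) (y : P α) :
    Q y.1 ≤ q3 Q y ∧ Q y.2.1 ≤ q3 Q y ∧ Q y.2.2 ≤ q3 Q y := by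
  have h1 := a.nn y.1
  have h2 := a.nn y.2.1
  have h3 := a.nn y.2.2
  simp only [q3]
  omega

theorem Geo.up {Q : α → ℤ} {us : List α} (a : Geo Q us) : Geo (q3 Q) (u3 us) where
  nn y := (a.nn _).trans (a.le y).1
  sep y hy := by
    by_cases h1 : y.1 = 0
    · by_cases h2 : y.2.1 = 0
      · obtain ⟨φ, h, h'⟩ := a.sep y.2.2 fun h3 => hy (Prod.ext h1 (Prod.ext h2 h3))
        exact ⟨φ.comp ((AddMonoidHom.snd _ _).comp (AddMonoidHom.snd _ _)), h, fun z =>
          (h' z.2.2).trans (by linarith [(a.le z).2.2])⟩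
      · obtain ⟨φ, h, h'⟩ := a.sep y.2.1 h2
        exact ⟨φ.comp ((AddMonoidHom.fst _ _).comp (AddMonoidHom.snd _ _)), h, fun z =>
          (h' z.2.1).trans (by linarith [(a.le z).2.1])⟩
    · obtain ⟨φ, h, h'⟩ := a.sep y.1 h1
      exact ⟨φ.comp (AddMonoidHom.fst _ _), h, fun z =>
        (h' z.1).trans (by linarith [(a.le z).1])⟩
  fin c := ((a.fin c).prod ((a.fin c).prod (a.fin c))).subset fun y hy =>
    ⟨(a.le y).1.trans hy, (a.le y).2.1.trans hy, (a.le y).2.2.trans hy⟩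
  span H h y := by
    have e : y = (y.1, 0, 0) + (0, y.2.1, 0) + (0, 0, y.2.2) := by simp
    simp only [u3, List.mem_append, List.mem_map] at h
    rw [e]
    refine add_mem (add_mem ?_ ?_) ?_
    · exact a.span (H.comap (AddMonoidHom.inl _ _)) (fun u hu => h _ (.inl (.inl ⟨u, hu, rfl⟩))) _
    · exact a.span (H.comap ((AddMonoidHom.inr _ _).comp (AddMonoidHom.inl _ _)))
        (fun u hu => h _ (.inl (.inr ⟨u, hu, rfl⟩))) _
    · exact a.span (H.comap ((AddMonoidHom.inr _ _).comp (AddMonoidHom.inr _ _)))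
        (fun u hu => h _ (.inr ⟨u, hu, rfl⟩)) _

/-- A list read as digits. -/
def pack (l : List α) : α := l.foldr (fun y z => y + (4194319 : ℤ) • z) 0

theorem map_pack {β : Type} [AddCommGroup β] (φ : α →+ β) (l : List α) :
    φ (pack l) = pack (l.map φ) := by
  induction l with
  | nil => exact map_zero φ
  | cons a l ih =>
    show φ (a + (4194319 : ℤ) • pack l) = φ a + (4194319 : ℤ) • pack (l.map φ)
    rw [map_add, map_zsmul, ih]

end comb

theorem pack_zero (l : List ℤ) (h : ∀ d ∈ l, |d| < 4194319) (h0 : pack l = 0) :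
    ∀ d ∈ l, d = 0 := by
  induction l with
  | nil => simp
  | cons a l ih =>
    have e : a + 4194319 * pack l = 0 := h0
    have := abs_lt.1 (h a List.mem_cons_self)
    intro d hd
    rcases List.mem_cons.1 hd with rfl | hd
    · omega
    · exact ih (fun d hd => h d (List.mem_cons_of_mem _ hd)) (by omega) d hd

/-- The norm form. -/
def q0 (y : R) : ℤ := y.1 * y.1 - y.1 * y.2 + y.2 * y.2

/-- Multiplication by `ω²`. -/
def w0 (y : R) : R := (y.2 - y.1, -y.1)

/-- Multiplication by `(ω² - 1) / 3`. -/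
def s0 (y : R) : R := ((y.1 + y.2) / 3 - y.1, -((y.1 + y.2) / 3))

/-- Multiplication by `3 ω²`. -/
def w1 (y : R) : R := (3 * (y.2 - y.1), -(3 * y.1))

/-- Multiplication by `3`. -/
def i1 (y : R) : R := (3 * y.1, 3 * y.2)

/-- Multiplication by `ω² - 1`. -/
def s1 (y : R) : R := (y.2 - 2 * y.1, -(y.1 + y.2))

/-- Multiplication by a square root of `-3`. -/
def th (y : R) : R := (y.1 - 2 * y.2, 2 * y.1 - y.2)

theorem lev0 : Lev q0 w0 id s0 w1 i1 s1 where
  w := ⟨fun x y => by ext <;> simp [w1] <;> ring,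
    fun y t H => by simp only [w1, Prod.ext_iff, Prod.smul_fst, Prod.smul_snd, smul_eq_mul, w0] at H ⊢; omega,
    fun y => by simp only [q0, w1]; ring⟩
  i := ⟨fun x y => by ext <;> simp [i1] <;> ring,
    fun y t H => by simp only [i1, Prod.ext_iff, Prod.smul_fst, Prod.smul_snd, smul_eq_mul, id] at H ⊢; omega,
    fun y => by simp only [q0, i1]; ring⟩
  tr _ := rfl
  one _ := rfl
  ad x y := by ext <;> simp [s1] <;> ring
  th y t H := by
    simp only [s1, Prod.ext_iff, Prod.smul_fst, Prod.smul_snd, smul_eq_mul, s0] at H ⊢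
    omega
  q u v w := by
    simp only [q0, i1, s1, Prod.fst_add, Prod.snd_add]
    ring

theorem geo0 : Geo q0 [(1, 0), (0, 1)] where
  nn y := by simp only [q0]; nlinarith [sq_nonneg (y.1 - y.2), sq_nonneg y.1, sq_nonneg y.2]
  sep y hy := by
    by_cases h1 : y.1 = 0
    · exact ⟨AddMonoidHom.snd _ _, fun h2 => hy (Prod.ext h1 h2), fun z => by
        show z.2 ^ 2 ≤ _
        simp only [q0]; nlinarith [sq_nonneg (z.1 - z.2), sq_nonneg z.1]⟩
    · exact ⟨AddMonoidHom.fst _ _, h1, fun z => by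
        show z.1 ^ 2 ≤ _
        simp only [q0]; nlinarith [sq_nonneg (z.1 - z.2), sq_nonneg z.2]⟩
  fin c := ((Set.finite_Icc (-(2 * c)) (2 * c)).prod (Set.finite_Icc (-(2 * c)) (2 * c))).subset
    fun y hy => by
      have hy' : y.1 * y.1 - y.1 * y.2 + y.2 * y.2 ≤ c := hy
      have h1 := Int.le_self_sq y.1
      have h2 := Int.le_self_sq y.2
      have h3 := Int.le_self_sq (-y.1)
      have h4 := Int.le_self_sq (-y.2)
      refine ⟨⟨?_, ?_⟩, ?_, ?_⟩ <;>
        nlinarith [sq_nonneg (y.1 - y.2), sq_nonneg y.1, sq_nonneg y.2]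
  span H h y := by
    have e : y = y.1 • ((1, 0) : R) + y.2 • ((0, 1) : R) := by simp
    rw [e]
    exact add_mem (zsmul_mem (h _ (by simp)) _) (zsmul_mem (h _ (by simp)) _)

/-- The shape of the generators. -/
def shape (W I S : R → R) : ℕ → V → V
  | 0 => m3 (up (up (up W))) (up (up (up I))) (up (up (up I)))
  | 1 => xo (up (up (up I))) (up (up (up S)))
  | 2 => up (m3 (up (up I)) (up (up I)) (up (up W)))
  | 3 => dg (up (up W)) (up (up I))
  | 4 => up (xo (up (up I)) (up (up S)))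
  | 5 => up (up (m3 (up I) (up W) (up I)))
  | 6 => up (dg (up W) (up I))
  | 7 => up (up (xo (up I) (up S)))
  | 8 => up (up (up (m3 W I I)))
  | 9 => up (up (dg W I))
  | 10 => up (up (up (xo I S)))
  | _ + 11 => up (up (up (up I)))

/-- The linear part of a generator. -/
def step : ℕ → V → V := shape w0 id s0

/-- Three times the linear part. -/
def rho : ℕ → V → V := shape w1 i1 s1

/-- The invariant form. -/
def Q4 : V → ℤ := q3 (q3 (q3 (q3 q0)))

/-- The unit vectors. -/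
def units : List V := u3 (u3 (u3 (u3 [(1, 0), (0, 1)])))

theorem geo4 : Geo Q4 units := geo0.up.up.up.up

theorem op4 : ∀ s, Op Q4 (step s) (rho s)
  | 0 => lev0.up.up.up.w.m3 lev0.up.up.up.i lev0.up.up.up.i
  | 1 => lev0.up.up.up.xo
  | 2 => (lev0.up.up.i.m3 lev0.up.up.i lev0.up.up.w).up
  | 3 => lev0.up.up.w.dg lev0.up.up.i
  | 4 => lev0.up.up.xo.up
  | 5 => (lev0.up.i.m3 lev0.up.w lev0.up.i).up.up
  | 6 => (lev0.up.w.dg lev0.up.i).up
  | 7 => lev0.up.xo.up.up
  | 8 => (lev0.w.m3 lev0.i lev0.i).up.up.up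
  | 9 => (lev0.w.dg lev0.i).up.up
  | 10 => lev0.xo.up.up.up
  | _ + 11 => lev0.up.up.up.up.i

/-- The basis of the invariant lattice. -/
def B : V → V := bb (bb (bb (bb fun k => th^[(k + 1) / 2]))) 0

theorem ad_th (n : ℕ) : Ad th^[n] := by
  induction n with
  | zero => exact fun _ _ => rfl
  | succ n ih =>
    intro x y
    rw [Function.iterate_succ_apply, Function.iterate_succ_apply, Function.iterate_succ_apply,
      ← ih]
    congr 1
    ext <;> simp [th] <;> ring

theorem ad_B : Ad B := ad_bb (ad_bb (ad_bb (ad_bb fun _ => ad_th _))) 0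

/-- The value of the cocycle. -/
def zf (x : V) : ℤ :=
  x.2.1.1.1.2.1.1 - x.2.1.1.1.2.2.1 - x.2.2.1.1.2.1.1 + x.2.2.1.1.2.2.1

/-- One generator. -/
def st (s : ℕ) (y : V × ℤ) : V × ℤ := (step s y.1, y.2 + cond (Nat.beq s 6) (zf y.1) 0)

/-- A word. -/
def run (w : RW) (y : V × ℤ) : V × ℤ :=
  w.foldr (fun l z => cond l.2 (st l.1 z) (st l.1 (st l.1 z))) y

/-- Equality test. -/
def e4 : V → V → Bool := e3 (e3 (e3 (e3 fun x y => decide (x.1 = y.1) && decide (x.2 = y.2))))

theorem e4_eq : ∀ x y, e4 x y = true → x = y := e3_eq (e3_eq (e3_eq (e3_eq fun x y h => by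
  simpa [Prod.ext_iff] using h)))

/-- The test vector. -/
def pk : V := p3 (p3 (p3 (p3
  (fun a => (Int.ofNat (Nat.pow 4194319 a), Int.ofNat (Nat.pow 4194319 (a + 1)))) 2) 6) 18) 54 0

end Pool.Agent.MB.K4
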