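import Pool.Agent.Lib.MP_c86c76_al.B.K4a

/-!
A strict evaluator for the action.
-/

set_option autoImplicit false
set_option synthInstance.maxSize 2048

namespace Pool.Agent.MB.K4

/-- Evaluate a natural number before continuing. -/
noncomputable def fN (n : ℕ) (f : ℕ → Bool) : Bool :=
  Nat.rec (motive := fun _ => Bool) (f 0) (fun k _ => f (Nat.succ k)) n

theorem fN_eq (n : ℕ) (f : ℕ → Bool) : fN n f = f n := by cases n <;> rfl

/-- Evaluate an integer before continuing. -/
noncomputable def fZ (z : ℤ) (f : ℤ → Bool) : Bool :=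
  Int.rec (motive := fun _ => Bool) (fun n => fN n fun m => f (Int.ofNat m))
    (fun n => fN n fun m => f (Int.negSucc m)) z

theorem fZ_eq (z : ℤ) (f : ℤ → Bool) : fZ z f = f z := by
  cases z with
  | ofNat n => exact fN_eq n fun m => f (Int.ofNat m)
  | negSucc n => exact fN_eq n fun m => f (Int.negSucc m)

section comb

variable {α : Type}

/-- Maps with a continuation. -/
abbrev CM (α : Type) : Type := α → (α → Bool) → Bool

/-- Maps of three arguments with a continuation. -/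
abbrev CX (α : Type) : Type := α → α → α → (α → α → α → Bool) → Bool

/-- Open a triple. -/
noncomputable def o3 (y : P α) (k : α → α → α → Bool) : Bool :=
  Prod.rec (motive := fun _ => Bool)
    (fun u r => Prod.rec (motive := fun _ => Bool) (fun v w => k u v w) r) y

/-- The identity. -/
def cI : CM α := fun y k => k y

/-- Three maps on a triple. -/
noncomputable def cm (F G H : CM α) : CM (P α) := fun y k =>
  o3 y fun u v w => F u fun a => G v fun b => H w fun c => k (a, b, c)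

/-- One map on a triple. -/
noncomputable def cu (F : CM α) : CM (P α) := cm F F F

/-- A map on the diagonal. -/
noncomputable def cd (U : CM α) : CM (P (P α)) := cm (cm U cI cI) (cm cI U cI) (cm cI cI U)

/-- Mixing three triples. -/
noncomputable def c3 (X : CX α) : CX (P α) := fun u v w k =>
  o3 u fun u1 u2 u3 => o3 v fun v1 v2 v3 => o3 w fun w1 w2 w3 =>
    X u1 v1 w1 fun a1 b1 c1 => X u2 v2 w2 fun a2 b2 c2 => X u3 v3 w3 fun a3 b3 c3 =>
      k (a1, a2, a3) (b1, b2, b3) (c1, c2, c3)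

/-- Mixing a triple. -/
noncomputable def cx (X : CX α) : CM (P α) := fun y k =>
  o3 y fun u v w => X u v w fun a b c => k (a, b, c)

/-- `F` computes `f`. -/
def Cp (F : CM α) (f : α → α) : Prop := ∀ y k, F y k = k (f y)

/-- `X` computes the mixing. -/
def Cx [Add α] (X : CX α) (S : α → α) : Prop :=
  ∀ u v w k, X u v w k = k (u + S (u + v + w)) (v + S (u + v + w)) (w + S (u + v + w))

theorem cp_id : Cp (cI : CM α) id := fun _ _ => rfl

theorem Cp.cm {F G H : CM α} {f g h : α → α} (a : Cp F f) (b : Cp G g) (c : Cp H h) :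
    Cp (cm F G H) (m3 f g h) := fun y k => by
  show F y.1 (fun a => G y.2.1 fun b => H y.2.2 fun c => k (a, b, c)) = _
  rw [a, b, c]
  rfl

theorem Cp.cu {F : CM α} {f : α → α} (a : Cp F f) : Cp (cu F) (up f) := a.cm a a

theorem Cp.cd {F : CM α} {f : α → α} (a : Cp F f) : Cp (cd F) (dg f id) :=
  (a.cm cp_id cp_id).cm (cp_id.cm a cp_id) (cp_id.cm cp_id a)

theorem Cx.c3 [Add α] {X : CX α} {S : α → α} (a : Cx X S) : Cx (c3 X) (up S) := fun u v w k => by
  show X u.1 v.1 w.1 (fun a1 b1 c1 => X u.2.1 v.2.1 w.2.1 fun a2 b2 c2 =>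
    X u.2.2 v.2.2 w.2.2 fun a3 b3 c3 => k (a1, a2, a3) (b1, b2, b3) (c1, c2, c3)) = _
  rw [a, a, a]
  rfl

theorem Cx.cx [Add α] {X : CX α} {S : α → α} (a : Cx X S) : Cp (cx X) (xo id S) := fun y k => by
  show X y.1 y.2.1 y.2.2 (fun a b c => k (a, b, c)) = _
  rw [a]
  rfl

end comb

/-- Open a pair. -/
noncomputable def o2 (y : R) (k : ℤ → ℤ → Bool) : Bool := Prod.rec (motive := fun _ => Bool) k y

/-- Evaluate a pair. -/
noncomputable def cF : CM R := fun y k => o2 y fun a b => fZ a fun c => fZ b fun d => k (c, d)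

/-- Multiplication by `ω²`. -/
noncomputable def cW : CM R := fun y k =>
  o2 y fun a b => fZ (Int.sub b a) fun c => fZ (Int.neg a) fun d => k (c, d)

/-- Mixing three numbers. -/
noncomputable def cX : CX R := fun u v w k =>
  o2 u fun a1 b1 => o2 v fun a2 b2 => o2 w fun a3 b3 =>
    fZ (Int.add (Int.add a1 a2) a3) fun p =>
    fZ (Int.ediv (Int.add p (Int.add (Int.add b1 b2) b3)) (Int.ofNat 3)) fun t =>
    fZ (Int.sub t p) fun s => fZ (Int.neg t) fun r =>
    fZ (Int.add a1 s) fun x1 => fZ (Int.add b1 r) fun y1 =>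
    fZ (Int.add a2 s) fun x2 => fZ (Int.add b2 r) fun y2 =>
    fZ (Int.add a3 s) fun x3 => fZ (Int.add b3 r) fun y3 => k (x1, y1) (x2, y2) (x3, y3)

theorem cp_F : Cp cF id := fun y k => by
  show fZ y.1 (fun c => fZ y.2 fun d => k (c, d)) = _
  rw [fZ_eq, fZ_eq]
  rfl

theorem cp_W : Cp cW w0 := fun y k => by
  show fZ (Int.sub y.2 y.1) (fun c => fZ (Int.neg y.1) fun d => k (c, d)) = _
  rw [fZ_eq, fZ_eq]
  rfl

theorem cx_X : Cx cX s0 := fun u v w k => by
  obtain ⟨a1, b1⟩ := u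
  obtain ⟨a2, b2⟩ := v
  obtain ⟨a3, b3⟩ := w
  simp only [cX, o2, fZ_eq]
  rfl

/-- The strict generators. -/
noncomputable def cstep : ℕ → CM V
  | 0 => cm (cu (cu (cu cW))) cI cI
  | 1 => cx (c3 (c3 (c3 cX)))
  | 2 => cu (cm cI cI (cu (cu cW)))
  | 3 => cd (cu (cu cW))
  | 4 => cu (cx (c3 (c3 cX)))
  | 5 => cu (cu (cm cI (cu cW) cI))
  | 6 => cu (cd (cu cW))
  | 7 => cu (cu (cx (c3 cX)))
  | 8 => cu (cu (cu (cm cW cI cI)))
  | 9 => cu (cu (cd cW))
  | 10 => cu (cu (cu (cx cX)))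
  | _ + 11 => cI

theorem cp_step : ∀ s, Cp (cstep s) (step s)
  | 0 => cp_W.cu.cu.cu.cm cp_id cp_id
  | 1 => cx_X.c3.c3.c3.cx
  | 2 => (cp_id.cm cp_id cp_W.cu.cu).cu
  | 3 => cp_W.cu.cu.cd
  | 4 => cx_X.c3.c3.cx.cu
  | 5 => (cp_id.cm cp_W.cu cp_id).cu.cu
  | 6 => cp_W.cu.cd.cu
  | 7 => cx_X.c3.cx.cu.cu
  | 8 => (cp_W.cm cp_id cp_id).cu.cu.cu
  | 9 => cp_W.cd.cu.cu
  | 10 => cx_X.cx.cu.cu.cu
  | _ + 11 => cp_id

/-- Evaluate a vector. -/
noncomputable def cF4 : CM V := cu (cu (cu (cu cF)))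

theorem cF4_eq (y : V) (k : V → Bool) : cF4 y k = k y := cp_F.cu.cu.cu.cu y k

/-- One strict generator. -/
noncomputable def cst (s : ℕ) (y : V) (n : ℤ) (k : V → ℤ → Bool) : Bool :=
  fZ (Int.add n (cond (Nat.beq s 6) (zf y) 0)) fun m => cstep s y fun x => k x m

theorem cst_eq (s : ℕ) (y : V) (n : ℤ) (k : V → ℤ → Bool) :
    cst s y n k = k (st s (y, n)).1 (st s (y, n)).2 := by
  rw [cst, fZ_eq, cp_step]
  rfl

/-- A strict word. -/
noncomputable def crun (w : RW) (y : V) (n : ℤ) : (V → ℤ → Bool) → Bool :=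
  List.rec (motive := fun _ => (V → ℤ → Bool) → Bool) (fun k => k y n)
    (fun l _ ih k => ih fun x m => Bool.rec (motive := fun _ => Bool)
      (cst l.1 x m fun x' m' => cst l.1 x' m' k) (cst l.1 x m k) l.2) w

theorem crun_eq (w : RW) (y : V) (n : ℤ) (k : V → ℤ → Bool) :
    crun w y n k = k (run w (y, n)).1 (run w (y, n)).2 := by
  induction w generalizing k with
  | nil => rfl
  | cons l w ih =>
    obtain ⟨s, b⟩ := l
    refine (ih fun x m => Bool.rec (motive := fun _ => Bool)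
      (cst s x m fun x' m' => cst s x' m' k) (cst s x m k) b).trans ?_
    cases b
    · exact (cst_eq _ _ _ _).trans (cst_eq _ _ _ _)
    · exact cst_eq _ _ _ _

/-- The test for a list of words. -/
noncomputable def chkL (ws : List RW) : Bool :=
  cF4 (B pk) fun y => ws.all fun w => Nat.blt w.length 4000 &&
    crun w y (Int.ofNat 0) fun x n => e4 x y && decide (n = 0)

/-- The test for one word. -/
noncomputable def chk4 (w : RW) : Bool := chkL [w]

/-- The word fixes the base point and shifts the fibre. -/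
noncomputable def hol4 (c : V) (w : RW) : Bool :=
  cF4 (B c) fun y => crun w y (Int.ofNat 0) fun x n => e4 x y && !decide (n = 0)

end Pool.Agent.MB.K4
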