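import Pool.Agent.Lib.MP_c86c76_al.B.K4a

/-!
The invariant lattice.
-/

set_option autoImplicit false
set_option synthInstance.maxSize 2048

namespace Pool.Agent.MB.K4

section lat

variable {α : Type} [AddCommGroup α]

/-- The lattices of the next level. -/
def lat (Λ : ℕ → AddSubgroup α) (k : ℕ) : AddSubgroup (P α) where
  carrier := {y | y.1 ∈ Λ k ∧ y.2.1 - y.1 ∈ Λ (k + 1) ∧ y.2.2 - y.2.1 - y.2.1 + y.1 ∈ Λ (k + 2)}
  zero_mem' := by simp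
  add_mem' := fun {x y} hx hy => ⟨add_mem hx.1 hy.1,
    by convert add_mem hx.2.1 hy.2.1 using 1; simp only [Prod.fst_add, Prod.snd_add]; abel,
    by convert add_mem hx.2.2 hy.2.2 using 1; simp only [Prod.fst_add, Prod.snd_add]; abel⟩
  neg_mem' := fun {x} hx => ⟨neg_mem hx.1,
    by convert neg_mem hx.2.1 using 1; simp only [Prod.fst_neg, Prod.snd_neg]; abel,
    by convert neg_mem hx.2.2 using 1; simp only [Prod.fst_neg, Prod.snd_neg]; abel⟩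

theorem mem_lat {Λ : ℕ → AddSubgroup α} {k : ℕ} {y : P α} : y ∈ lat Λ k ↔
    y.1 ∈ Λ k ∧ y.2.1 - y.1 ∈ Λ (k + 1) ∧ y.2.2 - y.2.1 - y.2.1 + y.1 ∈ Λ (k + 2) := Iff.rfl

/-- The lattices of one level. -/
structure La (Λ : ℕ → AddSubgroup α) (F : ℕ → α → α) (W I S : α → α) : Prop where
  m : ∀ k, Λ (k + 1) ≤ Λ k
  d : ∀ k y, y ∈ Λ k → S y ∈ Λ (k + 2)
  x : ∀ k y, y ∈ Λ (k + 2) → ∃ t ∈ Λ k, S y = (3 : ℤ) • t
  t : ∀ k y, y ∈ Λ k → (3 : ℤ) • y ∈ Λ (k + 2)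
  r : ∀ k y, y ∈ Λ k ↔ ∃ c, F k c = y
  w : ∀ y, W y = (3 : ℤ) • (y + S y)
  i : ∀ y, I y = (3 : ℤ) • y
  ad : Ad S

/-- A third of `g` keeps the lattices. -/
def Pr (Λ : ℕ → AddSubgroup α) (g : α → α) : Prop :=
  ∀ k y, y ∈ Λ k → ∃ t ∈ Λ k, g y = (3 : ℤ) • t

theorem Ad.sub {g : α → α} (a : Ad g) (x y : α) : g (x - y) = g x - g y :=
  map_sub (AddMonoidHom.mk' g a) x y

theorem Ad.smul {g : α → α} (a : Ad g) (n : ℤ) (x : α) : g (n • x) = n • g x :=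
  map_zsmul (AddMonoidHom.mk' g a) n x

theorem up_third {Λ : ℕ → AddSubgroup α} {g : α → α} (a : Ad g) {k : ℕ} {y : P α} {u v w : α}
    (hu : u ∈ Λ k) (hv : v ∈ Λ (k + 1)) (hw : w ∈ Λ (k + 2)) (h1 : g y.1 = (3 : ℤ) • u)
    (h2 : g (y.2.1 - y.1) = (3 : ℤ) • v) (h3 : g (y.2.2 - y.2.1 - y.2.1 + y.1) = (3 : ℤ) • w) :
    ∃ t ∈ lat Λ k, up g y = (3 : ℤ) • t := by
  rw [a.sub, h1, sub_eq_iff_eq_add] at h2
  rw [a, a.sub, a.sub, h1, h2, ← eq_sub_iff_add_eq, sub_eq_iff_eq_add, sub_eq_iff_eq_add] at h3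
  refine ⟨(u, u + v, u + v + v + w), ⟨hu, by simpa using hv, ?_⟩, Prod.ext h1 (Prod.ext ?_ ?_)⟩
  · convert hw using 1
    dsimp only
    abel
  · show g y.2.1 = (3 : ℤ) • (u + v)
    rw [h2]
    abel
  · show g y.2.2 = (3 : ℤ) • (u + v + v + w)
    rw [h3]
    abel

theorem Pr.up {Λ : ℕ → AddSubgroup α} {g : α → α} (h : Pr Λ g) (a : Ad g) :
    Pr (lat Λ) (up g) := fun k y hy => by
  obtain ⟨u, hu, h1⟩ := h _ _ hy.1
  obtain ⟨v, hv, h2⟩ := h _ _ hy.2.1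
  obtain ⟨w, hw, h3⟩ := h _ _ hy.2.2
  exact up_third a hu hv hw h1 h2 h3

variable {Λ : ℕ → AddSubgroup α} {F : ℕ → α → α} {W I S : α → α}

theorem La.up (a : La Λ F W I S) : La (lat Λ) (bb F) (up W) (up I) (up S) where
  m k y hy := ⟨a.m _ hy.1, a.m _ hy.2.1, a.m _ hy.2.2⟩
  d k y hy := ⟨a.d _ _ hy.1, by
    have := a.d _ _ hy.2.1
    rwa [a.ad.sub] at this, by
    have := a.d _ _ hy.2.2
    rwa [a.ad, a.ad.sub, a.ad.sub] at this⟩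
  x k y hy := by
    obtain ⟨u, hu, h1⟩ := a.x _ _ hy.1
    obtain ⟨v, hv, h2⟩ := a.x (k + 1) _ hy.2.1
    obtain ⟨w, hw, h3⟩ := a.x (k + 2) _ hy.2.2
    exact up_third a.ad hu hv hw h1 h2 h3
  t k y hy := ⟨a.t _ _ hy.1, by
    have := a.t _ _ hy.2.1
    rwa [smul_sub] at this, by
    have := a.t _ _ hy.2.2
    rwa [smul_add, smul_sub, smul_sub] at this⟩
  r k y := by
    constructor
    · rintro ⟨h1, h2, h3⟩
      obtain ⟨u, h1⟩ := (a.r _ _).1 h1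
      obtain ⟨v, h2⟩ := (a.r _ _).1 h2
      obtain ⟨w, h3⟩ := (a.r _ _).1 h3
      refine ⟨(u, v, w), Prod.ext h1 (Prod.ext ?_ ?_)⟩ <;> simp only [bb, h1, h2, h3] <;> abel
    · rintro ⟨c, rfl⟩
      refine ⟨(a.r _ _).2 ⟨_, rfl⟩, (a.r _ _).2 ⟨c.2.1, ?_⟩, (a.r _ _).2 ⟨c.2.2, ?_⟩⟩ <;>
        simp only [bb] <;> abel
  w y := Prod.ext (a.w _) (Prod.ext (a.w _) (a.w _))
  i y := Prod.ext (a.i _) (Prod.ext (a.i _) (a.i _))
  ad := ad_m3 a.ad a.ad a.ad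

theorem La.comp (a : La Λ F W I S) {k : ℕ} {y : P α} (hy : y ∈ lat Λ k) :
    y.1 ∈ Λ k ∧ y.2.1 ∈ Λ k ∧ y.2.2 ∈ Λ k := by
  have h2 : y.2.1 ∈ Λ k := by simpa using add_mem (a.m _ hy.2.1) hy.1
  refine ⟨hy.1, h2, ?_⟩
  convert add_mem (add_mem (sub_mem (a.m _ (a.m _ hy.2.2)) hy.1) h2) h2 using 1
  abel

theorem La.of (a : La Λ F W I S) {k : ℕ} {u v w : α} (hu : u ∈ Λ (k + 2)) (hv : v ∈ Λ (k + 2))
    (hw : w ∈ Λ (k + 2)) : (u, v, w) ∈ lat Λ k :=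
  ⟨a.m _ (a.m _ hu), a.m _ (sub_mem hv hu), add_mem (sub_mem (sub_mem hw hv) hv) hu⟩

/-- A third of `f` is the identity up to the smaller lattice. -/
def Ne (Λ : ℕ → AddSubgroup α) (f : α → α) : Prop :=
  ∀ k y, y ∈ Λ k → ∃ d ∈ Λ (k + 2), f y = (3 : ℤ) • (y + d)

theorem La.neW (a : La Λ F W I S) : Ne Λ W := fun _ y hy => ⟨_, a.d _ _ hy, a.w y⟩

theorem La.neI (a : La Λ F W I S) : Ne Λ I := fun _ y _ => ⟨0, zero_mem _, by rw [a.i, add_zero]⟩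

theorem La.m3 (a : La Λ F W I S) {f g h : α → α} (hf : Ne Λ f) (hg : Ne Λ g) (hh : Ne Λ h) :
    Pr (lat Λ) (m3 f g h) := fun k y hy => by
  obtain ⟨u, hu, h1⟩ := hf _ _ (a.comp hy).1
  obtain ⟨v, hv, h2⟩ := hg _ _ (a.comp hy).2.1
  obtain ⟨w, hw, h3⟩ := hh _ _ (a.comp hy).2.2
  exact ⟨y + (u, v, w), add_mem hy (a.of hu hv hw), Prod.ext h1 (Prod.ext h2 h3)⟩

theorem La.xo (a : La Λ F W I S) : Pr (lat Λ) (xo I S) := fun k y hy => by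
  obtain ⟨t, ht, h⟩ := a.x _ _ hy.2.2
  have e : S (y.1 + y.2.1 + y.2.2) = (3 : ℤ) • (S y.2.1 + t) := by
    rw [smul_add, ← h, ← a.ad.smul, ← a.ad]
    congr 1
    abel
  have hs : S y.2.1 + t ∈ Λ k := add_mem (a.m _ (a.m _ (a.d _ _ (a.comp hy).2.1))) ht
  refine ⟨y + (S y.2.1 + t, S y.2.1 + t, S y.2.1 + t), add_mem hy ⟨hs, by simp, by simp⟩, ?_⟩
  simp only [K4.xo, e, a.i, ← smul_add]
  rfl

theorem La.dg (a : La Λ F W I S) : Pr (lat (lat Λ)) (dg W I) := fun k y hy => by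
  have hd : (y.1.1, y.2.1.2.1, y.2.2.2.2) ∈ lat Λ k := by
    refine ⟨hy.1.1, ?_, ?_⟩
    · convert add_mem (a.comp hy.2.1).2.1 hy.1.2.1 using 1
      simp only [Prod.fst_sub, Prod.snd_sub]
      abel
    · have e := add_mem (a.m _ hy.2.1.2.2) hy.2.1.2.1
      convert add_mem (add_mem (add_mem (a.comp hy.2.2).2.2 e) e) hy.1.2.2 using 1
      simp only [Prod.fst_sub, Prod.snd_sub, Prod.snd_add]
      abel
  have hs : (S y.1.1, S y.2.1.2.1, S y.2.2.2.2) ∈ lat Λ (k + 2) := a.up.d _ _ hd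
  obtain ⟨c0, c1, c2⟩ := a.comp hs
  have c3 := a.t _ _ c1
  have c4 := sub_mem hs.2.1 (a.m _ c3)
  refine ⟨y + ((S y.1.1, 0, 0), (0, S y.2.1.2.1, 0), (0, 0, S y.2.2.2.2)),
    add_mem hy ⟨a.of c0 (zero_mem _) (zero_mem _), ⟨?_, ?_, ?_⟩, ?_, ?_, ?_⟩, ?_⟩
  · simpa using a.m _ c0
  · simpa using add_mem c1 c0
  · convert c4 using 1
    simp only [Prod.fst_sub, Prod.snd_sub]
    abel
  · simpa using c0
  · convert c4 using 1
    simp only [Prod.fst_sub, Prod.snd_sub, Prod.fst_add, Prod.snd_add]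
    abel
  · convert add_mem (add_mem hs.2.2 c3) c3 using 1
    simp only [Prod.fst_sub, Prod.snd_sub, Prod.fst_add, Prod.snd_add]
    abel
  · simp only [K4.dg, K4.m3, a.i, a.w]
    ext <;> simp

theorem La.prI (a : La Λ F W I S) : Pr Λ I := fun _ y hy => ⟨y, hy, a.i y⟩

end lat

/-- The lattices of the bottom level. -/
def lat0 (k : ℕ) : AddSubgroup R := (AddMonoidHom.mk' th^[(k + 1) / 2] (ad_th _)).range

theorem la0 : La lat0 (fun k => th^[(k + 1) / 2]) w1 i1 s1 := by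
  have e : ∀ k : ℕ, (k + 2 + 1) / 2 = (k + 1) / 2 + 1 := fun k => by omega
  have c : ∀ n y, s1 (th^[n] y) = th^[n] (s1 y) := fun n =>
    Function.Commute.iterate_right (fun y => by ext <;> simp [s1, th] <;> ring) n
  refine ⟨fun k => ?_, ?_, ?_, ?_, fun _ _ => Iff.rfl, fun y => by ext <;> simp [w1, s1] <;> ring,
    fun _ => rfl, lev0.ad⟩
  · rintro _ ⟨y, rfl⟩
    rcases (by omega : (k + 1 + 1) / 2 = (k + 1) / 2 ∨ (k + 1 + 1) / 2 = (k + 1) / 2 + 1) with h | h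
    · exact ⟨y, by simp only [AddMonoidHom.mk'_apply, h]⟩
    · exact ⟨th y, by simp only [AddMonoidHom.mk'_apply, h, Function.iterate_succ_apply]⟩
  · rintro k _ ⟨y, rfl⟩
    refine ⟨(-y.2, y.1 - y.2), ?_⟩
    simp only [AddMonoidHom.mk'_apply, e, Function.iterate_succ_apply, c]
    congr 1
    ext <;> simp [s1, th] <;> ring
  · rintro k _ ⟨y, rfl⟩
    refine ⟨_, ⟨(y.2, y.2 - y.1), rfl⟩, ?_⟩
    simp only [AddMonoidHom.mk'_apply, e, Function.iterate_succ_apply, c, ← (ad_th _).smul]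
    congr 1
    ext <;> simp [s1, th] <;> ring
  · rintro k _ ⟨y, rfl⟩
    refine ⟨-th y, ?_⟩
    simp only [AddMonoidHom.mk'_apply, e, Function.iterate_succ_apply, ← (ad_th _).smul]
    congr 1
    ext <;> simp [th] <;> ring

/-- The invariant lattice. -/
def L : AddSubgroup V := lat (lat (lat (lat lat0))) 0

theorem mem_L (y : V) : y ∈ L ↔ ∃ c, B c = y := la0.up.up.up.up.r 0 y

theorem pr4 : ∀ s, Pr (lat (lat (lat (lat lat0)))) (rho s)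
  | 0 => la0.up.up.up.m3 la0.up.up.up.neW la0.up.up.up.neI la0.up.up.up.neI
  | 1 => la0.up.up.up.xo
  | 2 => (la0.up.up.m3 la0.up.up.neI la0.up.up.neI la0.up.up.neW).up
      (lev0.up.up.i.m3 lev0.up.up.i lev0.up.up.w).ad
  | 3 => la0.up.up.dg
  | 4 => la0.up.up.xo.up lev0.up.up.xo.ad
  | 5 => ((la0.up.m3 la0.up.neI la0.up.neW la0.up.neI).up
      (lev0.up.i.m3 lev0.up.w lev0.up.i).ad).up (lev0.up.i.m3 lev0.up.w lev0.up.i).up.ad
  | 6 => la0.up.dg.up (lev0.up.w.dg lev0.up.i).ad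
  | 7 => (la0.up.xo.up lev0.up.xo.ad).up lev0.up.xo.up.ad
  | 8 => (((la0.m3 la0.neW la0.neI la0.neI).up (lev0.w.m3 lev0.i lev0.i).ad).up
      (lev0.w.m3 lev0.i lev0.i).up.ad).up (lev0.w.m3 lev0.i lev0.i).up.up.ad
  | 9 => (la0.dg.up (lev0.w.dg lev0.i).ad).up (lev0.w.dg lev0.i).up.ad
  | 10 => ((la0.xo.up lev0.xo.ad).up lev0.xo.up.ad).up lev0.xo.up.up.ad
  | _ + 11 => la0.up.up.up.up.prI

theorem step_L (s : ℕ) {y : V} (hy : y ∈ L) : step s y ∈ L ∧ rho s y = (3 : ℤ) • step s y := by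
  obtain ⟨t, ht, h⟩ := pr4 s 0 y hy
  rw [(op4 s).th y t h]
  exact ⟨ht, h⟩

theorem step_add (s : ℕ) {x y : V} (hx : x ∈ L) (hy : y ∈ L) :
    step s (x + y) = step s x + step s y :=
  (op4 s).th _ _ (by rw [(op4 s).ad, (step_L s hx).2, (step_L s hy).2, smul_add])

theorem step_Q (s : ℕ) {y : V} (hy : y ∈ L) : Q4 (step s y) = Q4 y := by
  have h1 := (op4 s).q y
  have h2 := lev0.up.up.up.up.i.q (step s y)
  rw [lev0.up.up.up.up.tr, ← (step_L s hy).2] at h2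
  have h3 : Q4 (rho s y) = 9 * Q4 (step s y) := h2
  omega

end Pool.Agent.MB.K4
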