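import Pool.Agent.Lib.MP_c86c76_al.B.K4b
import Pool.Agent.Lib.MP_c86c76_al.B.K4c
import Pool.Agent.Lib.MP_c86c76_al.B.Raw

/-!
Soundness of the word test, the group of good permutations and its virtual character.
-/

set_option autoImplicit false
set_option synthInstance.maxSize 2048

namespace Pool.Agent.MB.K4

theorem zf_add (x y : V) : zf (x + y) = zf x + zf y := by
  simp only [zf, Prod.fst_add, Prod.snd_add]
  ring

theorem leaf_bd (y : R) (h : q0 y ≤ 6000) : |y.1| ≤ 110 := by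
  simp only [q0] at h
  rw [abs_le]
  constructor <;> nlinarith [sq_nonneg (y.1 - y.2), sq_nonneg y.2]

theorem zf_bd (x : V) (h : Q4 x ≤ 6000) : |zf x| ≤ 440 := by
  have a := geo0.up.up.up.le x
  have b1 := (geo0.up.le x.2.1.1).1.trans ((geo0.up.up.le x.2.1).1.trans (a.2.1.trans h))
  have b2 := (geo0.up.le x.2.2.1).1.trans ((geo0.up.up.le x.2.2).1.trans (a.2.2.trans h))
  have c1 := abs_le.1 (leaf_bd _ ((geo0.le _).2.1.trans b1))
  have c2 := abs_le.1 (leaf_bd _ ((geo0.le _).2.2.trans b1))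
  have c3 := abs_le.1 (leaf_bd _ ((geo0.le _).2.1.trans b2))
  have c4 := abs_le.1 (leaf_bd _ ((geo0.le _).2.2.trans b2))
  rw [abs_le, zf]
  omega

/-- The properties of a map on the lattice. -/
structure Ok (m : ℕ) (f : V × ℤ → V × ℤ) : Prop where
  mem : ∀ y, y.1 ∈ L → (f y).1 ∈ L
  q : ∀ y, y.1 ∈ L → Q4 (f y).1 = Q4 y.1
  add : ∀ x y, x.1 ∈ L → y.1 ∈ L → f (x + y) = f x + f y
  sh : ∀ x n, f (x, n) = ((f (x, 0)).1, (f (x, 0)).2 + n)
  bd : ∀ y, y.1 ∈ L → Q4 y.1 ≤ 6000 → |(f y).2 - y.2| ≤ 440 * m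

theorem ok_st (s : ℕ) : Ok 1 (st s) where
  mem _ h := (step_L s h).1
  q _ h := step_Q s h
  add x y hx hy := Prod.ext (step_add s hx hy) (by
    simp only [st, Prod.fst_add, Prod.snd_add, zf_add]
    cases Nat.beq s 6 <;> simp only [cond_true, cond_false] <;> ring)
  sh x n := Prod.ext rfl (by simp only [st]; ring)
  bd y _ h := by
    have := zf_bd _ h
    simp only [st, add_sub_cancel_left]
    cases Nat.beq s 6
    · simp
    · simpa using this

theorem Ok.comp {m n : ℕ} {f g : V × ℤ → V × ℤ} (a : Ok m f) (b : Ok n g) :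
    Ok (m + n) fun y => f (g y) where
  mem _ h := a.mem _ (b.mem _ h)
  q _ h := (a.q _ (b.mem _ h)).trans (b.q _ h)
  add x y hx hy := by rw [b.add x y hx hy, a.add _ _ (b.mem _ hx) (b.mem _ hy)]
  sh x k := by
    rw [b.sh, a.sh, show g (x, 0) = ((g (x, 0)).1, (g (x, 0)).2) from rfl, a.sh _ (g (x, 0)).2]
    simp only [add_assoc]
  bd y hy h := by
    have h1 := abs_le.1 (b.bd y hy h)
    have h2 := abs_le.1 (a.bd _ (b.mem _ hy) ((b.q _ hy).trans_le h))
    rw [abs_le]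
    push_cast
    omega

theorem ok_run (w : RW) : ∃ m ≤ 2 * w.length, Ok m (run w) := by
  induction w with
  | nil => exact ⟨0, le_rfl, fun _ h => h, fun _ _ => rfl, fun _ _ _ _ => rfl,
      fun x n => by simp [run], fun y _ _ => by simp [run]⟩
  | cons l w ih =>
    obtain ⟨m, hm, h⟩ := ih
    obtain ⟨s, _ | _⟩ := l
    · exact ⟨1 + (1 + m), by simp only [List.length_cons]; omega,
        (ok_st s).comp ((ok_st s).comp h)⟩
    · exact ⟨1 + m, by simp only [List.length_cons]; omega, (ok_st s).comp h⟩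

theorem pack_units : pack units = pk := e4_eq _ _ (by decide +kernel)

theorem units_Q : ∀ u ∈ units, Q4 (B u) ≤ 6000 := by
  have : (units.all fun u => cF4 (B u) fun y => decide (Q4 y ≤ 6000)) = true := by decide +kernel
  simpa only [List.all_eq_true, cF4_eq, decide_eq_true_eq] using this

theorem fix_of_pk {m : ℕ} {f : V × ℤ → V × ℤ} (a : Ok m f) (hm : m ≤ 8000)
    (h : f (B pk, 0) = (B pk, 0)) (y : V × ℤ) (hy : y.1 ∈ L) : f y = y := by
  have hB : ∀ u, B u ∈ L := fun u => (mem_L _).2 ⟨u, rfl⟩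
  let D : V →+ V × ℤ := AddMonoidHom.mk' (fun u => f (B u, 0) - (B u, 0)) fun u v => by
    rw [ad_B, show ((B u + B v, 0) : V × ℤ) = (B u, 0) + (B v, 0) from rfl,
      a.add _ _ (hB u) (hB v)]
    abel
  have key : ∀ φ : V × ℤ →+ ℤ, (∀ u ∈ units, |φ (D u)| < 4194319) → ∀ u ∈ units, φ (D u) = 0 := by
    intro φ hφ u hu
    refine pack_zero (units.map (φ.comp D)) (fun d hd => ?_) ?_ _ (List.mem_map_of_mem hu)
    · obtain ⟨v, hv, rfl⟩ := List.mem_map.1 hd
      exact hφ v hv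
    · rw [← map_pack, pack_units]
      show φ (f (B pk, 0) - (B pk, 0)) = 0
      rw [h, sub_self, map_zero]
  have hD : ∀ u, D u = 0 := geo4.span D.ker fun u hu => by
    refine Prod.ext ?_ (key (AddMonoidHom.snd _ _) (fun v hv => ?_) u hu)
    · by_contra h0
      obtain ⟨φ, h1, h2⟩ := geo4.sep _ h0
      refine h1 (key (φ.comp (AddMonoidHom.fst _ _)) (fun v hv => ?_) u hu)
      have b1 := h2 (B v)
      have b2 := h2 (f (B v, 0)).1
      have b3 := units_Q v hv
      rw [a.q _ (hB v)] at b2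
      show |φ ((f (B v, 0)).1 - B v)| < _
      rw [map_sub, abs_lt]
      constructor <;> nlinarith [sq_nonneg (φ (B v) + 1), sq_nonneg (φ (B v) - 1),
        sq_nonneg (φ (f (B v, 0)).1 + 1), sq_nonneg (φ (f (B v, 0)).1 - 1)]
    · have := a.bd (B v, 0) (hB v) (units_Q v hv)
      show |(f (B v, 0)).2 - 0| < _
      have hm' : (m : ℤ) ≤ 8000 := by exact_mod_cast hm
      exact this.trans_lt (by omega)
  obtain ⟨x, n⟩ := y
  obtain ⟨c, rfl⟩ : ∃ c, B c = x := (mem_L _).1 hy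
  rw [a.sh, show f (B c, 0) = (B c, 0) from sub_eq_zero.1 (hD c), zero_add]

theorem run_of_chk {ws : List RW} (h : chkL ws = true) (w : RW) (hw : w ∈ ws) (y : V × ℤ)
    (hy : y.1 ∈ L) : run w y = y := by
  rw [chkL, cF4_eq, List.all_eq_true] at h
  have h1 := h w hw
  rw [crun_eq] at h1
  simp only [Bool.and_eq_true, decide_eq_true_eq, Nat.blt_eq] at h1
  obtain ⟨m, hm, a⟩ := ok_run w
  exact fix_of_pk a (by omega) (Prod.ext (e4_eq _ _ h1.2.1) h1.2.2) y hy

/-- The points acted on. -/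
abbrev Y : Type := L × ℤ

/-- A word on points. -/
def runY (w : RW) (y : Y) : Y :=
  (⟨(run w (y.1.1, y.2)).1, (ok_run w).elim fun _ h => h.2.mem _ y.1.2⟩, (run w (y.1.1, y.2)).2)

theorem st_three : ∀ (s : ℕ) (y : V × ℤ), y.1 ∈ L → st s (st s (st s y)) = y := by
  have h : chkL ((List.range 11).map fun s => [(s, true), (s, false)]) = true := by decide +kernel
  intro s y hy
  by_cases hs : s < 11
  · exact run_of_chk h _ (List.mem_map_of_mem (List.mem_range.2 hs)) y hy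
  · obtain ⟨k, rfl⟩ : ∃ k, s = k + 11 := ⟨s - 11, by omega⟩
    have : ∀ z, st (k + 11) z = z := fun z => Prod.ext rfl (add_zero _)
    rw [this, this, this]

/-- The generators as permutations. -/
def genP (s : ℕ) : Equiv.Perm Y :=
  ⟨runY [(s, true)], runY [(s, false)],
    fun y => Prod.ext (Subtype.ext (congrArg (·.1) (st_three s (y.1.1, y.2) y.1.2)))
      (congrArg (·.2) (st_three s (y.1.1, y.2) y.1.2)),
    fun y => Prod.ext (Subtype.ext (congrArg (·.1) (st_three s (y.1.1, y.2) y.1.2)))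
      (congrArg (·.2) (st_three s (y.1.1, y.2) y.1.2))⟩

/-- Permutations that commute with the shift and keep the form. -/
def Good4 : Subgroup (Equiv.Perm Y) where
  carrier := {p | ∀ x n, p (x, n) = ((p (x, 0)).1, (p (x, 0)).2 + n) ∧ Q4 (p (x, n)).1.1 = Q4 x.1}
  one_mem' := fun x n => by simp
  mul_mem' := by
    intro p q hp hq x n
    refine ⟨?_, ?_⟩
    · simp only [Equiv.Perm.mul_apply]
      rw [(hq x n).1, (hp _ _).1, show q (x, 0) = ((q (x, 0)).1, (q (x, 0)).2) from rfl,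
        (hp _ (q (x, 0)).2).1]
      simp only [add_assoc]
    · rw [Equiv.Perm.mul_apply, show q (x, n) = ((q (x, n)).1, (q (x, n)).2) from rfl,
        (hp _ _).2, (hq x n).2]
  inv_mem' := by
    intro p hp x n
    refine ⟨?_, ?_⟩
    · rw [Equiv.Perm.inv_eq_iff_eq, (hp _ _).1]
      have h := (hp (p⁻¹ (x, 0)).1 (p⁻¹ (x, 0)).2).1
      rw [Prod.mk.eta, show p (p⁻¹ (x, 0)) = (x, 0) from p.apply_symm_apply _,
        Prod.mk.injEq] at h
      rw [← h.1, ← add_assoc, ← h.2, zero_add]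
    · have h := (hp (p⁻¹ (x, n)).1 (p⁻¹ (x, n)).2).2
      rw [Prod.mk.eta, show p (p⁻¹ (x, n)) = (x, n) from p.apply_symm_apply _] at h
      exact h.symm

/-- The values of the generators. -/
def tau4 (s : ℕ) : Good4 := ⟨genP s, fun x n =>
  ⟨Prod.ext rfl (congrArg (·.2) ((ok_st s).sh x.1 n)), (ok_st s).q (x.1, n) x.2⟩⟩

theorem gw_tau4 (w : RW) (y : Y) : (gw tau4 w).1 y = runY w y := by
  induction w with
  | nil => rfl
  | cons l w ih =>
    rw [Raw_cons, Subgroup.coe_mul, Equiv.Perm.mul_apply, ih]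
    obtain ⟨s, _ | _⟩ := l <;> rfl

theorem one_of_chkL {ws : List RW} (h : chkL ws = true) : ∀ w ∈ ws, gw tau4 w = 1 := fun w hw =>
  Subtype.ext (Equiv.ext fun y => (gw_tau4 w y).trans (Prod.ext
    (Subtype.ext (congrArg (·.1) (run_of_chk h w hw (y.1.1, y.2) y.1.2)))
    (congrArg (·.2) (run_of_chk h w hw (y.1.1, y.2) y.1.2))))

theorem one_of_chk4 {w : RW} (h : chk4 w = true) : gw tau4 w = 1 :=
  one_of_chkL h w List.mem_cons_self

theorem virtual4 (x0 : L) (g : Good4) (h1 : (g.1 (x0, 0)).1 = x0) (h2 : (g.1 (x0, 0)).2 ≠ 0) :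
    ∃ K : Subgroup Good4, K.FiniteIndex ∧ ∃ (χ : K →* Multiplicative ℤ) (γ : K),
      χ γ ≠ 1 ∧ γ.1 = g := by
  have hmul : ∀ (g h : Good4) x, (g * h).1 (x, 0) =
      ((g.1 ((h.1 (x, 0)).1, 0)).1, (g.1 ((h.1 (x, 0)).1, 0)).2 + (h.1 (x, 0)).2) :=
    fun g h x => (g.2 (h.1 (x, 0)).1 (h.1 (x, 0)).2).1
  let act : MulAction Good4 L :=
    { smul := fun g x => (g.1 (x, 0)).1
      one_smul := fun x => rfl
      mul_smul := fun g h x => congrArg (·.1) (hmul g h x) }
  have hfin : (MulAction.orbit Good4 x0).Finite :=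
    ((geo4.fin (Q4 x0.1)).preimage Subtype.val_injective.injOn).subset (by
      rintro _ ⟨g, rfl⟩
      exact (g.2 x0 0).2.le)
  refine ⟨MulAction.stabilizer Good4 x0, ⟨?_⟩, MonoidHom.mk'
    (fun k => Multiplicative.ofAdd (k.1.1 (x0, 0)).2) fun a b => ?_, ⟨g, h1⟩, h2, rfl⟩
  · rw [MulAction.index_stabilizer]
    exact ((Set.ncard_pos hfin).2 ⟨x0, MulAction.mem_orbit_self x0⟩).ne'
  · have hb : (b.1.1 (x0, 0)).1 = x0 := b.2
    rw [Subgroup.coe_mul, hmul, hb, ofAdd_add]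

theorem virtual_of_hol4 {c : V} {w : RW} (h : hol4 c w = true) :
    ∃ K : Subgroup Good4, K.FiniteIndex ∧ ∃ (χ : K →* Multiplicative ℤ) (γ : K),
      χ γ ≠ 1 ∧ γ.1 = gw tau4 w := by
  rw [hol4, cF4_eq, crun_eq] at h
  simp only [Bool.and_eq_true, Bool.not_eq_true', decide_eq_false_iff_not] at h
  refine virtual4 ⟨B c, (mem_L _).2 ⟨c, rfl⟩⟩ _ ?_ ?_
  · rw [gw_tau4]
    exact Subtype.ext (e4_eq _ _ h.1)
  · rw [gw_tau4]
    exact h.2

end Pool.Agent.MB.K4
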