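import Pool.Agent.Lib.MP_c86c76_al.B.All
import Pool.Agent.Lib.MP_c86c76_al.B.Rels
import Pool.Agent.Lib.MP_c86c76_al.B.Dat1
import Pool.Agent.Lib.MP_c86c76_al.B.Dat2
import Pool.Agent.Lib.MP_c86c76_al.B.Dat3

/-!
The presentation of the stabiliser of the boundary word in genus at most three.
-/

set_option autoImplicit false

namespace Pool.Agent.MB

theorem sb1 : sbR (C1.rels 0 ([] : List SA).length) rels3 = true := by decide +kernel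

theorem sb2 : sbR (C2.rels 2 Tl1.length) rels3 = true := by decide +kernel

theorem sb3 : sbR (C3.rels 4 Tl2.length) rels3 = true := by decide +kernel

variable {A : Type} [Group A] (τ : ℕ → A)

theorem lv1 (h : ∀ w ∈ rels3, gw τ w = 1) : Lv 2 (rW 1) Tl1 0 τ :=
  stepA C1 0 (rW 0) [] A τ C1_c0 C1_c1 C1_c2 C1_c3 C1_tr C1_t2 C1_t3 (sbR_sound τ sb1 h) (lv0 τ _)

theorem lv2 (h : ∀ w ∈ rels3, gw τ w = 1) : Lv 4 (rW 2) Tl2 2 τ :=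
  stepA C2 2 (rW 1) Tl1 A τ C2_c0 C2_c1 C2_c2 C2_c3 C2_tr C2_t2 C2_t3 (sbR_sound τ sb2 h)
    (lv1 τ h)

theorem lv3 (h : ∀ w ∈ rels3, gw τ w = 1) : Lv 6 (rW 3) Tl3 4 τ :=
  stepA C3 4 (rW 2) Tl2 A τ C3_c0 C3_c1 C3_c2 C3_c3 C3_tr C3_t2 C3_t3 (sbR_sound τ sb3 h)
    (lv2 τ h)

theorem cx3 : ∃ c : Ctx (Fin 6), c.W = fw 6 (rW 3) := (sp0A C3 4 (rW 2) Tl2 C3_c0).1

end Pool.Agent.MB
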