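import Pool.Agent.Lib.MP_c86c76_al.B.Lv4
import Pool.Agent.Lib.MP_c86c76_al.B.Dat5b
import Pool.Agent.Lib.MP_c86c76_al.B.Dat5c

/-!
The presentation of the stabiliser of the boundary word in genus five, and its generation by the
fourteen Lickorish twists.
-/

set_option autoImplicit false

namespace Pool.Agent.MB

theorem lv5 {A : Type} [Group A] (τ : ℕ → A) (h : ∀ w ∈ rels4, gw τ w = 1)
    (h' : ∀ w ∈ C5.rels 8 Tl4.length, gw τ w = 1) : Lv 10 (rW 5) Tl5 8 τ :=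
  stepA C5 8 (rW 4) Tl4 A τ C5_c0 C5_c1 C5_c2 C5_c3 C5_tr C5_t2 C5_t3 h' (lv4 τ h)

theorem cx5 : ∃ c : Ctx (Fin 10), c.W = fw 10 (rW 5) := (sp0A C5 8 (rW 4) Tl4 C5_c0).1

/-- An automorphism that fixes the boundary word is a product of twists. -/
theorem gen5 (φ : MulAut (FreeGroup (Fin 10))) (h : φ (ev 10 (rW 5)) = ev 10 (rW 5)) :
    φ ∈ Subgroup.closure ((fun i => aut 10 (Tl5.getD i ([], []))) '' {i | i < 14}) := by
  obtain ⟨s, hs⟩ := (lv5 (fun _ => (1 : PUnit)) (fun _ _ => rfl) fun _ _ => rfl).2.2.1 φ h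
  have := Subgroup.mem_map_of_mem (MonoidHom.fst _ _) hs
  rw [Gr, MonoidHom.map_closure, Set.image_image] at this
  exact this

/-- The twists fix the boundary word. -/
theorem fix5 (i : ℕ) (hi : i < 14) :
    aut 10 (Tl5.getD i ([], [])) (ev 10 (rW 5)) = ev 10 (rW 5) :=
  (lv5 (fun _ => (1 : PUnit)) (fun _ _ => rfl) fun _ _ => rfl).1 (TT 10 Tl5 (fun _ => 1) i)
    (Subgroup.subset_closure ⟨i, hi, rfl⟩)

end Pool.Agent.MB
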