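import Pool.Agent.Lib.MP_c86c76_al.B.St

/-!
Peaks at two disjoint corners, both slides replace the right letter.
-/

set_option autoImplicit false

namespace Pool.Agent.MB

open FreeGroup

section

variable {α : Type} [DecidableEq α] [Fintype α]

theorem PeakRR_mx (g p q r : FreeGroup α) (h : Mx p q r) : Mx (g * p) (g * q) (g * r) := by
  simpa [Mx, Hh, mul_assoc] using h

theorem PeakRR_sym {p q r : FreeGroup α} (h : Mx p q r) : Mx q p r := ⟨h.2, h.1⟩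

theorem PeakRR_nn (w : FreeGroup α) : NN w⁻¹ = NN w := by
  simp [NN, add_comm]

theorem PeakRR_low (hM : MvSt) (c : Ctx α) (n : ℕ) (z : FreeGroup α)
    (E E' : List (FreeGroup α)) (h : Low c n z E E') : Low c n z E' E := by
  unfold Low at h ⊢
  induction h with
  | refl => exact Relation.ReflTransGen.refl
  | tail _ h2 ih =>
    exact Relation.ReflTransGen.head
      ⟨(hM α c).1 _ _ h2.1, h2.2.2.1, h2.2.1, h2.2.2.2.2, h2.2.2.2.1⟩ ih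

/-- The pentagon. -/
theorem PeakRR_pent (hT : TreeSt) (hD : DiaSt) (hR : AdjRSt) (hM : MvSt) (c : Ctx α)
    (D D1 D2 : List (FreeGroup α)) (a b v : FreeGroup α) (i0 : IsD c D) (i1 : IsD c D1)
    (i2 : IsD c D2) (hab : Adj D a b) (huv : Adj D b⁻¹ v) (h2 : b ≠ b⁻¹) (h3 : a ≠ v)
    (h4 : b ≠ v) (m1 : Mx a (a * b) 1) (r1 : Rep D b (a * b) D1) (m2 : Mx b⁻¹ (b⁻¹ * v) 1)
    (r2 : Rep D v (b⁻¹ * v) D2) : a ∈ D ∧ a ∈ D1 ∧ a ∈ D2 ∧ Low c (mu D) a D1 D2 := by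
  obtain ⟨-, t2, -, t4, -⟩ := hT α
  obtain ⟨-, -, -, -, d5⟩ := hD α c
  obtain ⟨s1, -, -, -, -, s6⟩ := hM α c
  obtain ⟨-, -, -, cl, ad⟩ := d5 D i0
  obtain ⟨aD, bD, ba, ba', eD, -⟩ := ad a b hab
  obtain ⟨-, vD, vu, -, fD, -⟩ := ad _ v huv
  have eD' : (a * b)⁻¹ ∉ D := fun h => eD (by simpa using (cl _ h).1)
  have fD' : (b⁻¹ * v)⁻¹ ∉ D := fun h => fD (by simpa using (cl _ h).1)
  have bD' := (cl b bD).1
  have vD' := (cl v vD).1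
  have av' : a ≠ v⁻¹ := by
    intro h
    have n1 := t2 _ _ _ m1
    have n2 := t2 _ _ _ m2
    simp only [mul_one, inv_mul_cancel_left, inv_inv, mul_inv_cancel_left, PeakRR_nn] at n1 n2
    rw [h, PeakRR_nn] at n1
    omega
  have ab' : a ≠ b⁻¹ := fun h => ba' (by simp [h])
  have bv' : b ≠ v⁻¹ := fun h => vu (by simp [h])
  obtain ⟨-, q1⟩ := hR α c D a b i0 hab
  obtain ⟨-, -, q13, -, -, q16⟩ := q1 D1 i1 r1
  obtain ⟨-, q2⟩ := hR α c D _ v i0 huv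
  obtain ⟨q21, -⟩ := q2 D2 i2 r2
  have c1 : Adj D1 a v := q13 v huv h3.symm
  have c2 : Adj D2 a b := q21 a b hab (by simp [Pm, h3, av']) (by simp [Pm, h4, bv']) h2
  have m3 : Mx a (a * v) 1 := by
    have x1 : Mx b 1 a⁻¹ := by simpa using PeakRR_sym (PeakRR_mx a⁻¹ _ _ _ m1)
    have x2 : Mx 1 v b := by simpa using PeakRR_mx b _ _ _ m2
    simpa using PeakRR_mx a _ _ _ (t4 _ _ _ _ x1 x2)
  obtain ⟨⟨E1, j1, r3⟩, q3⟩ := hR α c D1 a v i1 c1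
  obtain ⟨-, -, -, q34, -⟩ := q3 E1 j1 r3
  obtain ⟨⟨E2, j2, r4⟩, -⟩ := hR α c D2 a b i2 c2
  obtain ⟨-, -, -, cl1, ad1⟩ := d5 D1 i1
  obtain ⟨aD1, -, -, -, kD, -⟩ := ad1 a v c1
  have kD' : (a * v)⁻¹ ∉ D1 := fun h => kD (by simpa using (cl1 _ h).1)
  have c3 : Adj E1 (a * b)⁻¹ (a * v) := q34 _ q16 fun h => eD' (h ▸ vD')
  have ek : (a * b)⁻¹ * (a * v) = b⁻¹ * v := by group
  have r5 : Rep E1 (a * v) ((a * b)⁻¹ * (a * v)) E2 := by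
    rw [ek]
    intro w
    have w1 := r1 w
    have w2 := r2 w
    have w3 := r3 w
    have w4 := r4 w
    generalize a * b = e at *
    generalize b⁻¹ * v = f at *
    generalize a * v = k at *
    grind
  obtain ⟨-, l1, -⟩ := s6 D D1 ⟨i0, i1, a, b, hab, Or.inr ⟨m1, r1⟩⟩
  obtain ⟨-, l2, -⟩ := s6 D D2 ⟨i0, i2, _, v, huv, Or.inr ⟨m2, r2⟩⟩
  obtain ⟨v3, l3, -⟩ := s6 D1 E1 ⟨i1, j1, a, v, c1, Or.inr ⟨m3, r3⟩⟩
  obtain ⟨v4, l4, -⟩ := s6 D2 E2 ⟨i2, j2, a, b, c2, Or.inr ⟨m1, r4⟩⟩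
  have v5 : Mv c E1 E2 := ⟨j1, j2, _, _, c3, Or.inr r5⟩
  have aD2 : a ∈ D2 := (r2 a).2 (Or.inl ⟨aD, h3, av'⟩)
  have aE1 : a ∈ E1 := (r3 a).2 (Or.inl ⟨aD1, h3, av'⟩)
  have aE2 : a ∈ E2 := (r4 a).2 (Or.inl ⟨aD2, ba.symm, ab'⟩)
  refine ⟨aD, aD1, aD2, ?_⟩
  unfold Low
  refine Relation.ReflTransGen.head (b := E1) ⟨v3, aD1, aE1, l1, by omega⟩ ?_
  refine Relation.ReflTransGen.head (b := E2) ⟨v5, aE1, aE2, by omega, by omega⟩ ?_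
  exact Relation.ReflTransGen.single ⟨s1 _ _ v4, aE2, aD2, by omega, l2⟩

/-- The square of two slides that remove the same side. -/
theorem PeakRR_sq (hT : TreeSt) (hD : DiaSt) (hR : AdjRSt) (hM : MvSt) (c : Ctx α)
    (D D1 D2 : List (FreeGroup α)) (a b u : FreeGroup α) (i0 : IsD c D) (i1 : IsD c D1)
    (i2 : IsD c D2) (hab : Adj D a b) (huv : Adj D u b⁻¹)
    (m1 : Mx a (a * b) 1) (r1 : Rep D b (a * b) D1) (m2 : Mx u (u * b⁻¹) 1)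
    (r2 : Rep D b⁻¹ (u * b⁻¹) D2) : a ∈ D ∧ a ∈ D1 ∧ a ∈ D2 ∧ Low c (mu D) a D1 D2 := by
  obtain ⟨-, -, t3, -, -⟩ := hT α
  obtain ⟨-, -, -, -, d5⟩ := hD α c
  obtain ⟨s1, -, -, -, s5, s6⟩ := hM α c
  obtain ⟨-, -, -, cl, ad⟩ := d5 D i0
  obtain ⟨aD, bD, ba, ba', eD, -⟩ := ad a b hab
  obtain ⟨-, -, -, -, fD, -⟩ := ad u _ huv
  have eD' : (a * b)⁻¹ ∉ D := fun h => eD (by simpa using (cl _ h).1)
  have fD' : (u * b⁻¹)⁻¹ ∉ D := fun h => fD (by simpa using (cl _ h).1)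
  have ab' : a ≠ b⁻¹ := fun h => ba' (by simp [h])
  obtain ⟨-, q1⟩ := hR α c D a b i0 hab
  obtain ⟨-, q12, -⟩ := q1 D1 i1 r1
  obtain ⟨-, q2⟩ := hR α c D u _ i0 huv
  obtain ⟨-, q22, -⟩ := q2 D2 i2 r2
  have c1 : Adj D1 u (a * b)⁻¹ := q12 u huv
  have c2 : Adj D2 a (u * b⁻¹)⁻¹ := q22 a (by simpa using hab)
  obtain ⟨⟨E, j, r3⟩, -⟩ := hR α c D1 u _ i1 c1
  obtain ⟨-, -, -, -, ad1⟩ := d5 D1 i1
  obtain ⟨-, eD1, -, -, kD, -⟩ := ad1 u _ c1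
  have ek : a * (u * b⁻¹)⁻¹ = (u * (a * b)⁻¹)⁻¹ := by group
  have r4 : Rep D2 (u * b⁻¹)⁻¹ (a * (u * b⁻¹)⁻¹) E := by
    rw [ek]
    intro w
    have w1 := r1 w
    have w2 := r2 w
    have w3 := r3 w
    simp only [inv_inv] at w2 w3 ⊢
    generalize u * (a * b)⁻¹ = k at *
    generalize a * b = e at *
    generalize u * b⁻¹ = f at *
    grind
  have nk : NN (u * (a * b)⁻¹) < NN b := by
    have x1 : Mx 1 b a⁻¹ := by simpa using PeakRR_mx a⁻¹ _ _ _ m1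
    have x2 : Mx 1 b (b * u⁻¹) := by
      simpa [mul_assoc] using PeakRR_sym (PeakRR_mx (b * u⁻¹) _ _ _ m2)
    have x3 := t3 _ _ _ _ x1 x2
    rw [← PeakRR_nn]
    simpa [mul_assoc] using x3
  obtain ⟨-, l1, -⟩ := s6 D D1 ⟨i0, i1, a, b, hab, Or.inr ⟨m1, r1⟩⟩
  obtain ⟨-, l2, -⟩ := s6 D D2 ⟨i0, i2, u, _, huv, Or.inr ⟨m2, r2⟩⟩
  have y1 := s5 D D1 b _ i0 i1 bD eD r1
  have y2 := s5 D1 E _ _ i1 j eD1 kD r3
  rw [PeakRR_nn] at y2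
  have y3 : 3 ^ NN (u * (a * b)⁻¹) < 3 ^ NN b := Nat.pow_lt_pow_right (by norm_num) nk
  have l3 : mu E < mu D := by omega
  have aD1 : a ∈ D1 := (r1 a).2 (Or.inl ⟨aD, ba.symm, ab'⟩)
  have aD2 : a ∈ D2 := (r2 a).2 (Or.inl ⟨aD, ab', by simpa using ba.symm⟩)
  have aE : a ∈ E := (r3 a).2 (Or.inl ⟨aD1, fun h => eD' (h ▸ aD), fun h => eD (by
    rw [inv_inv] at h
    exact h ▸ aD)⟩)
  refine ⟨aD, aD1, aD2, ?_⟩
  unfold Low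
  refine Relation.ReflTransGen.head (b := E) ⟨⟨i1, j, _, _, c1, Or.inr r3⟩, aD1, aE, l1, l3⟩ ?_
  exact Relation.ReflTransGen.single ⟨s1 _ _ ⟨i2, j, _, _, c2, Or.inr r4⟩, aE, aD2, l3, l2⟩

/-- The square of two commuting slides. -/
theorem PeakRR_com (hD : DiaSt) (hR : AdjRSt) (hM : MvSt) (c : Ctx α)
    (D D1 D2 : List (FreeGroup α)) (a b u v : FreeGroup α) (i0 : IsD c D) (i1 : IsD c D1)
    (i2 : IsD c D2) (hab : Adj D a b) (huv : Adj D u v) (h2 : b ≠ u) (h3 : a ≠ v)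
    (h4 : b ≠ v) (g1 : v ≠ b⁻¹) (g2 : u ≠ b⁻¹) (g3 : a ≠ v⁻¹)
    (m1 : Mx a (a * b) 1) (r1 : Rep D b (a * b) D1) (m2 : Mx u (u * v) 1)
    (r2 : Rep D v (u * v) D2) : a ∈ D ∧ a ∈ D1 ∧ a ∈ D2 ∧ Low c (mu D) a D1 D2 := by
  obtain ⟨-, -, -, -, d5⟩ := hD α c
  obtain ⟨s1, -, -, -, -, s6⟩ := hM α c
  obtain ⟨-, -, -, cl, ad⟩ := d5 D i0
  obtain ⟨aD, bD, ba, ba', eD, -⟩ := ad a b hab
  obtain ⟨-, vD, -, -, fD, -⟩ := ad u v huv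
  have eD' : (a * b)⁻¹ ∉ D := fun h => eD (by simpa using (cl _ h).1)
  have fD' : (u * v)⁻¹ ∉ D := fun h => fD (by simpa using (cl _ h).1)
  have bD' := (cl b bD).1
  have vD' := (cl v vD).1
  have ab' : a ≠ b⁻¹ := fun h => ba' (by simp [h])
  have bv' : b ≠ v⁻¹ := fun h => g1 (by simp [h])
  obtain ⟨-, q1⟩ := hR α c D a b i0 hab
  obtain ⟨q11, -⟩ := q1 D1 i1 r1
  obtain ⟨-, q2⟩ := hR α c D u v i0 huv
  obtain ⟨q21, -⟩ := q2 D2 i2 r2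
  have c1 : Adj D1 u v := q11 u v huv (by simp [Pm, h2.symm, g2]) (by simp [Pm, h4.symm, g1])
    h3.symm
  have c2 : Adj D2 a b := q21 a b hab (by simp [Pm, h3, g3]) (by simp [Pm, h4, bv']) h2
  obtain ⟨⟨E, j, r3⟩, -⟩ := hR α c D1 u v i1 c1
  have r4 : Rep D2 b (a * b) E := by
    intro w
    have w1 := r1 w
    have w2 := r2 w
    have w3 := r3 w
    generalize a * b = e at *
    generalize u * v = f at *
    grind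
  obtain ⟨-, l1, -⟩ := s6 D D1 ⟨i0, i1, a, b, hab, Or.inr ⟨m1, r1⟩⟩
  obtain ⟨-, l2, -⟩ := s6 D D2 ⟨i0, i2, u, v, huv, Or.inr ⟨m2, r2⟩⟩
  obtain ⟨v3, l3, -⟩ := s6 D1 E ⟨i1, j, u, v, c1, Or.inr ⟨m2, r3⟩⟩
  have aD1 : a ∈ D1 := (r1 a).2 (Or.inl ⟨aD, ba.symm, ab'⟩)
  have aD2 : a ∈ D2 := (r2 a).2 (Or.inl ⟨aD, h3, g3⟩)
  have aE : a ∈ E := (r3 a).2 (Or.inl ⟨aD1, h3, g3⟩)
  refine ⟨aD, aD1, aD2, ?_⟩
  unfold Low
  refine Relation.ReflTransGen.head (b := E) ⟨v3, aD1, aE, l1, by omega⟩ ?_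
  exact Relation.ReflTransGen.single
    ⟨s1 _ _ ⟨i2, j, _, _, c2, Or.inr r4⟩, aE, aD2, by omega, l2⟩

end

theorem peakRRSt (hT : TreeSt) (hD : DiaSt) (_hL : AdjLSt) (hR : AdjRSt) (hM : MvSt) :
    PeakRRSt := by
  intro α _ _ c D D1 D2 a b u v i0 i1 i2 hab huv _h1 h2 h3 h4 m1 r1 m2 r2
  by_cases g1 : v = b⁻¹
  · subst g1
    obtain ⟨x1, x2, x3, x4⟩ := PeakRR_sq hT hD hR hM c D D1 D2 a b u i0 i1 i2 hab huv m1 r1 m2 r2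
    exact ⟨a, x1, x2, x3, x4⟩
  by_cases g2 : u = b⁻¹
  · subst g2
    obtain ⟨x1, x2, x3, x4⟩ :=
      PeakRR_pent hT hD hR hM c D D1 D2 a b v i0 i1 i2 hab huv h2 h3 h4 m1 r1 m2 r2
    exact ⟨a, x1, x2, x3, x4⟩
  by_cases g3 : a = v⁻¹
  · subst g3
    obtain ⟨x1, x2, x3, x4⟩ :=
      PeakRR_pent hT hD hR hM c D D2 D1 u v b i0 i2 i1 huv hab h3.symm h2.symm h4.symm m2 r2 m1 r1
    exact ⟨u, x1, x3, x2, PeakRR_low hM c _ _ _ _ x4⟩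
  obtain ⟨x1, x2, x3, x4⟩ :=
    PeakRR_com hD hR hM c D D1 D2 a b u v i0 i1 i2 hab huv h2 h3 h4 g1 g2 g3 m1 r1 m2 r2
  exact ⟨a, x1, x2, x3, x4⟩

end Pool.Agent.MB
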