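import Pool.Agent.Lib.MP_c86c76_al.B.Hold3
import Pool.Agent.Lib.MP_c86c76_al.B.Lv3

/-!
Genus three.
-/

set_option autoImplicit false

namespace Pool.Agent.MB

open Pool.Agent.Lib.MP_c86c76_al.Eng

theorem rels3_hold : ∀ w ∈ rels3, gw tau3 w = 1 :=
  gw_tau3_all _ fun j => by cases j <;> decide +kernel

theorem noT_three : NoT 3 := by
  obtain ⟨c, hc⟩ := cx3
  exact noT3 tau3 c hc (lv3 tau3 rels3_hold) hold3_B hold3_C 8 hold3_G

end Pool.Agent.MB
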