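import Pool.Agent.Lib.MP_c86c76_al.B.Defs

/-!
Statements of the steps.
-/

set_option autoImplicit false

namespace Pool.Agent.MB

open FreeGroup

/-! ### Tree geometry -/

/-- Geodesics in the Cayley tree. -/
def BtSt : Prop := ∀ (α : Type) [DecidableEq α] [Fintype α],
  (∀ p c q : FreeGroup α, Bt p c q → Bt q c p) ∧
  (∀ p q r : FreeGroup α, ∃ c, Bt p c q ∧ Bt q c r ∧ Bt p c r) ∧
  (∀ p c c' q : FreeGroup α, Bt p c q → Bt p c' q →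
    (Bt p c c' ∧ Bt c c' q) ∨ (Bt p c' c ∧ Bt c' c q)) ∧
  (∀ p c c' q : FreeGroup α, Bt p c c' → Bt p c' q → Bt p c q ∧ Bt c c' q) ∧
  (∀ p c q : FreeGroup α, Bt p c q ↔ p = c ∨ dir c p ≠ dir c q) ∧
  (∀ c c' p : FreeGroup α, Bt c c' p → c ≠ c' → dir c p = dir c c') ∧
  (∀ p q r c : FreeGroup α, Bt r c p → Bt q c p → (Hh p r q ↔ sv (r⁻¹ * c) < sv (q⁻¹ * c))) ∧
  (∀ p c q : FreeGroup α, Bt p c q → sv (p⁻¹ * c) ≤ sv (p⁻¹ * q)) ∧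
  (∀ u v : FreeGroup α, sv u = sv v → u = v) ∧
  (∀ w x y z c c' : FreeGroup α, Bt w c y → Bt w c x → Bt y c x → Bt w c' y → Bt w c' z →
    Bt y c' z → Hh x w y → Hh z y w → c ≠ c' ∧ Bt w c c' ∧ Bt c c' y) ∧
  ∀ u w : List (α × Bool),
    sl (u ++ w) + (Fintype.card (α × Bool) + 2) ^ w.length =
      sl u * (Fintype.card (α × Bool) + 2) ^ w.length + sl w ∧
    (Fintype.card (α × Bool) + 2) ^ w.length ≤ sl w ∧
    sl w < 2 * (Fintype.card (α × Bool) + 2) ^ w.length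

/-- Metric facts. -/
def TreeSt : Prop := ∀ (α : Type) [DecidableEq α] [Fintype α],
  (∀ p q r : FreeGroup α, p ≠ q → q ≠ r → p ≠ r → Mx p q r ∨ Mx q r p ∨ Mx r p q) ∧
  (∀ p q r : FreeGroup α, Mx p q r → NN (p⁻¹ * r) < NN (p⁻¹ * q)) ∧
  (∀ x y w z : FreeGroup α, Mx x y w → Mx x y z → NN (w⁻¹ * z) < NN (x⁻¹ * y)) ∧
  (∀ x y w z : FreeGroup α, Mx x y w → Mx y z x → Mx y z w) ∧
  ∀ (l : α × Bool) (r : FreeGroup α), ¬ Mx 1 (lt l) r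

/-- The cyclic order. -/
def CycSt : Prop := ∀ (α : Type) [DecidableEq α] [Fintype α] (ρ : α × Bool → ℕ),
  (∀ u v w, Cyc ρ u v w → Cyc ρ v w u) ∧
  (∀ g u v w, Cyc ρ u v w → Cyc ρ (g * u) (g * v) (g * w)) ∧
  (∀ u v w z, Cyc ρ u v w → Cyc ρ u w z → Cyc ρ u v z) ∧
  (∀ u v w, Cyc ρ u v w → ¬ Cyc ρ u w v) ∧
  (∀ u, ¬ Lo ρ u u) ∧
  (∀ u v w, Lo ρ u v → Lo ρ v w → Lo ρ u w) ∧
  (∀ u v w, Lo ρ u v → Lo ρ v w → Cyc ρ u v w) ∧
  (∀ u v w, Lo ρ u w → Cyc ρ u v w → Lo ρ u v ∧ Lo ρ v w) ∧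
  (∀ (U : List (α × Bool)) (l l' : α × Bool), IsReduced (U ++ [l]) → ρ l' < ρ (bar l) →
    Lo ρ (mk (U ++ [l])) (mk (U ++ [l]) * lt l')) ∧
  ∀ p0 p1 p2 p3, Cyc ρ p0 p1 p2 → Cyc ρ p0 p2 p3 → ¬ (Hh p0 p2 p1 ∧ Hh p3 p1 p2)

/-! ### Diagrams -/

/-- Basic facts, uniqueness, slides. -/
def DiaSt : Prop := ∀ (α : Type) [DecidableEq α] [Fintype α] (c : Ctx α),
  IsReduced c.W ∧ IsD c c.D0 ∧
  (∀ (φ : MulAut (FreeGroup α)) D, φ c.r = c.r → IsD c D → IsD c (D.map φ)) ∧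
  (∀ D D', IsD c D → IsD c D' → (∀ w, w ∈ D ↔ w ∈ D') → D = D') ∧
  ∀ D, IsD c D → D.Nodup ∧ D.length = c.W.length ∧ D.prod = c.r ∧
    (∀ w ∈ D, w⁻¹ ∈ D ∧ w ≠ 1 ∧ w ≠ w⁻¹ ∧ ∃ a b, Adj D a b) ∧
    ∀ a b, Adj D a b → a ∈ D ∧ b ∈ D ∧ b ≠ a ∧ b ≠ a⁻¹ ∧ a * b ∉ D ∧
      IsD c (slide D a b) ∧ Rep D a (a * b) (slide D a b)

/-- Neighbours after a slide that replaces the left letter. -/
def AdjLSt : Prop := ∀ (α : Type) [DecidableEq α] [Fintype α] (c : Ctx α)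
  (D D' : List (FreeGroup α)) (a b : FreeGroup α), IsD c D → IsD c D' → Adj D a b →
  Rep D a (a * b) D' →
  (∀ u v, Adj D u v → ¬ Pm u a → ¬ Pm v a → u ≠ b → Adj D' u v) ∧
  (∀ s, Adj D a⁻¹ s → Adj D' (a * b)⁻¹ s) ∧
  (∀ q, Adj D q a⁻¹ → q ≠ b → Adj D' q b) ∧
  (∀ y, Adj D b y → y ≠ a⁻¹ → Adj D' (a * b) y) ∧
  (∀ z, Adj D z a → Adj D' z (a * b)) ∧
  Adj D' b (a * b)⁻¹

/-- The slide that replaces the right letter and the neighbours after it. -/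
def AdjRSt : Prop := ∀ (α : Type) [DecidableEq α] [Fintype α] (c : Ctx α)
  (D : List (FreeGroup α)) (a b : FreeGroup α), IsD c D → Adj D a b →
  (∃ D', IsD c D' ∧ Rep D b (a * b) D') ∧ ∀ D', IsD c D' → Rep D b (a * b) D' →
  (∀ u v, Adj D u v → ¬ Pm u b → ¬ Pm v b → v ≠ a → Adj D' u v) ∧
  (∀ q, Adj D q b⁻¹ → Adj D' q (a * b)⁻¹) ∧
  (∀ s, Adj D b⁻¹ s → s ≠ a → Adj D' a s) ∧
  (∀ z, Adj D z a → z ≠ b⁻¹ → Adj D' z (a * b)) ∧
  (∀ y, Adj D b y → Adj D' (a * b) y) ∧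
  Adj D' (a * b)⁻¹ a

/-- Slides: symmetry, equivariance, explicit form, height. -/
def MvSt : Prop := ∀ (α : Type) [DecidableEq α] [Fintype α] (c : Ctx α),
  (∀ D D', Mv c D D' → Mv c D' D) ∧
  (∀ (φ : MulAut (FreeGroup α)) D D', φ c.r = c.r → Mv c D D' → Mv c (D.map φ) (D'.map φ)) ∧
  (∀ D D', Mv c D D' →
    (∃ a b, Adj D a b ∧ D' = slide D a b) ∨ ∃ a b, Adj D' a b ∧ D = slide D' a b) ∧
  (∀ D D', Mv c D D' → (∃ z ∈ D, z ∈ D') ∧ ∃ a b, Adj D a b ∧ ∀ x ∈ D', Dp D a b x) ∧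
  (∀ D D' x e, IsD c D → IsD c D' → x ∈ D → e ∉ D → Rep D x e D' →
    mu D' + 2 * 3 ^ NN x = mu D + 2 * 3 ^ NN e) ∧
  ∀ D D', Red c D D' → Mv c D D' ∧ mu D' < mu D ∧ ∀ l, lt l ∈ D → lt l ∈ D'

/-- A diagram without reducing slide is the base diagram. -/
def EndSt : Prop := ∀ (α : Type) [DecidableEq α] [Fintype α] (c : Ctx α) (D : List (FreeGroup α)),
  IsD c D → (∀ a b, Adj D a b → Mx 1 (a * b) a) → D = c.D0

/-- The diagrams that contain given base letters are connected by slides. -/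
def ConnSt : Prop := ∀ (α : Type) [DecidableEq α] [Fintype α] (c : Ctx α),
  (∀ D, IsD c D → D ≠ c.D0 → ∃ D', Red c D D') ∧ (∀ D', ¬ Red c c.D0 D') ∧
  ∀ (S : Set (α × Bool)) (Q : List (FreeGroup α) → Prop), Q c.D0 →
    (∀ D D', Mv c D D' → (∀ l ∈ S, lt l ∈ D) → (∀ l ∈ S, lt l ∈ D') → Q D' → Q D) →
    ∀ D, IsD c D → (∀ l ∈ S, lt l ∈ D) → Q D

/-- The corners of a diagram are in cyclic order. -/
def PlSt : Prop := ∀ (α : Type) [DecidableEq α] [Fintype α] (c : Ctx α) (D : List (FreeGroup α)),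
  IsD c D → (∀ u v, Adj D u v → Lo c.ρ v u⁻¹) ∧
    ∀ a b d, Adj D a b → Adj D b d → ¬ (Mx 1 a (a * b) ∧ Mx b (b * d) 1)

/-- The order of the sides. -/
def OrdSt : Prop := ∀ (α : Type) [DecidableEq α] [Fintype α] (c : Ctx α) (D : List (FreeGroup α)),
  IsD c D → (∀ s ∈ D, ∀ t ∈ D, s ≠ t → Lo c.ρ s t ∨ Lo c.ρ t s) ∧
    (∀ φ : MulAut (FreeGroup α), φ c.r = c.r → ∀ s ∈ D, ∀ t ∈ D,
      (Lo c.ρ (φ s) (φ t) ↔ Lo c.ρ s t)) ∧
    (∀ a ∈ D, ∃ y ∈ D, Cr c.ρ a y) ∧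
    ∀ a ∈ D, ∀ φ : MulAut (FreeGroup α), φ c.r = c.r → φ a ≠ a⁻¹

/-- Peaks at two corners with a common letter. -/
def PeakASt : Prop := ∀ (α : Type) [DecidableEq α] [Fintype α] (c : Ctx α)
  (D D1 D2 : List (FreeGroup α)) (a b d : FreeGroup α), IsD c D → IsD c D1 → IsD c D2 →
  Adj D a b → Adj D b d →
  ((Mx 1 a (a * b) ∧ Rep D a (a * b) D1) ∨ (Mx a (a * b) 1 ∧ Rep D b (a * b) D1)) →
  ((Mx 1 b (b * d) ∧ Rep D b (b * d) D2) ∨ (Mx b (b * d) 1 ∧ Rep D d (b * d) D2)) →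
  ∃ z ∈ D, z ∈ D1 ∧ z ∈ D2 ∧ Low c (mu D) z D1 D2

/-- Peaks at two disjoint corners, both slides replace the left letter. -/
def PeakLLSt : Prop := ∀ (α : Type) [DecidableEq α] [Fintype α] (c : Ctx α)
  (D D1 D2 : List (FreeGroup α)) (a b u v : FreeGroup α), IsD c D → IsD c D1 → IsD c D2 →
  Adj D a b → Adj D u v → a ≠ u → b ≠ u → a ≠ v → b ≠ v →
  Mx 1 a (a * b) → Rep D a (a * b) D1 → Mx 1 u (u * v) → Rep D u (u * v) D2 →
  ∃ z ∈ D, z ∈ D1 ∧ z ∈ D2 ∧ Low c (mu D) z D1 D2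

/-- Peaks at two disjoint corners, both slides replace the right letter. -/
def PeakRRSt : Prop := ∀ (α : Type) [DecidableEq α] [Fintype α] (c : Ctx α)
  (D D1 D2 : List (FreeGroup α)) (a b u v : FreeGroup α), IsD c D → IsD c D1 → IsD c D2 →
  Adj D a b → Adj D u v → a ≠ u → b ≠ u → a ≠ v → b ≠ v →
  Mx a (a * b) 1 → Rep D b (a * b) D1 → Mx u (u * v) 1 → Rep D v (u * v) D2 →
  ∃ z ∈ D, z ∈ D1 ∧ z ∈ D2 ∧ Low c (mu D) z D1 D2

/-- Peaks at two disjoint corners, mixed. -/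
def PeakLRSt : Prop := ∀ (α : Type) [DecidableEq α] [Fintype α] (c : Ctx α)
  (D D1 D2 : List (FreeGroup α)) (a b u v : FreeGroup α), IsD c D → IsD c D1 → IsD c D2 →
  Adj D a b → Adj D u v → a ≠ u → b ≠ u → a ≠ v → b ≠ v →
  Mx 1 a (a * b) → Rep D a (a * b) D1 → Mx u (u * v) 1 → Rep D v (u * v) D2 →
  ∃ z ∈ D, z ∈ D1 ∧ z ∈ D2 ∧ Low c (mu D) z D1 D2

/-- The peak lemma. -/
def PeakSt : Prop := ∀ (α : Type) [DecidableEq α] [Fintype α] (c : Ctx α)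
  (D D1 D2 : List (FreeGroup α)), Red c D D1 → Red c D D2 →
  ∃ z ∈ D, z ∈ D1 ∧ z ∈ D2 ∧ Low c (mu D) z D1 D2

/-- A cocycle on the arcs integrates. -/
def ScSt : Prop := ∀ (α : Type) [DecidableEq α] [Fintype α] (c : Ctx α) (A : Type) [Group A]
  (κ : FreeGroup α → FreeGroup α → A), All3 c (fun x y z => κ x y * κ y z = κ x z) →
  ∃ K : List (FreeGroup α) → FreeGroup α → A,
    (∀ D, IsD c D → ∀ x ∈ D, ∀ y ∈ D, K D y = K D x * κ x y) ∧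
    ∀ D D', Mv c D D' → ∀ x ∈ D, x ∈ D' → K D x = K D' x

/-! ### The action on arcs -/

/-- Generators of the stabiliser of an arc. -/
def GenSt : Prop := ∀ (α : Type) [DecidableEq α] [Fintype α] (c : Ctx α) (l0 : α × Bool)
  (A : Type) [Group A] (Γ : Subgroup (MulAut (FreeGroup α) × A))
  (Ty : Set (MulAut (FreeGroup α) × A)),
  (∀ k ∈ Γ, k.1 c.r = c.r ∧ k.1 (lt l0) = lt l0) → (∀ t ∈ Ty, t.1 c.r = c.r) →
  (∀ t ∈ Ty, ∀ t' ∈ Ty, ∀ φ : MulAut (FreeGroup α), φ c.r = c.r → φ (lt l0) = lt l0 →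
    φ (t.1 (lt l0)) = t'.1 (lt l0) → t = t') →
  (∀ t ∈ Ty, Cr c.ρ (lt l0) (t.1 (lt l0)) → ∀ φ : MulAut (FreeGroup α), φ c.r = c.r →
    φ (lt l0) = lt l0 → φ (t.1 (lt l0)) = t.1 (lt l0) → ∃ s, (φ, s) ∈ Γ) →
  (∃ y ∈ c.D0, ∃ k ∈ Γ, ∃ t ∈ Ty, Cr c.ρ (lt l0) y ∧ Pm y (k.1 (t.1 (lt l0)))) →
  All3 c (Good c (lt l0) (RR Γ Ty)) →
  Onto Γ fun φ => φ c.r = c.r ∧ φ (lt l0) = lt l0

/-- From the stabiliser of an arc to the whole group. -/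
def BrownSt : Prop := ∀ (α : Type) [DecidableEq α] [Fintype α] (c : Ctx α) (l0 : α × Bool)
  (A : Type) [Group A] (Γ : Subgroup (MulAut (FreeGroup α) × A))
  (Ty : Set (MulAut (FreeGroup α) × A)),
  (∀ k ∈ Γ, k.1 c.r = c.r ∧ k.1 (lt l0) = lt l0) → (∀ t ∈ Ty, t.1 c.r = c.r) →
  (∀ t ∈ Ty, ∀ t' ∈ Ty, ∀ φ : MulAut (FreeGroup α), φ c.r = c.r → φ (lt l0) = lt l0 →
    φ (t.1 (lt l0)) = t'.1 (lt l0) → t = t') →
  Func Γ → Onto Γ (fun φ => φ c.r = c.r ∧ φ (lt l0) = lt l0) →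
  (∀ t ∈ Ty, ∀ k ∈ Γ, k.1 (t.1 (lt l0)) = t.1 (lt l0) → t⁻¹ * k * t ∈ Γ) →
  (∀ t ∈ Ty, ∃ D, IsD c D ∧ lt l0 ∈ D ∧ t.1 (lt l0) ∈ D) →
  All3 c (Good c (lt l0) (RR Γ Ty)) →
  Func (Γ ⊔ Subgroup.closure Ty) ∧ Onto (Γ ⊔ Subgroup.closure Ty) fun φ => φ c.r = c.r

/-- The stabiliser of base letters preserves the group of the loops dual to the other letters. -/
def DualSt : Prop := ∀ (α : Type) [DecidableEq α] [Fintype α] (c : Ctx α) (S : Set α)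
  (K : Subgroup (FreeGroup α)), (∀ l : α × Bool, l.1 ∉ S → mk (del c.W l) ∈ K) →
  ∀ φ : MulAut (FreeGroup α), φ c.r = c.r → (∀ x ∈ S, φ (of x) = of x) →
  ∀ l : α × Bool, l.1 ∉ S → φ (mk (del c.W l)) ∈ K

/-- A word whose dual loops generate lies in no proper free factor. -/
def EssSt : Prop := ∀ (α : Type) [DecidableEq α] [Fintype α] (W : List (α × Bool)), Full W →
  Subgroup.closure (Set.range fun x => mk (del W (x, true))) = ⊤ → Ess (mk W)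

/-- The centraliser of the boundary word. -/
def CenSt : Prop := ∀ (α : Type) [DecidableEq α] [Fintype α] (c : Ctx α) (w : FreeGroup α),
  Commute w c.r → c.W = [] ∨ w ∈ Subgroup.zpowers c.r

/-! ### Normal forms -/

/-- Splitting off a commutator. -/
def ExCSt : Prop := ∀ (α : Type) [DecidableEq α] (M : α → Prop) (U : List (α × Bool))
  (x y : α × Bool), U.Nodup → List.Sublist [x, y, bar x, bar y] U → ¬ M x.1 → ¬ M y.1 →
  ∃ U1, Eq0 M U (U1 ++ [x, y, bar x, bar y])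

/-- Splitting off a boundary block. -/
def ExZSt : Prop := ∀ (α : Type) [DecidableEq α] (M : α → Prop) (U : List (α × Bool)), U.Nodup →
  (∀ l ∈ U, ¬ M l.1 → bar l ∈ U) → (∃ l ∈ U, ¬ M l.1) →
  (∀ x y : α × Bool, ¬ M x.1 → ¬ M y.1 → ¬ List.Sublist [x, y, bar x, bar y] U) →
  ∃ U1 z B, ¬ M z.1 ∧ (∀ l ∈ B, M l.1) ∧ List.Sublist U1 U ∧ Eq0 M U (U1 ++ (z :: B ++ [bar z]))

/-- The normal form relative to `k` marked letters. -/
def NfSt : Prop := ∀ (α : Type) [DecidableEq α] [Fintype α] (W : List (α × Bool)), Full W →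
  Ess (mk W) → ∀ (k : ℕ) (m : ℕ → α × Bool), (∀ i < k, ∀ j < k, (m i).1 = (m j).1 → i = j) →
  ∃ (L : ℕ → α × Bool) (p0 : RW) (Bs : List RW) (h : ℕ) (ψ : MulAut (FreeGroup α)),
    (∀ i < k, L i = m i) ∧
    (∀ i < Fintype.card α, ∀ j < Fintype.card α, (L i).1 = (L j).1 → i = j) ∧
    k + Bs.length + 2 * h = Fintype.card α ∧ (p0 ++ Bs.flatten).Perm (sgn k) ∧
    (∀ B ∈ Bs, B ≠ []) ∧ (∀ i < k, ψ (lt (m i)) = lt (m i)) ∧
    ψ (mk W) = mk ((pat k p0 Bs h).map (inst L)) ∧ Full ((pat k p0 Bs h).map (inst L)) ∧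
    ∀ p q : ℕ × Bool, p.1 < k → q.1 < k → Adj W (inst m p) (inst m q) → Adj (pat k p0 Bs h) p q

/-- The order read from a word is sound. -/
def LtVSt : Prop := ∀ (α : Type) [DecidableEq α] [Fintype α] (c : Ctx α) (V : RW)
  (f : ℕ × Bool → FreeGroup α), IsD c (V.map f) → (∀ l, f (bar l) = (f l)⁻¹) →
  ∀ l u, ltV V l u = true → Lo c.ρ (f l) (f u)

/-- Two or three arcs of a diagram in standard position. -/
def StdSt : Prop := ∀ (n : ℕ) (c : Ctx (Fin n)) (D : List (FreeGroup (Fin n))), IsD c D →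
  ∀ k, (k = 2 ∨ k = 3) → ∀ x : ℕ → FreeGroup (Fin n), (∀ i < k, x i ∈ D) →
  (∀ i < k, ∀ j < k, Pm (x i) (x j) → i = j) →
  ∃ V ∈ raws k n, ∃ ψ : MulAut (FreeGroup (Fin n)), ψ c.r = ev n V ∧
    (∀ i < k, ∃ j < k, Pm (ψ (x i)) (ev n [(j, true)])) ∧
    (Adj D (x 0) (x 1) → ∃ p q : ℕ × Bool, p.1 < k ∧ q.1 < k ∧ Adj V p q ∧
      ψ (x 0) = ev n [p] ∧ ψ (x 1) = ev n [q])

/-! ### Raw words -/

/-- Soundness of the word calculus. -/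
def RawSt : Prop :=
  (∀ (G : Type) [Group G] (T : ℕ → G),
    gw T [] = 1 ∧ (∀ u v, gw T (u ++ v) = gw T u * gw T v) ∧ (∀ u, gw T (iv u) = (gw T u)⁻¹) ∧
    (∀ i, gw T [(i, true)] = T i) ∧ (∀ i, gw T [(i, false)] = (T i)⁻¹) ∧
    (∀ u, gw T (rd u) = gw T u) ∧ (∀ u v, eqF u v = true → gw T u = gw T v) ∧
    (∀ s u, gw T (sub s u) = gw (fun i => gw T (s.getD i [(i, true)])) u) ∧
    (∀ (H : Subgroup G) (m : ℕ) u, (∀ i < m, T i ∈ H) → bd m u = true → gw T u ∈ H) ∧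
    (∀ (T' : ℕ → G) (m : ℕ) u, (∀ i < m, T i = T' i) → bd m u = true → gw T u = gw T' u) ∧
    ∀ (G' : Type) [Group G'] (f : G →* G') u, f (gw T u) = gw (fun i => f (T i)) u) ∧
  ∀ n : ℕ,
    (∀ w, ev n w = mk (fw n w)) ∧
    (∀ p w, okS n p = true →
      aut n p (ev n w) = ev n (sub p.1 w) ∧ (aut n p)⁻¹ (ev n w) = ev n (sub p.2 w)) ∧
    (∀ Tl : List SA, Tl.all (okS n) = true → ∀ w,
      (∀ u, gw (fun i => aut n (Tl.getD i ([], []))) w (ev n u) = ev n (act Tl w u)) ∧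
      (triv n Tl w = true → gw (fun i => aut n (Tl.getD i ([], []))) w = 1)) ∧
    (∀ w, bd n w = true → inc n (ev n w) = ev (n + 2) w) ∧
    (∀ p, okS n p = true → okS (n + 2) p = true ∧ exA n (aut n p) = aut (n + 2) p) ∧
    (∀ W, fullR n W = true → Full (fw n W) ∧ bd n W = true) ∧
    (∀ W (l : Fin n × Bool), bd n W = true →
      del (fw n W) l = fw n (del W ((l.1 : ℕ), l.2))) ∧
    (∀ (W : RW) (ρ : ℕ × Bool → ℕ), bd n W = true →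
      ((W.zip W.tail).all fun q => Nat.blt (ρ q.2) (ρ (bar q.1))) = true →
      ∀ u v, Adj (fw n W) u v → ρ ((v.1 : ℕ), v.2) < ρ (((bar u).1 : ℕ), (bar u).2)) ∧
    ∀ (c : Ctx (Fin n)) (V : RW) (ψ : MulAut (FreeGroup (Fin n))), fullR n V = true →
      ψ (ev n V) = c.r → IsD c (V.map fun l => ψ (ev n [l]))

/-- The tables of certificates cover all triples of arcs. -/
def CovSt : Prop := ∀ (n : ℕ) (c : Ctx (Fin n)) (W : RW) (Fam : List (List RW))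
  (e2 e3 : List SA), c.r = ev n W → all2 (ok2 n W Fam) (raws 2 n) e2 = true →
  all2 (ok3 n W Fam) (raws 3 n) e3 = true → All3 c (Hit c Fam)

/-! ### The stabiliser of the new letter -/

/-- The semidirect product structure. -/
def SdSt : Prop := ∀ (n : ℕ) (A : Type) [Group A]
  (S' : Set (MulAut (FreeGroup (Fin n)) × A)) (S : Set (MulAut (FreeGroup (Fin (n + 2))) × A))
  (P : Fin n → MulAut (FreeGroup (Fin (n + 2))) × A) (t : MulAut (FreeGroup (Fin (n + 2))) × A)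
  (β : FreeGroup (Fin n) →* FreeGroup (Fin n)),
  Func (Subgroup.closure S') → Function.Injective β → (∀ x, Commute t (P x)) →
  (∀ q ∈ S', ∀ m ∈ insert t (Set.range P),
    exP n A q * m * (exP n A q)⁻¹ ∈ Subgroup.closure (insert t (Set.range P)) ∧
    (exP n A q)⁻¹ * m * exP n A q ∈ Subgroup.closure (insert t (Set.range P))) →
  (∀ p ∈ S, ∃ m ∈ Subgroup.closure (insert t (Set.range P)), ∃ q ∈ Subgroup.closure S',
    p = m * exP n A q) →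
  (∀ x, (P x).1 (io (n + 2) n) = io (n + 2) n ∧
    kil n ((P x).1 (io (n + 2) (n + 1))) = (inc n (β (of x)))⁻¹ * io (n + 2) (n + 1) ∧
    ∀ y, kil n ((P x).1 (inc n (of y))) = inc n (of y)) →
  t.1 (io (n + 2) n) = io (n + 2) n → (∀ y, t.1 (inc n (of y)) = inc n (of y)) →
  (t.1 (io (n + 2) (n + 1)) = io (n + 2) (n + 1) * io (n + 2) n ∨
    t.1 (io (n + 2) (n + 1)) = io (n + 2) (n + 1) * (io (n + 2) n)⁻¹) →
  Func (Subgroup.closure S) ∧ ∀ p ∈ Subgroup.closure S, ∃ (w : FreeGroup (Fin n)) (k : ℤ),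
    ∃ q ∈ Subgroup.closure S', p = FreeGroup.lift P w * t ^ k * exP n A q ∧
      kil n (p.1 (io (n + 2) (n + 1))) = (inc n (β w))⁻¹ * io (n + 2) (n + 1) ∧
      ∀ y, kil n (p.1 (inc n y)) = inc n (q.1 y)

/-- The stabiliser of both new letters. -/
def AbSt : Prop := ∀ (n : ℕ) (c : Ctx (Fin (n + 2))) (W : RW), bd n W = true →
  c.W = fw (n + 2) (hd n ++ W) →
  Subgroup.closure (Set.range fun x : Fin n => ev n (del W ((x : ℕ), true))) = ⊤ →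
  ∀ φ : MulAut (FreeGroup (Fin (n + 2))), φ c.r = c.r → φ (io (n + 2) n) = io (n + 2) n →
  φ (io (n + 2) (n + 1)) = io (n + 2) (n + 1) →
  ∃ ψ : MulAut (FreeGroup (Fin n)), ψ (ev n W) = ev n W ∧ φ = exA n ψ

/-- The stabiliser of the new letter and an old one. -/
def AcSt : Prop := ∀ (n : ℕ) (c : Ctx (Fin (n + 2))) (W : RW), fullR n W = true →
  c.W = fw (n + 2) (hd n ++ W) → ∀ β : FreeGroup (Fin n) →* FreeGroup (Fin n),
  Function.Injective β → (∀ x : Fin n, β (of x) = ev n (del W ((x : ℕ), true))) →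
  ∀ (j : Fin n) (φ : MulAut (FreeGroup (Fin (n + 2)))) (w : FreeGroup (Fin n)), φ c.r = c.r →
  φ (io (n + 2) n) = io (n + 2) n → φ (inc n (of j)) = inc n (of j) →
  kil n (φ (io (n + 2) (n + 1))) = (inc n (β w))⁻¹ * io (n + 2) (n + 1) → w ∈ Fr {j}

/-- From the stabiliser of `r` to the stabiliser of the conjugacy class of `r0`. -/
def FinSt : Prop := ∀ (F A : Type) [Group F] [Group A] (Γ : Subgroup (MulAut F × A)) (r0 : F)
  (ω : MulAut F) (C : Subgroup (MulAut F)), (∀ φ, φ ∈ C ↔ IsConj (φ r0) r0) →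
  (∀ w, Commute w (ω r0) → w ∈ Subgroup.zpowers (ω r0)) →
  (∀ p ∈ Γ, p.1 (ω r0) = ω r0) → Func Γ → Onto Γ (fun φ => φ (ω r0) = ω r0) →
  (MulAut.conj (ω r0), (1 : A)) ∈ Γ →
  ∃ Φ : C →* A, ∀ (φ : C) (w : F) (s : A),
    (MulAut.conj w * (ω * (φ : MulAut F) * ω⁻¹), s) ∈ Γ → Φ φ = s

end Pool.Agent.MB
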