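import Pool.Agent.Lib.MP_c86c76_al.B.All
import Pool.Agent.Lib.MP_c86c76_al.B.Rels
import Pool.Agent.Lib.MP_c86c76_al.B.Dat1
import Pool.Agent.Lib.MP_c86c76_al.B.Dat2
import Pool.Agent.Lib.MP_c86c76_al.B.GlueD

/-!
Genus two: the five twists of a chain act on integer functions on pairs of six points.
-/

set_option autoImplicit false

namespace Pool.Agent.MB

open Pool.Agent.MCG

/-- The relators of genus 2. -/
def rels2 : List RW := (rl1 ++ rl2).map dw

/-- Integer functions on pairs of six points, extended by the permutations of the points. -/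
abbrev A2 : Type :=
  (Fin 6 × Fin 6 → Multiplicative ℤ) ⋊[mulAutArrow] Equiv.Perm (Fin 6)

/-- The half twist that exchanges `a` and `b`. -/
def ht2 (a b : Fin 6) : A2 :=
  ⟨fun p => Multiplicative.ofAdd (if p.1 = p.2 then 0 else
    if p.1 = a ∨ p.1 = b then (if p.2 = a ∨ p.2 = b then 12 else -3)
    else if p.2 = a ∨ p.2 = b then -3 else 2), Equiv.swap a b⟩

/-- The twists `a1 b1 a2 c1 b2`. -/
def tau2 : ℕ → A2
  | 0 => ht2 0 1
  | 1 => ht2 1 2
  | 2 => ht2 4 5
  | 3 => ht2 2 3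
  | _ => ht2 3 4

/-- The change of basis. -/
def om2 : SA :=
  ([[(3,false),(0,true),(1,false),(0,false),(3,true),(2,true),(3,false)],
    [(3,true),(2,false),(3,false),(0,true),(1,true),(0,true),(1,false),(0,false),(3,true),(2,true),
      (3,false)],
    [(3,true),(2,false),(3,false),(0,true),(1,true),(0,false),(0,false),(3,true),(2,true),
      (3,false)],
    [(0,true),(1,false),(0,false),(3,true),(2,true),(3,false)]],
   [[(3,true),(1,true),(3,false)], [(3,true),(2,true),(1,true),(3,false)],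
    [(0,true),(1,true),(2,true),(3,true),(0,false)], [(3,true),(0,false)]])

/-- The rotation. -/
def wR2 : RW := [(0,false),(0,false),(1,false),(3,false),(4,false)]

/-- The test for the identity. -/
def one2 (w : RW) : Bool :=
  decide ((∀ x y, (gw tau2 w).left (x, y) = 1) ∧ ∀ x, (gw tau2 w).right x = x)

theorem one2_sound {w : RW} (h : one2 w = true) : gw tau2 w = 1 :=
  have h' := of_decide_eq_true h
  SemidirectProduct.ext (funext fun p => h'.1 p.1 p.2) (Equiv.ext h'.2)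

theorem two_chk : (sbR (C1.rels 0 ([] : List SA).length) rels2 = true ∧
    sbR (C2.rels 2 Tl1.length) rels2 = true) ∧ rels2.all one2 = true ∧
    one2 (pw 8 wR2) = true ∧ one2 (cmw 4 wR2 [(2, false)]) = true ∧
    (∀ x, (gw tau2 (sub [wR2, [(2, false)]] [(1, true)]) ^ 2).right x = x) ∧
    (gw tau2 (sub [wR2, [(2, false)]] [(1, true)]) ^ 2).left (4, 5) ≠ 1 := by decide +kernel

theorem rawOk_two : RawOk 2 := by unfold RawOk; decide +kernel

theorem two_hol (a : A2) (h3 : ∀ x, a.right x = x) (h4 : a.left (4, 5) ≠ 1) :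
    ∃ K : Subgroup A2, K.FiniteIndex ∧ ∃ (χ : K →* Multiplicative ℤ) (γ : K),
      χ γ ≠ 1 ∧ γ.1 = a := by
  refine ⟨SemidirectProduct.rightHom.ker, inferInstance,
    MonoidHom.mk' (fun k => k.1.left (4, 5)) fun k l => ?_, ⟨a, Equiv.ext h3⟩, h4, rfl⟩
  have e : k.1.right = 1 := k.2
  rw [Subgroup.coe_mul, SemidirectProduct.mul_left, e, map_one]
  rfl

theorem noT_two : NoT 2 := by
  obtain ⟨⟨s1, s2⟩, h0, h1, h2, h3, h4⟩ := two_chk
  obtain ⟨K, hK, χ, γ, i1, i2⟩ := two_hol _ h3 h4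
  have h : ∀ w ∈ rels2, gw tau2 w = 1 := fun w m => one2_sound (List.all_eq_true.1 h0 w m)
  obtain ⟨c, hc⟩ := (sp0A C2 2 (rW 1) Tl1 C2_c0).1
  have hL : Lv 4 (rW 2) Tl2 2 tau2 :=
    stepA C2 2 (rW 1) Tl1 A2 tau2 C2_c0 C2_c1 C2_c2 C2_c3 C2_tr C2_t2 C2_t3 (sbR_sound _ s2 h)
      (stepA C1 0 (rW 0) [] A2 tau2 C1_c0 C1_c1 C1_c2 C1_c3 C1_tr C1_t2 C1_t3 (sbR_sound _ s1 h)
        (lv0 _ _))
  exact glue (cenSt diaSt) (by norm_num) rawOk_two tau2 c (rW 2) Tl2 2
    (by rw [Ctx.r, hc]; exact (Raw_ev _ _).symm) hL om2 (pw 8 wR2) wR2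
    [(3,false),(0,true),(1,false),(0,false),(3,true),(2,true),(3,false)]
    [(2, false)] [] [(1, true)] (by decide +kernel) (one2_sound h1)
    (gw_cmw _ _ _ _ (one2_sound h2)) K χ γ i1 2 i2

end Pool.Agent.MB
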